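import Pool.Agent.Lib.MP_9e2528_lc.Arith

set_option autoImplicit false

/-! Universal predicates and the lightface analytic sets. -/

namespace Pool.Agent.Lib.MP_9e2528_lc

open Encodable Denumerable

section
variable {α β : Type} [Primcodable α] [Primcodable β]

theorem re_exists {p : α → ℕ → Prop} (hp : ComputablePred fun q : α × ℕ => p q.1 q.2) :
    REPred fun a => ∃ n, p a n := by
  classical
  have h1 : Partrec fun a => Nat.rfind fun n => (Part.some (decide (p a n)) : Part Bool) :=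
    Partrec.rfind (p := fun a n => (Part.some (decide (p a n)) : Part Bool))
      (Computable₂.partrec₂ (f := fun a n => decide (p a n)) hp.decide)
  refine h1.dom_re.of_eq fun a => ?_
  rw [Nat.rfind_dom]
  simp

/-- bounded run of the `e`-th program -/
def run (e s y : ℕ) : Option ℕ := Nat.Partrec.Code.evaln s (ofNat Nat.Partrec.Code e) y

@[fun_prop] theorem run_comp {e s y : α → ℕ} (he : Computable e) (hs : Computable s)
    (hy : Computable y) : Computable fun a => run (e a) (s a) (y a) :=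
  Nat.Partrec.Code.primrec_evaln.to_comp.comp ((hs.pair ((Computable.ofNat _).comp he)).pair hy)

theorem run_mono {e s t y v : ℕ} (h : s ≤ t) (hy : run e s y = some v) : run e t y = some v :=
  Nat.Partrec.Code.evaln_mono h hy

theorem mem_eval_iff {e y v : ℕ} :
    v ∈ (ofNat Nat.Partrec.Code e).eval y ↔ ∃ s, run e s y = some v :=
  Nat.Partrec.Code.evaln_complete

theorem re_index {p : α → Prop} (hp : REPred p) :
    ∃ e : ℕ, ∀ a, p a ↔ ∃ s, ¬ run e s (encode a) = none := by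
  obtain ⟨c, hc⟩ := Nat.Partrec.Code.exists_code.1 hp
  refine ⟨encode c, fun a => ?_⟩
  have h1 : (c.eval (encode a)).Dom ↔ p a := by
    rw [hc]
    simp [Part.assert]
  rw [← h1, Part.dom_iff_mem]
  simp only [Nat.Partrec.Code.evaln_complete, run, ofNat_encode, ← ne_eq,
    Option.ne_none_iff_exists']
  constructor
  · rintro ⟨x, k, hk⟩
    exact ⟨k, x, hk⟩
  · rintro ⟨k, x, hk⟩
    exact ⟨x, k, hk⟩

/-- universal predicate for level `n + 1` -/
def Uni : ℕ → ℕ → ℕ → Prop
  | 0, e, x => ∃ s, ¬ run e s x = none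
  | n + 1, e, x => ∃ y, ¬ Uni n e (Nat.pair x y)

theorem uni_sig : ∀ n : ℕ, Sig (n + 1) fun p : ℕ × ℕ => Uni n p.1 p.2
  | 0 => ⟨fun q => run q.1.1 q.2 q.1.2 = none, sig_zero.2 (by fun_prop), fun _ => Iff.rfl⟩
  | n + 1 => ⟨fun q => Uni n q.1.1 (Nat.pair q.1.2 q.2),
      (uni_sig n).comp (f := fun q : (ℕ × ℕ) × ℕ => (q.1.1, Nat.pair q.1.2 q.2)) (by fun_prop),
      fun _ => Iff.rfl⟩

theorem uni_univ : ∀ (n : ℕ) {α : Type} [Primcodable α] {P : α → Prop}, Sig (n + 1) P →
    ∃ e, ∀ a, P a ↔ Uni n e (encode a)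
  | 0, _, _, _, ⟨Q, hQ, H⟩ => by
    obtain ⟨e, he⟩ := re_index (re_exists (p := fun a y => ¬ Q (a, y)) (cp_not hQ))
    exact ⟨e, fun a => (H a).trans (he a)⟩
  | n + 1, _, _, _, ⟨Q, hQ, H⟩ => by
    obtain ⟨e, he⟩ := uni_univ n hQ
    refine ⟨e, fun a => (H a).trans ?_⟩
    simp only [he, Uni]
    rfl

/-- initial segment of a function -/
def seg (f : ℕ → ℕ) (k : ℕ) : List ℕ := (List.range k).map f

@[simp] theorem seg_length (f : ℕ → ℕ) (k : ℕ) : (seg f k).length = k := by simp [seg]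

theorem seg_get (f : ℕ → ℕ) {k j : ℕ} (h : j < k) : (seg f k)[j]?.getD 0 = f j := by
  simp [seg, List.getElem?_range h]

theorem seg_take (f : ℕ → ℕ) {k j : ℕ} (h : j ≤ k) : (seg f k).take j = seg f j := by
  simp [seg, ← List.map_take, List.take_range, min_eq_left h]

theorem seg_map (g f : ℕ → ℕ) (k : ℕ) : (seg f k).map g = seg (fun j => g (f j)) k := by
  simp [seg, Function.comp_def]

theorem seg_congr {f g : ℕ → ℕ} {k : ℕ} (h : ∀ j < k, f j = g j) : seg f k = seg g k :=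
  List.map_congr_left fun j hj => h j (List.mem_range.1 hj)

theorem seg_succ (f : ℕ → ℕ) (k : ℕ) : seg f (k + 1) = seg f k ++ [f k] := by
  simp [seg, List.range_succ]

/-- lightface analytic predicates -/
def A11 (P : α → Prop) : Prop :=
  ∃ R : α × List ℕ → Prop, ComputablePred R ∧ ∀ x, P x ↔ ∃ f : ℕ → ℕ, ∀ k, R (x, seg f k)

theorem A11.of_eq {P Q : α → Prop} (h : A11 P) (H : ∀ x, P x ↔ Q x) : A11 Q :=
  (funext fun a => propext (H a) : P = Q) ▸ h

theorem A11.of_comp {P : α → Prop} (h : ComputablePred P) : A11 P :=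
  ⟨fun p => P p.1, cp_comp h Computable.fst, fun x => by simp⟩

theorem A11.comp {P : β → Prop} {f : α → β} (h : A11 P) (hf : Computable f) :
    A11 fun a => P (f a) := by
  obtain ⟨R, hR, H⟩ := h
  exact ⟨fun p => R (f p.1, p.2), cp_comp hR (by fun_prop), fun x => H (f x)⟩

theorem A11.ite {C P Q : α → Prop} (hC : ComputablePred C) (hP : A11 P) (hQ : A11 Q) :
    A11 fun a => (C a ∧ P a) ∨ (¬ C a ∧ Q a) := by
  obtain ⟨R, hR, H⟩ := hP
  obtain ⟨R', hR', H'⟩ := hQ
  refine ⟨fun p => (C p.1 ∧ R p) ∨ (¬ C p.1 ∧ R' p), by fun_prop, fun x => ?_⟩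
  by_cases h : C x <;> simp [h, H, H']

theorem A11.tree {Q : α × List ℕ → Prop} (h : A11 Q) :
    ∃ R : α × List ℕ → Prop, ComputablePred R ∧ ∀ x (f : ℕ → ℕ), (∀ k, Q (x, seg f k)) ↔
      ∃ g : ℕ → ℕ, ∀ m, R (x, seg (fun j => Nat.pair (f j) (g j)) m) := by
  obtain ⟨R, hR, H⟩ := h
  refine ⟨fun p => Ball (List.range (p.2.length + 1)) fun n => Ball (List.range (p.2.length + 1))
    fun k => Imp (Ball (List.range k) fun j => Nat.pair n j < p.2.length)
      (R ((p.1, (p.2.map fun z => z.unpair.1).take n),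
        (List.range k).map fun j => (p.2[Nat.pair n j]?.getD 0).unpair.2)), by fun_prop,
    fun x f => ?_⟩
  have key : ∀ (g : ℕ → ℕ) (m n k : ℕ), n ≤ m → (∀ j < k, Nat.pair n j < m) →
      ((x, ((seg (fun j => Nat.pair (f j) (g j)) m).map fun z => z.unpair.1).take n),
        (List.range k).map fun j =>
          ((seg (fun j => Nat.pair (f j) (g j)) m)[Nat.pair n j]?.getD 0).unpair.2) =
      ((x, seg f n), seg (fun j => g (Nat.pair n j)) k) := by
    intro g m n k hn hk
    rw [seg_map, seg_take _ hn]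
    simp only [Nat.unpair_pair, Prod.mk.injEq, true_and]
    refine List.map_congr_left fun j hj => ?_
    rw [seg_get _ (hk j (List.mem_range.1 hj))]
    simp
  simp only [H, Ball, Imp, List.mem_range, seg_length, Nat.lt_succ_iff]
  constructor
  · intro h
    choose g hg using h
    refine ⟨fun z => g z.unpair.1 z.unpair.2, fun m n hn k _ hk => ?_⟩
    rw [key _ m n k hn hk]
    simpa using hg n k
  · rintro ⟨g, hg⟩ n
    refine ⟨fun j => g (Nat.pair n j), fun k => ?_⟩
    obtain ⟨Y, hY⟩ := bound_choice (k := k) (A := fun j y => y = Nat.pair n j)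
      fun j _ => ⟨_, rfl⟩
    have hk : ∀ j < k, Nat.pair n j < Y + n + k := by
      intro j hj
      obtain ⟨y, hy, rfl⟩ := hY j hj
      omega
    have := hg (Y + n + k) n (by omega) k (by omega) hk
    rwa [key _ _ n k (by omega) hk] at this

theorem A11.ex_fun {Q : α × List ℕ → Prop} (h : A11 Q) :
    A11 fun x => ∃ f : ℕ → ℕ, ∀ k, Q (x, seg f k) := by
  obtain ⟨R, hR, H⟩ := h.tree
  refine ⟨R, hR, fun x => ?_⟩
  simp only [H]
  constructor
  · rintro ⟨f, g, h⟩
    exact ⟨_, h⟩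
  · rintro ⟨F, h⟩
    exact ⟨fun j => (F j).unpair.1, fun j => (F j).unpair.2, by simpa using h⟩

theorem A11.all {Q : α → ℕ → Prop} (h : A11 fun p : α × ℕ => Q p.1 p.2) :
    A11 fun x => ∀ n, Q x n :=
  (A11.ex_fun (Q := fun p : α × List ℕ => Q p.1 p.2.length)
    (h.comp (f := fun p : α × List ℕ => (p.1, p.2.length)) (by fun_prop))).of_eq fun x => by simp

theorem A11.ex {Q : α → ℕ → Prop} (h : A11 fun p : α × ℕ => Q p.1 p.2) :
    A11 fun x => ∃ n, Q x n := by
  have h1 := A11.ite (C := fun p : α × List ℕ => p.2.length = 0) (P := fun _ => True)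
    (by fun_prop) (A11.of_comp (by fun_prop))
    (h.comp (f := fun p : α × List ℕ => (p.1, p.2[0]?.getD 0)) (by fun_prop))
  refine h1.ex_fun.of_eq fun x => ⟨?_, ?_⟩
  · rintro ⟨f, hf⟩
    have := hf 1
    simp only [seg_length, one_ne_zero, false_and, not_false_eq_true, true_and, false_or] at this
    exact ⟨_, this⟩
  · rintro ⟨n, hn⟩
    refine ⟨fun _ => n, fun k => ?_⟩
    rcases Nat.eq_zero_or_pos k with rfl | hk
    · simp
    · right
      refine ⟨by simp; omega, ?_⟩
      dsimp only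
      rwa [seg_get _ hk]

theorem A11.and {P Q : α → Prop} (hP : A11 P) (hQ : A11 Q) : A11 fun a => P a ∧ Q a := by
  refine (A11.all (Q := fun a n => (n = 0 ∧ P a) ∨ (¬ n = 0 ∧ Q a)) (A11.ite (by fun_prop)
    (hP.comp Computable.fst) (hQ.comp Computable.fst))).of_eq fun a => ⟨fun h => ?_, fun h n => ?_⟩
  · exact ⟨by simpa using h 0, by simpa using h 1⟩
  · by_cases hn : n = 0 <;> simp [hn, h.1, h.2]

theorem A11.or {P Q : α → Prop} (hP : A11 P) (hQ : A11 Q) : A11 fun a => P a ∨ Q a := by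
  refine (A11.ex (Q := fun a n => (n = 0 ∧ P a) ∨ (¬ n = 0 ∧ Q a)) (A11.ite (by fun_prop)
    (hP.comp Computable.fst) (hQ.comp Computable.fst))).of_eq fun a => ⟨?_, ?_⟩
  · rintro ⟨n, h | h⟩
    · exact Or.inl h.2
    · exact Or.inr h.2
  · rintro (h | h)
    · exact ⟨0, by simp [h]⟩
    · exact ⟨1, by simp [h]⟩

theorem sig_a11 : ∀ (n : ℕ) {α : Type} [Primcodable α] {P : α → Prop}, Sig n P →
    A11 P ∧ A11 fun a => ¬ P a
  | 0, _, _, _, h => ⟨A11.of_comp h, A11.of_comp (cp_not h)⟩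
  | n + 1, _, _, _, ⟨Q, hQ, H⟩ => by
    obtain ⟨h1, h2⟩ := sig_a11 n hQ
    exact ⟨(A11.ex (Q := fun a y => ¬ Q (a, y)) h2).of_eq fun a => (H a).symm,
      (A11.all (Q := fun a y => Q (a, y)) h1).of_eq fun a => by simp [H]⟩

theorem Sig.a11 {n : ℕ} {P : α → Prop} (h : Sig n P) : A11 P := (sig_a11 n h).1

theorem pi11_iff {S : ℕ → Prop} : Pi11 S ↔ A11 fun x => ¬ S x := by
  constructor
  · rintro ⟨R, hR, H⟩
    exact ⟨fun p => ¬ R p, cp_not hR, fun x => by simp [H, seg]⟩
  · rintro ⟨R, hR, H⟩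
    refine ⟨fun p => ¬ R p, cp_not hR, fun x => ?_⟩
    have := H x
    simp only [seg] at this
    constructor
    · intro h f
      by_contra hc
      push Not at hc
      exact this.2 ⟨f, hc⟩ h
    · intro h
      by_contra hc
      obtain ⟨f, hf⟩ := this.1 hc
      obtain ⟨k, hk⟩ := h f
      exact hk (hf k)

/-- a coanalytic set that is not analytic -/
theorem exists_pi11_not : ∃ V : ℕ → Prop, Pi11 V ∧ ¬ Pi11 fun x => ¬ V x := by
  refine ⟨fun x => ∀ f : ℕ → ℕ, ∃ k, Bex (List.range ((seg f k).length + 1)) fun j =>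
    ¬ run x (seg f k).length (encode (x, (seg f k).take j)) = none,
    ⟨fun p => Bex (List.range (p.2.length + 1)) fun j =>
      ¬ run p.1 p.2.length (encode (p.1, p.2.take j)) = none, by fun_prop, fun x => Iff.rfl⟩, ?_⟩
  rintro ⟨R, hR, H⟩
  obtain ⟨e, he⟩ := re_index hR.to_re
  have := H e
  refine (not_iff_self (a := ∀ f : ℕ → ℕ, ∃ k, R (e, (List.range k).map f))) ?_
  refine Iff.trans (not_congr ?_) this
  refine forall_congr' fun f => ?_
  simp only [he, Bex, List.mem_range, seg_length, Nat.lt_succ_iff]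
  constructor
  · rintro ⟨k, s, hs⟩
    refine ⟨k + s, k, by omega, ?_⟩
    rw [seg_take _ (by omega)]
    obtain ⟨v, hv⟩ := Option.ne_none_iff_exists'.1 hs
    rw [show seg f k = (List.range k).map f from rfl, run_mono (by omega) hv]
    simp
  · rintro ⟨k, j, hj, hs⟩
    rw [seg_take _ hj] at hs
    exact ⟨j, k, hs⟩

/-- a `Pi 2` condition is the condition that a computable event happens infinitely often -/
theorem Sig.fire {P : α → Prop} (h : Sig 3 P) :
    ∃ F : α × ℕ × ℕ → Prop, ComputablePred F ∧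
      ∀ a, P a ↔ ∃ w, ∀ t, ∃ t', t ≤ t' ∧ F (a, w, t') := by
  classical
  obtain ⟨Q2, ⟨Q1, ⟨Q0, hQ, H0⟩, H1⟩, H2⟩ := h
  have hQ' : ComputablePred Q0 := hQ
  let B : α → ℕ → ℕ → ℕ → Prop := fun a w y z =>
    Ball (List.range y) fun y' => Bex (List.range z) fun u => ¬ Q0 (((a, w), y'), u)
  refine ⟨fun p => B p.1 p.2.1 p.2.2.unpair.1 p.2.2.unpair.2 ∧
    Ball (List.range p.2.2.unpair.2) fun z' => ¬ B p.1 p.2.1 p.2.2.unpair.1 z', by
      simp only [B]; fun_prop, fun a => ?_⟩
  rw [H2]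
  refine exists_congr fun w => ?_
  simp only [H1, H0, not_exists, not_not]
  constructor
  · intro h t
    have hex : ∃ z, B a w t z := by
      obtain ⟨Y, hY⟩ := bound_choice (k := t) (A := fun y' u => ¬ Q0 (((a, w), y'), u))
        fun j _ => not_forall.1 (h j)
      exact ⟨Y, by simpa [B, Ball, Bex] using hY⟩
    refine ⟨Nat.pair t (Nat.find hex), Nat.left_le_pair _ _, ?_, ?_⟩
    · simpa using Nat.find_spec hex
    · intro z' hz'
      simp only [Nat.unpair_pair, List.mem_range] at hz' ⊢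
      exact Nat.find_min hex hz'
  · intro h y
    by_contra hc
    have hfin : ∀ j < y + 1, ∃ t, ∀ z, (B a w j z ∧ ∀ z' < z, ¬ B a w j z') → Nat.pair j z = t := by
      intro j _
      by_cases hex : ∃ z, B a w j z ∧ ∀ z' < z, ¬ B a w j z'
      · obtain ⟨z, hz⟩ := hex
        refine ⟨Nat.pair j z, fun z' hz' => ?_⟩
        rcases lt_trichotomy z z' with h | h | h
        · exact absurd hz.1 (hz'.2 z h)
        · rw [h]
        · exact absurd hz'.1 (hz.2 z' h)
      · exact ⟨0, fun z hz => absurd ⟨z, hz⟩ hex⟩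
    obtain ⟨Y, hY⟩ := bound_choice hfin
    obtain ⟨t', ht', h1, h2⟩ := h Y
    by_cases hy : t'.unpair.1 < y + 1
    · obtain ⟨t, ht, hh⟩ := hY _ hy
      have := hh t'.unpair.2 ⟨h1, fun z' hz' => h2 z' (List.mem_range.2 hz')⟩
      rw [Nat.pair_unpair] at this
      omega
    · obtain ⟨u, -, hu⟩ := h1 y (List.mem_range.2 (by omega))
      exact hu (hc u)

end

end Pool.Agent.Lib.MP_9e2528_lc
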