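import Pool.Agent.Lib.MP_9e2528_lc.Comp

set_option autoImplicit false

/-! Closure properties of the arithmetical hierarchy. -/

namespace Pool.Agent.Lib.MP_9e2528_lc

open Encodable Denumerable

theorem sig_zero {α : Type} [Primcodable α] {P : α → Prop} : Sig 0 P ↔ ComputablePred P := Iff.rfl

theorem sig_succ {n : ℕ} {α : Type} [Primcodable α] {P : α → Prop} :
    Sig (n + 1) P ↔ ∃ Q : α × ℕ → Prop, Sig n Q ∧ ∀ x, P x ↔ ∃ y, ¬ Q (x, y) := Iff.rfl

theorem Sig.of_eq {n : ℕ} {α : Type} [Primcodable α] {P Q : α → Prop} (h : Sig n P)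
    (H : ∀ x, P x ↔ Q x) : Sig n Q :=
  (funext fun a => propext (H a) : P = Q) ▸ h

theorem Sig.comp : ∀ {n : ℕ} {α β : Type} [Primcodable α] [Primcodable β] {P : β → Prop}
    {f : α → β}, Sig n P → Computable f → Sig n fun a => P (f a)
  | 0, _, _, _, _, _, _, h, hf => cp_comp h hf
  | n + 1, α, _, _, _, _, f, ⟨Q, hQ, H⟩, hf =>
    ⟨fun p : α × ℕ => Q (f p.1, p.2), Sig.comp hQ (by fun_prop), fun x => H (f x)⟩

theorem Sig.not_succ {n : ℕ} {α : Type} [Primcodable α] {P : α → Prop} (h : Sig n P) :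
    Sig (n + 1) fun a => ¬ P a :=
  ⟨fun p : α × ℕ => P p.1, h.comp Computable.fst, fun x => by simp⟩

theorem Sig.succ : ∀ {n : ℕ} {α : Type} [Primcodable α] {P : α → Prop}, Sig n P → Sig (n + 1) P
  | 0, α, _, P, h => ⟨fun p : α × ℕ => ¬ P p.1, cp_not (cp_comp h Computable.fst), fun x => by simp⟩
  | _ + 1, _, _, _, ⟨Q, hQ, H⟩ => ⟨Q, Sig.succ hQ, H⟩

theorem Sig.mono {n m : ℕ} {α : Type} [Primcodable α] {P : α → Prop} (h : Sig n P) (hm : n ≤ m) :
    Sig m P := by
  induction hm with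
  | refl => exact h
  | step _ ih => exact ih.succ

theorem Sig.of_comp {n : ℕ} {α : Type} [Primcodable α] {P : α → Prop} (h : ComputablePred P) :
    Sig n P := (sig_zero.2 h).mono (Nat.zero_le n)

theorem sig_and_or : ∀ (n : ℕ) {α : Type} [Primcodable α] {P Q : α → Prop}, Sig n P → Sig n Q →
    (Sig n fun a => P a ∧ Q a) ∧ (Sig n fun a => P a ∨ Q a)
  | 0, _, _, _, _, h1, h2 => ⟨cp_and h1 h2, cp_or h1 h2⟩
  | n + 1, α, _, P, Q, ⟨A, hA, H1⟩, ⟨B, hB, H2⟩ => by
    have hA' : Sig n fun p : α × ℕ => A (p.1, p.2.unpair.1) := hA.comp (by fun_prop)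
    have hB' : Sig n fun p : α × ℕ => B (p.1, p.2.unpair.2) := hB.comp (by fun_prop)
    refine ⟨⟨_, (sig_and_or n hA' hB').2, fun x => ?_⟩, ⟨_, (sig_and_or n hA hB).1, fun x => ?_⟩⟩
    · simp only [H1, H2]
      constructor
      · rintro ⟨⟨y, hy⟩, ⟨z, hz⟩⟩
        exact ⟨Nat.pair y z, by simp [hy, hz]⟩
      · rintro ⟨y, hy⟩
        push Not at hy
        exact ⟨⟨_, hy.1⟩, ⟨_, hy.2⟩⟩
    · simp only [H1, H2]
      constructor
      · rintro (⟨y, hy⟩ | ⟨y, hy⟩)
        · exact ⟨y, fun h => hy h.1⟩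
        · exact ⟨y, fun h => hy h.2⟩
      · rintro ⟨y, hy⟩
        by_cases h : A (x, y)
        · exact Or.inr ⟨y, fun h' => hy ⟨h, h'⟩⟩
        · exact Or.inl ⟨y, h⟩

theorem Sig.and {n : ℕ} {α : Type} [Primcodable α] {P Q : α → Prop} (h1 : Sig n P) (h2 : Sig n Q) :
    Sig n fun a => P a ∧ Q a := (sig_and_or n h1 h2).1

theorem Sig.or {n : ℕ} {α : Type} [Primcodable α] {P Q : α → Prop} (h1 : Sig n P) (h2 : Sig n Q) :
    Sig n fun a => P a ∨ Q a := (sig_and_or n h1 h2).2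

theorem Sig.ex {n : ℕ} {α β : Type} [Primcodable α] [Primcodable β] [Inhabited β]
    {R : α → β → Prop} (h : Sig (n + 1) fun p : α × β => R p.1 p.2) :
    Sig (n + 1) fun a => ∃ b, R a b := by
  obtain ⟨Q, hQ, H⟩ := h
  refine ⟨fun p : α × ℕ => Q ((p.1, (decode p.2.unpair.1).getD default), p.2.unpair.2),
    hQ.comp (by fun_prop), fun x => ?_⟩
  constructor
  · rintro ⟨b, hb⟩
    obtain ⟨y, hy⟩ := (H (x, b)).1 hb
    exact ⟨Nat.pair (encode b) y, by simpa using hy⟩
  · rintro ⟨y, hy⟩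
    exact ⟨_, (H (x, _)).2 ⟨_, hy⟩⟩

theorem bound_choice {k : ℕ} {A : ℕ → ℕ → Prop} (h : ∀ j < k, ∃ y, A j y) :
    ∃ Y, ∀ j < k, ∃ y < Y, A j y := by
  induction k with
  | zero => exact ⟨0, by simp⟩
  | succ k ih =>
    obtain ⟨Y, hY⟩ := ih fun j hj => h j (by omega)
    obtain ⟨y, hy⟩ := h k (by omega)
    refine ⟨max Y (y + 1), fun j hj => ?_⟩
    rcases Nat.lt_succ_iff_lt_or_eq.1 hj with h1 | rfl
    · obtain ⟨z, hz, hz'⟩ := hY j h1
      exact ⟨z, by omega, hz'⟩
    · exact ⟨y, by omega, hy⟩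

theorem sig_bounded : ∀ (n : ℕ) {α : Type} [Primcodable α] {R : α → ℕ → Prop} {k : α → ℕ},
    Computable k → (Sig n fun p : α × ℕ => R p.1 p.2) →
    (Sig n fun a => ∀ j < k a, R a j) ∧ (Sig n fun a => ∃ j < k a, R a j)
  | 0, _, _, _, _, hk, h => ⟨cp_forall_lt hk h, cp_exists_lt hk h⟩
  | n + 1, α, _, R, k, hk, h => by
    refine ⟨?_, Sig.ex (R := fun a j => j < k a ∧ R a j)
      (Sig.and (Sig.of_comp (by fun_prop)) h)⟩
    obtain ⟨Q, hQ, H⟩ := h
    have h1 : Sig n fun p : (α × ℕ) × ℕ => ∀ y < p.1.2, Q ((p.1.1, p.2), y) :=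
      (sig_bounded n (R := fun (p : (α × ℕ) × ℕ) y => Q ((p.1.1, p.2), y)) (k := fun p => p.1.2)
        (by fun_prop) (hQ.comp (by fun_prop))).1
    have h2 : Sig n fun p : α × ℕ => ∃ j < k p.1, ∀ y < p.2, Q ((p.1, j), y) :=
      (sig_bounded n (R := fun (p : α × ℕ) j => ∀ y < p.2, Q ((p.1, j), y)) (k := fun p => k p.1)
        (by fun_prop) h1).2
    refine ⟨_, h2, fun x => ?_⟩
    have H' : ∀ j, R x j ↔ ∃ y, ¬ Q ((x, j), y) := fun j => H (x, j)
    simp only [H']
    constructor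
    · intro h
      obtain ⟨Y, hY⟩ := bound_choice h
      refine ⟨Y, ?_⟩
      rintro ⟨j, hj, hj'⟩
      obtain ⟨y, hy, hy'⟩ := hY j hj
      exact hy' (hj' y hy)
    · rintro ⟨Y, hY⟩ j hj
      by_contra hc
      push Not at hc
      exact hY ⟨j, hj, fun y _ => hc y⟩

theorem Sig.ball_lt {n : ℕ} {α : Type} [Primcodable α] {R : α → ℕ → Prop} {k : α → ℕ}
    (hk : Computable k) (h : Sig n fun p : α × ℕ => R p.1 p.2) :
    Sig n fun a => ∀ j < k a, R a j := (sig_bounded n hk h).1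

theorem Sig.bex_lt {n : ℕ} {α : Type} [Primcodable α] {R : α → ℕ → Prop} {k : α → ℕ}
    (hk : Computable k) (h : Sig n fun p : α × ℕ => R p.1 p.2) :
    Sig n fun a => ∃ j < k a, R a j := (sig_bounded n hk h).2

/-- bounded universal quantifier over codes -/
def BAll {β : Type} [Primcodable β] (k : ℕ) (p : β → Prop) : Prop := ∀ b, encode b < k → p b
/-- bounded existential quantifier over codes -/
def BEx {β : Type} [Primcodable β] (k : ℕ) (p : β → Prop) : Prop := ∃ b, encode b < k ∧ p b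
/-- universal quantifier as a function -/
def All {β : Type} (p : β → Prop) : Prop := ∀ b, p b

section
variable {n : ℕ} {α β : Type} [Primcodable α] [Primcodable β]

theorem Sig.ball [Inhabited β] {R : α → β → Prop} {k : α → ℕ} (hk : Computable k)
    (h : Sig n fun p : α × β => R p.1 p.2) : Sig n fun a => BAll (k a) (R a) := by
  have h1 := Sig.ball_lt (n := n) (k := k)
    (R := fun a j => ¬ encode ((decode j : Option β).getD default) = j ∨
      R a ((decode j).getD default)) hk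
    (Sig.or (Sig.of_comp (by fun_prop)) (h.comp (f := fun p : α × ℕ =>
      (p.1, (decode p.2 : Option β).getD default)) (by fun_prop)))
  refine h1.of_eq fun a => ⟨fun H b hb => ?_, fun H j hj => ?_⟩
  · simpa using H _ hb
  · by_cases hh : encode ((decode j : Option β).getD default) = j
    · exact Or.inr (H _ (by rwa [hh]))
    · exact Or.inl hh

theorem Sig.bex [Inhabited β] {R : α → β → Prop} {k : α → ℕ} (hk : Computable k)
    (h : Sig n fun p : α × β => R p.1 p.2) : Sig n fun a => BEx (k a) (R a) := by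
  have h1 := Sig.bex_lt (n := n) (k := k)
    (R := fun a j => encode ((decode j : Option β).getD default) = j ∧
      R a ((decode j).getD default)) hk
    (Sig.and (Sig.of_comp (by fun_prop)) (h.comp (f := fun p : α × ℕ =>
      (p.1, (decode p.2 : Option β).getD default)) (by fun_prop)))
  refine h1.of_eq fun a => ⟨?_, ?_⟩
  · rintro ⟨j, hj, h1, h2⟩
    exact ⟨_, by rwa [h1], h2⟩
  · rintro ⟨b, hb, h2⟩
    exact ⟨encode b, hb, by simp, by simpa using h2⟩

theorem Sig.ball_mem [Inhabited β] {R : α → β → Prop} {l : α → List β} (hl : Computable l)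
    (h : Sig n fun p : α × β => R p.1 p.2) : Sig n fun a => Ball (l a) (R a) := by
  have h1 := Sig.ball_lt (n := n) (k := fun a => (l a).length)
    (R := fun a j => R a (((l a)[j]?).getD default)) (by fun_prop)
    (h.comp (f := fun p : α × ℕ => (p.1, ((l p.1)[p.2]?).getD default)) (by fun_prop))
  refine h1.of_eq fun a => ⟨fun H b hb => ?_, fun H j hj => ?_⟩
  · obtain ⟨j, hj, rfl⟩ := List.getElem_of_mem hb
    simpa [hj] using H j hj
  · simpa [hj] using H _ (List.getElem_mem hj)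

theorem Sig.bex_mem [Inhabited β] {R : α → β → Prop} {l : α → List β} (hl : Computable l)
    (h : Sig n fun p : α × β => R p.1 p.2) : Sig n fun a => Bex (l a) (R a) := by
  have h1 := Sig.bex_lt (n := n) (k := fun a => (l a).length)
    (R := fun a j => R a (((l a)[j]?).getD default)) (by fun_prop)
    (h.comp (f := fun p : α × ℕ => (p.1, ((l p.1)[p.2]?).getD default)) (by fun_prop))
  refine h1.of_eq fun a => ⟨?_, ?_⟩
  · rintro ⟨j, hj, H⟩
    exact ⟨(l a)[j], List.getElem_mem hj, by simpa [hj] using H⟩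
  · rintro ⟨b, hb, H⟩
    obtain ⟨j, hj, rfl⟩ := List.getElem_of_mem hb
    exact ⟨j, hj, by simpa [hj] using H⟩

theorem Del.of_eq {P Q : α → Prop} (h : Del n P) (H : ∀ x, P x ↔ Q x) : Del n Q :=
  (funext fun a => propext (H a) : P = Q) ▸ h

theorem Del.sig {P : α → Prop} (h : Del n P) : Sig n P := h.1

theorem Del.of_comp {P : α → Prop} (h : ComputablePred P) : Del n P :=
  ⟨Sig.of_comp h, Sig.of_comp (cp_not h)⟩

theorem Sig.del {P : α → Prop} (h : Sig n P) : Del (n + 1) P := ⟨h.succ, h.not_succ⟩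

theorem Del.succ {P : α → Prop} (h : Del n P) : Del (n + 1) P := h.1.del

theorem Del.mono {m : ℕ} {P : α → Prop} (h : Del n P) (hm : n ≤ m) : Del m P :=
  ⟨h.1.mono hm, h.2.mono hm⟩

theorem Del.comp {P : β → Prop} {f : α → β} (h : Del n P) (hf : Computable f) :
    Del n fun a => P (f a) := ⟨h.1.comp hf, h.2.comp hf⟩

theorem Del.not {P : α → Prop} (h : Del n P) : Del n fun a => ¬ P a :=
  ⟨h.2, h.1.of_eq fun a => by simp⟩

theorem Del.and {P Q : α → Prop} (h1 : Del n P) (h2 : Del n Q) : Del n fun a => P a ∧ Q a :=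
  ⟨h1.1.and h2.1, (h1.2.or h2.2).of_eq fun a => by tauto⟩

theorem Del.or {P Q : α → Prop} (h1 : Del n P) (h2 : Del n Q) : Del n fun a => P a ∨ Q a :=
  ⟨h1.1.or h2.1, (h1.2.and h2.2).of_eq fun a => by tauto⟩

theorem Del.imp {P Q : α → Prop} (h1 : Del n P) (h2 : Del n Q) : Del n fun a => Imp (P a) (Q a) :=
  (h1.not.or h2).of_eq fun a => by unfold Imp; tauto

theorem Del.iff {P Q : α → Prop} (h1 : Del n P) (h2 : Del n Q) : Del n fun a => P a ↔ Q a :=
  ((h1.and h2).or (h1.not.and h2.not)).of_eq fun a => by tauto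

theorem Del.ball [Inhabited β] {R : α → β → Prop} {k : α → ℕ} (hk : Computable k)
    (h : Del n fun p : α × β => R p.1 p.2) : Del n fun a => BAll (k a) (R a) :=
  ⟨h.1.ball hk, (Sig.bex (R := fun a b => ¬ R a b) hk h.2).of_eq fun a => by simp [BAll, BEx]⟩

theorem Del.bex [Inhabited β] {R : α → β → Prop} {k : α → ℕ} (hk : Computable k)
    (h : Del n fun p : α × β => R p.1 p.2) : Del n fun a => BEx (k a) (R a) :=
  ⟨h.1.bex hk, (Sig.ball (R := fun a b => ¬ R a b) hk h.2).of_eq fun a => by simp [BAll, BEx]⟩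

theorem Del.ball_mem [Inhabited β] {R : α → β → Prop} {l : α → List β} (hl : Computable l)
    (h : Del n fun p : α × β => R p.1 p.2) : Del n fun a => Ball (l a) (R a) :=
  ⟨h.1.ball_mem hl,
    (Sig.bex_mem (R := fun a b => ¬ R a b) hl h.2).of_eq fun a => by simp [Ball, Bex]⟩

theorem Del.bex_mem [Inhabited β] {R : α → β → Prop} {l : α → List β} (hl : Computable l)
    (h : Del n fun p : α × β => R p.1 p.2) : Del n fun a => Bex (l a) (R a) :=
  ⟨h.1.bex_mem hl,
    (Sig.ball_mem (R := fun a b => ¬ R a b) hl h.2).of_eq fun a => by simp [Ball, Bex]⟩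

/-- an unbounded quantifier over a `Delta` matrix is `Delta` one level up -/
theorem Del.ex [Inhabited β] {R : α → β → Prop} (h : Del (n + 1) fun p : α × β => R p.1 p.2) :
    Del (n + 2) fun a => Exists (R a) := (Sig.ex h.1).del

theorem Del.all [Inhabited β] {R : α → β → Prop} (h : Del (n + 1) fun p : α × β => R p.1 p.2) :
    Del (n + 2) fun a => All (R a) :=
  (Sig.ex (R := fun a b => ¬ R a b) h.2).del.not.of_eq fun a => by simp [All]

theorem Sig.imp {P Q : α → Prop} (h1 : Del n P) (h2 : Sig n Q) : Sig n fun a => Imp (P a) (Q a) :=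
  (h1.2.or h2).of_eq fun a => by unfold Imp; tauto

/-- uniformisation -/
theorem Sig.unif [Inhabited β] {R : α × β → Prop} (h : Sig (n + 1) R) :
    ∃ R' : α × β → Prop, Sig (n + 1) R' ∧ (∀ p, R' p → R p) ∧
      (∀ a b b', R' (a, b) → R' (a, b') → b = b') ∧ ∀ a b, R (a, b) → ∃ b', R' (a, b') := by
  classical
  obtain ⟨Q, hQ, H⟩ := h
  let W : α → ℕ → Prop := fun a z => ¬ Q ((a, (decode z.unpair.1).getD default), z.unpair.2)
  have hW : Del (n + 1) fun p : α × ℕ => W p.1 p.2 :=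
    (hQ.comp (f := fun p : α × ℕ => ((p.1, (decode p.2.unpair.1 : Option β).getD default),
      p.2.unpair.2)) (by fun_prop)).del.not
  refine ⟨fun p => ∃ z, (decode z.unpair.1).getD default = p.2 ∧ W p.1 z ∧ ∀ z' < z, ¬ W p.1 z',
    Sig.ex (Sig.and (Sig.of_comp (by fun_prop)) (Sig.and
      (hW.1.comp (f := fun p : (α × β) × ℕ => (p.1.1, p.2)) (by fun_prop))
      (Sig.ball_lt (k := fun p : (α × β) × ℕ => p.2) (R := fun p z' => ¬ W p.1.1 z') (by fun_prop)
        (hW.2.comp (f := fun p : ((α × β) × ℕ) × ℕ => (p.1.1.1, p.2)) (by fun_prop))))),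
    ?_, ?_, ?_⟩
  · rintro ⟨a, b⟩ ⟨z, h1, h2, -⟩
    dsimp only at h1 h2
    subst h1
    exact (H _).2 ⟨_, h2⟩
  · rintro a b b' ⟨z, h1, h2, h3⟩ ⟨z', h1', h2', h3'⟩
    dsimp only at *
    have : z = z' := by
      rcases lt_trichotomy z z' with h | h | h
      · exact absurd h2 (h3' z h)
      · exact h
      · exact absurd h2' (h3 z' h)
    rw [← h1, ← h1', this]
  · intro a b hab
    obtain ⟨y, hy⟩ := (H _).1 hab
    have hex : ∃ z, W a z := ⟨Nat.pair (encode b) y, by simpa [W] using hy⟩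
    exact ⟨_, Nat.find hex, rfl, Nat.find_spec hex, fun z' hz' => Nat.find_min hex hz'⟩

/-- the graph of a sequence defined by iterating a functional relation -/
theorem Sig.iter [Inhabited β] {R : α × ℕ × β × β → Prop} (h : Sig (n + 1) R) {P : α → ℕ → β}
    (h0 : Computable fun a => P a 0) (hs : ∀ a j b, R (a, j, P a j, b) ↔ b = P a (j + 1)) :
    Sig (n + 1) fun p : α × ℕ × β => P p.1 p.2.1 = p.2.2 := by
  have h1 : Sig (n + 1) fun p : α × ℕ × β => ∃ l : List β, (l[0]?.getD default = P p.1 0 ∧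
      l[p.2.1]?.getD default = p.2.2) ∧
      ∀ j < p.2.1, R (p.1, j, l[j]?.getD default, l[j + 1]?.getD default) :=
    Sig.ex (Sig.and (Sig.of_comp (by fun_prop))
      (Sig.ball_lt (k := fun p : (α × ℕ × β) × List β => p.1.2.1)
        (R := fun p j => R (p.1.1, j, p.2[j]?.getD default, p.2[j + 1]?.getD default))
        (by fun_prop) (h.comp (by fun_prop))))
  refine h1.of_eq ?_
  rintro ⟨a, k, b⟩
  dsimp only
  constructor
  · rintro ⟨l, ⟨h1, h2⟩, h3⟩
    have : ∀ j ≤ k, l[j]?.getD default = P a j := by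
      intro j
      induction j with
      | zero => exact fun _ => h1
      | succ j ih =>
        intro hj
        have := h3 j (by omega)
        rw [ih (by omega)] at this
        exact (hs _ _ _).1 this
    rw [← h2, this k le_rfl]
  · rintro rfl
    have : ∀ j ≤ k, ((List.range (k + 1)).map (P a))[j]?.getD default = P a j := by
      intro j hj
      simp [List.getElem?_range (Nat.lt_succ_of_le hj)]
    refine ⟨(List.range (k + 1)).map (P a), ⟨this 0 (by omega), this k le_rfl⟩, fun j hj => ?_⟩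
    rw [this j hj.le, this (j + 1) hj]
    exact (hs _ _ _).2 rfl

/-- dependent choice -/
theorem dep_choice {β : Type} {R : ℕ → β → β → Prop} {Inv : β → Prop} {b0 : β} (h0 : Inv b0)
    (hs : ∀ j b, Inv b → ∃ b', R j b b' ∧ Inv b') :
    ∃ P : ℕ → β, P 0 = b0 ∧ ∀ j, Inv (P j) ∧ R j (P j) (P (j + 1)) := by
  choose! nx h1 h2 using hs
  let P : ℕ → β := fun j => Nat.rec b0 (fun j b => nx j b) j
  have hI : ∀ j, Inv (P j) := by
    intro j
    induction j with
    | zero => exact h0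
    | succ j ih => exact h2 j _ ih
  exact ⟨P, rfl, fun j => ⟨hI j, h1 j _ (hI j)⟩⟩

/-- dependent choice inside the hierarchy -/
theorem Sig.dep_choice [Inhabited β] {R : ℕ × β × β → Prop} (h : Sig (n + 1) R) {Inv : β → Prop}
    {b0 : β} (h0 : Inv b0) (hs : ∀ j b, Inv b → ∃ b', R (j, b, b'))
    (hi : ∀ j b b', Inv b → R (j, b, b') → Inv b') :
    ∃ P : ℕ → β, P 0 = b0 ∧ (∀ j, Inv (P j) ∧ R (j, P j, P (j + 1))) ∧
      Sig (n + 1) fun p : ℕ × β => P p.1 = p.2 := by
  obtain ⟨R', hR', h1, h2, h3⟩ := Sig.unif (R := fun p : (ℕ × β) × β => R (p.1.1, p.1.2, p.2))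
    (h.comp (by fun_prop))
  obtain ⟨P, hP0, hP⟩ := MP_9e2528_lc.dep_choice (R := fun j b b' => R' ((j, b), b')) h0
    (fun j b hb => by
      obtain ⟨b', hb'⟩ := hs j b hb
      obtain ⟨b'', hb''⟩ := h3 (j, b) b' hb'
      exact ⟨b'', hb'', hi j b b'' hb (h1 _ hb'')⟩)
  refine ⟨P, hP0, fun j => ⟨(hP j).1, h1 _ (hP j).2⟩, ?_⟩
  have := Sig.iter (α := Unit) (P := fun _ => P)
    (R := fun p : Unit × ℕ × β × β => R' ((p.2.1, p.2.2.1), p.2.2.2)) (hR'.comp (by fun_prop))
    (by fun_prop) (fun _ j b => ⟨fun hb => h2 _ _ _ hb (hP j).2, fun hb => hb ▸ (hP j).2⟩)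
  exact this.comp (f := fun p : ℕ × β => ((), p.1, p.2)) (by fun_prop)

/-- the graph of a total function -/
theorem Sig.graph_del [Inhabited β] {f : α → β}
    (h : Sig (n + 1) fun p : α × β => f p.1 = p.2) : Del (n + 1) fun p : α × β => f p.1 = p.2 := by
  refine ⟨h, (Sig.ex (R := fun (p : α × β) b => f p.1 = b ∧ ¬ b = p.2) (Sig.and
    (h.comp (f := fun q : (α × β) × β => (q.1.1, q.2)) (by fun_prop))
    (Sig.of_comp (by fun_prop)))).of_eq fun p => by simp⟩

end

end Pool.Agent.Lib.MP_9e2528_lc
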