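import Pool.Agent.Lib.MP_9e2528_lc.Lex

set_option autoImplicit false

/-! `fun_prop` support for the arithmetical hierarchy; order notions read off a program; indices. -/

namespace Pool.Agent.Lib.MP_9e2528_lc

open Encodable Denumerable

def Unb (φ : ℕ → Prop) : Prop := ∀ t, ∃ t', t ≤ t' ∧ φ t'

theorem bdd_of_not_unb {φ : ℕ → Prop} (h : ¬ Unb φ) : BddAbove {t | φ t} := by
  unfold Unb at h
  push Not at h
  obtain ⟨t, ht⟩ := h
  exact ⟨t, fun u hu => by
    by_contra hc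
    exact ht u (by omega) hu⟩

attribute [fun_prop] Sig Del

section
variable {n : ℕ} {α β : Type} [Primcodable α] [Primcodable β]

attribute [fun_prop] Sig.comp Del.comp Sig.and Sig.or Sig.imp Sig.ball Sig.bex Sig.ball_mem
  Sig.bex_mem Del.and Del.or Del.not Del.imp Del.iff Del.ball Del.bex Del.ball_mem Del.bex_mem
  Del.all Del.sig

@[fun_prop] theorem Sig.const (p : Prop) : Sig n fun _ : α => p := Sig.of_comp (by fun_prop)
@[fun_prop] theorem Del.const (p : Prop) : Del n fun _ : α => p := Del.of_comp (by fun_prop)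
@[fun_prop] theorem Sig.ex' [Inhabited β] {R : α → β → Prop}
    (h : Sig (n + 1) fun p : α × β => R p.1 p.2) : Sig (n + 1) fun a => Exists (R a) := Sig.ex h
@[fun_prop] theorem Del.ex' [Inhabited β] {R : α → β → Prop}
    (h : Sig (n + 1) fun p : α × β => R p.1 p.2) : Del (n + 2) fun a => Exists (R a) :=
  (Sig.ex h).del
@[fun_prop] theorem Sig.not' {P : α → Prop} (h : Del n P) : Sig n fun a => ¬ P a := h.2
@[fun_prop] theorem Del.eq {f g : α → β} (hf : Computable f) (hg : Computable g) :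
    Del n fun a => f a = g a := Del.of_comp (by fun_prop)
@[fun_prop] theorem Del.lt {f g : α → ℕ} (hf : Computable f) (hg : Computable g) :
    Del n fun a => f a < g a := Del.of_comp (by fun_prop)
@[fun_prop] theorem Del.le {f g : α → ℕ} (hf : Computable f) (hg : Computable g) :
    Del n fun a => f a ≤ g a := Del.of_comp (by fun_prop)
@[fun_prop] theorem Del.mem {f : α → β} {l : α → List β} (hl : Computable l) (hf : Computable f) :
    Del n fun a => f a ∈ l a := Del.of_comp (by fun_prop)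

end

def leI (e a b : ℕ) : Prop := ∃ s, run e s (Nat.pair a b) = some 1
def ltI (e a b : ℕ) : Prop := leI e a b ∧ ¬ a = b
def Adj (e a b : ℕ) : Prop := ltI e a b ∧ ¬ ∃ c, ltI e a c ∧ ltI e c b
def Chain (e a m b : ℕ) : Prop := ∃ l : List ℕ, (l[0]?.getD 0 = a ∧ l[m]?.getD 0 = b) ∧
  Ball (List.range m) fun j => Adj e (l[j]?.getD 0) (l[j + 1]?.getD 0)
def Start (e a m : ℕ) : Prop :=
  leI e a a ∧ ¬ (∃ z, Adj e z a) ∧ (∃ b, Chain e a m b) ∧ ¬ ∃ b, Chain e a (m + 1) b
def IsIt (e a : ℕ) : Prop := ¬ (∃ z, Adj e z a) ∧ ∃ z, Adj e a z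

section
variable {n : ℕ} {α : Type} [Primcodable α] {e a b m : α → ℕ}

@[fun_prop] theorem leI_sig (he : Computable e) (ha : Computable a) (hb : Computable b) :
    Sig (n + 1) fun x => leI (e x) (a x) (b x) := by unfold leI; fun_prop

@[fun_prop] theorem leI_del (he : Computable e) (ha : Computable a) (hb : Computable b) :
    Del (n + 2) fun x => leI (e x) (a x) (b x) := (leI_sig he ha hb).del

@[fun_prop] theorem ltI_sig (he : Computable e) (ha : Computable a) (hb : Computable b) :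
    Sig (n + 1) fun x => ltI (e x) (a x) (b x) := by unfold ltI; fun_prop

@[fun_prop] theorem ltI_del (he : Computable e) (ha : Computable a) (hb : Computable b) :
    Del (n + 2) fun x => ltI (e x) (a x) (b x) := (ltI_sig he ha hb).del

@[fun_prop] theorem adj_del (he : Computable e) (ha : Computable a) (hb : Computable b) :
    Del (n + 2) fun x => Adj (e x) (a x) (b x) := by unfold Adj; fun_prop

@[fun_prop] theorem chain_sig (he : Computable e) (ha : Computable a) (hm : Computable m)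
    (hb : Computable b) : Sig (n + 2) fun x => Chain (e x) (a x) (m x) (b x) := by
  unfold Chain; fun_prop

@[fun_prop] theorem chain_del (he : Computable e) (ha : Computable a) (hm : Computable m)
    (hb : Computable b) : Del (n + 3) fun x => Chain (e x) (a x) (m x) (b x) :=
  (chain_sig he ha hm hb).del

@[fun_prop] theorem start_del (he : Computable e) (ha : Computable a) (hm : Computable m) :
    Del (n + 3) fun x => Start (e x) (a x) (m x) := by unfold Start; fun_prop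

@[fun_prop] theorem isIt_del (he : Computable e) (ha : Computable a) :
    Del (n + 3) fun x => IsIt (e x) (a x) := by unfold IsIt; fun_prop

end

theorem chain_adj {e a m b : ℕ} (h : Chain e a (m + 1) b) : ∃ z, Adj e a z := by
  obtain ⟨l, ⟨h1, -⟩, h3⟩ := h
  have h4 : Adj e (l[0]?.getD 0) (l[0 + 1]?.getD 0) := h3 0 (by simp)
  exact ⟨_, h1 ▸ h4⟩

theorem BEx.mono {β : Type} [Primcodable β] {p : β → Prop} {s t : ℕ} (h : BEx s p) (hs : s ≤ t) :
    BEx t p := by
  obtain ⟨b, h1, h2⟩ := h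
  exact ⟨b, by omega, h2⟩

@[fun_prop] theorem Sig.iff' {n : ℕ} {α : Type} [Primcodable α] {P Q : α → Prop} (h1 : Del n P)
    (h2 : Del n Q) : Sig n fun a => P a ↔ Q a := (h1.iff h2).1

def IsoI (e e' : ℕ) (f : ℕ → ℕ) : Prop :=
  Set.BijOn f {a | leI e a a} {b | leI e' b b} ∧
    ∀ a, leI e a a → ∀ b, leI e b b → (ltI e a b ↔ ltI e' (f a) (f b))

theorem exists_code_of_pred {P : ℕ → Prop} (h : ComputablePred P) : ∃ c : Nat.Partrec.Code,
    ∀ n, (P n → c.eval n = Part.some 1) ∧ (¬ P n → c.eval n = Part.some 0) := by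
  classical
  have h1 : Computable fun n => if P n then 1 else 0 := by fun_prop
  obtain ⟨c, hc⟩ := Nat.Partrec.Code.exists_code.1 (Partrec.nat_iff.1 h1)
  exact ⟨c, fun n => ⟨fun h => by simp [hc, h], fun h => by simp [hc, h]⟩⟩

theorem exists_index (L : CLO) : ∃ e, IsIndex e L := by
  have h1 := cp_comp L.dom_comp (f := fun n : ℕ => n.unpair.1) (by fun_prop)
  have h2 := cp_comp L.lt_comp (f := fun n : ℕ => n.unpair) (by fun_prop)
  obtain ⟨c, hc⟩ := exists_code_of_pred (cp_or (cp_and h1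
    (show ComputablePred fun n : ℕ => n.unpair.1 = n.unpair.2 by fun_prop)) h2)
  exact ⟨encode c, fun a b => by simpa using hc (Nat.pair a b)⟩

theorem IsIndex.le {e : ℕ} {L : CLO} (h : IsIndex e L) {a b : ℕ} :
    leI e a b ↔ (a ∈ L.dom ∧ a = b) ∨ L.lt a b := by
  rw [leI, ← mem_eval_iff]
  by_cases h1 : (a ∈ L.dom ∧ a = b) ∨ L.lt a b
  · simp [(h a b).1 h1, h1]
  · simp [(h a b).2 h1, h1]

theorem IsIndex.dom {e : ℕ} {L : CLO} (h : IsIndex e L) {a : ℕ} : leI e a a ↔ a ∈ L.dom := by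
  simp [h.le, L.irrefl]

theorem IsIndex.lt {e : ℕ} {L : CLO} (h : IsIndex e L) {a b : ℕ} : ltI e a b ↔ L.lt a b := by
  rw [ltI, h.le]
  refine ⟨fun h1 => h1.1.resolve_left fun h2 => h1.2 h2.2, fun h1 => ⟨Or.inr h1, ?_⟩⟩
  rintro rfl
  exact L.irrefl _ h1

theorem isoI_iff {e e' : ℕ} {M N : CLO} (h : IsIndex e M) (h' : IsIndex e' N) {f : ℕ → ℕ} :
    IsoI e e' f ↔ IsIso M N f := by
  simp only [IsoI, IsIso, h.dom, h'.dom, h.lt, h'.lt, Set.ofPred_mem_eq]

theorem isIso_id (L : CLO) : IsIso L L id := ⟨Set.bijOn_id _, fun _ _ _ _ => Iff.rfl⟩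

theorem graph_del {n : ℕ} {M : CLO} {f : ℕ → ℕ}
    (h : Sig (n + 1) fun p : ℕ × ℕ => p.1 ∈ M.dom ∧ f p.1 = p.2) :
    Del (n + 1) fun p : ℕ × ℕ => p.1 ∈ M.dom ∧ f p.1 = p.2 := by
  refine ⟨h, ?_⟩
  obtain ⟨A, hA, hA'⟩ : ∃ A : ℕ × ℕ → Prop, Sig (n + 1) A ∧ ∀ p, A p ↔ p.1 ∈ M.dom ∧ f p.1 = p.2 :=
    ⟨_, h, fun _ => Iff.rfl⟩
  obtain ⟨D, hD, hD'⟩ : ∃ D : ℕ → Prop, Del (n + 1) D ∧ ∀ a, D a ↔ a ∈ M.dom :=
    ⟨_, Del.of_comp M.dom_comp, fun _ => Iff.rfl⟩
  have : Sig (n + 1) fun p : ℕ × ℕ => ¬ D p.1 ∨ ∃ b, A (p.1, b) ∧ ¬ b = p.2 := by fun_prop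
  refine this.of_eq fun p => ?_
  by_cases hp : p.1 ∈ M.dom <;> simp [hA', hD', hp]

theorem branch_of_seq {τ : ℕ → List ℕ} (h : ∀ j, ∃ a, τ (j + 1) = τ j ++ [a]) :
    ∃ F : ℕ → ℕ, ∀ m, m ≤ (τ (m + 1)).length ∧ seg F m = (τ (m + 1)).take m := by
  have h1 : ∀ j, j ≤ (τ j).length := by
    intro j
    induction j with
    | zero => exact Nat.zero_le _
    | succ j ih =>
      obtain ⟨a, ha⟩ := h j
      simp [ha, ih]
  refine ⟨fun k => (τ (k + 1))[k]?.getD 0, fun m => ⟨(Nat.le_succ m).trans (h1 _), ?_⟩⟩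
  induction m with
  | zero => rfl
  | succ m ih =>
    obtain ⟨a, ha⟩ := h (m + 1)
    have h2 : m < (τ (m + 1)).length := h1 _
    rw [seg_succ, ih, ha, List.take_append_of_le_length h2, List.take_add_one]
    simp [h2]

end Pool.Agent.Lib.MP_9e2528_lc
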