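import Pool.Agent.Lib.MP_9e2528_lc.Defs

set_option autoImplicit false

/-! Computability kit (after the kits of MP_a0087d_lc and MP_e57333_lc). -/

namespace Pool.Agent.Lib.MP_9e2528_lc

open Encodable Denumerable

section general

variable {α β σ : Type} [Primcodable α] [Primcodable β] [Primcodable σ]

theorem cp_comp {p : β → Prop} {f : α → β} (hp : ComputablePred p) (hf : Computable f) :
    ComputablePred fun a => p (f a) := by
  classical
  exact Computable.computablePred (hp.decide.comp hf)

theorem cp_and {p q : α → Prop} (hp : ComputablePred p) (hq : ComputablePred q) :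
    ComputablePred fun a => p a ∧ q a := by
  classical
  refine Computable.computablePred ?_
  exact (Primrec.and.to_comp.comp hp.decide hq.decide).of_eq fun a => by simp

theorem cp_or {p q : α → Prop} (hp : ComputablePred p) (hq : ComputablePred q) :
    ComputablePred fun a => p a ∨ q a := by
  classical
  refine Computable.computablePred ?_
  exact (Primrec.or.to_comp.comp hp.decide hq.decide).of_eq fun a => by simp

theorem cp_not {p : α → Prop} (hp : ComputablePred p) : ComputablePred fun a => ¬ p a :=
  hp.not

theorem cp_lt {f g : α → ℕ} (hf : Computable f) (hg : Computable g) :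
    ComputablePred fun a => f a < g a :=
  cp_comp (p := fun q : ℕ × ℕ => q.1 < q.2) (PrimrecPred.computablePred Primrec.nat_lt) (hf.pair hg)

theorem cp_le {f g : α → ℕ} (hf : Computable f) (hg : Computable g) :
    ComputablePred fun a => f a ≤ g a :=
  cp_comp (p := fun q : ℕ × ℕ => q.1 ≤ q.2) (PrimrecPred.computablePred Primrec.nat_le) (hf.pair hg)

theorem cp_eq {f g : α → β} (hf : Computable f) (hg : Computable g) :
    ComputablePred fun a => f a = g a :=
  cp_comp (p := fun q : β × β => q.1 = q.2) (PrimrecPred.computablePred Primrec.eq) (hf.pair hg)

theorem c_ite {p : α → Prop} [DecidablePred p] {f g : α → σ} (hp : ComputablePred p)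
    (hf : Computable f) (hg : Computable g) : Computable fun a => if p a then f a else g a :=
  (Computable.cond hp.decide hf hg).of_eq fun a => by by_cases h : p a <;> simp [h]

theorem c_foldl {f : α → List β} {g : α → σ} {h : α → σ × β → σ} (hf : Computable f)
    (hg : Computable g) (hh : Computable₂ h) :
    Computable fun a => (f a).foldl (fun s b => h a (s, b)) (g a) := by
  let step : α → ℕ × σ → σ := fun a p =>
    Option.casesOn ((f a)[p.1]?) p.2 fun b => h a (p.2, b)
  have hstep : Computable₂ step := by
    refine Computable.option_casesOn
      (Computable.list_getElem?.comp (hf.comp Computable.fst) (Computable.fst.comp Computable.snd))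
      (Computable.snd.comp Computable.snd) ?_
    exact (hh.comp (Computable.fst.comp Computable.fst)
      ((Computable.snd.comp (Computable.snd.comp Computable.fst)).pair Computable.snd)).to₂
  have h1 := Computable.nat_rec (Computable.list_length.comp hf) hg hstep
  refine h1.of_eq fun a => ?_
  have key : ∀ n : ℕ, n ≤ (f a).length →
      (Nat.rec (g a) (fun y IH => step a (y, IH)) n : σ) =
        ((f a).take n).foldl (fun s b => h a (s, b)) (g a) := by
    intro n
    induction n with
    | zero => simp
    | succ n ih =>
      intro hn
      have hn' : n < (f a).length := hn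
      rw [List.take_add_one, List.foldl_append, ← ih hn'.le]
      simp [step, List.getElem?_eq_getElem hn']
  simpa using key _ le_rfl

theorem c_foldr {f : α → List β} {g : α → σ} {h : α → β × σ → σ} (hf : Computable f)
    (hg : Computable g) (hh : Computable₂ h) :
    Computable fun a => (f a).foldr (fun b s => h a (b, s)) (g a) := by
  have := c_foldl (h := fun a p => h a (p.2, p.1)) (Computable.list_reverse.comp hf) hg
    (hh.comp Computable.fst
      ((Computable.snd.comp Computable.snd).pair (Computable.fst.comp Computable.snd))).to₂
  exact this.of_eq fun a => by simp [List.foldl_reverse]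

theorem c_map {f : α → List β} {g : α → β → σ} (hf : Computable f) (hg : Computable₂ g) :
    Computable fun a => (f a).map (g a) := by
  have := c_foldr (h := fun a (p : β × List σ) => g a p.1 :: p.2) hf (Computable.const [])
    (Computable.list_cons.comp (hg.comp Computable.fst (Computable.fst.comp Computable.snd))
      (Computable.snd.comp Computable.snd)).to₂
  refine this.of_eq fun a => ?_
  induction f a with
  | nil => rfl
  | cons b l ih => simp [ih]

theorem c_filter {f : α → List β} {p : α → β → Prop} [∀ a, DecidablePred (p a)]
    (hf : Computable f) (hp : ComputablePred fun q : α × β => p q.1 q.2) :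
    Computable fun a => (f a).filter fun b => decide (p a b) := by
  have := c_foldr (h := fun a (q : β × List β) => if p a q.1 then q.1 :: q.2 else q.2) hf
    (Computable.const [])
    (c_ite (p := fun x : α × β × List β => p x.1 x.2.1)
      (cp_comp hp (Computable.fst.pair (Computable.fst.comp Computable.snd)))
      (Computable.list_cons.comp (Computable.fst.comp Computable.snd)
        (Computable.snd.comp Computable.snd))
      (Computable.snd.comp Computable.snd)).to₂
  refine this.of_eq fun a => ?_
  induction f a with
  | nil => rfl
  | cons b l ih =>
    by_cases h : p a b <;> simp [h, ih]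

theorem cp_exists_mem {f : α → List β} {p : α → β → Prop}
    (hf : Computable f) (hp : ComputablePred fun q : α × β => p q.1 q.2) :
    ComputablePred fun a => ∃ b ∈ f a, p a b := by
  classical
  have h1 := Computable.list_length.comp (c_filter hf hp)
  refine (cp_lt (Computable.const 0) h1).of_eq fun a => ?_
  simp [List.length_pos_iff_exists_mem]

theorem cp_exists_lt {f : α → ℕ} {p : α → ℕ → Prop}
    (hf : Computable f) (hp : ComputablePred fun q : α × ℕ => p q.1 q.2) :
    ComputablePred fun a => ∃ b < f a, p a b :=
  (cp_exists_mem (Primrec.list_range.to_comp.comp hf) hp).of_eq fun a => by simp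

theorem cp_forall_lt {f : α → ℕ} {p : α → ℕ → Prop}
    (hf : Computable f) (hp : ComputablePred fun q : α × ℕ => p q.1 q.2) :
    ComputablePred fun a => ∀ b < f a, p a b :=
  (cp_not (cp_exists_lt (p := fun a b => ¬ p a b) hf (cp_not hp))).of_eq fun a => by simp

theorem cp_mem {f : α → β} {l : α → List β} (hf : Computable f) (hl : Computable l) :
    ComputablePred fun a => f a ∈ l a :=
  (cp_exists_mem (p := fun a b => f a = b) hl
    (cp_eq (hf.comp Computable.fst) Computable.snd)).of_eq fun a => by simp

end general

attribute [fun_prop] Computable ComputablePred

/-- bounded universal quantifier over a list -/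
def Ball {β : Type} (l : List β) (p : β → Prop) : Prop := ∀ b ∈ l, p b
/-- bounded existential quantifier over a list -/
def Bex {β : Type} (l : List β) (p : β → Prop) : Prop := ∃ b ∈ l, p b
/-- implication as a function -/
def Imp (p q : Prop) : Prop := p → q
open Classical in
/-- filter with a classical predicate -/
noncomputable def flt {β : Type} (l : List β) (p : β → Prop) : List β := l.filter fun b => decide (p b)

variable {α β γ σ : Type} [Primcodable α] [Primcodable β] [Primcodable γ] [Primcodable σ]

namespace FP

@[fun_prop] theorem id : Computable fun a : α => a := Computable.id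
@[fun_prop] theorem const (b : β) : Computable fun _ : α => b := Computable.const b
@[fun_prop] theorem comp {g : β → γ} {f : α → β} (hg : Computable g) (hf : Computable f) :
    Computable fun a => g (f a) := hg.comp hf
@[fun_prop] theorem pair {f : α → β} {g : α → γ} (hf : Computable f) (hg : Computable g) :
    Computable fun a => (f a, g a) := hf.pair hg
@[fun_prop] theorem fst {f : α → β × γ} (hf : Computable f) : Computable fun a => (f a).1 :=
  Computable.fst.comp hf
@[fun_prop] theorem snd {f : α → β × γ} (hf : Computable f) : Computable fun a => (f a).2 :=
  Computable.snd.comp hf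
@[fun_prop] theorem add {f g : α → ℕ} (hf : Computable f) (hg : Computable g) :
    Computable fun a => f a + g a := Primrec.nat_add.to_comp.comp hf hg
@[fun_prop] theorem sub {f g : α → ℕ} (hf : Computable f) (hg : Computable g) :
    Computable fun a => f a - g a := Primrec.nat_sub.to_comp.comp hf hg
@[fun_prop] theorem mul {f g : α → ℕ} (hf : Computable f) (hg : Computable g) :
    Computable fun a => f a * g a := Primrec.nat_mul.to_comp.comp hf hg
@[fun_prop] theorem div {f g : α → ℕ} (hf : Computable f) (hg : Computable g) :
    Computable fun a => f a / g a := Primrec.nat_div.to_comp.comp hf hg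
@[fun_prop] theorem mod {f g : α → ℕ} (hf : Computable f) (hg : Computable g) :
    Computable fun a => f a % g a := Primrec.nat_mod.to_comp.comp hf hg
@[fun_prop] theorem pow {f g : α → ℕ} (hf : Computable f) (hg : Computable g) :
    Computable fun a => f a ^ g a :=
  (Primrec₂.unpaired'.1 Nat.Primrec.pow).to_comp.comp hf hg
@[fun_prop] theorem npair {f g : α → ℕ} (hf : Computable f) (hg : Computable g) :
    Computable fun a => Nat.pair (f a) (g a) := Primrec₂.natPair.to_comp.comp hf hg
@[fun_prop] theorem unpair {f : α → ℕ} (hf : Computable f) :
    Computable fun a => Nat.unpair (f a) := Computable.unpair.comp hf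
@[fun_prop] theorem enc {f : α → β} (hf : Computable f) :
    Computable fun a => encode (f a) := Computable.encode.comp hf
@[fun_prop] theorem dec {f : α → ℕ} (hf : Computable f) :
    Computable fun a => (decode (f a) : Option β) := Computable.decode.comp hf
@[fun_prop] theorem some {f : α → β} (hf : Computable f) :
    Computable fun a => Option.some (f a) := Computable.option_some.comp hf
@[fun_prop] theorem getD {f : α → Option β} {g : α → β} (hf : Computable f) (hg : Computable g) :
    Computable fun a => (f a).getD (g a) := Computable.option_getD hf hg
@[fun_prop] theorem obind {f : α → Option β} {g : α → β → Option σ} (hf : Computable f)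
    (hg : Computable fun x : α × β => g x.1 x.2) : Computable fun a => (f a).bind (g a) :=
  Computable.option_bind hf hg
@[fun_prop] theorem cons {f : α → β} {g : α → List β} (hf : Computable f) (hg : Computable g) :
    Computable fun a => f a :: g a := Computable.list_cons.comp hf hg
@[fun_prop] theorem append {f g : α → List β} (hf : Computable f) (hg : Computable g) :
    Computable fun a => f a ++ g a := Computable.list_append.comp hf hg
@[fun_prop] theorem length {f : α → List β} (hf : Computable f) :
    Computable fun a => (f a).length := Computable.list_length.comp hf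
@[fun_prop] theorem range {f : α → ℕ} (hf : Computable f) :
    Computable fun a => List.range (f a) := Primrec.list_range.to_comp.comp hf
@[fun_prop] theorem take {n : α → ℕ} {f : α → List β} (hn : Computable n) (hf : Computable f) :
    Computable fun a => (f a).take (n a) := Primrec.list_take.to_comp.comp hn hf
@[fun_prop] theorem drop {n : α → ℕ} {f : α → List β} (hn : Computable n) (hf : Computable f) :
    Computable fun a => (f a).drop (n a) := Primrec.list_drop.to_comp.comp hn hf
@[fun_prop] theorem getElem? {n : α → ℕ} {f : α → List β} (hf : Computable f) (hn : Computable n) :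
    Computable fun a => (f a)[n a]? := Computable.list_getElem?.comp hf hn
@[fun_prop] theorem idxOf [i : BEq β] [LawfulBEq β] {e : α → β} {f : α → List β}
    (he : Computable e) (hf : Computable f) : Computable fun a => List.idxOf (e a) (f a) := by
  classical
  refine (Primrec.list_idxOf.to_comp.comp he hf).of_eq fun a => ?_
  unfold List.idxOf
  congr 1
  funext x
  rw [Bool.eq_iff_iff]
  simp
@[fun_prop] theorem map {f : α → List β} {g : α → β → σ} (hf : Computable f)
    (hg : Computable fun x : α × β => g x.1 x.2) : Computable fun a => (f a).map (g a) :=
  c_map hf hg
@[fun_prop] theorem foldr {f : α → List β} {g : α → σ} {h : α → β → σ → σ} (hf : Computable f)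
    (hg : Computable g) (hh : Computable fun x : α × β × σ => h x.1 x.2.1 x.2.2) :
    Computable fun a => (f a).foldr (h a) (g a) :=
  c_foldr (h := fun a p => h a p.1 p.2) hf hg hh
@[fun_prop] theorem flt' {f : α → List β} {p : α → β → Prop} (hf : Computable f)
    (hp : ComputablePred fun x : α × β => p x.1 x.2) : Computable fun a => flt (f a) (p a) := by
  classical
  exact c_filter hf hp
@[fun_prop] theorem ite {p : α → Prop} [DecidablePred p] {f g : α → σ} (hp : ComputablePred p)
    (hf : Computable f) (hg : Computable g) : Computable fun a => if p a then f a else g a :=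
  c_ite hp hf hg
@[fun_prop] theorem replicate {n : α → ℕ} {f : α → β} (hn : Computable n) (hf : Computable f) :
    Computable fun a => List.replicate (n a) (f a) :=
  (map (g := fun a _ => f a) (range hn) (hf.comp Computable.fst)).of_eq fun a => by simp
@[fun_prop] theorem toNat {f : α → Bool} (hf : Computable f) :
    Computable fun a => (f a).toNat :=
  (Computable.cond hf (Computable.const 1) (Computable.const 0)).of_eq fun a => by
    cases f a <;> rfl
@[fun_prop] theorem not {f : α → Bool} (hf : Computable f) : Computable fun a => !(f a) :=
  Primrec.not.to_comp.comp hf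
@[fun_prop] theorem decide' {p : α → Prop} [DecidablePred p] (hp : ComputablePred p) :
    Computable fun a => decide (p a) := hp.decide

@[fun_prop] theorem pconst (p : Prop) : ComputablePred fun _ : α => p := by
  classical
  exact Computable.computablePred (Computable.const _)
@[fun_prop] theorem pcomp {p : β → Prop} {f : α → β} (hp : ComputablePred p) (hf : Computable f) :
    ComputablePred fun a => p (f a) := cp_comp hp hf
@[fun_prop] theorem pand {p q : α → Prop} (hp : ComputablePred p) (hq : ComputablePred q) :
    ComputablePred fun a => p a ∧ q a := cp_and hp hq
@[fun_prop] theorem por {p q : α → Prop} (hp : ComputablePred p) (hq : ComputablePred q) :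
    ComputablePred fun a => p a ∨ q a := cp_or hp hq
@[fun_prop] theorem pnot {p : α → Prop} (hp : ComputablePred p) :
    ComputablePred fun a => ¬ p a := cp_not hp
@[fun_prop] theorem pimp {p q : α → Prop} (hp : ComputablePred p) (hq : ComputablePred q) :
    ComputablePred fun a => Imp (p a) (q a) :=
  (cp_or (cp_not hp) hq).of_eq fun a => by unfold Imp; tauto
@[fun_prop] theorem plt {f g : α → ℕ} (hf : Computable f) (hg : Computable g) :
    ComputablePred fun a => f a < g a := cp_lt hf hg
@[fun_prop] theorem ple {f g : α → ℕ} (hf : Computable f) (hg : Computable g) :
    ComputablePred fun a => f a ≤ g a := cp_le hf hg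
@[fun_prop] theorem peq {f g : α → β} (hf : Computable f) (hg : Computable g) :
    ComputablePred fun a => f a = g a := cp_eq hf hg
@[fun_prop] theorem pmem {f : α → β} {l : α → List β} (hl : Computable l) (hf : Computable f) :
    ComputablePred fun a => f a ∈ l a := cp_mem hf hl
@[fun_prop] theorem pbex {f : α → List β} {p : α → β → Prop} (hf : Computable f)
    (hp : ComputablePred fun x : α × β => p x.1 x.2) : ComputablePred fun a => Bex (f a) (p a) :=
  cp_exists_mem hf hp
@[fun_prop] theorem pball {f : α → List β} {p : α → β → Prop} (hf : Computable f)
    (hp : ComputablePred fun x : α × β => p x.1 x.2) : ComputablePred fun a => Ball (f a) (p a) :=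
  (cp_not (cp_exists_mem (p := fun a b => ¬ p a b) hf (cp_not hp))).of_eq fun a => by
    simp [Ball]
end FP

end Pool.Agent.Lib.MP_9e2528_lc
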