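import Mathlib

set_option autoImplicit false

namespace Pool.Agent.Lib.MP_9e2528_lc

/-- The arithmetical hierarchy: level 0 is the computable predicates, and a predicate is
`Sigma` of level `n + 1` when it is an existential number quantifier in front of the negation
of a `Sigma` predicate of level `n`. -/
def Sig : ℕ → ∀ {α : Type} [Primcodable α], (α → Prop) → Prop
  | 0, _, _, P => ComputablePred P
  | n + 1, α, _, P => ∃ Q : α × ℕ → Prop, Sig n Q ∧ ∀ x, P x ↔ ∃ y, ¬ Q (x, y)

/-- `Delta` of level `n`: the predicate and its negation are `Sigma` of level `n`. -/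
def Del (n : ℕ) {α : Type} [Primcodable α] (P : α → Prop) : Prop :=
  Sig n P ∧ Sig n fun x => ¬ P x

/-- A computable linear ordering. -/
structure CLO where
  dom : Set ℕ
  lt : ℕ → ℕ → Prop
  dom_comp : ComputablePred fun a => a ∈ dom
  lt_comp : ComputablePred fun p : ℕ × ℕ => lt p.1 p.2
  mem : ∀ a b, lt a b → a ∈ dom ∧ b ∈ dom
  irrefl : ∀ a, ¬ lt a a
  trans : ∀ a b c, lt a b → lt b c → lt a c
  total : ∀ a ∈ dom, ∀ b ∈ dom, lt a b ∨ a = b ∨ lt b a

/-- `f` restricts to an order isomorphism from `M` onto `N`. -/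
def IsIso (M N : CLO) (f : ℕ → ℕ) : Prop :=
  Set.BijOn f M.dom N.dom ∧ ∀ a ∈ M.dom, ∀ b ∈ M.dom, M.lt a b ↔ N.lt (f a) (f b)

/-- Any two computable copies of `L` are isomorphic by a map with a `Delta` `n` graph. -/
def DeltaCat (n : ℕ) (L : CLO) : Prop :=
  ∀ M N : CLO, (∃ f, IsIso M L f) → (∃ f, IsIso N L f) →
    ∃ f, IsIso M N f ∧ Del n fun p : ℕ × ℕ => p.1 ∈ M.dom ∧ f p.1 = p.2

/-- The `e`-th program computes the characteristic function of the non-strict order of `L`
(whose diagonal is the domain of `L`). -/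
def IsIndex (e : ℕ) (L : CLO) : Prop :=
  ∀ a b : ℕ,
    ((a ∈ L.dom ∧ a = b) ∨ L.lt a b →
      (Denumerable.ofNat Nat.Partrec.Code e).eval (Nat.pair a b) = Part.some 1) ∧
    (¬ ((a ∈ L.dom ∧ a = b) ∨ L.lt a b) →
      (Denumerable.ofNat Nat.Partrec.Code e).eval (Nat.pair a b) = Part.some 0)

/-- The index set of the `Delta` `n` categorical computable linear orderings. -/
def CatIndex (n : ℕ) (e : ℕ) : Prop := ∃ L : CLO, IsIndex e L ∧ DeltaCat n L

/-- Kleene normal form of the lightface coanalytic sets of numbers. -/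
def Pi11 (S : ℕ → Prop) : Prop :=
  ∃ R : ℕ × List ℕ → Prop, ComputablePred R ∧
    ∀ x, S x ↔ ∀ f : ℕ → ℕ, ∃ k, R (x, (List.range k).map f)

end Pool.Agent.Lib.MP_9e2528_lc
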