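import Pool.Agent.Lib.MP_9e2528_lc.Defs

set_option autoImplicit false

namespace Pool.Agent.Lib.MP_9e2528_lc

/-- Programs with an oracle: one constructor for each clause of `Nat.RecursiveIn`. -/
inductive Prog : Type
  | zero | succ | left | right | ask
  | pair (p q : Prog) | comp (p q : Prog) | prec (p q : Prog) | rfind (p : Prog)

/-- The function computed by a program with the oracle `g`, by the clauses of
`Nat.RecursiveIn`. -/
def Prog.fn (g : ℕ →. ℕ) : Prog → ℕ →. ℕ
  | zero => fun _ => Part.some 0
  | succ => fun n => Part.some (n + 1)
  | left => fun n => Part.some n.unpair.1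
  | right => fun n => Part.some n.unpair.2
  | ask => g
  | pair p q => fun n => (p.fn g n).bind fun u => (q.fn g n).map (Nat.pair u)
  | comp p q => fun n => (q.fn g n).bind (p.fn g)
  | prec p q => fun n => Nat.rec (p.fn g n.unpair.1)
      (fun k r => r.bind fun u => q.fn g (Nat.pair n.unpair.1 (Nat.pair k u))) n.unpair.2
  | rfind p => fun a => Nat.rfind fun n => (p.fn g (Nat.pair a n)).map fun m => decide (m = 0)

/-- The number of a program (a bijection from the programs onto the numbers). -/
def Prog.num : Prog → ℕ
  | zero => 0
  | succ => 1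
  | left => 2
  | right => 3
  | ask => 4
  | pair p q => 4 * Nat.pair p.num q.num + 5
  | comp p q => 4 * Nat.pair p.num q.num + 6
  | prec p q => 4 * Nat.pair p.num q.num + 7
  | rfind p => 4 * p.num + 8

/-- The characteristic function of a set of numbers, as an oracle. -/
noncomputable def chi (A : Set ℕ) : ℕ →. ℕ := fun n => Part.some (A.indicator (fun _ => 1) n)

/-- The Turing jump: the numbers of the programs that halt on their own number with oracle `A`. -/
def jump (A : Set ℕ) : Set ℕ := {e | ∃ p : Prog, p.num = e ∧ (p.fn (chi A) e).Dom}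

/-- Any two computable copies of `L` are isomorphic by a map that is Turing reducible to the
`(n - 1)`-st jump of the empty set. -/
def JumpCat (n : ℕ) (L : CLO) : Prop :=
  ∀ M N : CLO, (∃ f, IsIso M L f) → (∃ f, IsIso N L f) →
    ∃ f : ℕ → ℕ, IsIso M N f ∧
      TuringReducible (fun a => Part.some (f a)) (chi (jump^[n - 1] ∅))

/-- The index set of the computable linear orderings with `JumpCat n`. -/
def JumpIndex (n : ℕ) (e : ℕ) : Prop := ∃ L : CLO, IsIndex e L ∧ JumpCat n L

end Pool.Agent.Lib.MP_9e2528_lc
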