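import Pool.Agent.Lib.MP_9e2528_lc.Anal

set_option autoImplicit false

/-! The lexicographic order on lists, dense words, parity of lists. -/

namespace Pool.Agent.Lib.MP_9e2528_lc

section
variable {W : Type} [LinearOrder W]

theorem app_lt_app (g : List W) {l m : List W} : g ++ l < g ++ m ↔ l < m := by
  induction g with
  | nil => simp
  | cons a g ih => simp [ih]

theorem lt_app_cons (a : List W) (w : W) (d : List W) : a < a ++ w :: d := by
  have := (app_lt_app a (l := []) (m := w :: d)).2 (List.nil_lt_cons _ _)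
  simpa using this

theorem le_app (a d : List W) : a ≤ a ++ d := by
  cases d with
  | nil => simp
  | cons w d => exact (lt_app_cons a w d).le

theorem fork_lt (g : List W) {w w' : W} (h : w < w') (a b : List W) : g ++ w :: a < g ++ w' :: b :=
  (app_lt_app g).2 (List.cons_lt_cons_iff.2 (Or.inl h))

theorem lt_decomp : ∀ {a b : List W}, a < b →
    (∃ w d, b = a ++ w :: d) ∨ ∃ g w w' c d, a = g ++ w :: c ∧ b = g ++ w' :: d ∧ w < w'
  | [], [], h => absurd h (List.not_lt_nil _)
  | [], w :: d, _ => Or.inl ⟨w, d, rfl⟩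
  | _ :: _, [], h => absurd h (List.not_lt_nil _)
  | x :: a, y :: b, h => by
    rcases List.cons_lt_cons_iff.1 h with h1 | ⟨rfl, h1⟩
    · exact Or.inr ⟨[], x, y, a, b, rfl, rfl, h1⟩
    · rcases lt_decomp h1 with ⟨w, d, rfl⟩ | ⟨g, w, w', c, d, rfl, rfl, h2⟩
      · exact Or.inl ⟨w, d, rfl⟩
      · exact Or.inr ⟨x :: g, w, w', c, d, rfl, rfl, h2⟩

theorem fork_lt_iff (g : List W) {w w' : W} (a b : List W) :
    g ++ w :: a < g ++ w' :: b ↔ w < w' ∨ (w = w' ∧ a < b) := by
  rw [app_lt_app, List.cons_lt_cons_iff]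

/-- points that do not extend `x` lie on one side of all extensions of `x` -/
theorem app_lt_of_lt {x b : List W} (h : x < b) (hn : ¬ ∃ d, b = x ++ d) (d : List W) :
    x ++ d < b := by
  rcases lt_decomp h with ⟨w, d', rfl⟩ | ⟨g, w, w', c, d', rfl, rfl, h2⟩
  · exact absurd ⟨_, rfl⟩ hn
  · simpa using fork_lt g h2 (c ++ d) d'

/-- convexity of the set of extensions -/
theorem ext_of_between {x z d : List W} (h1 : x < z) (h2 : ¬ x ++ d < z) :
    ∃ w d', z = x ++ w :: d' := by
  have : ∃ d', z = x ++ d' := by
    by_contra hn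
    exact h2 (app_lt_of_lt h1 hn d)
  obtain ⟨d', rfl⟩ := this
  cases d' with
  | nil => simp at h1
  | cons w d' => exact ⟨w, d', rfl⟩

theorem snoc_lt_iff {g a : List W} (w : W) (h : a.length ≤ g.length) : g ++ [w] < a ↔ g < a := by
  refine ⟨fun h' => lt_trans (lt_app_cons g w []) h', fun h' => app_lt_of_lt h' ?_ _⟩
  rintro ⟨d, rfl⟩
  cases d with
  | nil => simp at h'
  | cons x d => simp at h

theorem lt_snoc_iff {g a : List W} (w : W) (h : a.length ≤ g.length) :
    a < g ++ [w] ↔ ¬ g < a := by
  rw [← snoc_lt_iff w h]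
  have hne : a ≠ g ++ [w] := by
    rintro rfl
    simp at h
  constructor
  · exact fun h1 h2 => lt_asymm h1 h2
  · intro h1
    rcases lt_trichotomy a (g ++ [w]) with h | h | h
    · exact h
    · exact absurd h hne
    · exact absurd h h1

theorem snoc_lt_snoc {g g' : List W} (w w' : W) (h : g.length = g'.length) (hne : g ≠ g') :
    g ++ [w] < g' ++ [w'] ↔ g < g' := by
  have key : ∀ {g g' : List W} (w w' : W), g.length = g'.length → g < g' →
      g ++ [w] < g' ++ [w'] := fun w w' h h' =>
    lt_trans ((snoc_lt_iff w h.ge).2 h') (lt_app_cons _ w' [])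
  refine ⟨fun h' => ?_, key w w' h⟩
  rcases lt_trichotomy g g' with h1 | h1 | h1
  · exact h1
  · exact absurd h1 hne
  · exact absurd (key w' w h.symm h1) (lt_asymm h')

theorem snoc_lt_snoc_same (g : List W) (w w' : W) : g ++ [w] < g ++ [w'] ↔ w < w' := by
  simp [fork_lt_iff]

theorem lex_comp [Primcodable W] [Inhabited W]
    (h : ComputablePred fun p : W × W => p.1 < p.2) :
    ComputablePred fun p : List W × List W => p.1 < p.2 := by
  have h' : ComputablePred fun q : (List W × List W) × ℕ =>
      q.1.1[q.2]?.getD default < q.1.2[q.2]?.getD default :=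
    cp_comp (f := fun q : (List W × List W) × ℕ =>
      (q.1.1[q.2]?.getD default, q.1.2[q.2]?.getD default)) h (by fun_prop)
  have h1 : ComputablePred fun p : List W × List W =>
      (p.1 = p.2.take p.1.length ∧ p.1.length < p.2.length) ∨
      ∃ i < p.1.length, (i < p.2.length ∧ p.1.take i = p.2.take i) ∧
        p.1[i]?.getD default < p.2[i]?.getD default :=
    cp_or (by fun_prop) (cp_exists_lt (by fun_prop) (cp_and (by fun_prop) h'))
  refine h1.of_eq ?_
  rintro ⟨a, b⟩
  dsimp only
  constructor
  · rintro (⟨h1, h2⟩ | ⟨i, hi, ⟨hi', h1⟩, h2⟩)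
    · rw [← List.take_append_drop a.length b, ← h1, List.drop_eq_getElem_cons h2]
      exact lt_app_cons _ _ _
    · rw [← List.take_append_drop i a, ← List.take_append_drop i b, h1,
        List.drop_eq_getElem_cons hi, List.drop_eq_getElem_cons hi']
      exact fork_lt _ (by simpa [hi, hi'] using h2) _ _
  · intro hab
    rcases lt_decomp hab with ⟨w, d, rfl⟩ | ⟨g, w, w', c, d, rfl, rfl, h⟩
    · left
      simp
    · right
      exact ⟨g.length, by simp, by simp, by simpa using h⟩

/-- a point of a dense class in a cut given by finite sets -/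
theorem cut_lemma {C Z : W → Prop} (hCZ : ∀ c, C c → Z c) (h0 : ∃ c, C c)
    (hlo : ∀ u, Z u → ∃ c, C c ∧ c < u) (hhi : ∀ u, Z u → ∃ c, C c ∧ u < c)
    (hmid : ∀ u v, Z u → Z v → u < v → ∃ c, C c ∧ u < c ∧ c < v) (lo hi : List W)
    (hlh : ∀ l ∈ lo, ∀ h ∈ hi, l < h) (h1 : ∀ l ∈ lo, Z l ∨ ∀ z, Z z → l < z)
    (h2 : ∀ h ∈ hi, Z h ∨ ∀ z, Z z → z < h) :
    ∃ c, C c ∧ (∀ l ∈ lo, l < c) ∧ ∀ h ∈ hi, c < h := by
  classical
  suffices hs : ∃ c, C c ∧ (∀ l ∈ lo, Z l → l < c) ∧ ∀ h ∈ hi, Z h → c < h by
    obtain ⟨c, hc, h3, h4⟩ := hs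
    exact ⟨c, hc, fun l hl => (h1 l hl).elim (h3 l hl) fun h => h c (hCZ c hc),
      fun l hl => (h2 l hl).elim (h4 l hl) fun h => h c (hCZ c hc)⟩
  by_cases ha : (lo.toFinset.filter Z).Nonempty <;> by_cases hb : (hi.toFinset.filter Z).Nonempty
  · obtain ⟨u, hu, hu'⟩ := Finset.exists_max_image _ id ha
    obtain ⟨v, hv, hv'⟩ := Finset.exists_min_image _ id hb
    simp only [Finset.mem_filter, List.mem_toFinset, id, and_imp] at hu hu' hv hv'
    obtain ⟨c, hc, h3, h4⟩ := hmid u v hu.2 hv.2 (hlh u hu.1 v hv.1)
    exact ⟨c, hc, fun l hl hz => (hu' l hl hz).trans_lt h3, fun l hl hz => h4.trans_le (hv' l hl hz)⟩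
  · obtain ⟨u, hu, hu'⟩ := Finset.exists_max_image _ id ha
    simp only [Finset.mem_filter, List.mem_toFinset, id, and_imp] at hu hu'
    obtain ⟨c, hc, h3⟩ := hhi u hu.2
    exact ⟨c, hc, fun l hl hz => (hu' l hl hz).trans_lt h3,
      fun l hl hz => absurd ⟨l, by simp [hl, hz]⟩ hb⟩
  · obtain ⟨v, hv, hv'⟩ := Finset.exists_min_image _ id hb
    simp only [Finset.mem_filter, List.mem_toFinset, id, and_imp] at hv hv'
    obtain ⟨c, hc, h4⟩ := hlo v hv.2
    exact ⟨c, hc, fun l hl hz => absurd ⟨l, by simp [hl, hz]⟩ ha,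
      fun l hl hz => h4.trans_le (hv' l hl hz)⟩
  · obtain ⟨c, hc⟩ := h0
    exact ⟨c, hc, fun l hl hz => absurd ⟨l, by simp [hl, hz]⟩ ha,
      fun l hl hz => absurd ⟨l, by simp [hl, hz]⟩ hb⟩

end

section
variable {α : Type} [Primcodable α]

@[fun_prop] theorem FP.wlt {f g : α → List ℕ} (hf : Computable f) (hg : Computable g) :
    ComputablePred fun a => f a < g a :=
  cp_comp (f := fun a => (f a, g a)) (lex_comp (W := ℕ) (by fun_prop)) (hf.pair hg)

@[fun_prop] theorem FP.alt {f g : α → List (List ℕ)} (hf : Computable f) (hg : Computable g) :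
    ComputablePred fun a => f a < g a :=
  cp_comp (f := fun a => (f a, g a)) (lex_comp (W := List ℕ) (by fun_prop)) (hf.pair hg)

@[fun_prop] theorem FP.foldl {β σ : Type} [Primcodable β] [Primcodable σ] {f : α → List β}
    {g : α → σ} {h : α → σ → β → σ} (hf : Computable f) (hg : Computable g)
    (hh : Computable fun x : α × σ × β => h x.1 x.2.1 x.2.2) :
    Computable fun a => (f a).foldl (h a) (g a) :=
  c_foldl (h := fun a p => h a p.1 p.2) hf hg hh

@[fun_prop] theorem FP.reverse {β : Type} [Primcodable β] {f : α → List β} (hf : Computable f) :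
    Computable fun a => (f a).reverse := Computable.list_reverse.comp hf

end

/-- last entry of a word -/
def lastw (v : List ℕ) : ℕ := v[v.length - 1]?.getD 0

/-- number of leading zeros -/
def lz (v : List ℕ) : ℕ := v.foldr (fun a n => if a = 0 then n + 1 else 0) 0

@[fun_prop] theorem lastw_comp : Computable lastw := by unfold lastw; fun_prop
@[fun_prop] theorem lz_comp : Computable lz := by unfold lz; fun_prop

@[simp] theorem lastw_snoc (u : List ℕ) (c : ℕ) : lastw (u ++ [c]) = c := by simp [lastw]
@[simp] theorem lastw_nil : lastw [] = 0 := rfl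
@[simp] theorem lastw_single (c : ℕ) : lastw [c] = c := rfl
theorem lastw_cons_cons (a b : ℕ) (v : List ℕ) : lastw (a :: b :: v) = lastw (b :: v) := by
  simp [lastw]

theorem lastw_cons {a : ℕ} {v : List ℕ} (h : lastw v ≠ 0) : lastw (a :: v) = lastw v := by
  cases v with
  | nil => simp at h
  | cons b v => exact lastw_cons_cons _ _ _

theorem lastw_app (u : List ℕ) (a : ℕ) (v : List ℕ) : lastw (u ++ a :: v) = lastw (a :: v) := by
  induction u with
  | nil => rfl
  | cons b u ih =>
    cases u with
    | nil => exact lastw_cons_cons _ _ _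
    | cons c u => exact (lastw_cons_cons _ _ _).trans ih

theorem lz_cons (a : ℕ) (v : List ℕ) : lz (a :: v) = if a = 0 then lz v + 1 else 0 := rfl

theorem lz_rep (t a : ℕ) (y : List ℕ) : lz (List.replicate t 0 ++ (a + 1) :: y) = t := by
  induction t with
  | zero => simp [lz_cons]
  | succ t ih => simp [List.replicate_succ, lz_cons, ih]

theorem dn_form : ∀ {v : List ℕ}, lastw v ≠ 0 → ∃ a y, v = List.replicate (lz v) 0 ++ (a + 1) :: y
  | [], h => by simp at h
  | (a + 1) :: v, _ => ⟨a, v, by simp [lz_cons]⟩
  | [0], h => by simp at h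
  | 0 :: b :: v, h => by
    obtain ⟨a, y, hy⟩ := dn_form (v := b :: v) (by rwa [lastw_cons_cons] at h)
    refine ⟨a, y, ?_⟩
    rw [lz_cons, if_pos rfl, List.replicate_succ, List.cons_append, ← hy]

theorem lz_app {v : List ℕ} (h : lastw v ≠ 0) (z : List ℕ) : lz (v ++ z) = lz v := by
  obtain ⟨a, y, hy⟩ := dn_form h
  generalize lz v = t at hy
  subst hy
  simp [lz_rep]

theorem rep_lt {t t' : ℕ} (h : t < t') (a : ℕ) (y z : List ℕ) :
    List.replicate t' 0 ++ z < List.replicate t 0 ++ (a + 1) :: y := by
  obtain ⟨k, rfl⟩ := Nat.exists_eq_add_of_lt h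
  rw [add_assoc, List.replicate_add, List.append_assoc, List.replicate_succ, List.cons_append]
  exact fork_lt _ (Nat.succ_pos a) _ _

theorem lz_lt_length {v : List ℕ} (h : lastw v ≠ 0) : lz v < v.length := by
  obtain ⟨a, y, hy⟩ := dn_form h
  have := congrArg List.length hy
  simp at this
  omega

theorem rep_lt_dn {v : List ℕ} (h : lastw v ≠ 0) {t : ℕ} (ht : lz v < t) (z : List ℕ) :
    List.replicate t 0 ++ z < v := by
  obtain ⟨a, y, hy⟩ := dn_form h
  have := rep_lt ht a y z
  rwa [← hy] at this

theorem app_rep_lt {u v : List ℕ} (h : u < v) (hv : lastw v ≠ 0) (z : List ℕ) :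
    u ++ (List.replicate v.length 0 ++ z) < v := by
  rcases lt_decomp h with ⟨w, d, rfl⟩ | ⟨g, w, w', c, d, rfl, rfl, h2⟩
  · rw [app_lt_app]
    rw [lastw_app] at hv
    refine rep_lt_dn hv ((lz_lt_length hv).trans_le (by simp)) z
  · simpa using fork_lt g h2 _ d

theorem rep_one_le {v : List ℕ} (h : lastw v ≠ 0) : ¬ v < List.replicate (lz v) 0 ++ [1] := by
  obtain ⟨a, y, hy⟩ := dn_form h
  generalize lz v = t at hy
  subst hy
  rw [fork_lt_iff]
  simp

section
variable {ι : Type} [DecidableEq ι]

/-- parity of the number of occurrences -/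
def bit (i : ι) (F : List ι) : Bool := F.foldr (fun a b => if a = i then !b else b) false

/-- parity of the length -/
def par (F : List ι) : Bool := F.foldr (fun _ b => !b) false

theorem bit_cons (i a : ι) (F : List ι) : bit i (a :: F) = if a = i then !bit i F else bit i F := rfl
omit [DecidableEq ι] in
theorem par_cons (a : ι) (F : List ι) : par (a :: F) = !par F := rfl

theorem bit_of_not_mem {i : ι} {F : List ι} (h : i ∉ F) : bit i F = false := by
  induction F with
  | nil => rfl
  | cons a F ih =>
    simp only [List.mem_cons, not_or] at h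
    rw [bit_cons, if_neg (Ne.symm h.1), ih h.2]

theorem bit_perm {F G : List ι} (h : F.Perm G) (i : ι) : bit i F = bit i G := by
  induction h with
  | nil => rfl
  | cons a _ ih => simp [bit_cons, ih]
  | swap a b l => by_cases ha : a = i <;> by_cases hb : b = i <;> simp [bit_cons, ha, hb]
  | trans _ _ ih1 ih2 => exact ih1.trans ih2

omit [DecidableEq ι] in
theorem par_perm {F G : List ι} (h : F.Perm G) : par F = par G := by
  induction h with
  | nil => rfl
  | cons a _ ih => simp [par_cons, ih]
  | swap a b l => simp [par_cons]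
  | trans _ _ ih1 ih2 => exact ih1.trans ih2

theorem par_eq_of_bits : ∀ (n : ℕ) (F G : List ι), F.length + G.length ≤ n →
    (∀ i, bit i F = bit i G) → par F = par G := by
  intro n
  induction n with
  | zero =>
    intro F G h _
    rw [List.length_eq_zero_iff.1 (show F.length = 0 by omega),
      List.length_eq_zero_iff.1 (show G.length = 0 by omega)]
  | succ n ih =>
    have key : ∀ (a : ι) (F G : List ι), (a :: F).length + G.length ≤ n + 1 →
        (∀ i, bit i (a :: F) = bit i G) → par (a :: F) = par G := by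
      intro a F G h hb
      by_cases hF : a ∈ F
      · have hp := List.perm_cons_erase hF
        have hl := hp.length_eq
        simp only [List.length_cons] at hl h
        rw [par_cons, par_perm hp, par_cons, Bool.not_not]
        refine ih _ _ (by omega) fun i => ?_
        rw [← hb, bit_cons, bit_perm hp, bit_cons]
        by_cases hi : a = i <;> simp [hi]
      · have hG : a ∈ G := by
          by_contra hG
          have := hb a
          simp [bit_cons, bit_of_not_mem hF, bit_of_not_mem hG] at this
        have hp := List.perm_cons_erase hG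
        have hl := hp.length_eq
        simp only [List.length_cons] at hl h
        rw [par_cons, par_perm hp, par_cons]
        congr 1
        refine ih _ _ (by omega) fun i => ?_
        have := hb i
        rw [bit_cons, bit_perm hp, bit_cons] at this
        by_cases hi : a = i <;> simpa [hi] using this
    intro F G h hb
    cases F with
    | cons a F => exact key a F G h hb
    | nil =>
      cases G with
      | nil => rfl
      | cons a G => exact (key a G [] (by simpa using h) fun i => (hb i).symm).symm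

theorem exists_bit_ne {F G : List ι} (h : par F ≠ par G) : ∃ i, bit i F ≠ bit i G := by
  by_contra hc
  push Not at hc
  exact h (par_eq_of_bits _ F G le_rfl hc)

variable {α : Type} [Primcodable α] [Primcodable ι]

@[fun_prop] theorem bit_comp {i : α → ι} {F : α → List ι} (hi : Computable i) (hF : Computable F) :
    Computable fun a => bit (i a) (F a) := by unfold bit; fun_prop

omit [DecidableEq ι] in
@[fun_prop] theorem par_comp {F : α → List ι} (hF : Computable F) :
    Computable fun a => par (F a) := by unfold par; fun_prop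

end

end Pool.Agent.Lib.MP_9e2528_lc
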