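import Pool.Agent.Lib.MP_9e2528_lc.Base

set_option autoImplicit false

/-! The index set is coanalytic. -/

namespace Pool.Agent.Lib.MP_9e2528_lc

open Encodable Denumerable

def IsLO (e : ℕ) : Prop :=
  (All fun p : ℕ × ℕ => ∃ s, run e s (Nat.pair p.1 p.2) = some 0 ∨ run e s (Nat.pair p.1 p.2) = some 1) ∧
  All fun p : ℕ × ℕ × ℕ => Imp (leI e p.1 p.2.1) (leI e p.1 p.1 ∧ leI e p.2.1 p.2.1) ∧
    Imp (ltI e p.1 p.2.1 ∧ ltI e p.2.1 p.2.2) (ltI e p.1 p.2.2) ∧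
    Imp (leI e p.1 p.1 ∧ leI e p.2.1 p.2.1) (ltI e p.1 p.2.1 ∨ p.1 = p.2.1 ∨ ltI e p.2.1 p.1)

theorem isLO_del : Del 3 IsLO := by unfold IsLO; fun_prop

theorem IsIndex.isLO {e : ℕ} {L : CLO} (h : IsIndex e L) : IsLO e := by
  refine ⟨fun p => ?_, fun p => ⟨fun h1 => ?_, fun h1 => ?_, fun h1 => ?_⟩⟩
  · dsimp only
    rw [exists_or, ← mem_eval_iff, ← mem_eval_iff]
    by_cases h1 : (p.1 ∈ L.dom ∧ p.1 = p.2) ∨ L.lt p.1 p.2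
    · simp [(h _ _).1 h1]
    · simp [(h _ _).2 h1]
  · rw [h.dom, h.dom]
    rcases h.le.1 h1 with ⟨h2, h3⟩ | h2
    · exact ⟨h2, h3 ▸ h2⟩
    · exact L.mem _ _ h2
  · exact h.lt.2 (L.trans _ _ _ (h.lt.1 h1.1) (h.lt.1 h1.2))
  · rw [h.lt, h.lt]
    exact L.total _ (h.dom.1 h1.1) _ (h.dom.1 h1.2)

theorem comp_of_del_one {α : Type} [Primcodable α] {P : α → Prop} (h : Del 1 P) :
    ComputablePred P := by
  have key : ∀ {Q : α → Prop}, Sig 1 Q → REPred Q := fun ⟨A, hA, H⟩ =>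
    (re_exists (p := fun a y => ¬ A (a, y)) (cp_not hA)).of_eq fun a => (H a).symm
  exact ComputablePred.computable_iff_re_compl_re'.2 ⟨key h.1, key h.2⟩

theorem IsLO.index {e : ℕ} (h : IsLO e) : ∃ L, IsIndex e L := by
  have h0 : ∀ a b, ¬ leI e a b ↔ ∃ s, run e s (Nat.pair a b) = some 0 := by
    intro a b
    constructor
    · intro h1
      obtain ⟨s, hs | hs⟩ := h.1 (a, b)
      · exact ⟨s, hs⟩
      · exact absurd ⟨s, hs⟩ h1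
    · intro h1 h2
      exact zero_ne_one (Part.mem_unique (mem_eval_iff.2 h1) (mem_eval_iff.2 h2))
  have h1 : ComputablePred fun p : ℕ × ℕ => leI e p.1 p.2 := comp_of_del_one ⟨by fun_prop,
    Sig.of_eq (P := fun p : ℕ × ℕ => ∃ s, run e s (Nat.pair p.1 p.2) = some 0) (by fun_prop)
      fun p => (h0 _ _).symm⟩
  refine ⟨⟨{a | leI e a a}, ltI e, cp_comp h1 (f := fun a : ℕ => (a, a)) (by fun_prop),
    cp_and h1 (by fun_prop), fun a b hab => (h.2 (a, b, 0)).1 hab.1, fun a ha => ha.2 rfl,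
    fun a b c h1 h2 => (h.2 (a, b, c)).2.1 ⟨h1, h2⟩, fun a ha b hb => (h.2 (a, b, 0)).2.2 ⟨ha, hb⟩⟩,
    fun a b => ?_⟩
  have h2 : (leI e a a ∧ a = b) ∨ ltI e a b ↔ leI e a b := by
    constructor
    · rintro (⟨h, rfl⟩ | h)
      · exact h
      · exact h.1
    · intro h3
      by_cases hab : a = b
      · exact Or.inl ⟨((h.2 (a, b, 0)).1 h3).1, hab⟩
      · exact Or.inr ⟨h3, hab⟩
  exact ⟨fun h3 => Part.eq_some_iff.2 (mem_eval_iff.2 (h2.1 h3)),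
    fun h3 => Part.eq_some_iff.2 (mem_eval_iff.2 ((h0 a b).1 fun h4 => h3 (h2.2 h4)))⟩

theorem isoI_a11 : A11 fun p : ℕ × ℕ => ∃ f, IsoI p.1 p.2 f := by
  have h1 : Sig 2 fun q : (ℕ × ℕ) × List ℕ => Ball (List.range q.2.length) fun a =>
      Imp (leI q.1.1 a a) (leI q.1.2 (q.2[a]?.getD 0).unpair.1 (q.2[a]?.getD 0).unpair.1) ∧
      (Ball (List.range q.2.length) fun b => Imp (leI q.1.1 a a ∧ leI q.1.1 b b)
        ((ltI q.1.1 a b ↔ ltI q.1.2 (q.2[a]?.getD 0).unpair.1 (q.2[b]?.getD 0).unpair.1) ∧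
          Imp ((q.2[a]?.getD 0).unpair.1 = (q.2[b]?.getD 0).unpair.1) (a = b))) ∧
      Imp (leI q.1.2 a a) (leI q.1.1 (q.2[a]?.getD 0).unpair.2 (q.2[a]?.getD 0).unpair.2 ∧
        Imp ((q.2[a]?.getD 0).unpair.2 < q.2.length)
          ((q.2[(q.2[a]?.getD 0).unpair.2]?.getD 0).unpair.1 = a)) := by fun_prop
  refine h1.a11.ex_fun.of_eq ?_
  rintro ⟨e, e'⟩
  simp only [Ball, Imp, List.mem_range, seg_length]
  constructor
  · rintro ⟨F, hF⟩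
    have h2 : ∀ a b, leI e a a → leI e b b →
        (ltI e a b ↔ ltI e' (F a).unpair.1 (F b).unpair.1) ∧
          ((F a).unpair.1 = (F b).unpair.1 → a = b) := by
      intro a b ha hb
      have := (hF (a + b + 1) a (by omega)).2.1 b (by omega) ⟨ha, hb⟩
      rwa [seg_get _ (by omega), seg_get _ (by omega)] at this
    refine ⟨fun a => (F a).unpair.1, ⟨fun a ha => ?_, fun a ha b hb => (h2 a b ha hb).2,
      fun b hb => ?_⟩, fun a ha b hb => (h2 a b ha hb).1⟩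
    · have := (hF (a + 1) a (by omega)).1 ha
      rwa [seg_get _ (by omega)] at this
    · have := (hF (b + (F b).unpair.2 + 1) b (by omega)).2.2 hb
      rw [seg_get _ (by omega), seg_get _ (by omega)] at this
      exact ⟨_, this.1, this.2 (by omega)⟩
  · rintro ⟨f, hf, hf'⟩
    have : ∀ b, ∃ a, leI e' b b → leI e a a ∧ f a = b := by
      intro b
      by_cases hb : leI e' b b
      · obtain ⟨a, ha⟩ := hf.2.2 hb
        exact ⟨a, fun _ => ha⟩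
      · exact ⟨0, fun h => absurd h hb⟩
    choose g hg using this
    refine ⟨fun a => Nat.pair (f a) (g a), fun k a ha => ?_⟩
    rw [seg_get _ ha]
    simp only [Nat.unpair_pair]
    refine ⟨fun h => hf.1 h, fun b hb h => ?_, fun h => ⟨(hg a h).1, fun h1 => ?_⟩⟩
    · rw [seg_get _ hb]
      simp only [Nat.unpair_pair]
      exact ⟨hf' a h.1 b h.2, fun h1 => hf.2.1 h.1 h.2 h1⟩
    · rw [seg_get _ h1]
      simpa using (hg a h).2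

def GI (U : ℕ × ℕ → Prop) (e e' : ℕ) : Prop :=
  (All fun a => Imp (leI e a a) (∃ b, U (a, b)) ∧ Imp (leI e' a a) (∃ b, U (b, a))) ∧
  All fun q : (ℕ × ℕ) × ℕ × ℕ => Imp (U q.1 ∧ U q.2) (leI e q.1.1 q.1.1 ∧ leI e' q.1.2 q.1.2 ∧
    (ltI e q.1.1 q.2.1 ↔ ltI e' q.1.2 q.2.2) ∧ (q.1.1 = q.2.1 ↔ q.1.2 = q.2.2))

theorem gi_iff {U : ℕ × ℕ → Prop} {e e' : ℕ} :
    GI U e e' ↔ ∃ f, IsoI e e' f ∧ ∀ p, U p ↔ leI e p.1 p.1 ∧ f p.1 = p.2 := by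
  constructor
  · rintro ⟨h1, h2⟩
    have : ∀ a, ∃ b, leI e a a → U (a, b) := by
      intro a
      by_cases ha : leI e a a
      · obtain ⟨b, hb⟩ := (h1 a).1 ha
        exact ⟨b, fun _ => hb⟩
      · exact ⟨0, fun h => absurd h ha⟩
    choose f hf using this
    have hU : ∀ p, U p ↔ leI e p.1 p.1 ∧ f p.1 = p.2 := fun p =>
      ⟨fun h => ⟨(h2 (p, p) ⟨h, h⟩).1,
        (h2 ((p.1, f p.1), p) ⟨hf _ (h2 (p, p) ⟨h, h⟩).1, h⟩).2.2.2.1 rfl⟩,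
        fun h => by rw [show p = (p.1, f p.1) from Prod.ext rfl h.2.symm]; exact hf _ h.1⟩
    refine ⟨f, ⟨⟨fun a ha => (h2 (_, _) ⟨hf a ha, hf a ha⟩).2.1,
      fun a ha b hb h => (h2 (_, _) ⟨hf a ha, hf b hb⟩).2.2.2.2 h, fun b hb => ?_⟩,
      fun a ha b hb => (h2 (_, _) ⟨hf a ha, hf b hb⟩).2.2.1⟩, hU⟩
    obtain ⟨a, ha⟩ := (h1 b).2 hb
    exact ⟨a, (hU _).1 ha⟩
  · rintro ⟨f, hf, hU⟩
    refine ⟨fun a => ⟨fun ha => ⟨f a, (hU _).2 ⟨ha, rfl⟩⟩, fun ha => ?_⟩, ?_⟩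
    · obtain ⟨b, hb⟩ := hf.1.2.2 ha
      exact ⟨b, (hU _).2 hb⟩
    · rintro ⟨⟨a, b⟩, a', b'⟩ ⟨h1, h2⟩
      obtain ⟨ha, rfl⟩ : leI e a a ∧ f a = b := (hU _).1 h1
      obtain ⟨ha', rfl⟩ : leI e a' a' ∧ f a' = b' := (hU _).1 h2
      exact ⟨ha, hf.1.1 ha, hf.2 a ha a' ha', congrArg f, fun h => hf.1.2.1 ha ha' h⟩

theorem catIndex_iff {m e : ℕ} : CatIndex (m + 1) e ↔ IsLO e ∧ ∀ e1 e2, IsLO e1 → IsLO e2 →
    (∃ f, IsoI e1 e f) → (∃ f, IsoI e2 e f) → ∃ c, GI (fun p => Uni m c (encode p)) e1 e2 := by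
  constructor
  · rintro ⟨L, h1, h2⟩
    refine ⟨h1.isLO, ?_⟩
    rintro e1 e2 h3 h4 ⟨f, hf⟩ ⟨g, hg⟩
    obtain ⟨M, hM⟩ := h3.index
    obtain ⟨N, hN⟩ := h4.index
    obtain ⟨k, hk, hk', -⟩ := h2 M N ⟨f, (isoI_iff hM h1).1 hf⟩ ⟨g, (isoI_iff hN h1).1 hg⟩
    obtain ⟨c, hc⟩ := uni_univ m hk'
    exact ⟨c, gi_iff.2 ⟨k, (isoI_iff hM hN).2 hk, fun p => by rw [← hc, hM.dom]⟩⟩
  · rintro ⟨h1, h2⟩
    obtain ⟨L, hL⟩ := h1.index
    refine ⟨L, hL, ?_⟩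
    rintro M N ⟨f, hf⟩ ⟨g, hg⟩
    obtain ⟨e1, hM⟩ := exists_index M
    obtain ⟨e2, hN⟩ := exists_index N
    obtain ⟨c, hc⟩ := h2 e1 e2 hM.isLO hN.isLO ⟨f, (isoI_iff hM hL).2 hf⟩ ⟨g, (isoI_iff hN hL).2 hg⟩
    obtain ⟨k, hk, hk'⟩ := gi_iff.1 hc
    refine ⟨k, (isoI_iff hM hN).1 hk, graph_del (((uni_sig m).comp
      (f := fun p : ℕ × ℕ => (c, encode p)) (by fun_prop)).of_eq fun p => ?_)⟩
    rw [← hM.dom]
    exact hk' p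

theorem catIndex_pi11 (m : ℕ) : Pi11 (CatIndex (m + 1)) := by
  obtain ⟨U, hU, hU'⟩ : ∃ U : ℕ × ℕ → Prop, Del (m + 2) U ∧ ∀ p, U p ↔ Uni m p.1 p.2 :=
    ⟨_, (uni_sig m).del, fun _ => Iff.rfl⟩
  have hU3 : Del (m + 3) U := hU.succ
  have h0 : Del (m + 4) fun p : ((ℕ × ℕ) × ℕ) × ℕ =>
      GI (fun q => U (p.2, encode q)) p.1.1.2 p.1.2 := by
    unfold GI; fun_prop
  have h1 : Del (m + 5) fun p : (ℕ × ℕ) × ℕ =>
      ¬ ∃ c, GI (fun q => U (c, encode q)) p.1.2 p.2 := (Sig.ex h0.1).del.not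
  have h2 : A11 fun e : ℕ => ¬ IsLO e ∨ ∃ e1 e2, IsLO e1 ∧ IsLO e2 ∧ (∃ f, IsoI e1 e f) ∧
      (∃ f, IsoI e2 e f) ∧ ¬ ∃ c, GI (fun q => U (c, encode q)) e1 e2 :=
    isLO_del.2.a11.or (A11.ex (A11.ex (A11.and
      (isLO_del.1.a11.comp (f := fun p : (ℕ × ℕ) × ℕ => p.1.2) (by fun_prop)) (A11.and
      (isLO_del.1.a11.comp (f := fun p : (ℕ × ℕ) × ℕ => p.2) (by fun_prop)) (A11.and
      (isoI_a11.comp (f := fun p : (ℕ × ℕ) × ℕ => (p.1.2, p.1.1)) (by fun_prop)) (A11.and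
      (isoI_a11.comp (f := fun p : (ℕ × ℕ) × ℕ => (p.2, p.1.1)) (by fun_prop)) h1.1.a11))))))
  refine pi11_iff.2 (h2.of_eq fun e => ?_)
  simp only [catIndex_iff, hU', not_and_or, not_forall, exists_prop]

theorem not_pi11_compl {I : ℕ → Prop} (h : ∀ S, Pi11 S → S ≤₀ I) : ¬ Pi11 fun e => ¬ I e := by
  rintro ⟨R, hR, H⟩
  obtain ⟨V, hV, hV'⟩ := exists_pi11_not
  obtain ⟨g, hg, hg'⟩ := h V hV
  exact hV' ⟨fun p => R (g p.1, p.2), by fun_prop, fun x => (not_congr (hg' x)).trans (H (g x))⟩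

end Pool.Agent.Lib.MP_9e2528_lc
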