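import Pool.Agent.Lib.MP_9e2528_lc.Defs2
import Pool.Agent.Lib.MP_9e2528_lc.Base

set_option autoImplicit false

/-! Post's theorem: the arithmetical hierarchy and the iterated Turing jumps. -/

namespace Pool.Agent.Lib.MP_9e2528_lc

open Encodable

/-- every program computes a function recursive in the oracle -/
theorem Prog.recIn (g : ℕ →. ℕ) (p : Prog) : Nat.RecursiveIn {g} (p.fn g) := by
  induction p with
  | zero => exact .zero
  | succ => exact .succ
  | left => exact .left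
  | right => exact .right
  | ask => exact .oracle g rfl
  | pair p q hp hq =>
    exact (Nat.RecursiveIn.pair hp hq).of_eq fun n => by
      simp [Prog.fn, Seq.seq, Part.bind_map]
  | comp p q hp hq => exact .comp hp hq
  | prec p q hp hq => exact .prec hp hq
  | rfind p hp => exact .rfind hp

/-- every function recursive in the oracle is computed by a program -/
theorem exists_prog {g f : ℕ →. ℕ} (h : Nat.RecursiveIn {g} f) : ∃ p : Prog, p.fn g = f := by
  induction h with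
  | zero => exact ⟨.zero, rfl⟩
  | succ => exact ⟨.succ, rfl⟩
  | left => exact ⟨.left, rfl⟩
  | right => exact ⟨.right, rfl⟩
  | oracle g' hg => exact ⟨.ask, (Set.mem_singleton_iff.1 hg).symm⟩
  | pair _ _ hp hq =>
    obtain ⟨p, rfl⟩ := hp
    obtain ⟨q, rfl⟩ := hq
    exact ⟨.pair p q, funext fun n => by simp [Prog.fn, Seq.seq, Part.bind_map]⟩
  | comp _ _ hp hq =>
    obtain ⟨p, rfl⟩ := hp
    obtain ⟨q, rfl⟩ := hq
    exact ⟨.comp p q, rfl⟩
  | prec _ _ hp hq =>
    obtain ⟨p, rfl⟩ := hp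
    obtain ⟨q, rfl⟩ := hq
    exact ⟨.prec p q, rfl⟩
  | rfind _ hp =>
    obtain ⟨p, rfl⟩ := hp
    exact ⟨.rfind p, rfl⟩

theorem Prog.num_surj (e : ℕ) : ∃ p : Prog, p.num = e := by
  induction e using Nat.strong_induction_on with
  | _ e ih =>
    by_cases h : e < 5
    · interval_cases e
      exacts [⟨.zero, rfl⟩, ⟨.succ, rfl⟩, ⟨.left, rfl⟩, ⟨.right, rfl⟩, ⟨.ask, rfl⟩]
    · obtain ⟨m, r, hr, rfl⟩ : ∃ m r, r < 4 ∧ e = 4 * m + r + 5 :=
        ⟨(e - 5) / 4, (e - 5) % 4, by omega, by omega⟩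
      have h1 := Nat.unpair_left_le m
      have h2 := Nat.unpair_right_le m
      obtain ⟨p, hp⟩ := ih m.unpair.1 (by omega)
      obtain ⟨q, hq⟩ := ih m.unpair.2 (by omega)
      obtain ⟨s, hs⟩ := ih m (by omega)
      interval_cases r
      · exact ⟨.pair p q, by simp [Prog.num, hp, hq]⟩
      · exact ⟨.comp p q, by simp [Prog.num, hp, hq]⟩
      · exact ⟨.prec p q, by simp [Prog.num, hp, hq]⟩
      · exact ⟨.rfind s, by simp [Prog.num, hs]⟩

theorem Prog.num_inj : ∀ {p q : Prog}, p.num = q.num → p = q := by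
  intro p
  induction p with
  | zero | succ | left | right | ask =>
    intro q h
    cases q <;> first | rfl | (simp only [Prog.num] at h; omega)
  | pair p p' hp hp' | comp p p' hp hp' | prec p p' hp hp' =>
    intro q h
    cases q <;> simp only [Prog.num] at h <;> first
      | omega
      | (rename_i q q'
         have h' := Nat.pair_eq_pair.1 (show Nat.pair p.num p'.num = Nat.pair q.num q'.num by omega)
         rw [hp h'.1, hp' h'.2])
  | rfind p hp =>
    intro q h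
    cases q <;> simp only [Prog.num] at h <;> first
      | omega
      | (rename_i q
         rw [hp (by omega : p.num = q.num)])

/-- one step of a computation record: the triple (program, input, output) follows from triples
of the list `l` -/
def Just (G : ℕ × ℕ → Prop) (l : List (ℕ × ℕ × ℕ)) (e x y : ℕ) : Prop :=
  (e = 0 ∧ y = 0) ∨ (e = 1 ∧ y = x + 1) ∨ (e = 2 ∧ y = x.unpair.1) ∨ (e = 3 ∧ y = x.unpair.2) ∨
  (e = 4 ∧ G (x, y)) ∨
  (∃ a b u v, e = 4 * Nat.pair a b + 5 ∧ (a, x, u) ∈ l ∧ (b, x, v) ∈ l ∧ y = Nat.pair u v) ∨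
  (∃ a b u, e = 4 * Nat.pair a b + 6 ∧ (b, x, u) ∈ l ∧ (a, u, y) ∈ l) ∨
  (∃ a b, e = 4 * Nat.pair a b + 7 ∧ x.unpair.2 = 0 ∧ (a, x.unpair.1, y) ∈ l) ∨
  (∃ a b k u, e = 4 * Nat.pair a b + 7 ∧ x.unpair.2 = k + 1 ∧
    (e, Nat.pair x.unpair.1 k, u) ∈ l ∧ (b, Nat.pair x.unpair.1 (Nat.pair k u), y) ∈ l) ∨
  (∃ a, e = 4 * a + 8 ∧ (a, Nat.pair x y, 0) ∈ l ∧
    Ball (List.range y) fun m => ∃ u, (a, Nat.pair x m, u + 1) ∈ l)

def Rec (G : ℕ × ℕ → Prop) (l : List (ℕ × ℕ × ℕ)) : Prop :=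
  Ball l fun t => Just G l t.1 t.2.1 t.2.2

theorem Just.mono {G : ℕ × ℕ → Prop} {l l' : List (ℕ × ℕ × ℕ)} (hl : l ⊆ l') {e x y : ℕ}
    (h : Just G l e x y) : Just G l' e x y := by
  unfold Just at h ⊢
  rcases h with h | h | h | h | h | ⟨a, b, u, v, h1, h2, h3, h4⟩ | ⟨a, b, u, h1, h2, h3⟩ |
    ⟨a, b, h1, h2, h3⟩ | ⟨a, b, k, u, h1, h2, h3, h4⟩ | ⟨a, h1, h2, h3⟩
  · exact .inl h
  · exact .inr (.inl h)
  · exact .inr (.inr (.inl h))
  · exact .inr (.inr (.inr (.inl h)))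
  · exact .inr (.inr (.inr (.inr (.inl h))))
  · exact .inr (.inr (.inr (.inr (.inr (.inl ⟨a, b, u, v, h1, hl h2, hl h3, h4⟩)))))
  · exact .inr (.inr (.inr (.inr (.inr (.inr (.inl ⟨a, b, u, h1, hl h2, hl h3⟩))))))
  · exact .inr (.inr (.inr (.inr (.inr (.inr (.inr (.inl ⟨a, b, h1, h2, hl h3⟩)))))))
  · exact .inr (.inr (.inr (.inr (.inr (.inr (.inr (.inr (.inl
      ⟨a, b, k, u, h1, h2, hl h3, hl h4⟩))))))))
  · exact .inr (.inr (.inr (.inr (.inr (.inr (.inr (.inr (.inr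
      ⟨a, h1, hl h2, fun m hm => (h3 m hm).imp fun _ hu => hl hu⟩))))))))

theorem Rec.append {G : ℕ × ℕ → Prop} {l l' : List (ℕ × ℕ × ℕ)} (h : Rec G l) (h' : Rec G l') :
    Rec G (l ++ l') := fun t ht =>
  (List.mem_append.1 ht).elim (fun m => (h t m).mono (List.subset_append_left _ _))
    fun m => (h' t m).mono (List.subset_append_right _ _)

theorem Rec.cons {G : ℕ × ℕ → Prop} {l : List (ℕ × ℕ × ℕ)} (h : Rec G l) {e x y : ℕ}
    (h' : Just G l e x y) : ∃ l', Rec G l' ∧ (e, x, y) ∈ l' := by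
  refine ⟨(e, x, y) :: l, fun t ht => ?_, List.mem_cons_self⟩
  rcases List.mem_cons.1 ht with rfl | m
  · exact h'.mono (List.subset_cons_self _ _)
  · exact (h t m).mono (List.subset_cons_self _ _)

theorem rec_nil (G : ℕ × ℕ → Prop) : Rec G [] := fun _ h => absurd h List.not_mem_nil

theorem rec_sound {g : ℕ →. ℕ} {l : List (ℕ × ℕ × ℕ)} (hl : Rec (fun w => w.2 ∈ g w.1) l)
    (p : Prog) : ∀ x y, (p.num, x, y) ∈ l → y ∈ p.fn g x := by
  induction p with
  | zero | succ | left | right | ask =>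
    intro x y h
    have h0 := hl _ h
    simp only [Just, Prog.num] at h0
    rcases h0 with h | h | h | h | h | ⟨a, b, u, v, h1, -⟩ | ⟨a, b, u, h1, -⟩ |
      ⟨a, b, h1, -⟩ | ⟨a, b, k, u, h1, -⟩ | ⟨a, h1, -⟩ <;>
    first | omega | simp_all [Prog.fn]
  | pair p q hp hq =>
    intro x y h
    have h0 := hl _ h
    simp only [Just, Prog.num] at h0
    rcases h0 with h | h | h | h | h | ⟨a, b, u, v, h1, h2, h3, h4⟩ | ⟨a, b, u, h1, -⟩ |
      ⟨a, b, h1, -⟩ | ⟨a, b, k, u, h1, -⟩ | ⟨a, h1, -⟩ <;> try omega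
    obtain ⟨rfl, rfl⟩ := Nat.pair_eq_pair.1 (show Nat.pair p.num q.num = Nat.pair a b by omega)
    exact Part.mem_bind (hp _ _ h2) (h4 ▸ Part.mem_map _ (hq _ _ h3))
  | comp p q hp hq =>
    intro x y h
    have h0 := hl _ h
    simp only [Just, Prog.num] at h0
    rcases h0 with h | h | h | h | h | ⟨a, b, u, v, h1, -⟩ | ⟨a, b, u, h1, h2, h3⟩ |
      ⟨a, b, h1, -⟩ | ⟨a, b, k, u, h1, -⟩ | ⟨a, h1, -⟩ <;> try omega
    obtain ⟨rfl, rfl⟩ := Nat.pair_eq_pair.1 (show Nat.pair p.num q.num = Nat.pair a b by omega)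
    exact Part.mem_bind (hq _ _ h2) (hp _ _ h3)
  | prec p q hp hq =>
    have key : ∀ k x y, x.unpair.2 = k → ((Prog.prec p q).num, x, y) ∈ l →
        y ∈ (Prog.prec p q).fn g x := by
      intro k
      induction k with
      | zero =>
        intro x y hx h
        have h0 := hl _ h
        simp only [Just, Prog.num] at h0
        rcases h0 with h | h | h | h | h | ⟨a, b, u, v, h1, -⟩ | ⟨a, b, u, h1, -⟩ |
          ⟨a, b, h1, h2, h3⟩ | ⟨a, b, k, u, h1, h2, -⟩ | ⟨a, h1, -⟩ <;> try omega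
        obtain ⟨rfl, rfl⟩ :=
          Nat.pair_eq_pair.1 (show Nat.pair p.num q.num = Nat.pair a b by omega)
        simpa [Prog.fn, hx] using hp _ _ h3
      | succ k ih =>
        intro x y hx h
        have h0 := hl _ h
        simp only [Just, Prog.num] at h0
        rcases h0 with h | h | h | h | h | ⟨a, b, u, v, h1, -⟩ | ⟨a, b, u, h1, -⟩ |
          ⟨a, b, h1, h2, h3⟩ | ⟨a, b, k', u, h1, h2, h3, h4⟩ | ⟨a, h1, -⟩ <;> try omega
        obtain ⟨rfl, rfl⟩ :=
          Nat.pair_eq_pair.1 (show Nat.pair p.num q.num = Nat.pair a b by omega)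
        obtain rfl : k = k' := by omega
        have h5 := ih _ u (by simp) h3
        simp only [Prog.fn, Nat.unpair_pair] at h5
        simp only [Prog.fn, hx]
        exact Part.mem_bind h5 (hq _ _ h4)
    exact fun x y => key _ x y rfl
  | rfind p hp =>
    intro x y h
    have h0 := hl _ h
    simp only [Just, Prog.num] at h0
    rcases h0 with h | h | h | h | h | ⟨a, b, u, v, h1, -⟩ | ⟨a, b, u, h1, -⟩ |
      ⟨a, b, h1, -⟩ | ⟨a, b, k, u, h1, -⟩ | ⟨a, h1, h2, h3⟩ <;> try omega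
    obtain rfl : p.num = a := by omega
    refine Nat.mem_rfind.2 ⟨(Part.mem_map_iff _).2 ⟨0, hp _ _ h2, by simp⟩, fun {m} hm => ?_⟩
    obtain ⟨u, hu⟩ := h3 m (List.mem_range.2 hm)
    exact (Part.mem_map_iff _).2 ⟨u + 1, hp _ _ hu, by simp⟩

theorem rec_complete {g : ℕ →. ℕ} (p : Prog) : ∀ x y, y ∈ p.fn g x →
    ∃ l, Rec (fun w => w.2 ∈ g w.1) l ∧ (p.num, x, y) ∈ l := by
  induction p with
  | zero | succ | left | right | ask =>
    intro x y h
    refine (rec_nil _).cons ?_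
    simp_all [Just, Prog.num, Prog.fn]
  | pair p q hp hq =>
    intro x y h
    obtain ⟨u, hu, h⟩ := Part.mem_bind_iff.1 h
    obtain ⟨v, hv, rfl⟩ := (Part.mem_map_iff _).1 h
    obtain ⟨l, hl, m⟩ := hp _ _ hu
    obtain ⟨l', hl', m'⟩ := hq _ _ hv
    exact (hl.append hl').cons (.inr (.inr (.inr (.inr (.inr (.inl
      ⟨_, _, u, v, rfl, by simp [m], by simp [m'], rfl⟩))))))
  | comp p q hp hq =>
    intro x y h
    obtain ⟨u, hu, h⟩ := Part.mem_bind_iff.1 h
    obtain ⟨l, hl, m⟩ := hq _ _ hu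
    obtain ⟨l', hl', m'⟩ := hp _ _ h
    exact (hl.append hl').cons (.inr (.inr (.inr (.inr (.inr (.inr (.inl
      ⟨_, _, u, rfl, by simp [m], by simp [m']⟩)))))))
  | prec p q hp hq =>
    have key : ∀ k x y, x.unpair.2 = k → y ∈ (Prog.prec p q).fn g x →
        ∃ l, Rec (fun w => w.2 ∈ g w.1) l ∧ ((Prog.prec p q).num, x, y) ∈ l := by
      intro k
      induction k with
      | zero =>
        intro x y hx h
        simp only [Prog.fn, hx] at h
        obtain ⟨l, hl, m⟩ := hp _ _ h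
        exact hl.cons (.inr (.inr (.inr (.inr (.inr (.inr (.inr (.inl
          ⟨_, _, rfl, hx, m⟩))))))))
      | succ k ih =>
        intro x y hx h
        simp only [Prog.fn, hx] at h
        obtain ⟨u, hu, h⟩ := Part.mem_bind_iff.1 h
        obtain ⟨l, hl, m⟩ := ih (Nat.pair x.unpair.1 k) u (by simp)
          (by simpa only [Prog.fn, Nat.unpair_pair] using hu)
        obtain ⟨l', hl', m'⟩ := hq _ _ h
        exact (hl.append hl').cons (.inr (.inr (.inr (.inr (.inr (.inr (.inr (.inr (.inl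
          ⟨_, _, k, u, rfl, hx, by simp [m], by simp [m']⟩)))))))))
    exact fun x y => key _ x y rfl
  | rfind p hp =>
    intro x y h
    obtain ⟨h1, h2⟩ := Nat.mem_rfind.1 h
    obtain ⟨z, hz, hz'⟩ := (Part.mem_map_iff _).1 h1
    obtain rfl : z = 0 := by simpa using hz'
    obtain ⟨l, hl, m⟩ := hp _ _ hz
    have key : ∀ k ≤ y, ∃ l', Rec (fun w => w.2 ∈ g w.1) l' ∧
        ∀ j < k, ∃ u, (p.num, Nat.pair x j, u + 1) ∈ l' := by
      intro k
      induction k with
      | zero => exact fun _ => ⟨[], rec_nil _, by simp⟩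
      | succ k ih =>
        intro hk
        obtain ⟨l', hl', m'⟩ := ih (by omega)
        obtain ⟨z, hz, hz'⟩ := (Part.mem_map_iff _).1 (h2 (show k < y by omega))
        obtain ⟨u, rfl⟩ : ∃ u, z = u + 1 := ⟨z - 1, by
          have : z ≠ 0 := by simpa using hz'
          omega⟩
        obtain ⟨l'', hl'', m''⟩ := hp _ _ hz
        refine ⟨l' ++ l'', hl'.append hl'', fun j hj => ?_⟩
        rcases Nat.lt_succ_iff_lt_or_eq.1 hj with h | rfl
        · exact (m' j h).imp fun _ hu => by simp [hu]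
        · exact ⟨u, by simp [m'']⟩
    obtain ⟨l', hl', m'⟩ := key y le_rfl
    exact (hl.append hl').cons (.inr (.inr (.inr (.inr (.inr (.inr (.inr (.inr (.inr
      ⟨_, rfl, by simp [m], fun j hj => (m' j (List.mem_range.1 hj)).imp fun _ hu => by
        simp [hu]⟩)))))))))

theorem rec_sig {n : ℕ} {G : ℕ × ℕ → Prop} (hG : Sig (n + 1) G) :
    Sig (n + 1) fun t : ℕ × ℕ × ℕ => ∃ l, Rec G l ∧ t ∈ l := by
  unfold Rec Just
  fun_prop

/-- the universal relation is `Sigma` of the level of the graph of the oracle -/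
theorem eval_sig {n : ℕ} {g : ℕ →. ℕ} (hg : Sig (n + 1) fun w : ℕ × ℕ => w.2 ∈ g w.1) :
    Sig (n + 1) fun t : ℕ × ℕ × ℕ => ∃ p : Prog, p.num = t.1 ∧ t.2.2 ∈ p.fn g t.2.1 := by
  refine (rec_sig hg).of_eq ?_
  rintro ⟨e, x, y⟩
  constructor
  · rintro ⟨l, hl, m⟩
    obtain ⟨p, rfl⟩ := Prog.num_surj e
    exact ⟨p, rfl, rec_sound hl p x y m⟩
  · rintro ⟨p, rfl, h⟩
    exact rec_complete p x y h

theorem chi_sig {n : ℕ} {A : Set ℕ} (h : Sig n fun x => x ∈ A) :
    Sig (n + 1) fun w : ℕ × ℕ => w.2 ∈ chi A w.1 := by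
  obtain ⟨D, hD, hD'⟩ : ∃ D : ℕ → Prop, Del (n + 1) D ∧ ∀ a, D a ↔ a ∈ A :=
    ⟨_, h.del, fun _ => Iff.rfl⟩
  have : Sig (n + 1) fun w : ℕ × ℕ => (D w.1 ∧ w.2 = 1) ∨ (¬ D w.1 ∧ w.2 = 0) := by fun_prop
  refine this.of_eq fun w => ?_
  by_cases hw : w.1 ∈ A <;> simp [chi, hD', hw]

theorem jump_sig (n : ℕ) : Sig n fun x => x ∈ jump^[n] ∅ := by
  induction n with
  | zero => exact (Sig.const False).of_eq fun x => by simp
  | succ n ih =>
    have h := Sig.ex (R := fun (e : ℕ) (y : ℕ) => ∃ p : Prog, p.num = e ∧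
      y ∈ p.fn (chi (jump^[n] ∅)) e)
      ((eval_sig (chi_sig ih)).comp (f := fun q : ℕ × ℕ => (q.1, q.1, q.2)) (by fun_prop))
    refine h.of_eq fun e => ?_
    rw [Function.iterate_succ_apply']
    constructor
    · rintro ⟨y, p, h1, h2⟩
      exact ⟨p, h1, Part.dom_iff_mem.2 ⟨y, h2⟩⟩
    · rintro ⟨p, h1, h2⟩
      obtain ⟨y, hy⟩ := Part.dom_iff_mem.1 h2
      exact ⟨y, p, h1, hy⟩

/-- Post, first half: a function recursive in the `n`-th jump has a `Sigma (n + 1)` graph -/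
theorem sig_of_recIn {n : ℕ} {f : ℕ →. ℕ} (h : Nat.RecursiveIn {chi (jump^[n] ∅)} f) :
    Sig (n + 1) fun w : ℕ × ℕ => w.2 ∈ f w.1 := by
  obtain ⟨p, rfl⟩ := exists_prog h
  refine ((eval_sig (chi_sig (jump_sig n))).comp
    (f := fun q : ℕ × ℕ => (p.num, q.1, q.2)) (by fun_prop)).of_eq fun w => ?_
  exact ⟨fun ⟨q, h1, h2⟩ => Prog.num_inj h1 ▸ h2, fun h => ⟨p, rfl, h⟩⟩

/-- the program for a constant -/
def Prog.cst : ℕ → Prog
  | 0 => .zero
  | k + 1 => .comp .succ (Prog.cst k)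

theorem Prog.eval_cst (g : ℕ →. ℕ) (k x : ℕ) : (Prog.cst k).fn g x = Part.some k := by
  induction k with
  | zero => rfl
  | succ k ih => simp [Prog.cst, Prog.fn, ih]

theorem Prog.num_cst : Computable fun k => (Prog.cst k).num := by
  have h := Computable.nat_rec (f := fun k : ℕ => k) (g := fun _ => (0 : ℕ))
    (h := fun _ (w : ℕ × ℕ) => 4 * Nat.pair 1 w.2 + 6) Computable.id (Computable.const 0)
    (show Computable fun x : ℕ × ℕ × ℕ => 4 * Nat.pair 1 x.2.2 + 6 by fun_prop)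
  refine h.of_eq fun k => ?_
  induction k with
  | zero => rfl
  | succ k ih => simp only [Prog.cst, Prog.num, ← ih]

theorem recIn_comp {g f : ℕ →. ℕ} {s : ℕ → ℕ} (h : Nat.RecursiveIn {g} f) (hs : Computable s) :
    Nat.RecursiveIn {g} fun x => f (s x) :=
  (Nat.RecursiveIn.comp h (Partrec.nat_iff.1 hs.partrec).recursiveIn).of_eq fun _ =>
    Part.bind_some _ _

theorem mem_search {A : Set ℕ} {a n : ℕ} :
    n ∈ (Nat.rfind fun n => (fun m => decide (m = 0)) <$> chi A (Nat.pair a n)) ↔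
      Nat.pair a n ∉ A ∧ ∀ m < n, Nat.pair a m ∈ A := by
  refine Nat.mem_rfind.trans ?_
  simp [chi, Set.indicator_apply_eq_zero]

theorem search_dom {A : Set ℕ} {a : ℕ} (h : ∃ n, Nat.pair a n ∉ A) :
    ∃ n, n ∈ (Nat.rfind fun n => (fun m => decide (m = 0)) <$> chi A (Nat.pair a n)) := by
  classical
  exact ⟨Nat.find h, mem_search.2 ⟨Nat.find_spec h, fun m hm => not_not.1 (Nat.find_min h hm)⟩⟩

/-- Post, second half: a `Sigma n` set is recursive in the `n`-th jump -/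
theorem recIn_of_sig (n : ℕ) : ∀ {A : Set ℕ}, (Sig n fun x => x ∈ A) →
    Nat.RecursiveIn {chi (jump^[n] ∅)} (chi A) := by
  classical
  induction n with
  | zero =>
    intro A h
    have h' : ComputablePred fun x => x ∈ A := h
    have h1 : Computable fun x => if x ∈ A then 1 else 0 :=
      c_ite h' (Computable.const 1) (Computable.const 0)
    exact (Partrec.nat_iff.1 h1.partrec).recursiveIn.of_eq fun x => by
      simp [chi, Set.indicator_apply]
  | succ n ih =>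
    rintro A ⟨Q, hQ, H⟩
    obtain ⟨p, hp⟩ := exists_prog (Nat.RecursiveIn.rfind
      (ih (A := {w | Q w.unpair}) (hQ.comp Computable.unpair)))
    have hc := Prog.num_cst
    have hs : Computable fun x => 4 * Nat.pair p.num (Prog.cst x).num + 6 := by fun_prop
    refine (recIn_comp (.oracle _ rfl) hs).of_eq fun x => ?_
    have : 4 * Nat.pair p.num (Prog.cst x).num + 6 ∈ jump^[n + 1] ∅ ↔ x ∈ A := by
      rw [Function.iterate_succ_apply', show x ∈ A ↔ _ from H x]
      constructor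
      · rintro ⟨q, h1, h2⟩
        obtain rfl : q = .comp p (.cst x) := Prog.num_inj h1
        simp only [Prog.fn, Prog.eval_cst, Part.bind_some, hp] at h2
        obtain ⟨y, hy⟩ := Part.dom_iff_mem.1 h2
        exact ⟨y, by simpa using (mem_search.1 hy).1⟩
      · rintro ⟨y, hy⟩
        refine ⟨.comp p (.cst x), rfl, ?_⟩
        simp only [Prog.fn, Prog.eval_cst, Part.bind_some, hp]
        exact Part.dom_iff_mem.2 (search_dom ⟨y, by simpa using hy⟩)
    simp only [chi, Set.indicator_apply, this]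

/-- a total function with a `Sigma (n + 1)` graph is recursive in the `n`-th jump -/
theorem recIn_of_graph {n : ℕ} {f : ℕ → ℕ} (h : Sig (n + 1) fun w : ℕ × ℕ => f w.1 = w.2) :
    Nat.RecursiveIn {chi (jump^[n] ∅)} fun a => Part.some (f a) := by
  obtain ⟨Q, hQ, H⟩ := h
  have h1 := Nat.RecursiveIn.rfind (recIn_of_sig n
    (A := {w | Q ((w.unpair.1, w.unpair.2.unpair.1), w.unpair.2.unpair.2)})
    (hQ.comp (by fun_prop)))
  refine (Nat.RecursiveIn.comp .left h1).of_eq fun a => ?_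
  obtain ⟨z, hz⟩ := (H (a, f a)).1 rfl
  obtain ⟨w, hw⟩ := search_dom (a := a)
    (A := {w | Q ((w.unpair.1, w.unpair.2.unpair.1), w.unpair.2.unpair.2)})
    ⟨Nat.pair (f a) z, by simpa using hz⟩
  have h2 : f a = w.unpair.1 := (H (a, w.unpair.1)).2 ⟨w.unpair.2, by simpa using (mem_search.1 hw).1⟩
  rw [Part.eq_some_iff.2 hw, h2]
  simp

theorem jumpCat_iff {n : ℕ} {L : CLO} : JumpCat (n + 1) L ↔ DeltaCat (n + 1) L := by
  classical
  refine forall₄_congr fun M N _ _ => ⟨?_, ?_⟩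
  · rintro ⟨f, h1, h2⟩
    refine ⟨f, h1, graph_del ?_⟩
    have h3 := sig_of_recIn (RecursiveIn.iff_nat.1 h2)
    exact Sig.and (Sig.of_comp (cp_comp M.dom_comp Computable.fst))
      (h3.of_eq fun w => by simp [eq_comm])
  · rintro ⟨f, h1, h2⟩
    refine ⟨fun a => if a ∈ M.dom then f a else 0, ⟨h1.1.congr fun a ha => by simp [ha],
      fun a ha b hb => by simpa [ha, hb] using h1.2 a ha b hb⟩,
      RecursiveIn.iff_nat.2 (recIn_of_graph ?_)⟩
    have h3 : Sig (n + 1) fun w : ℕ × ℕ => w.1 ∉ M.dom ∧ w.2 = 0 :=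
      Sig.of_comp (cp_and (cp_not (cp_comp M.dom_comp Computable.fst)) (by fun_prop))
    refine (h2.1.or h3).of_eq fun w => ?_
    by_cases hw : w.1 ∈ M.dom <;> simp [hw, eq_comm]

theorem jumpIndex_eq (n : ℕ) : JumpIndex (n + 1) = CatIndex (n + 1) := by
  funext e
  simp only [JumpIndex, CatIndex, jumpCat_iff]

end Pool.Agent.Lib.MP_9e2528_lc
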