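import Pool.Agent.Lib.MP_9e2528_lc.Mem

set_option autoImplicit false

/-! A general back-and-forth construction, plain and inside the arithmetical hierarchy. -/

namespace Pool.Agent.Lib.MP_9e2528_lc.T3

open Encodable

section
variable {α β K K' : Type} [LinearOrder K] [LinearOrder K']

/-- a finite order preserving list of admissible pairs -/
def OkL (ka : α → K) (kb : β → K') (E : α → β → Prop) (p : List (α × β)) : Prop :=
  Ball p fun q => Ball p fun q' => E q.1 q.2 ∧ E q'.1 q'.2 ∧ (ka q.1 < ka q'.1 ↔ kb q.2 < kb q'.2)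

/-- every point of `D` has a unique well placed partner, or a dense class of partners -/
def Loc (D : α → Prop) (ka : α → K) (kb : β → K') (E : α → β → Prop) : Prop :=
  ∀ a, D a → (∃ b, E a b ∧ ∀ a' b', E a' b' →
      (ka a < ka a' ↔ kb b < kb b') ∧ (ka a' < ka a ↔ kb b' < kb b)) ∨
    ∃ Z : β → Prop, (∀ b, E a b → Z b) ∧ (∃ b, E a b) ∧
      (∀ u, Z u → ∃ b, E a b ∧ kb b < kb u) ∧ (∀ u, Z u → ∃ b, E a b ∧ kb u < kb b) ∧
      (∀ u v, Z u → Z v → kb u < kb v → ∃ b, E a b ∧ kb u < kb b ∧ kb b < kb v) ∧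
      ∀ a' b', E a' b' → Z b' ∨ (ka a' < ka a ∧ ∀ z, Z z → kb b' < kb z) ∨
        (ka a < ka a' ∧ ∀ z, Z z → kb z < kb b')

/-- `G` is the graph of an order isomorphism from `D` onto `D'` inside `E` -/
structure IsoR (D : α → Prop) (D' : β → Prop) (ka : α → K) (kb : β → K') (E : α → β → Prop)
    (G : α × β → Prop) : Prop where
  sub : ∀ a b, G (a, b) → E a b
  tot : ∀ a, D a → ∃ b, G (a, b)
  sur : ∀ b, D' b → ∃ a, G (a, b)
  ord : ∀ a b a' b', G (a, b) → G (a', b') → (ka a < ka a' ↔ kb b < kb b')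

variable {D : α → Prop} {D' : β → Prop} {ka : α → K} {kb : β → K'} {E : α → β → Prop}

theorem OkL.cons {p : List (α × β)} (h : OkL ka kb E p) {a : α} {b : β} (hab : E a b)
    (H : ∀ q ∈ p, (ka a < ka q.1 ↔ kb b < kb q.2) ∧ (ka q.1 < ka a ↔ kb q.2 < kb b)) :
    OkL ka kb E ((a, b) :: p) := by
  intro q hq q' hq'
  rcases List.mem_cons.1 hq with rfl | hq <;> rcases List.mem_cons.1 hq' with rfl | hq'
  · exact ⟨hab, hab, by simp⟩
  · exact ⟨hab, (h _ hq' _ hq').1, (H _ hq').1⟩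
  · exact ⟨(h _ hq _ hq).1, hab, (H _ hq).2⟩
  · exact h _ hq _ hq'

theorem Loc.forth (hL : Loc D ka kb E) (hi : ∀ a b a' b', E a b → E a' b' → ka a = ka a' → a = a')
    {p : List (α × β)} (h : OkL ka kb E p) {a : α} (ha : D a) :
    ∃ b, OkL ka kb E ((a, b) :: p) := by
  classical
  rcases hL a ha with ⟨b, hb, H⟩ | ⟨Z, h1, h2, h3, h4, h5, h6⟩
  · exact ⟨b, h.cons hb fun q hq => H _ _ (h q hq q hq).1⟩
  by_cases hm : ∃ q ∈ p, ka q.1 = ka a
  · obtain ⟨q, hq, he⟩ := hm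
    obtain ⟨b, hb⟩ := h2
    obtain rfl := hi _ _ _ _ (h q hq q hq).1 hb he
    exact ⟨q.2, h.cons (h q hq q hq).1 fun q' hq' => ⟨(h q hq q' hq').2.2, (h q' hq' q hq).2.2⟩⟩
  obtain ⟨c, ⟨b, hb, rfl⟩, h7, h8⟩ := cut_lemma (C := fun c => ∃ b, E a b ∧ kb b = c)
    (Z := fun c => ∃ b, Z b ∧ kb b = c) (fun c ⟨b, hb, he⟩ => ⟨b, h1 b hb, he⟩)
    (h2.elim fun b hb => ⟨_, b, hb, rfl⟩)
    (by rintro _ ⟨u, hu, rfl⟩; obtain ⟨b, hb, hl⟩ := h3 u hu; exact ⟨_, ⟨b, hb, rfl⟩, hl⟩)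
    (by rintro _ ⟨u, hu, rfl⟩; obtain ⟨b, hb, hl⟩ := h4 u hu; exact ⟨_, ⟨b, hb, rfl⟩, hl⟩)
    (by
      rintro _ _ ⟨u, hu, rfl⟩ ⟨v, hv, rfl⟩ hl
      obtain ⟨b, hb, hl⟩ := h5 u v hu hv hl
      exact ⟨_, ⟨b, hb, rfl⟩, hl⟩)
    ((p.filter fun q => decide (ka q.1 < ka a)).map fun q => kb q.2)
    ((p.filter fun q => decide (ka a < ka q.1)).map fun q => kb q.2)
    (by
      simp only [List.mem_map, List.mem_filter, decide_eq_true_eq]
      rintro _ ⟨q, ⟨hq, hl⟩, rfl⟩ _ ⟨q', ⟨hq', hl'⟩, rfl⟩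
      exact (h q hq q' hq').2.2.1 (hl.trans hl'))
    (by
      simp only [List.mem_map, List.mem_filter, decide_eq_true_eq]
      rintro _ ⟨q, ⟨hq, hl⟩, rfl⟩
      rcases h6 _ _ (h q hq q hq).1 with h7 | h7 | h7
      · exact Or.inl ⟨_, h7, rfl⟩
      · exact Or.inr (by rintro _ ⟨z, hz, rfl⟩; exact h7.2 z hz)
      · exact absurd hl (lt_asymm h7.1))
    (by
      simp only [List.mem_map, List.mem_filter, decide_eq_true_eq]
      rintro _ ⟨q, ⟨hq, hl⟩, rfl⟩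
      rcases h6 _ _ (h q hq q hq).1 with h7 | h7 | h7
      · exact Or.inl ⟨_, h7, rfl⟩
      · exact absurd hl (lt_asymm h7.1)
      · exact Or.inr (by rintro _ ⟨z, hz, rfl⟩; exact h7.2 z hz))
  simp only [List.mem_map, List.mem_filter, decide_eq_true_eq] at h7 h8
  refine ⟨b, h.cons hb fun q hq => ?_⟩
  rcases lt_trichotomy (ka a) (ka q.1) with hl | hl | hl
  · have := h8 _ ⟨q, ⟨hq, hl⟩, rfl⟩
    simp [hl, this, lt_asymm hl, lt_asymm this]
  · exact absurd ⟨q, hq, hl.symm⟩ hm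
  · have := h7 _ ⟨q, ⟨hq, hl⟩, rfl⟩
    simp [hl, this, lt_asymm hl, lt_asymm this]

theorem OkL.swap {p : List (α × β)} (h : OkL ka kb E p) :
    OkL kb ka (fun b a => E a b) (p.map Prod.swap) := by
  intro q hq q' hq'
  obtain ⟨q, hq1, rfl⟩ := List.mem_map.1 hq
  obtain ⟨q', hq2, rfl⟩ := List.mem_map.1 hq'
  exact ⟨(h q hq1 q' hq2).1, (h q hq1 q' hq2).2.1, (h q hq1 q' hq2).2.2.symm⟩

theorem Loc.back (hL : Loc D' kb ka fun b a => E a b)
    (hi : ∀ a b a' b', E a b → E a' b' → kb b = kb b' → b = b')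
    {p : List (α × β)} (h : OkL ka kb E p) {b : β} (hb : D' b) :
    ∃ a, OkL ka kb E ((a, b) :: p) := by
  obtain ⟨a, ha⟩ := hL.forth (fun b a b' a' h1 h2 => hi a b a' b' h1 h2) h.swap hb
  exact ⟨a, by simpa using ha.swap⟩

/-- transport of the local condition along presentations -/
theorem Loc.lift {γ δ : Type} {C : γ → Prop} {C' : δ → Prop} {g : γ → α} {g' : δ → β}
    (hL : Loc D ka kb E) (hE : ∀ a b, E a b → D' b) (hg : ∀ x, C x → D (g x))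
    (hg' : ∀ b, D' b → ∃ y, C' y ∧ g' y = b) :
    Loc C (fun x => ka (g x)) (fun y => kb (g' y)) fun x y => C x ∧ C' y ∧ E (g x) (g' y) := by
  intro x hx
  have key : ∀ {P : β → Prop}, (∃ b, E (g x) b ∧ P b) →
      ∃ y, (C x ∧ C' y ∧ E (g x) (g' y)) ∧ P (g' y) := by
    rintro P ⟨b, hb, hP⟩
    obtain ⟨y, hy, rfl⟩ := hg' b (hE _ _ hb)
    exact ⟨y, ⟨hx, hy, hb⟩, hP⟩
  rcases hL _ (hg x hx) with h | ⟨Z, h1, h2, h3, h4, h5, h6⟩
  · obtain ⟨y, hy, H⟩ := key h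
    exact Or.inl ⟨y, hy, fun x' y' h' => H _ _ h'.2.2⟩
  · refine Or.inr ⟨fun y => Z (g' y), fun y hy => h1 _ hy.2.2, ?_, fun u hu => key (h3 _ hu),
      fun u hu => key (h4 _ hu), fun u v hu hv hl => key (h5 _ _ hu hv hl), fun x' y' h' => ?_⟩
    · obtain ⟨b, hb⟩ := h2
      obtain ⟨y, hy, -⟩ := key (P := fun _ => True) ⟨b, hb, trivial⟩
      exact ⟨y, hy⟩
    · exact (h6 _ _ h'.2.2).imp id (Or.imp (fun h => ⟨h.1, fun z hz => h.2 _ hz⟩)
        fun h => ⟨h.1, fun z hz => h.2 _ hz⟩)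

variable [Primcodable α] [Primcodable β] [Inhabited α] [Inhabited β]

/-- one step of the construction -/
def ExtL (D : α → Prop) (D' : β → Prop) (j : ℕ) (p p' : List (α × β)) : Prop :=
  (Ball p fun q => q ∈ p') ∧
    Imp (D ((decode j).getD default)) (Bex p' fun q => q.1 = (decode j).getD default) ∧
    Imp (D' ((decode j).getD default)) (Bex p' fun q => q.2 = (decode j).getD default)

theorem ext_step (hL : Loc D ka kb E) (hL' : Loc D' kb ka fun b a => E a b)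
    (hi : ∀ a b a' b', E a b → E a' b' → (ka a = ka a' → a = a') ∧ (kb b = kb b' → b = b'))
    (j : ℕ) {p : List (α × β)} (h : OkL ka kb E p) : ∃ p', OkL ka kb E p' ∧ ExtL D D' j p p' := by
  have h1 : ∃ p1, OkL ka kb E p1 ∧ (∀ q ∈ p, q ∈ p1) ∧
      (D ((decode j).getD default) → ∃ q ∈ p1, q.1 = (decode j).getD default) := by
    by_cases hd : D ((decode j).getD default)
    · obtain ⟨b, hb⟩ := hL.forth (fun a b a' b' h1 h2 => (hi a b a' b' h1 h2).1) h hd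
      exact ⟨_, hb, fun q hq => List.mem_cons_of_mem _ hq, fun _ => ⟨_, List.mem_cons_self, rfl⟩⟩
    · exact ⟨p, h, fun _ h => h, fun h => absurd h hd⟩
  obtain ⟨p1, h1, h2, h3⟩ := h1
  by_cases hd : D' ((decode j).getD default)
  · obtain ⟨a, ha⟩ := hL'.back (fun a b a' b' h1 h2 => (hi a b a' b' h1 h2).2) h1 hd
    refine ⟨_, ha, fun q hq => List.mem_cons_of_mem _ (h2 q hq), fun h => ?_,
      fun _ => ⟨_, List.mem_cons_self, rfl⟩⟩
    obtain ⟨q, hq, he⟩ := h3 h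
    exact ⟨q, List.mem_cons_of_mem _ hq, he⟩
  · exact ⟨p1, h1, h2, h3, fun h => absurd h hd⟩

theorem isoR_of_seq {Q : ℕ → List (α × β)}
    (h : ∀ j, OkL ka kb E (Q j) ∧ ExtL D D' j (Q j) (Q (j + 1))) :
    IsoR D D' ka kb E fun q => ∃ j, q ∈ Q j := by
  have hmono : ∀ j k, j ≤ k → ∀ q ∈ Q j, q ∈ Q k := by
    intro j k hjk
    induction hjk with
    | refl => exact fun _ h => h
    | step _ ih => exact fun q hq => (h _).2.1 q (ih q hq)
  refine ⟨fun a b ⟨j, hj⟩ => ((h j).1 _ hj _ hj).1, fun a ha => ?_, fun b hb => ?_,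
    fun a b a' b' ⟨j, hj⟩ ⟨k, hk⟩ => ((h (max j k)).1 _ (hmono j _ (le_max_left j k) _ hj) _
      (hmono k _ (le_max_right j k) _ hk)).2.2⟩
  · obtain ⟨q, hq, he⟩ := (h (encode a)).2.2.1 (by simpa using ha)
    exact ⟨q.2, _, by simpa [show a = q.1 by simpa using he.symm] using hq⟩
  · obtain ⟨q, hq, he⟩ := (h (encode b)).2.2.2 (by simpa using hb)
    exact ⟨q.1, _, by simpa [show b = q.2 by simpa using he.symm] using hq⟩

/-- back and forth -/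
theorem bf_iso (hL : Loc D ka kb E) (hL' : Loc D' kb ka fun b a => E a b)
    (hi : ∀ a b a' b', E a b → E a' b' → (ka a = ka a' → a = a') ∧ (kb b = kb b' → b = b')) :
    ∃ G, IsoR D D' ka kb E G := by
  obtain ⟨Q, -, hQ⟩ := dep_choice (R := ExtL D D') (Inv := OkL ka kb E) (b0 := [])
    (by simp [OkL, Ball]) fun j p hp => by
      obtain ⟨p', h1, h2⟩ := ext_step hL hL' hi j hp
      exact ⟨p', h2, h1⟩
  exact ⟨_, isoR_of_seq hQ⟩

/-- back and forth inside the hierarchy -/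
theorem bf_iso_sig {n : ℕ} (hL : Loc D ka kb E) (hL' : Loc D' kb ka fun b a => E a b)
    (hi : ∀ a b a' b', E a b → E a' b' → (ka a = ka a' → a = a') ∧ (kb b = kb b' → b = b'))
    (hD : Del (n + 1) D) (hD' : Del (n + 1) D')
    (hO : Sig (n + 1) fun q : (α × β) × α × β => E q.1.1 q.1.2 ∧ E q.2.1 q.2.2 ∧
      (ka q.1.1 < ka q.2.1 ↔ kb q.1.2 < kb q.2.2)) :
    ∃ G, IsoR D D' ka kb E G ∧ Sig (n + 1) G := by
  obtain ⟨O, hO, hO'⟩ : ∃ O : (α × β) × α × β → Prop, Sig (n + 1) O ∧ ∀ q, O q ↔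
    E q.1.1 q.1.2 ∧ E q.2.1 q.2.2 ∧ (ka q.1.1 < ka q.2.1 ↔ kb q.1.2 < kb q.2.2) :=
    ⟨_, hO, fun _ => Iff.rfl⟩
  have hk : ∀ p, (Ball p fun q => Ball p fun q' => O (q, q')) ↔ OkL ka kb E p := fun p => by
    simp only [OkL, hO']
  obtain ⟨Q, -, hQ, hQ'⟩ := Sig.dep_choice (n := n)
    (R := fun q : ℕ × List (α × β) × List (α × β) =>
      (Ball q.2.2 fun r => Ball q.2.2 fun r' => O (r, r')) ∧ ExtL D D' q.1 q.2.1 q.2.2)
    (by unfold ExtL; fun_prop) (Inv := OkL ka kb E) (b0 := []) (by simp [OkL, Ball])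
    (fun j p hp => by simpa only [hk] using ext_step hL hL' hi j hp)
    (fun j b b' _ h => (hk _).1 h.1)
  refine ⟨_, isoR_of_seq (Q := Q) fun j => ⟨(hQ j).1, (hQ j).2.2⟩, ?_⟩
  obtain ⟨A, hA, hA'⟩ : ∃ A : ℕ × List (α × β) → Prop, Sig (n + 1) A ∧ ∀ p, A p ↔ Q p.1 = p.2 :=
    ⟨_, hQ', fun _ => Iff.rfl⟩
  have : Sig (n + 1) fun p : α × β => ∃ j l, A (j, l) ∧ p ∈ l := by fun_prop
  exact this.of_eq fun p => by simp [hA']

end

end Pool.Agent.Lib.MP_9e2528_lc.T3
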