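import Pool.Agent.Lib.MP_9e2528_lc.T1e

set_option autoImplicit false

/-! Coding of labelled linear orders by plain computable linear orders. -/

namespace Pool.Agent.Lib.MP_9e2528_lc.T3

open Encodable

/-- what three quantifiers read off the `e`-th program: heads and labels shown by a stage -/
structure Opp where
  Hd : ℕ → ℕ → Prop
  Sh : ℕ → ℕ → ℕ → ℕ → Prop
  hd_del : Del 3 fun p : ℕ × ℕ => Hd p.1 p.2
  sh_del : Del 3 fun p : ℕ × ℕ × ℕ × ℕ => Sh p.1 p.2.1 p.2.2.1 p.2.2.2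
  sh_mono : ∀ e x l s t, Sh e x l s → s ≤ t → Sh e x l t
  sh_lt : ∀ e x l s, Sh e x l s → l < s

/-- `f` is a label preserving order isomorphism from the heads of the `e`-th program onto `V` -/
structure Rep (O : Opp) {A K : Type} [LinearOrder K] (k : A → K) (V : A → Prop)
    (Lab : A → ℕ → Prop) (e : ℕ) (f : ℕ → A) : Prop where
  val : ∀ x, O.Hd e x → V (f x)
  sur : ∀ y, V y → ∃ x, O.Hd e x ∧ f x = y
  inj : ∀ x x', O.Hd e x → O.Hd e x' → f x = f x' → x = x'
  ord : ∀ x x', O.Hd e x → O.Hd e x' → (ltI e x x' ↔ k (f x) < k (f x'))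
  lab : ∀ x l, O.Hd e x → ((∃ s, O.Sh e x l s) ↔ Lab (f x) l)

/-- `G` is a label preserving order isomorphism between the heads of two programs -/
structure HIso (O : Opp) (e e' : ℕ) (G : ℕ × ℕ → Prop) : Prop where
  hd : ∀ x x', G (x, x') → O.Hd e x ∧ O.Hd e' x'
  tot : ∀ x, O.Hd e x → ∃ x', G (x, x')
  sur : ∀ x', O.Hd e' x' → ∃ x, G (x, x')
  ord : ∀ x x' z z', G (x, x') → G (z, z') → (ltI e x z ↔ ltI e' x' z')
  lab : ∀ x x' l, G (x, x') → ((∃ s, O.Sh e x l s) ↔ ∃ s, O.Sh e' x' l s)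

namespace C

open Function

variable {A K : Type} [Primcodable A] [LinearOrder K]

theorem lexk_comp {k : A → K} (hk : Injective k)
    (hc : ComputablePred fun p : A × A => k p.1 < k p.2) :
    ComputablePred fun p : (A × List ℕ) × A × List ℕ => lexk k p.1 < lexk k p.2 :=
  (cp_or (cp_comp hc (f := fun p : (A × List ℕ) × A × List ℕ => (p.1.1, p.2.1)) (by fun_prop))
    (show ComputablePred fun p : (A × List ℕ) × A × List ℕ => p.1.1 = p.2.1 ∧ p.1.2 < p.2.2 by
      fun_prop)).of_eq fun _ => (lexk_lt hk).symm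

omit [LinearOrder K] in
theorem sys_comp {k : A → K} (hk : Injective k) {V : A → Prop} (hV : ComputablePred V)
    {F : (ℕ × A × ℕ) × ℕ × ℕ → Prop} (hF : ComputablePred F) :
    ComputablePred fun q : ℕ × (A × List ℕ) × List ℕ =>
      (Dat.sys ⟨k, hk, V, fun y l w t => F ((q.1, y, l), w, t)⟩).D q.2 := by
  simp only [Sys.D, Dat.sys, okv, okw, Tz, bs, fr]
  fun_prop

end C

open C in
theorem coding : ∃ O : Opp, ∀ {A K : Type} [Primcodable A] [Inhabited A] [LinearOrder K]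
    (k : A → K), Function.Injective k → (ComputablePred fun p : A × A => k p.1 < k p.2) →
    ∀ (V : Bool → A → Prop), (∀ c, ComputablePred (V c)) →
    ∀ (Lab : ℕ → A → ℕ → Prop), (Sig 3 fun p : ℕ × A × ℕ => Lab p.1 p.2.1 p.2.2) →
    ∃ (L : ℕ → Bool → CLO) (r : ℕ → ℕ) (g : ℕ → A), Computable r ∧ Computable g ∧
      (∀ x, IsIndex (r x) (L x false)) ∧
      (∀ x c M e F, IsIndex e M → IsIso M (L x c) F → Rep O k (V c) (Lab x) e fun a => g (F a)) ∧
      ∀ x c c' M N e e' F F' G, IsIndex e M → IsIso M (L x c) F → IsIndex e' N →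
        IsIso N (L x c') F' → HIso O e e' G → (∃ J, IsIso M N J) ∧ ∀ n, Sig (n + 3) G →
          ∃ J, IsIso M N J ∧ Sig (n + 3) fun p : ℕ × ℕ => p.1 ∈ M.dom ∧ J p.1 = p.2 := by
  refine ⟨⟨fun e a => Start e a 4, ShC, by fun_prop,
    shC_del (by fun_prop) (by fun_prop) (by fun_prop) (by fun_prop),
    fun e x l s t h hs => ⟨h.1.trans_le hs, h.2.mono hs⟩, fun _ _ _ _ h => h.1⟩, ?_⟩
  intro A K _ _ _ k hk hc V hV Lab hLab
  obtain ⟨Fi, hF, hF'⟩ := hLab.fire
  let T : ℕ → Bool → Dat A K := fun x c => ⟨k, hk, V c, fun y l w t => Fi ((x, y, l), w, t)⟩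
  have hT : ∀ x c y l, (T x c).Lab y l ↔ Lab x y l := fun x c y l => (hF' (x, y, l)).symm
  have h1 := lexk_inj (lexk_inj hk)
  have h2 := lexk_comp (lexk_inj hk) (lexk_comp hk hc)
  have h3 : ∀ c, ComputablePred fun q : ℕ × (A × List ℕ) × List ℕ => (T q.1 c).sys.D q.2 :=
    fun c => sys_comp hk (hV c) hF
  have h4 : ∀ x c, ComputablePred (T x c).sys.D := fun x c =>
    cp_comp (h3 c) (f := fun p => (x, p)) (by fun_prop)
  obtain ⟨r, hr, hr'⟩ := canO_index _ h1 h2 (fun x => (T x false).sys.D) (h3 false)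
    fun x => h4 x false
  have hP : ∀ {x c M e F}, IsIndex e M → IsIso M (canO _ h1 h2 _ (h4 x c)) F →
      Pr (T x c).sys e fun a => dec _ (F a) := fun he hf => ⟨cp_of_iso he hf, index_dom he⟩
  refine ⟨fun x c => canO _ h1 h2 _ (h4 x c), r, fun n => (dec ((A × List ℕ) × List ℕ) n).1.1, hr,
    by fun_prop, hr', fun x c M e F he hf => ?_,
    fun x c c' M N e e' F F' G he hf he' hf' hG => ?_⟩
  · have P := hP he hf
    exact ⟨P.heads.val, P.heads.sur, P.heads.inj, P.heads.ord,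
      fun a l ha => (P.sh_iff ha).trans (hT _ _ _ _)⟩
  · have P := hP he hf
    have P' := hP he' hf'
    obtain ⟨⟨G1, h5, h6⟩, h7⟩ := layer1 P P' ⟨hG.hd, hG.tot, hG.sur, hG.ord⟩ fun a a' l h =>
      ((P.sh_iff (hG.hd _ _ h).1).symm.trans (hG.lab a a' l h)).trans (P'.sh_iff (hG.hd _ _ h).2)
    refine ⟨(layer0 P P' h5 h6).1.imp fun J => (isoI_iff he he').1, fun n hn => ?_⟩
    obtain ⟨G2, ⟨h8, h9⟩, h10⟩ := h7 n hn
    exact ((layer0 P P' h8 h9).2 n h10).imp fun J h =>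
      ⟨(isoI_iff he he').1 h.1, h.2.of_eq fun p => by rw [he.dom]⟩

end Pool.Agent.Lib.MP_9e2528_lc.T3
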