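import Pool.Agent.Lib.MP_9e2528_lc.T5

set_option autoImplicit false

/-! Rigidity over a well-founded tree, paths from isomorphisms. -/

namespace Pool.Agent.Lib.MP_9e2528_lc.T3

open Encodable

/-- two true child boxes with opposite bits are matched -/
def Wd.Trans (W : Wd) (Ψ : Adr → Adr → Prop) (z z' : Adr) : Prop :=
  ∃ (b : ℕ) (j j' : ℤ), W.TrL (cx [] z) b ∧ dl j'.natAbs = !dl j.natAbs ∧
    Ψ (z ++ [W.Pm b j 0]) (z' ++ [W.Pm b j' 0]) ∧ Ψ (z ++ [W.Pm b j 2]) (z' ++ [W.Pm b j' 2]) ∧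
    Onto Ψ (Bx (dl j.natAbs) (z ++ [W.Pm b j 1]) 0) (Bx (dl j'.natAbs) (z' ++ [W.Pm b j' 1]) 0)

/-- a half line of integers -/
def Half (s : Bool) (n0 n : ℤ) : Prop := if s = true then n0 ≤ n else n ≤ n0

/-- no branch -/
def Wd.WF (W : Wd) : Prop := ¬ ∃ σ : ℕ → List ℕ, ∀ j, ∃ n, σ (j + 1) = σ j ++ [n] ∧ W.T (σ (j + 1))

variable {W : Wd} {Ψ : Adr → Adr → Prop} {z z' : Adr} {c c' : Bool}

theorem Onto.congr {C C' D D' : Adr → Prop} (h : Onto Ψ C C') (h1 : ∀ y, C y ↔ D y)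
    (h2 : ∀ y, C' y ↔ D' y) : Onto Ψ D D' := by
  obtain rfl : C = D := funext fun y => propext (h1 y)
  obtain rfl : C' = D' := funext fun y => propext (h2 y)
  exact h

/-- restriction to an interval whose ends are matched -/
theorem Wd.onto_int (hΨ : W.PI Ψ) {C C' : Adr → Prop} {a b a' b' : Adr} (ha : Ψ a a')
    (hb : Ψ b b') (h2 : ∀ y, C y → ky a < ky y → ky y < ky b → ∃ y', C' y' ∧ Ψ y y')
    (h3 : ∀ y', C' y' → ky a' < ky y' → ky y' < ky b' → ∃ y, C y ∧ Ψ y y') :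
    Onto Ψ (fun y => C y ∧ ky a < ky y ∧ ky y < ky b)
      (fun y => C' y ∧ ky a' < ky y ∧ ky y < ky b') := by
  refine ⟨fun y ⟨h4, h5, h6⟩ => ?_, fun y' ⟨h4, h5, h6⟩ => ?_⟩
  · obtain ⟨y', h7, h8⟩ := h2 y h4 h5 h6
    exact ⟨y', ⟨h7, (hΨ.2 _ _ _ _ ha h8).1 h5, (hΨ.2 _ _ _ _ h8 hb).1 h6⟩, h8⟩
  · obtain ⟨y, h7, h8⟩ := h3 y' h4 h5 h6
    exact ⟨y, ⟨h7, (hΨ.2 _ _ _ _ ha h8).2 h5, (hΨ.2 _ _ _ _ h8 hb).2 h6⟩, h8⟩

theorem Wd.bx_Pm {b0 b : ℕ} (hb : b0 ≤ b) (j : ℤ) (y : Adr) :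
    Bx c z b0 y ∧ ky (z ++ [W.Pm b j 0]) < ky y ∧ ky y < ky (z ++ [W.Pm b j 2]) ↔
      Bx (dl j.natAbs) (z ++ [W.Pm b j 1]) 0 y := by
  have := bx_intY (c := c) hb (decide (0 < j)) (W.tps b j.natAbs) z y
  rwa [Wd.tps_len] at this

theorem half_lin {s : Bool} {n0 : ℤ} {φ : ℤ → ℤ}
    (h : ∀ n, Half s n0 n → Half s n0 (n + 1) → φ (n + 1) = φ n + 1) (n : ℤ) (hn : Half s n0 n) :
    φ n = n + (φ n0 - n0) := by
  cases s
  · simp only [Half, Bool.false_eq_true, if_false] at h hn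
    obtain ⟨m, rfl⟩ : ∃ m : ℕ, n = n0 - m := ⟨(n0 - n).toNat, by omega⟩
    clear hn
    induction m with
    | zero => simp
    | succ m ih =>
      have := h (n0 - ((m + 1 : ℕ) : ℤ)) (by omega) (by omega)
      rw [show n0 - ((m + 1 : ℕ) : ℤ) + 1 = n0 - m by omega] at this
      omega
  · simp only [Half, if_true] at h hn
    obtain ⟨m, rfl⟩ : ∃ m : ℕ, n = n0 + m := ⟨(n - n0).toNat, by omega⟩
    clear hn
    induction m with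
    | zero => simp
    | succ m ih =>
      have := h (n0 + (m : ℤ)) (by omega) (by omega)
      rw [show n0 + ((m + 1 : ℕ) : ℤ) = n0 + m + 1 by omega]
      omega

theorem half_rigid (s : Bool) (n0 : ℤ) {k : ℤ} (hk : k ≠ 0) : ∃ j : ℤ, Half s n0 (3 * j) ∧
    Half s n0 (3 * j + 1) ∧ dl (j + k).natAbs = !dl j.natAbs := by
  obtain ⟨n, h1, h2⟩ := dl_rigid (k := k.natAbs) (by omega) (n0.natAbs + 1)
  have h3 : dl (n + k.natAbs) = !dl n := by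
    revert h2
    cases dl n <;> cases dl (n + k.natAbs) <;> simp
  have h4 : dl n = !dl (n + k.natAbs) := by rw [h3]; simp
  cases s <;> simp only [Half, Bool.false_eq_true, if_false, if_true]
  · rcases lt_or_gt_of_ne hk with h | h
    · refine ⟨-n, by omega, by omega, ?_⟩
      rw [show (-(n : ℤ) + k).natAbs = n + k.natAbs by omega, show (-(n : ℤ)).natAbs = n by omega, h3]
    · refine ⟨-(n + k), by omega, by omega, ?_⟩
      rw [show (-((n : ℤ) + k) + k).natAbs = n by omega,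
        show (-((n : ℤ) + k)).natAbs = n + k.natAbs by omega, h4]
  · rcases lt_or_gt_of_ne hk with h | h
    · refine ⟨n - k, by omega, by omega, ?_⟩
      rw [show ((n : ℤ) - k + k).natAbs = n by omega,
        show ((n : ℤ) - k).natAbs = n + k.natAbs by omega, h4]
    · refine ⟨n, by omega, by omega, ?_⟩
      rw [show ((n : ℤ) + k).natAbs = n + k.natAbs by omega, show ((n : ℤ)).natAbs = n by omega, h3]

theorem Wd.P_zero (b : ℕ) (j : ℤ) : W.P b (3 * j) = W.Pm b j 0 := by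
  simpa using W.P_eq b j (i := 0) (by omega)
theorem Wd.P_one (b : ℕ) (j : ℤ) : W.P b (3 * j + 1) = W.Pm b j 2 := by
  simpa using W.P_eq b j (i := 1) (by omega)
theorem Wd.P_two (b : ℕ) (j : ℤ) : W.P b (3 * j + 2) = W.Pm b j 4 := by
  simpa using W.P_eq b j (i := 2) (by omega)

theorem Wd.shift (hΨ : W.PI Ψ) (hc : W.Cl z z') {b : ℕ} (hb : W.TrL (cx [] z) b) (s : Bool) (n0 : ℤ)
    (h1 : ∀ n, Half s n0 n → ∃ y', Bx c' z' b y' ∧ Ψ (z ++ [W.P b n]) y')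
    (h2 : ∀ n n' y, Half s n0 n → Half s n0 n' → Bx c z b y → ky (z ++ [W.P b n]) < ky y →
      ky y < ky (z ++ [W.P b n']) → ∃ y', Bx c' z' b y' ∧ Ψ y y')
    (h3 : ∀ n n' y1 y2 y', Half s n0 n → Half s n0 n' → Ψ (z ++ [W.P b n]) y1 →
      Ψ (z ++ [W.P b n']) y2 → Bx c' z' b y' → ky y1 < ky y' → ky y' < ky y2 →
      ∃ y, Bx c z b y ∧ Ψ y y') :
    (∀ n, Half s n0 n → Ψ (z ++ [W.P b n]) (z' ++ [W.P b n])) ∨ W.Trans Ψ z z' := by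
  have hb' : W.TrL (cx [] z') b := cx_eq hc.2.2 [] ▸ hb
  have e1 : ∀ n, Half s n0 n → ∃ n', Ψ (z ++ [W.P b n]) (z' ++ [W.P b n']) ∧ n' % 3 = n % 3 := by
    intro n hn
    obtain ⟨_, ⟨w, hw, rfl⟩, h4⟩ := h1 n hn
    obtain ⟨n', rfl, h5⟩ := hc.marker' hb hw (hΨ.1 _ _ h4)
    exact ⟨n', h4, h5⟩
  choose! φ e1 e2 using e1
  have e3 : ∀ n, Half s n0 n → Half s n0 (n + 1) → φ (n + 1) = φ n + 1 := by
    intro n hn hn'
    have h4 : φ n < φ (n + 1) := by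
      have := (hΨ.2 _ _ _ _ (e1 n hn) (e1 _ hn')).1 (by
        rw [ky_app_lt, Wd.P_lt_iff]; omega)
      rwa [ky_app_lt, Wd.P_lt_iff] at this
    by_contra h5
    obtain ⟨_, ⟨w, hw, rfl⟩, h6⟩ := h3 n (n + 1) _ _ (z' ++ [W.P b (φ n + 1)]) hn hn' (e1 n hn)
      (e1 _ hn') (bx_app.2 (W.val_P _ le_rfl _)) (by rw [ky_app_lt, Wd.P_lt_iff]; omega)
      (by rw [ky_app_lt, Wd.P_lt_iff]; omega)
    obtain ⟨m, rfl, -⟩ := hc.symm.marker' hb' hw (hΨ.1 _ _ h6).symm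
    have h7 := (hΨ.2 _ _ _ _ (e1 n hn) h6).2 (by rw [ky_app_lt, Wd.P_lt_iff]; omega)
    have h8 := (hΨ.2 _ _ _ _ h6 (e1 _ hn')).2 (by rw [ky_app_lt, Wd.P_lt_iff]; omega)
    rw [ky_app_lt, Wd.P_lt_iff] at h7 h8
    omega
  have e4 := half_lin e3
  have e5 : Half s n0 n0 := by cases s <;> simp [Half]
  obtain ⟨k, hk⟩ : ∃ k, φ n0 - n0 = 3 * k := ⟨(φ n0 - n0) / 3, by have := e2 n0 e5; omega⟩
  rw [hk] at e4
  by_cases h0 : k = 0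
  · left
    intro n hn
    have := e1 n hn
    rwa [e4 n hn, h0, mul_zero, add_zero] at this
  right
  obtain ⟨j, j1, j2, j3⟩ := half_rigid s n0 h0
  have m0 := e1 _ j1
  have m1 := e1 _ j2
  rw [e4 _ j1, show 3 * j + 3 * k = 3 * (j + k) by ring] at m0
  rw [e4 _ j2, show 3 * j + 1 + 3 * k = 3 * (j + k) + 1 by ring] at m1
  have m2 := Wd.onto_int hΨ (C := Bx c z b) (C' := Bx c' z' b) m0 m1
    (fun y => h2 _ _ y j1 j2) (fun y' => h3 _ _ _ _ y' j1 j2 m0 m1)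
  rw [Wd.P_zero, Wd.P_zero] at m0 m2
  rw [Wd.P_one, Wd.P_one] at m1 m2
  exact ⟨b, j, j + k, hb, j3, m0, m1, m2.congr (Wd.bx_Pm le_rfl _) (Wd.bx_Pm le_rfl _)⟩

theorem Wd.step_up (hΨ : W.PI Ψ) (hc : W.Cl z z') (hT : ¬ W.Trans Ψ z z') {b : ℕ}
    (h : Onto Ψ (Bx c z b) (Bx c' z' b)) : Onto Ψ (Bx c z (b + 1)) (Bx c' z' (b + 1)) := by
  have key : ∀ a, a = 2 ∨ a = 4 → Ψ (z ++ [mk b false [] a]) (z' ++ [mk b false [] a]) := by
    by_cases hb : W.TrL (cx [] z) b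
    · have h1 := (Wd.shift (c := c) (c' := c') hΨ hc hb false 2
        (fun n _ => h.1 _ (bx_app.2 (W.val_P _ le_rfl _)))
        (fun _ _ y _ _ hy _ _ => h.1 y hy)
        (fun _ _ _ _ y' _ _ _ _ hy _ _ => h.2 y' hy)).resolve_right hT
      rintro a (rfl | rfl)
      · exact h1 1 (by simp [Half])
      · exact h1 2 (by simp [Half])
    · obtain ⟨e, u, hf⟩ := Wd.frz_level hb
      intro a ha
      obtain ⟨_, ⟨w, hw, rfl⟩, h4⟩ := h.1 (z ++ [mk b false [] a])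
        (bx_app.2 (val_mark _ le_rfl _ _ (Or.inr ha)))
      obtain rfl := hc.frz (hf (mk b false [] a) rfl) hw (hΨ.1 _ _ h4)
      exact h4
  have h1 := Wd.onto_int hΨ (C := Bx c z b) (C' := Bx c' z' b) (key 2 (Or.inl rfl))
    (key 4 (Or.inr rfl)) (fun y hy _ _ => h.1 y hy) (fun y hy _ _ => h.2 y hy)
  refine h1.congr (fun y => ?_) fun y => ?_
  · simpa [cb, cz] using bx_intC (c := c) le_rfl false [] z y
  · simpa [cb, cz] using bx_intC (c := c') le_rfl false [] z' y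

theorem Wd.no_centre (hΨ : W.PI Ψ) {b0 : ℕ}
    (h : ∀ m, Onto Ψ (Bx false z (b0 + m)) (Bx true z' (b0 + m))) : False := by
  have h1 : ∀ m, Bx false z (b0 + m) z := fun m => ⟨[], rfl, by simp⟩
  obtain ⟨_, ⟨w, hw, rfl⟩, h2⟩ := (h 0).1 z (h1 0)
  cases w with
  | nil => simp at hw
  | cons μ w =>
    obtain ⟨y, hy, h3⟩ := (h (μ.1 + 1)).1 z (h1 _)
    obtain rfl := (hΨ.eq_iff h2 h3).1 rfl
    have := (bx_app.1 hy).lev
    omega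

theorem Wd.step (hΨ : W.PI Ψ) (hc : W.Cl z z') {b0 : ℕ} (h : Onto Ψ (Bx c z b0) (Bx (!c) z' b0)) :
    W.Trans Ψ z z' := by
  by_contra hT
  have h1 : ∀ m, Onto Ψ (Bx c z (b0 + m)) (Bx (!c) z' (b0 + m)) := by
    intro m
    induction m with
    | zero => exact h
    | succ m ih => exact Wd.step_up hΨ hc hT ih
  cases c
  · exact Wd.no_centre hΨ h1
  · exact Wd.no_centre hΨ.symm fun m => (h1 m).symm

theorem cx_child (z : Adr) {μ : Mv} (h : μ.2.2.2 = 1) :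
    cx [] (z ++ [μ]) = cx [] z ++ [(lam μ.1).length] := by
  simp [cx_app, cnx, h]

theorem Wd.no_trans (hW : W.WF) (hΨ : W.PI Ψ) (hc : W.Cl z z') : ¬ W.Trans Ψ z z' := by
  intro hT
  obtain ⟨P, -, hP⟩ := dep_choice (Inv := fun p : Adr × Adr => W.Cl p.1 p.2 ∧ W.Trans Ψ p.1 p.2)
    (R := fun _ p p' => ∃ n, cx [] p'.1 = cx [] p.1 ++ [n] ∧ W.T (cx [] p'.1)) (b0 := (z, z'))
    ⟨hc, hT⟩ (by
      rintro - ⟨y, y'⟩ ⟨h1, b, j, j', hb, h2, -, -, h3⟩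
      have h4 := h1.snoc hb j j' 1
      have h5 := cx_child y (μ := W.Pm b j 1) rfl
      rw [h2] at h3
      exact ⟨(_, _), ⟨_, h5, h5 ▸ hb.1⟩, h4, Wd.step hΨ h4 h3⟩)
  exact hW ⟨fun j => cx [] (P j).1, fun j => (hP j).2⟩

@[fun_prop] theorem cx_comp {α : Type} [Primcodable α] {σ : α → List ℕ} {y : α → Adr}
    (hσ : Computable σ) (hy : Computable y) : Computable fun a => cx (σ a) (y a) := by
  unfold cx; fun_prop

/-- the list is an initial segment of the true path -/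
def Sg (f : ℕ → ℕ) (l : List ℕ) : Prop := Ball (List.range l.length) fun i => f i = l[i]?.getD 0

theorem sg_iff {f : ℕ → ℕ} {l : List ℕ} : Sg f l ↔ l = seg f l.length := by
  constructor
  · intro h
    refine List.ext_getElem (by simp) fun i h1 h2 => ?_
    have := h i (List.mem_range.2 h1)
    simp [seg, this, h1]
  · intro h i hi
    rw [h, seg_get _ (List.mem_range.1 hi)]

theorem Wd.of_sg {μ : Mv} (h : Sg W.tp (own μ)) :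
    lam μ.1 = seg W.tp (lam μ.1).length ∧ μ.2.2.1 = W.tps μ.1 μ.2.2.1.length := by
  rw [sg_iff, own, List.length_append, seg_add] at h
  exact List.append_inj h (by simp)

/-- the transition to a pair of matched child boxes -/
def Wd.Nx (W : Wd) (Ψ : Adr → Adr → Prop) (p p' : Adr × Adr) : Prop :=
  ∃ μ μ' : Mv, (μ.2.2.2 = 1 ∧ μ'.2.2.2 = 1 ∧ μ'.1 = μ.1 ∧ Mok μ ∧ Mok μ' ∧
    W.T (cx [] p.1 ++ [(lam μ.1).length]) ∧ dl μ'.2.2.1.length = (!dl μ.2.2.1.length) ∧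
    p' = (p.1 ++ [μ], p.2 ++ [μ'])) ∧ Sg W.tp (own μ) ∧ Sg W.tp (own μ') ∧
    Ψ (p.1 ++ [mk μ.1 μ.2.1 μ.2.2.1 0]) (p.2 ++ [mk μ'.1 μ'.2.1 μ'.2.2.1 0]) ∧
    Ψ (p.1 ++ [mk μ.1 μ.2.1 μ.2.2.1 2]) (p.2 ++ [mk μ'.1 μ'.2.1 μ'.2.2.1 2])

theorem Wd.nx_ex (h : W.Cl z z') (hT : W.Trans Ψ z z') : ∃ p', W.Nx Ψ (z, z') p' := by
  obtain ⟨b, j, j', hb, h2, h3, h4, -⟩ := hT
  have hb' : W.TrL (cx [] z') b := cx_eq h.2.2 [] ▸ hb
  have e : ∀ {σ : List ℕ} (j : ℤ), W.TrL σ b → Sg W.tp (own (W.Pm b j 1)) := fun j h => by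
    rw [sg_iff, (Wd.trM_Pm h j 1).own_eq, seg_length]
  have e' : ∀ (j : ℤ) (a : ℕ), mk (W.Pm b j 1).1 (W.Pm b j 1).2.1 (W.Pm b j 1).2.2.1 a =
    W.Pm b j a := fun j a => mk_mk _ _ _ _ _
  refine ⟨_, W.Pm b j 1, W.Pm b j' 1, ⟨rfl, rfl, rfl, mok_mk (by omega) (by omega),
    mok_mk (by omega) (by omega), hb.1, by simpa [Wd.Pm] using h2, rfl⟩, e j hb, e j' hb', ?_, ?_⟩
  · rw [e', e']; exact h3
  · rw [e', e']; exact h4

theorem Wd.nx_inv (hΨ : W.PI Ψ) (h : W.Cl z z') (ho : Onto Ψ (Bx c z 0) (Bx c' z' 0))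
    {p' : Adr × Adr} (hn : W.Nx Ψ (z, z') p') :
    W.Cl p'.1 p'.2 ∧ ∃ c, Onto Ψ (Bx c p'.1 0) (Bx (!c) p'.2 0) := by
  obtain ⟨μ, μ', ⟨h1, h2, h3, h4, h5, h6, h7, rfl⟩, h8, h9, h10, h11⟩ := hn
  have hb : W.TrL (cx [] z) μ.1 := ⟨h6, (Wd.of_sg h8).1⟩
  have e1 := h4.eq
  have e2 := h5.eq
  rw [h1] at e1
  rw [h2] at e2
  constructor
  · have := h.snoc hb (sg (!μ.2.1) μ.2.2.1.length) (sg (!μ'.2.1) μ'.2.2.1.length) 1
    rw [← Wd.mk_eq_Pm, ← Wd.mk_eq_Pm, ← (Wd.of_sg h8).2, e1, ← h3, ← (Wd.of_sg h9).2, e2] at this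
    exact this
  · refine ⟨dl μ.2.2.1.length, ?_⟩
    have := (Wd.onto_int hΨ (C := Bx c z 0) (C' := Bx c' z' 0) h10 h11
      (fun y hy _ _ => ho.1 y hy) (fun y hy _ _ => ho.2 y hy)).congr
      (bx_intY (Nat.zero_le _) _ _ _) (bx_intY (Nat.zero_le _) _ _ _)
    rwa [e1, e2, h7] at this

theorem bx_nil (c : Bool) (b : ℕ) (y : Adr) : Val c b y ↔ Bx c [] b y :=
  (bx_app (z := [])).symm

theorem Wd.cl_nil : W.Cl [] [] := ⟨trivial, trivial, rfl⟩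

theorem Wd.path_sig {n : ℕ} (hT : ComputablePred W.T)
    (htp : Sig 5 fun p : ℕ × ℕ => W.tp p.1 = p.2) (hΨ : W.PI Ψ)
    (hS : Sig (n + 5) fun p : Adr × Adr => Ψ p.1 p.2) (h : Onto Ψ (Val false 0) (Val true 0)) :
    ∃ p : ℕ → ℕ, (∀ k, W.T (seg p (k + 1))) ∧ Sig (n + 5) fun q : ℕ × ℕ => p q.1 = q.2 := by
  have hR : Sig (n + 4 + 1) fun q : ℕ × (Adr × Adr) × Adr × Adr => W.Nx Ψ q.2.1 q.2.2 := by
    obtain ⟨A, hA, eA⟩ : ∃ A : ℕ × ℕ → Prop, Sig (n + 4 + 1) A ∧ ∀ a b, W.tp a = b ↔ A (a, b) :=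
      ⟨_, htp.mono (by omega), fun _ _ => Iff.rfl⟩
    obtain ⟨B, hB, eB⟩ : ∃ B : Adr × Adr → Prop, Sig (n + 4 + 1) B ∧ ∀ a b, Ψ a b ↔ B (a, b) :=
      ⟨_, hS, fun _ _ => Iff.rfl⟩
    obtain ⟨G, hG, eG⟩ : ∃ G : List ℕ → Prop, Sig (n + 4 + 1) G ∧ ∀ l, Sg W.tp l ↔ G l := by
      refine ⟨Sg W.tp, ?_, fun _ => Iff.rfl⟩
      unfold Sg
      simp only [eA]
      fun_prop
    obtain ⟨C, hC, eC⟩ : ∃ C : ((Adr × Adr) × Adr × Adr) × Mv × Mv → Prop, Sig (n + 4 + 1) C ∧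
        ∀ (p p' : Adr × Adr) (μ μ' : Mv), (μ.2.2.2 = 1 ∧ μ'.2.2.2 = 1 ∧ μ'.1 = μ.1 ∧ Mok μ ∧ Mok μ' ∧
          W.T (cx [] p.1 ++ [(lam μ.1).length]) ∧ dl μ'.2.2.1.length = (!dl μ.2.2.1.length) ∧
          p' = (p.1 ++ [μ], p.2 ++ [μ'])) ↔ C ((p, p'), μ, μ') := by
      refine ⟨fun q => q.2.1.2.2.2 = 1 ∧ q.2.2.2.2.2 = 1 ∧ q.2.2.1 = q.2.1.1 ∧ Mok q.2.1 ∧
        Mok q.2.2 ∧ W.T (cx [] q.1.1.1 ++ [(lam q.2.1.1).length]) ∧
        dl q.2.2.2.2.1.length = (!dl q.2.1.2.2.1.length) ∧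
        q.1.2 = (q.1.1.1 ++ [q.2.1], q.1.1.2 ++ [q.2.2]), Sig.of_comp ?_, fun _ _ _ _ => Iff.rfl⟩
      generalize W.T = T at hT
      fun_prop
    simp only [Wd.Nx, eB, eG, eC]
    fun_prop
  obtain ⟨P, h0, hP, hP'⟩ := Sig.dep_choice hR
    (Inv := fun p : Adr × Adr => W.Cl p.1 p.2 ∧ ∃ c, Onto Ψ (Bx c p.1 0) (Bx (!c) p.2 0))
    (b0 := ([], [])) ⟨Wd.cl_nil, false, h.congr (bx_nil _ _) (bx_nil _ _)⟩
    (fun _ p ⟨h1, _, h2⟩ => Wd.nx_ex h1 (Wd.step hΨ h1 h2))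
    (fun _ p p' ⟨h1, _, h2⟩ h3 => Wd.nx_inv hΨ h1 h2 h3)
  have e1 : ∀ k, ∃ m, cx [] (P (k + 1)).1 = cx [] (P k).1 ++ [m] ∧ W.T (cx [] (P (k + 1)).1) := by
    intro k
    obtain ⟨μ, μ', ⟨h1, -, -, -, -, h6, -, h7⟩, -⟩ := (hP k).2
    have h8 : cx [] (P (k + 1)).1 = cx [] (P k).1 ++ [(lam μ.1).length] := by
      rw [show P (k + 1) = _ from h7]
      exact cx_child _ h1
    exact ⟨_, h8, h8 ▸ h6⟩
  have e2 : ∀ k, cx [] (P k).1 = seg (fun k => (cx [] (P (k + 1)).1)[k]?.getD 0) k := by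
    intro k
    induction k with
    | zero => rw [h0]; rfl
    | succ k ih =>
      obtain ⟨m, h1, -⟩ := e1 k
      have h2 : (cx [] (P k).1).length = k := by rw [ih, seg_length]
      rw [seg_succ, ← ih, h1, List.getElem?_append_right (by omega), h2]
      simp
  refine ⟨fun k => (cx [] (P (k + 1)).1)[k]?.getD 0, fun k => ?_, ?_⟩
  · rw [← e2]
    exact (e1 k).choose_spec.2
  · obtain ⟨A, hA, eA⟩ : ∃ A : ℕ × Adr × Adr → Prop, Sig (n + 4 + 1) A ∧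
      ∀ p, A p ↔ P p.1 = p.2 := ⟨_, hP', fun _ => Iff.rfl⟩
    have : Sig (n + 4 + 1) fun q : ℕ × ℕ => ∃ st : Adr × Adr, A (q.1 + 1, st) ∧
      (cx [] st.1)[q.1]?.getD 0 = q.2 := by fun_prop
    exact this.of_eq fun q => by simp [eA]

end Pool.Agent.Lib.MP_9e2528_lc.T3
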