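import Pool.Agent.Lib.MP_9e2528_lc.T9
import Pool.Agent.Lib.MP_9e2528_lc.T6

set_option autoImplicit false

/-! Pieces of the order on which a copy is matched with three quantifiers. -/

namespace Pool.Agent.Lib.MP_9e2528_lc.T3

open Encodable Filter

/-- a copy over a well-founded tree -/
structure Cx where
  intro ::
  O : Opp
  W : Wd
  e : ℕ
  g : Gm O W e
  f : ℕ → Adr
  R : Rep O ky (Val false 0) (fun y l => W.Lab y (dc l)) (e - 1) f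
  wf : W.WF

/-- `z` is the address of a box with bit `c` -/
def IsBox (c : Bool) (z : Adr) (b : ℕ) : Prop := ∃ b' ≤ b, ∀ w, Val false 0 (z ++ w) ↔ Val c b' w

theorem IsBox.val {c : Bool} {z y : Adr} {b : ℕ} (h : IsBox c z b) (hy : Bx c z b y) :
    Val false 0 y := by
  obtain ⟨b', hb, H⟩ := h
  obtain ⟨w, hw, rfl⟩ := hy
  exact (H w).2 (hw.mono hb)

theorem IsBox.suffix {c c' : Bool} {z w : Adr} {μ : Mv} {b b' : ℕ} (h : IsBox c z b)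
    (hv : Val false 0 (z ++ μ :: w)) (hb : b' ≤ μ.1) : Val c' b' (μ :: w) := by
  obtain ⟨b0, -, H⟩ := h
  exact ((H _).1 hv).raise hb

theorem IsBox.mid {c : Bool} {z y w1 w2 : Adr} {b b' : ℕ} (h : IsBox c z b) (hv : Val false 0 y)
    (h1 : Val c b' w1) (h2 : Val c b' w2) (h3 : ¬ ky y < ky (z ++ w1)) (h4 : ¬ ky (z ++ w2) < ky y) :
    Bx c z b' y := by
  obtain ⟨w, rfl⟩ := ky_conv z h3 h4
  obtain ⟨b0, -, H⟩ := h
  exact ⟨w, lev_conv h1 h2 (by simpa using h3) (by simpa using h4) ((H w).1 hv), rfl⟩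

theorem IsBox.mono {c : Bool} {z : Adr} {b b' : ℕ} (h : IsBox c z b) (hb : b ≤ b') :
    IsBox c z b' := let ⟨b0, h0, H⟩ := h; ⟨b0, h0.trans hb, H⟩

theorem IsBox.snoc {c : Bool} {z : Adr} {b : ℕ} {μ : Mv} (h : IsBox c z b) (hb : b ≤ μ.1)
    (h1 : Mok μ) (h2 : Bo μ) : IsBox (bt μ) (z ++ [μ]) (nx μ) := by
  obtain ⟨b', h0, H⟩ := h
  refine ⟨_, le_rfl, fun w => ?_⟩
  rw [List.append_assoc, H, List.singleton_append, val_cons]
  simp [h0.trans hb, h1, h2]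

theorem IsBox.child {c : Bool} {z : Adr} {b0 b : ℕ} (h : IsBox c z b0) (hb : b0 ≤ b) (s : Bool)
    (ρ : List ℕ) : IsBox (dl ρ.length) (z ++ [mk b s ρ 1]) 0 := by
  simpa [bt, nx] using h.snoc (μ := mk b s ρ 1) hb (mok_mk (by omega) (by omega)) (Or.inl rfl)

theorem IsBox.core {c : Bool} {z : Adr} {b0 b : ℕ} (h : IsBox c z b0) (hb : b0 ≤ b) (s : Bool)
    (ρ : List ℕ) : IsBox (cb c s ρ) (z ++ cz b s ρ) (b + 1) := by
  by_cases hρ : ρ = []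
  · simpa [cb, cz, hρ] using h.mono (by omega)
  · simpa [bt, nx, cb, cz, hρ, mk_side_ne hρ] using
      h.snoc (μ := mk b s ρ 3) hb (mok_mk (by omega) (by simp [hρ])) (Or.inr rfl)

theorem Loc.congr {α β K K' : Type} [LinearOrder K] [LinearOrder K'] {D : α → Prop} {ka : α → K}
    {kb : β → K'} {E E' : α → β → Prop} (h : Loc D ka kb E) (H : ∀ a b, E a b ↔ E' a b) :
    Loc D ka kb E' := (funext fun a => funext fun b => propext (H a b) : E = E') ▸ h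

namespace Cx

variable (c : Cx)

def Hd (x : ℕ) : Prop := c.O.Hd (c.e - 1) x

/-- late pictures -/
def F : Filter (ℕ × Pc) := comap Prod.fst atTop ⊓ principal {q | c.g.RP q.1 q.2}

/-- the part `C` of the order is matched with its preimage -/
def Good (C : Adr → Prop) : Prop := ∃ G : ℕ × Adr → Prop, Sig 3 G ∧
  (∀ x y, G (x, y) → c.Hd x ∧ C (c.f x) ∧ Val false 0 y ∧ C y ∧ c.W.Same (c.f x) y ∧
    ∀ y', Val false 0 y' → ¬ C y' →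
      (ky (c.f x) < ky y' ↔ ky y < ky y') ∧ (ky y' < ky (c.f x) ↔ ky y' < ky y)) ∧
  (∀ x, c.Hd x → C (c.f x) → ∃ y, G (x, y)) ∧ (∀ y, Val false 0 y → C y → ∃ x, G (x, y)) ∧
  ∀ x y x' y', G (x, y) → G (x', y') → (ky (c.f x) < ky (c.f x') ↔ ky y < ky y')

variable {c}

theorem ev_iff {P : ℕ × Pc → Prop} :
    (∀ᶠ q in c.F, P q) ↔ ∃ N, ∀ s h, N ≤ s → c.g.RP s h → P (s, h) := by
  simp only [F, eventually_inf_principal, eventually_comap, eventually_atTop, Set.mem_ofPred_eq,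
    Prod.forall]
  exact exists_congr fun N => ⟨fun H s h hs => H s hs s h rfl, fun H _ hs s h he => H s h (he ▸ hs)⟩

theorem p_tend : Tendsto c.g.p atTop atTop := c.g.p_mono.tendsto_atTop_atTop c.g.p_unb

instance : NeBot c.F := by
  refine ⟨fun h => ?_⟩
  obtain ⟨N, hN⟩ := (ev_iff (c := c) (P := fun _ => False)).1 (by rw [h]; simp)
  obtain ⟨s, hs⟩ := c.g.p_unb (N + 1)
  obtain ⟨h', hh⟩ := c.g.p_rp s (c.g.p s - 1) (by omega)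
  exact hN _ h' (by omega) hh

theorem ev_rp : ∀ᶠ q in c.F, c.g.RP q.1 q.2 := ev_iff.2 ⟨0, fun _ _ _ h => h⟩

theorem ev_s {P : ℕ → Prop} (h : ∀ᶠ t in atTop, P t) : ∀ᶠ q in c.F, P q.1 := by
  obtain ⟨N, hN⟩ := eventually_atTop.1 h
  exact ev_iff.2 ⟨N, fun s _ hs _ => hN s hs⟩

theorem ev_p {P : ℕ → Prop} (h : ∀ᶠ t in atTop, P t) : ∀ᶠ q in c.F, P (c.g.p q.1) :=
  ev_s (p_tend.eventually h)

theorem ev_dom {x : ℕ} (hx : c.Hd x) : ∀ᶠ q in c.F, x < c.g.p q.1 ∧ ∃ y, (x, y) ∈ q.2 := by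
  filter_upwards [ev_rp, ev_p (eventually_gt_atTop x)] with q h1 h2
  exact ⟨h2, (c.g.pic _ _ h1).dom x h2 hx⟩

theorem pic_ord {s x x' : ℕ} {h : Pc} {y y' : Adr} (hr : c.g.RP s h) (h1 : (x, y) ∈ h)
    (h2 : (x', y') ∈ h) : ky (c.f x) < ky (c.f x') ↔ ky y < ky y' :=
  (c.R.ord _ _ ((c.g.pic _ _ hr).hd _ _ h1).1 ((c.g.pic _ _ hr).hd _ _ h2).1).symm.trans
    ((c.g.pic _ _ hr).ord _ _ _ _ h1 h2)

theorem pic_eq {s x x' : ℕ} {h : Pc} {y y' : Adr} (hr : c.g.RP s h) (h1 : (x, y) ∈ h)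
    (h2 : (x', y') ∈ h) : c.f x = c.f x' ↔ y = y' := by
  have h3 := pic_ord hr h1 h2
  have h4 := pic_ord hr h2 h1
  constructor
  · intro he
    rw [he] at h3 h4
    exact ky_inj (le_antisymm (not_lt.1 fun h => lt_irrefl _ (h4.2 h))
      (not_lt.1 fun h => lt_irrefl _ (h3.2 h)))
  · rintro rfl
    exact ky_inj (le_antisymm (not_lt.1 fun h => lt_irrefl _ (h4.1 h))
      (not_lt.1 fun h => lt_irrefl _ (h3.1 h)))

theorem sh_lab {x s : ℕ} {l : Lbl} (hx : c.Hd x) (h : c.O.Sh (c.e - 1) x (encode l) s) :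
    c.W.Lab (c.f x) l := by
  have := (c.R.lab x _ hx).1 ⟨s, h⟩
  rwa [dc_enc] at this

theorem ev_snd {x : ℕ} {l : Lbl} (hx : c.Hd x) (h : c.W.Lab (c.f x) l) :
    ∀ᶠ q in c.F, ∀ y, (x, y) ∈ q.2 → LabS c.W c.g.Xp q.1 y l := by
  filter_upwards [ev_rp, ev_p (c.R.sh_ev (l := encode l) hx (by rwa [dc_enc]))] with q h1 h2 y hy
  have := (c.g.pic _ _ h1).snd _ _ _ hy h2
  rwa [dc_enc] at this

theorem ev_lb {x e u : ℕ} {κ : Adr} (hx : c.Hd x) (hn : c.W.NE e u)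
    (h : Lb c.W.T (c.W.D u) c.W.Di e [] κ (c.f x)) :
    ∀ᶠ q in c.F, ∀ y, (x, y) ∈ q.2 → Lb c.W.T (c.W.D u) (c.W.D q.1) e [] κ y := by
  filter_upwards [ev_snd (l := (false, e, u, κ)) hx (Or.inr ⟨rfl, Or.inr h⟩)] with q h1 y hy
  rcases h1 y hy with h2 | ⟨-, -, h2 | h2⟩
  · simp at h2
  · exact absurd ⟨_, h2⟩ ((c.g.xp_ne _ _).1 hn)
  · exact h2

theorem pic_dag {s x : ℕ} {h : Pc} {y : Adr} (hr : c.g.RP s h) (h1 : (x, y) ∈ h)
    (h2 : Dag (c.W.D s) y) : Dag c.W.Di (c.f x) := by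
  simpa [Wd.Lab] using sh_lab ((c.g.pic _ _ hr).hd _ _ h1).1 ((c.g.pic _ _ hr).dag _ _ h1 h2)

theorem Good.of_eq {C C' : Adr → Prop} (h : c.Good C) (H : ∀ y, Val false 0 y → (C y ↔ C' y)) :
    c.Good C' := by
  obtain ⟨G, h0, h1, h2, h3, h4⟩ := h
  refine ⟨G, h0, fun x y hg => ?_, fun x hx hc => h2 x hx ((H _ (c.R.val x hx)).2 hc),
    fun y hy hc => h3 y hy ((H y hy).2 hc), h4⟩
  obtain ⟨a1, a2, a3, a4, a5, a6⟩ := h1 x y hg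
  exact ⟨a1, (H _ (c.R.val x a1)).1 a2, a3, (H y a3).1 a4, a5,
    fun y' hy' hc => a6 y' hy' fun h => hc ((H y' hy').1 h)⟩

theorem Good.cases {C : Adr → Prop} (P : Adr → Prop) (h : c.Good fun y => C y ∧ P y)
    (h' : c.Good fun y => C y ∧ ¬ P y) : c.Good C := by
  obtain ⟨G, h0, h1, h2, h3, h4⟩ := h
  obtain ⟨G', h0', h1', h2', h3', h4'⟩ := h'
  refine ⟨fun q => G q ∨ G' q, h0.or h0', fun x y hg => ?_, fun x hx hc => ?_, fun y hy hc => ?_,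
    fun x y x' y' hg hg' => ?_⟩
  · rcases hg with hg | hg
    · obtain ⟨a1, a2, a3, a4, a5, a6⟩ := h1 x y hg
      exact ⟨a1, a2.1, a3, a4.1, a5, fun y' hy' hc => a6 y' hy' fun h => hc h.1⟩
    · obtain ⟨a1, a2, a3, a4, a5, a6⟩ := h1' x y hg
      exact ⟨a1, a2.1, a3, a4.1, a5, fun y' hy' hc => a6 y' hy' fun h => hc h.1⟩
  · by_cases hp : P (c.f x)
    · exact (h2 x hx ⟨hc, hp⟩).imp fun _ => Or.inl
    · exact (h2' x hx ⟨hc, hp⟩).imp fun _ => Or.inr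
  · by_cases hp : P y
    · exact (h3 y hy ⟨hc, hp⟩).imp fun _ => Or.inl
    · exact (h3' y hy ⟨hc, hp⟩).imp fun _ => Or.inr
  · rcases hg with hg | hg <;> rcases hg' with hg' | hg'
    · exact h4 _ _ _ _ hg hg'
    · obtain ⟨-, -, a3, a4, -, a6⟩ := h1 x y hg
      obtain ⟨b1, b2, -, -, -, b6⟩ := h1' x' y' hg'
      exact (a6 _ (c.R.val _ b1) fun h => b2.2 h.2).1.trans (b6 _ a3 fun h => h.2 a4.2).2
    · obtain ⟨-, -, a3, a4, -, a6⟩ := h1' x y hg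
      obtain ⟨b1, b2, -, -, -, b6⟩ := h1 x' y' hg'
      exact (a6 _ (c.R.val _ b1) fun h => h.2 b2.2).1.trans (b6 _ a3 fun h => a4.2 h.2).2
    · exact h4' _ _ _ _ hg hg'

theorem good_self {C : Adr → Prop} (h : Sig 3 fun q : ℕ × Adr => c.Hd q.1 ∧ C q.2 ∧ c.f q.1 = q.2) :
    c.Good C := by
  refine ⟨_, h, ?_, fun x hx hc => ⟨_, hx, hc, rfl⟩, fun y hy hc => ?_, ?_⟩
  · dsimp only
    rintro x y ⟨h1, h2, rfl⟩
    exact ⟨h1, h2, c.R.val x h1, h2, Wd.same_refl _, fun _ _ _ => ⟨Iff.rfl, Iff.rfl⟩⟩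
  · obtain ⟨x, hx, rfl⟩ := c.R.sur y hy
    exact ⟨x, hx, hc, rfl⟩
  · dsimp only
    rintro x y x' y' ⟨-, -, rfl⟩ ⟨-, -, rfl⟩
    exact Iff.rfl

theorem good_point {C : Adr → Prop} (q : Adr) (h : ∀ y, Val false 0 y → C y → y = q) :
    c.Good C := by
  by_cases hq : Val false 0 q ∧ C q
  · obtain ⟨x, hx, rfl⟩ := c.R.sur q hq.1
    refine good_self ((show Sig 3 fun r : ℕ × Adr => r.1 = x ∧ r.2 = c.f x by fun_prop).of_eq ?_)
    rintro ⟨x', y⟩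
    dsimp only
    constructor
    · rintro ⟨rfl, rfl⟩
      exact ⟨hx, hq.2, rfl⟩
    · rintro ⟨h1, h2, rfl⟩
      have := h _ (c.R.val _ h1) h2
      exact ⟨c.R.inj _ _ h1 hx this, this⟩
  · refine good_self ((show Sig 3 fun _ : ℕ × Adr => False by fun_prop).of_eq ?_)
    rintro ⟨x', y⟩
    dsimp only
    refine ⟨False.elim, ?_⟩
    rintro ⟨h1, h2, rfl⟩
    exact hq (h _ (c.R.val _ h1) h2 ▸ ⟨c.R.val _ h1, h2⟩)

theorem good_label {C C' : Adr → Prop} {l : Adr → Lbl} (hC : Sig 3 C) (hl : Computable l)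
    (hp : Sig 3 fun x => c.Hd x ∧ C' (c.f x)) (h0 : ∀ y, C y → C' y) (h1 : ∀ y, C y → c.W.Lab y (l y))
    (h2 : ∀ y y', C y → C' y' → c.W.Lab y' (l y) → y' = y) : c.Good C := by
  obtain ⟨A, hA, eA⟩ : ∃ A : ℕ → Prop, Sig 3 A ∧ ∀ x, A x ↔ c.Hd x ∧ C' (c.f x) :=
    ⟨_, hp, fun _ => Iff.rfl⟩
  refine good_self ((show Sig 3 fun r : ℕ × Adr => A r.1 ∧ C r.2 ∧
    ∃ s, c.O.Sh (c.e - 1) r.1 (encode (l r.2)) s by fun_prop).of_eq ?_)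
  rintro ⟨x, y⟩
  dsimp only
  rw [eA]
  constructor
  · rintro ⟨h3, h4, s, h5⟩
    exact ⟨h3.1, h4, h2 _ _ h4 h3.2 (sh_lab h3.1 h5)⟩
  · rintro ⟨h3, h4, rfl⟩
    exact ⟨⟨h3, h0 _ h4⟩, h4, (c.R.lab _ _ h3).2 (by rw [dc_enc]; exact h1 _ h4)⟩

theorem ext_of_conv {C : Adr → Prop} (hc : ∀ y1 y2 y, C y1 → C y2 → Val false 0 y →
    ky y1 < ky y → ky y < ky y2 → C y) {y1 y2 y : Adr} (h1 : C y1) (h2 : C y2) (hv : Val false 0 y)
    (hn : ¬ C y) : (ky y1 < ky y ↔ ky y2 < ky y) ∧ (ky y < ky y1 ↔ ky y < ky y2) := by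
  have key : ∀ {y1 y2 : Adr}, C y1 → C y2 → ky y1 < ky y → ky y2 < ky y := by
    intro y1 y2 h1 h2 h
    rcases lt_trichotomy (ky y2) (ky y) with h3 | h3 | h3
    · exact h3
    · exact absurd (ky_inj h3 ▸ h2) hn
    · exact absurd (hc _ _ _ h1 h2 hv h h3) hn
  have key' : ∀ {y1 y2 : Adr}, C y1 → C y2 → ky y < ky y1 → ky y < ky y2 := by
    intro y1 y2 h1 h2 h
    rcases lt_trichotomy (ky y) (ky y2) with h3 | h3 | h3
    · exact h3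
    · exact absurd (ky_inj h3 ▸ h2) hn
    · exact absurd (hc _ _ _ h2 h1 hv h3 h) hn
  exact ⟨⟨key h1 h2, key h2 h1⟩, key' h1 h2, key' h2 h1⟩

theorem pre_int {q1 q2 : Adr} (h1 : Val false 0 q1) (h2 : Val false 0 q2) :
    Del 3 fun x => c.Hd x ∧ ky q1 < ky (c.f x) ∧ ky (c.f x) < ky q2 := by
  obtain ⟨x1, hx1, rfl⟩ := c.R.sur q1 h1
  obtain ⟨x2, hx2, rfl⟩ := c.R.sur q2 h2
  refine (show Del 3 fun x => c.O.Hd (c.e - 1) x ∧ ltI (c.e - 1) x1 x ∧ ltI (c.e - 1) x x2 by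
    fun_prop).of_eq fun x => and_congr_right fun hx => ?_
  rw [c.R.ord _ _ hx1 hx, c.R.ord _ _ hx hx2]

theorem good_int {q1 q2 : Adr} (h1 : Val false 0 q1) (h2 : Val false 0 q2)
    (hs : ∀ y y', Val false 0 y → Val false 0 y' → ky q1 < ky y → ky y < ky q2 → ky q1 < ky y' →
      ky y' < ky q2 → c.W.Same y y') : c.Good fun y => ky q1 < ky y ∧ ky y < ky q2 := by
  obtain ⟨D', hD'⟩ : ∃ D' : Adr → Prop, ∀ y, D' y ↔ Val false 0 y ∧ ky q1 < ky y ∧ ky y < ky q2 :=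
    ⟨_, fun _ => Iff.rfl⟩
  obtain ⟨D, hD, eD⟩ : ∃ D : ℕ → Prop, Del 3 D ∧
    ∀ x, D x ↔ c.Hd x ∧ ky q1 < ky (c.f x) ∧ ky (c.f x) < ky q2 := ⟨_, pre_int h1 h2, fun _ => Iff.rfl⟩
  have hD1 : Del 3 D' := (show Del 3 fun y => Val false 0 y ∧ ky q1 < ky y ∧ ky y < ky q2 by
    fun_prop).of_eq fun y => (hD' y).symm
  have hL : Loc D' ky ky fun a b => D' a ∧ D' b := by
    intro a ha
    refine Or.inr ⟨D', fun _ h => h.2, ⟨a, ha, ha⟩, fun u hu => ?_, fun u hu => ?_,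
      fun u v hu hv hl => ?_, fun _ _ h => Or.inl h.2⟩
    · rw [hD'] at hu
      obtain ⟨w, h3, h4, h5⟩ := h1.dense hu.1 hu.2.1
      exact ⟨w, ⟨ha, (hD' _).2 ⟨h3, h4, h5.trans hu.2.2⟩⟩, h5⟩
    · rw [hD'] at hu
      obtain ⟨w, h3, h4, h5⟩ := hu.1.dense h2 hu.2.2
      exact ⟨w, ⟨ha, (hD' _).2 ⟨h3, hu.2.1.trans h4, h5⟩⟩, h4⟩
    · rw [hD'] at hu hv
      obtain ⟨w, h3, h4, h5⟩ := hu.1.dense hv.1 hl
      exact ⟨w, ⟨ha, (hD' _).2 ⟨h3, hu.2.1.trans h4, h5.trans hv.2.2⟩⟩, h4, h5⟩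
  have hDD : ∀ x, D x → D' (c.f x) := fun x hx =>
    (hD' _).2 ⟨c.R.val x ((eD x).1 hx).1, ((eD x).1 hx).2⟩
  obtain ⟨G, hG, hG'⟩ := bf_iso_sig (n := 2) (D := D) (D' := D') (ka := fun x => ky (c.f x))
    (kb := ky) (E := fun x y => D x ∧ D' y)
    ((hL.lift (g := c.f) (g' := id) (C' := D') (fun _ _ h => h.2) hDD
      fun b hb => ⟨b, hb, rfl⟩).congr fun a b => ⟨fun h => ⟨h.1, h.2.1⟩,
        fun h => ⟨h.1, h.2, hDD _ h.1, h.2⟩⟩)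
    ((hL.lift (g := id) (g' := c.f) (C := D') (C' := D) (fun _ _ h => h.2) (fun _ h => h)
      fun b hb => by
        obtain ⟨x, hx, rfl⟩ := c.R.sur b ((hD' b).1 hb).1
        exact ⟨x, (eD x).2 ⟨hx, ((hD' _).1 hb).2⟩, rfl⟩).congr fun a b => ⟨fun h => ⟨h.2.1, h.1⟩,
        fun h => ⟨h.2, h.1, h.2, hDD _ h.1⟩⟩)
    (fun a b a' b' h h' => ⟨fun he => c.R.inj _ _ ((eD _).1 h.1).1 ((eD _).1 h'.1).1 (ky_inj he),
      fun he => ky_inj he⟩) hD hD1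
    ((show Sig 3 fun q : (ℕ × Adr) × ℕ × Adr => (D q.1.1 ∧ D' q.1.2) ∧ (D q.2.1 ∧ D' q.2.2) ∧
      (ltI (c.e - 1) q.1.1 q.2.1 ↔ ky q.1.2 < ky q.2.2) by fun_prop).of_eq fun q =>
        and_congr_right fun h => and_congr_right fun h' => by
          rw [c.R.ord _ _ ((eD _).1 h.1).1 ((eD _).1 h'.1).1])
  refine ⟨G, hG', fun x y hg => ?_, fun x hx hc => hG.tot x ((eD x).2 ⟨hx, hc⟩),
    fun y hy hc => hG.sur y ((hD' y).2 ⟨hy, hc⟩), hG.ord⟩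
  obtain ⟨h3, h4⟩ := hG.sub x y hg
  rw [eD] at h3
  rw [hD'] at h4
  exact ⟨h3.1, h3.2, h4.1, h4.2, hs _ _ (c.R.val _ h3.1) h4.1 h3.2.1 h3.2.2 h4.2.1 h4.2.2,
    fun y' hy' hn => ext_of_conv (C := fun y => ky q1 < ky y ∧ ky y < ky q2)
      (fun _ _ _ a1 a2 _ a3 a4 => ⟨a1.1.trans a3, a4.trans a2.2⟩) h3.2 h4.2 hy' hn⟩

theorem good_out (s : Bool) {q1 q2 : Adr} (h1 : Val false 0 q1) (h2 : Val false 0 q2)
    (hs : ∀ y y', Val false 0 y → Val false 0 y' → Out s q1 y → Out s y q2 → Out s q1 y' →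
      Out s y' q2 → c.W.Same y y') : c.Good fun y => Out s q1 y ∧ Out s y q2 := by
  cases s
  · simp only [out_false] at hs ⊢
    exact good_int h1 h2 hs
  · simp only [out_true] at hs ⊢
    exact (good_int h2 h1 fun y y' a1 a2 a3 a4 a5 a6 => hs y y' a1 a2 a4 a3 a6 a5).of_eq
      fun _ _ => and_comm

end Cx

end Pool.Agent.Lib.MP_9e2528_lc.T3
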