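import Pool.Agent.Lib.MP_9e2528_lc.T10

set_option autoImplicit false

/-! Clone boxes in pictures and pinned points. -/

namespace Pool.Agent.Lib.MP_9e2528_lc.T3

open Encodable Filter

namespace Cx

/-- the picture shows the box of `y1` at the clone `z` -/
structure Bp (c : Cx) (y1 : Adr) (c1 : Bool) (b : ℕ) (z : Adr) (c' : Bool) (q : ℕ × Pc) : Prop where
  intro ::
  box : IsBox c' z b
  er : Er c.W.T (c.W.D (c.g.p q.1)) c.e [] z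
  nd : ¬ Dag (c.W.D q.1) z
  pi : pi z = pi y1
  iff : ∀ x y, (x, y) ∈ q.2 → (Bx c1 y1 b (c.f x) ↔ Bx c' z b y)
  sat : ∀ w, encode w < c.g.p q.1 → Val c' b w → ∃ x, (x, z ++ w) ∈ q.2

/-- late pictures show the true box of `y1` at a clone that is read off the picture -/
structure Clm (c : Cx) (y1 : Adr) (c1 : Bool) (b : ℕ) (Z : Pc → Adr) : Prop where
  intro ::
  tr : c.W.Tr [] y1
  box : IsBox c1 y1 b
  comp : Computable Z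
  pre : Sig 3 fun x => c.Hd x ∧ Bx c1 y1 b (c.f x)
  ev : ∀ᶠ q in c.F, ∃ c', c.Bp y1 c1 b (Z q.2) c' q
  ne : ∀ e u, c.W.NE e u → ∀ᶠ q in c.F, Er c.W.T (c.W.D u) e [] (Z q.2)

/-- the point is pinned at the suffix `w` -/
def Pn (c : Cx) (Z : Pc → Adr) (x : ℕ) (w : Adr) : Prop :=
  c.Hd x ∧ ∀ᶠ q in c.F, (x, Z q.2 ++ w) ∈ q.2

variable {c : Cx} {y1 : Adr} {c1 : Bool} {b : ℕ} {Z : Pc → Adr}

theorem clm_root (c : Cx) : c.Clm [] false 0 fun _ => [] where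
  tr := trivial
  box := ⟨0, le_rfl, fun _ => Iff.rfl⟩
  comp := by fun_prop
  pre := (show Sig 3 fun x => c.O.Hd (c.e - 1) x by fun_prop).of_eq fun x =>
    ⟨fun h => ⟨h, _, c.R.val x h, rfl⟩, fun h => h.1⟩
  ev := by
    obtain ⟨x0, hx0, -⟩ := c.R.sur [] rfl
    filter_upwards [ev_rp, ev_dom hx0] with q h1 ⟨h2, y0, h3⟩
    have P := c.g.pic _ _ h1
    exact ⟨false, ⟨0, le_rfl, fun _ => Iff.rfl⟩, trivial, not_dag_nil, rfl, fun x y h =>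
      iff_of_true ⟨_, c.R.val x (P.hd _ _ h).1, rfl⟩ ⟨_, (P.hd _ _ h).2.2, rfl⟩,
      fun w hw hv => P.sat _ _ w w h3 h2 hw (by simp [Nb]) hv⟩
  ne := fun _ _ _ => Eventually.of_forall fun _ => trivial

theorem Bp.mem {z w : Adr} {c' : Bool} {q : ℕ × Pc} {x : ℕ} {μ : Mv} (B : c.Bp y1 c1 b z c' q)
    (hr : c.g.RP q.1 q.2) (hx : (x, z ++ μ :: w) ∈ q.2) (hb : b ≤ μ.1) : Bx c1 y1 b (c.f x) :=
  (B.iff _ _ hx).2 (bx_app.2 (B.box.suffix ((c.g.pic _ _ hr).hd _ _ hx).2.2 hb))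

theorem pin_step {t s x : ℕ} {h h' : Pc} {z z' w : Adr} {c' c'' : Bool} {μ : Mv}
    (hr : c.g.RP t h) (B : c.Bp y1 c1 b z c' (t, h)) (hr' : c.g.RP s h')
    (B' : c.Bp y1 c1 b z' c'' (s, h')) (hp : c.g.p s = t + 1) (hx : (x, z ++ μ :: w) ∈ h)
    (hb : b ≤ μ.1) (h1 : ∀ b', b ≤ b' → b' < μ.1 → FE c.W.T (c.W.D (c.g.p t)) c.e (cx [] y1) b')
    (h2 : Ex c.W.T (c.W.D (c.g.p t)) c.e (cx [] y1) μ) :
    (x, z' ++ μ :: w) ∈ h' ∨ (Dag c.W.Di (c.f x) ∧ At c.W.Di c.e μ ∧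
      ¬ LD c.W.T (c.W.D (c.g.p t)) (cx [] y1) μ.1) := by
  have P := c.g.pic _ _ hr
  have P' := c.g.pic _ _ hr'
  obtain ⟨κ, k1, k2⟩ := P.own _ _ hx
  obtain ⟨κ', rfl, k3⟩ := (lb_strip B.er (not_dag_bot _)).1 k1
  rw [cx_eq B.pi] at k3
  obtain rfl := k3.of_ex h2
  obtain ⟨y, hy⟩ := P'.dom x (by have := (P.hd _ _ hx).2.1; omega) (P.hd _ _ hx).1
  have k4 := P'.snd _ _ _ hy (c.O.sh_mono _ _ _ _ _ k2 (by omega))
  rw [dc_enc] at k4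
  obtain ⟨w', hw', rfl⟩ := (B'.iff _ _ hy).1 (B.mem hr hx hb)
  rcases k4 with k4 | ⟨-, -, k4 | k4⟩
  · simp at k4
  · exact absurd k4 (c.g.xp_not _ _ hp)
  have := c.g.p_le t
  dsimp only at k4
  rw [B.pi, ← B'.pi, lb_strip' (B'.er.anti fun i o => c.W.d_mono _ _ i o (by dsimp only; omega))
    B'.nd, cx_eq B'.pi] at k4
  rcases k4.uniq hw' h1 h2 with rfl | k5
  · exact Or.inl hy
  · exact Or.inr ⟨pic_dag hr' hy (dag_app.2 (Or.inr k5.1)), k5.2.1.mono (c.W.d_di _), k5.2.2⟩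

theorem Clm.pin (K : c.Clm y1 c1 b Z) : ∀ᶠ q in c.F, ∀ x μ w, (x, Z q.2 ++ μ :: w) ∈ q.2 →
    b ≤ μ.1 → (∀ b', b ≤ b' → b' < μ.1 → FE c.W.T (c.W.D (c.g.p q.1)) c.e (cx [] y1) b') →
    Ex c.W.T (c.W.D (c.g.p q.1)) c.e (cx [] y1) μ →
    (LD c.W.T (c.W.D (c.g.p q.1)) (cx [] y1) μ.1 ∨ ¬ At c.W.Di c.e μ ∨ ¬ Dag c.W.Di (c.f x)) →
    c.Pn Z x (μ :: w) := by
  obtain ⟨N, hN⟩ := ev_iff.1 K.ev
  refine ev_iff.2 ⟨N, fun s h hs hr x μ w hx hb h1 h2 h3 =>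
    ⟨((c.g.pic _ _ hr).hd _ _ hx).1, ev_iff.2 ⟨s + 1, fun s' => ?_⟩⟩⟩
  dsimp only at *
  induction s' using Nat.strong_induction_on with
  | _ s' ih =>
    intro h' hs' hr'
    have e1 := c.g.p_mono hs'
    rw [c.g.rp_p _ _ hr] at e1
    obtain ⟨t, ht⟩ : ∃ t, c.g.p s' = t + 1 := ⟨c.g.p s' - 1, by omega⟩
    have e2 := c.g.p_le s'
    have e3 : ∃ h'', c.g.RP t h'' ∧ (x, Z h'' ++ μ :: w) ∈ h'' := by
      rcases (show s = t ∨ s + 1 ≤ t by omega) with rfl | e3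
      · exact ⟨h, hr, hx⟩
      · obtain ⟨h'', hr''⟩ := c.g.p_rp _ _ ht
        exact ⟨h'', hr'', ih t (by omega) h'' e3 hr''⟩
    obtain ⟨h'', hr'', hx''⟩ := e3
    obtain ⟨c', B⟩ := hN t h'' (by omega) hr''
    obtain ⟨c'', B'⟩ := hN s' h' (by omega) hr'
    have hm : ∀ i o, c.W.D (c.g.p s) i o → c.W.D (c.g.p t) i o := fun i o =>
      c.W.d_mono _ _ i o (c.g.p_mono (by omega))
    refine (pin_step hr'' B hr' B' ht hx'' hb (fun b' a1 a2 => (h1 b' a1 a2).mono hm)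
      (h2.mono hm)).resolve_right fun k => ?_
    rcases h3 with h3 | h3 | h3
    · exact k.2.2 (h3.mono hm)
    · exact h3 k.2.1
    · exact h3 k.1

theorem Pn.ord {x x' : ℕ} {w w' : Adr} (h : c.Pn Z x w) (h' : c.Pn Z x' w') :
    ky (c.f x) < ky (c.f x') ↔ ky w < ky w' := by
  obtain ⟨q, h1, h2, h3⟩ := (ev_rp.and (h.2.and h'.2)).exists
  rw [pic_ord h1 h2 h3, ky_app_lt]

theorem Pn.out {x x' : ℕ} {w w' : Adr} (h : c.Pn Z x w) (h' : c.Pn Z x' w') (s : Bool) :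
    Out s (c.f x) (c.f x') ↔ Out s w w' := by
  cases s
  · rw [out_false, out_false, h.ord h']
  · rw [out_true, out_true, h'.ord h]

theorem Clm.pn_box (K : c.Clm y1 c1 b Z) {x : ℕ} {μ : Mv} {w : Adr} (h : c.Pn Z x (μ :: w))
    (hb : b ≤ μ.1) : Bx c1 y1 b (c.f x) := by
  obtain ⟨q, h1, h2, c', B⟩ := (ev_rp.and (h.2.and K.ev)).exists
  exact B.mem h1 h2 hb

theorem Clm.pn_val (K : c.Clm y1 c1 b Z) {x : ℕ} {μ : Mv} {w : Adr} (h : c.Pn Z x (μ :: w))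
    (c' : Bool) : Val c' μ.1 (μ :: w) := by
  obtain ⟨q, h1, h2, c', B⟩ := (ev_rp.and (h.2.and K.ev)).exists
  exact B.box.suffix ((c.g.pic _ _ h1).hd _ _ h2).2.2 le_rfl

theorem Clm.pn_same (K : c.Clm y1 c1 b Z) {x : ℕ} {w : Adr} (h : c.Pn Z x w) :
    c.W.Same (c.f x) (y1 ++ w) := by
  have hd : ∀ u, ¬ Dag (c.W.D u) y1 := fun u h1 => K.tr.not_dag (h1.mono (c.W.d_di u))
  refine Wd.same_of ⟨fun h1 => ?_, fun h1 => ?_⟩ fun e u κ hn => ⟨fun h1 => ?_, fun h1 => ?_⟩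
  · obtain ⟨q, h2, h3, c', B⟩ := ((ev_snd (l := (true, 0, 0, [])) h.1 (Or.inl ⟨rfl, h1⟩)).and
      (h.2.and K.ev)).exists
    rcases h2 _ h3 with h4 | h4
    · exact dag_app.2 (Or.inr (((dag_app.1 h4.2).resolve_left B.nd).mono (c.W.d_di _)))
    · simp at h4
  · obtain ⟨q, h2, h3, h4⟩ := (ev_rp.and (h.2.and (ev_s (Wd.dag_ev
      ((dag_app.1 h1).resolve_left K.tr.not_dag))))).exists
    exact pic_dag h2 h3 (dag_app.2 (Or.inr h4))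
  · obtain ⟨q, h2, h3, h4, c', B⟩ := ((ev_lb h.1 hn h1).and (h.2.and ((K.ne e u hn).and K.ev))).exists
    exact ((lb_clone h4 B.nd (K.tr.er (c.W.ne_tp _ _ hn) u) (hd _) B.pi).1 (h2 _ h3)).mono
      (c.W.d_di _)
  · obtain ⟨q, h2, h3, h4, h5, h6, h7, c', B⟩ := (ev_rp.and (h.2.and ((K.ne e u hn).and
      ((ev_p (Wd.lb_ev h1)).and ((ev_p (eventually_ge_atTop u)).and
      ((ev_p (eventually_gt_atTop (encode ((false, e, u, κ) : Lbl)))).and K.ev)))))).exists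
    have h8 := sh_lab h.1 ((c.g.pic _ _ h2).cmp _ _ _ h3 h7 (by
      rw [dc_enc]
      exact Or.inr ⟨rfl, h6, Or.inr ((lb_clone h4
        (fun h => B.nd (h.mono fun i o => c.W.d_mono _ _ i o (c.g.p_le _)))
        (K.tr.er (c.W.ne_tp _ _ hn) u) (hd _) B.pi).2 h5)⟩))
    simpa [Wd.Lab, hn] using h8

theorem fe_ev {σ : List ℕ} {b' : ℕ} (h : ∀ b'', b ≤ b'' → b'' < b' → FE c.W.T c.W.Di c.e σ b'') :
    ∀ᶠ q in c.F, ∀ b'', b ≤ b'' → b'' < b' → FE c.W.T (c.W.D (c.g.p q.1)) c.e σ b'' := by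
  refine ev_p (P := fun t => ∀ b'', b ≤ b'' → b'' < b' → FE c.W.T (c.W.D t) c.e σ b'') ?_
  filter_upwards [(eventually_all_finite (I := {b'' | b ≤ b'' ∧ b'' < b'})
    ((Set.finite_lt_nat b').subset fun _ h => h.2)).2 fun b'' hb => Wd.fe_ev (h b'' hb.1 hb.2)]
    with t ht b'' h1 h2 using ht b'' ⟨h1, h2⟩

/-- the move can be pinned below the bound `b'` -/
def Ok (c : Cx) (b b' : ℕ) (μ : Mv) : Prop :=
  b ≤ μ.1 ∧ (μ.1 < b' ∨ (μ.1 = b' ∧ Low c.e (own μ) ∧ ¬ At c.W.Di c.e μ))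

theorem Clm.pin' (K : c.Clm y1 c1 b Z) {b' : ℕ}
    (h : ∀ b'', b ≤ b'' → b'' < b' → FE c.W.T c.W.Di c.e (cx [] y1) b'') :
    ∀ᶠ q in c.F, ∀ x μ w, (x, Z q.2 ++ μ :: w) ∈ q.2 → c.Ok b b' μ → c.Pn Z x (μ :: w) := by
  filter_upwards [K.pin, fe_ev h] with q h1 h2 x μ w hx hk
  rcases hk.2 with h3 | h3
  · have h4 := h2 _ hk.1 h3
    exact h1 x μ w hx hk.1 (fun b'' a1 a2 => h2 _ a1 (by omega)) h4.ex
      (h4.imp id fun h5 => Or.inl (not_at_of_low h5))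
  · exact h1 x μ w hx hk.1 (fun b'' a1 a2 => h2 _ a1 (by omega)) (Or.inr h3.2.1)
      (Or.inr (Or.inl h3.2.2))

theorem Clm.pn_sur (K : c.Clm y1 c1 b Z) {b' : ℕ}
    (h : ∀ b'', b ≤ b'' → b'' < b' → FE c.W.T c.W.Di c.e (cx [] y1) b'') {μ : Mv} {w : Adr}
    {c' : Bool} {b0 : ℕ} (hv : Val c' b0 (μ :: w)) (hk : c.Ok b b' μ) : ∃ x, c.Pn Z x (μ :: w) := by
  obtain ⟨q, h1, h2, c'', B⟩ := ((K.pin' h).and
    ((ev_p (eventually_gt_atTop (encode (μ :: w)))).and K.ev)).exists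
  obtain ⟨x, hx⟩ := B.sat _ h2 (hv.raise hk.1)
  exact ⟨x, h1 x μ w hx hk⟩

/-- a point of the box whose pictures can be pinned is pinned -/
theorem Clm.pn_of (K : c.Clm y1 c1 b Z) {b' x : ℕ}
    (h : ∀ b'', b ≤ b'' → b'' < b' → FE c.W.T c.W.Di c.e (cx [] y1) b'') (hx : c.Hd x)
    (hb : Bx c1 y1 b (c.f x)) {P : Adr → Prop} (hP : ∀ᶠ q in c.F, ∀ w, (x, Z q.2 ++ w) ∈ q.2 → P w)
    (hk : ∀ c' w, Val c' b w → P w → ∃ μ w', w = μ :: w' ∧ c.Ok b b' μ) :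
    ∃ μ w, c.Pn Z x (μ :: w) ∧ P (μ :: w) ∧ b ≤ μ.1 := by
  obtain ⟨q, h1, h2, ⟨-, y, h3⟩, c', B⟩ := ((K.pin' h).and (hP.and ((ev_dom hx).and K.ev))).exists
  obtain ⟨w, hw, rfl⟩ := (B.iff _ _ h3).1 hb
  obtain ⟨μ, w', rfl, h4⟩ := hk c' w hw (h2 w h3)
  exact ⟨μ, w', h1 x μ w' h3 h4, h2 _ h3, h4.1⟩

theorem Pn.ev_out {x x' : ℕ} {w' : Adr} (h : c.Pn Z x' w') (s : Bool) :
    ∀ᶠ q in c.F, ∀ w, (x, Z q.2 ++ w) ∈ q.2 →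
      (Out s (c.f x) (c.f x') ↔ Out s w w') ∧ (Out s (c.f x') (c.f x) ↔ Out s w' w) := by
  filter_upwards [ev_rp, h.2] with q h1 h2 w h3
  cases s
  · simp only [out_false, pic_ord h1 h3 h2, pic_ord h1 h2 h3, ky_app_lt, and_self]
  · simp only [out_true, pic_ord h1 h3 h2, pic_ord h1 h2 h3, ky_app_lt, and_self]

/-- pinned points as a relation between addresses -/
def Ps (c : Cx) (y1 : Adr) (Z : Pc → Adr) (y y' : Adr) : Prop :=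
  ∃ x w, y = y1 ++ w ∧ c.Pn Z x w ∧ c.f x = y'

theorem Clm.ps_pi (K : c.Clm y1 c1 b Z) : c.W.PI (c.Ps y1 Z) := by
  constructor
  · rintro _ _ ⟨x, w, rfl, h, rfl⟩
    exact (K.pn_same h).symm
  · rintro _ _ _ _ ⟨x, w, rfl, h, rfl⟩ ⟨x', w', rfl, h', rfl⟩
    rw [ky_app_lt, h.ord h']

/-- the point with suffix `w` is pinned at its true place -/
def Fx (c : Cx) (y1 : Adr) (Z : Pc → Adr) (w : Adr) : Prop := ∃ x, c.f x = y1 ++ w ∧ c.Pn Z x w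

theorem ps_self {w : Adr} : c.Ps y1 Z (y1 ++ w) (y1 ++ w) ↔ c.Fx y1 Z w := by
  constructor
  · rintro ⟨x, w', h1, h2, h3⟩
    obtain rfl := List.append_cancel_left h1
    exact ⟨x, h3, h2⟩
  · rintro ⟨x, h1, h2⟩
    exact ⟨x, w, rfl, h2, h1⟩

/-- pinned true markers are at their true places -/
theorem Clm.fix_half (K : c.Clm y1 c1 b Z) {b1 : ℕ} (ht : c.W.TrL (cx [] y1) b)
    (h : ∀ b'', b ≤ b'' → b'' < b1 → FE c.W.T c.W.Di c.e (cx [] y1) b'') (s : Bool) (n0 : ℤ)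
    (h1 : ∀ n n' c' w, Half s n0 n → Half s n0 n' → Val c' b w → ¬ ky w < ky [c.W.P b n] →
      ¬ ky [c.W.P b n'] < ky w → ∃ μ w', w = μ :: w' ∧ c.Ok b b1 μ) {n : ℤ} (hn : Half s n0 n) :
    c.Fx y1 Z [c.W.P b n] := by
  have key : ∀ μ w, Val c1 b (μ :: w) → c.Ok b b1 μ →
      ∃ y', Bx c1 y1 b y' ∧ c.Ps y1 Z (y1 ++ μ :: w) y' := by
    intro μ w hv hk
    obtain ⟨x, hx⟩ := K.pn_sur h hv hk
    exact ⟨_, K.pn_box hx hv.lev, x, _, rfl, hx, rfl⟩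
  refine ps_self.1 ((Wd.shift (c := c1) (c' := c1) K.ps_pi ⟨K.tr, K.tr, rfl⟩ ht s n0 ?_ ?_
    ?_).resolve_right (Wd.no_trans c.wf K.ps_pi ⟨K.tr, K.tr, rfl⟩) n hn)
  · intro n hn
    obtain ⟨μ, w, he, hk⟩ := h1 n n c1 _ hn hn (c.W.val_P c1 le_rfl n) (lt_irrefl _) (lt_irrefl _)
    rw [he]
    exact key μ w (he ▸ c.W.val_P c1 le_rfl n) hk
  · rintro n n' _ hn hn' ⟨w, hw, rfl⟩ a1 a2
    rw [ky_app_lt] at a1 a2
    obtain ⟨μ, w, rfl, hk⟩ := h1 n n' c1 w hn hn' hw (lt_asymm a1) (lt_asymm a2)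
    exact key μ w hw hk
  · rintro n n' _ _ y' hn hn' ⟨x1, w1, e1, p1, rfl⟩ ⟨x2, w2, e2, p2, rfl⟩ hy a1 a2
    obtain rfl := List.append_cancel_left e1
    obtain rfl := List.append_cancel_left e2
    obtain ⟨x, hx, rfl⟩ := c.R.sur y' (K.box.val hy)
    obtain ⟨μ, w, p, -, hl⟩ := K.pn_of h hx hy
      (P := fun w => ky [c.W.P b n] < ky w ∧ ky w < ky [c.W.P b n'])
      (by
        filter_upwards [p1.ev_out (x := x) false, p2.ev_out (x := x) false] with q a3 a4 w hw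
        exact ⟨out_false.1 ((a3 w hw).2.1 (out_false.2 a1)),
          out_false.1 ((a4 w hw).1.1 (out_false.2 a2))⟩)
      fun c' w hw hP => h1 n n' c' w hn hn' hw (lt_asymm hP.1) (lt_asymm hP.2)
    exact ⟨_, bx_app.2 ((K.pn_val p c1).raise hl), x, _, rfl, p, rfl⟩

/-- a piece that consists of pinned points -/
theorem Clm.good_pin (K : c.Clm y1 c1 b Z) {Q : Mv → Prop} (hQ : ComputablePred Q) (s : Bool)
    (hq : ∀ μ, Q μ → Low c.e (own μ) ∧ ¬ At c.W.Di c.e μ) {A : Mv → Prop}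
    (hA : ∀ μ, A μ ↔ b ≤ μ.1 ∧ μ.2.1 = s ∧
      (∀ b', b ≤ b' → b' < μ.1 → FE c.W.T c.W.Di c.e (cx [] y1) b') ∧
      (LD c.W.T c.W.Di (cx [] y1) μ.1 ∨ Q μ)) {C : Adr → Prop}
    (hC : ∀ y, C y ↔ ∃ μ w, y = y1 ++ μ :: w ∧ A μ)
    (hc : ∀ y y' y'', C y → C y' → Val false 0 y'' → ky y < ky y'' → ky y'' < ky y' → C y'')
    (h1 : ∀ x μ w, c.Pn Z x (μ :: w) → A μ → C (c.f x))
    (h2 : ∀ x, c.Hd x → C (c.f x) → ∃ μ w, c.Pn Z x (μ :: w) ∧ A μ) : c.Good C := by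
  obtain ⟨N, hN⟩ := ev_iff.1 K.pin
  have hZ := K.comp
  have hQ' : Sig 3 Q := Sig.of_comp hQ
  obtain ⟨RP, hRP, eRP⟩ : ∃ A : ℕ × Pc → Prop, Sig 3 A ∧ ∀ s h, A (s, h) ↔ c.g.RP s h :=
    ⟨_, c.g.rp_sig, fun _ _ => Iff.rfl⟩
  obtain ⟨p, hp, ep⟩ : ∃ A : ℕ × ℕ → Prop, Sig 3 A ∧ ∀ s u, A (s, u) ↔ c.g.p s = u :=
    ⟨_, c.g.p_sig, fun _ _ => Iff.rfl⟩
  obtain ⟨L, hL, eL⟩ : ∃ A : ℕ × ℕ → Prop, Sig 3 A ∧
      ∀ u b', A (u, b') ↔ LD c.W.T (c.W.D u) (cx [] y1) b' := by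
    obtain ⟨D, hD, eD⟩ : ∃ A : ℕ × ℕ × ℕ → Prop, Sig 3 A ∧ ∀ u i o, c.W.D u i o ↔ A (u, i, o) :=
      ⟨_, c.g.d_sig, fun _ _ _ => Iff.rfl⟩
    have hT : Del 3 c.W.T := Del.of_comp c.g.t_comp
    refine ⟨fun q => LD c.W.T (c.W.D q.1) (cx [] y1) q.2, ?_, fun _ _ => Iff.rfl⟩
    simp only [LD, eD]
    fun_prop
  have hLow : Sig 3 fun b' => Low c.e (lam b') := Sig.of_comp (by fun_prop)
  obtain ⟨Lo, hLo, eLo⟩ : ∃ A : ℕ → Prop, Sig 3 A ∧ ∀ b', A b' ↔ Low c.e (lam b') :=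
    ⟨_, hLow, fun _ => Iff.rfl⟩
  have hG : Sig 3 fun r : ℕ × Adr => ∃ t : (Mv × Adr) × (ℕ × Pc) × ℕ, r.2 = y1 ++ t.1.1 :: t.1.2 ∧
      N ≤ t.2.1.1 ∧ RP t.2.1 ∧ p (t.2.1.1, t.2.2) ∧ (r.1, Z t.2.1.2 ++ t.1.1 :: t.1.2) ∈ t.2.1.2 ∧
      b ≤ t.1.1.1 ∧ t.1.1.2.1 = s ∧ (Ball (List.range t.1.1.1) fun b' =>
        Imp (b ≤ b') (L (t.2.2, b') ∨ Lo b')) ∧ (L (t.2.2, t.1.1.1) ∨ Q t.1.1) := by fun_prop
  obtain ⟨G, hG, eG⟩ : ∃ G : ℕ × Adr → Prop, Sig 3 G ∧ ∀ x y, G (x, y) ↔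
      ∃ μ w, y = y1 ++ μ :: w ∧ c.Pn Z x (μ :: w) ∧ A μ := by
    refine ⟨_, hG, fun x y => ⟨?_, ?_⟩⟩
    · rintro ⟨⟨⟨μ, w⟩, ⟨s, h⟩, u⟩, a1, a2, a3, a4, a5, a6, a7, a8, a9⟩
      simp only [eRP, ep, eL, eLo, Ball, Imp, List.mem_range] at *
      subst a4
      refine ⟨μ, w, a1, hN s h a2 a3 x μ w a5 a6 (fun b' k1 k2 => a8 b' k2 k1)
        (a9.imp id fun k => (hq μ k).1) (a9.imp id fun k => Or.inl (hq μ k).2),
        (hA μ).2 ⟨a6, a7, fun b' k1 k2 => FE.mono (a8 b' k2 k1) (c.W.d_di _),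
          a9.imp (fun k => k.mono (c.W.d_di _)) id⟩⟩
    · rintro ⟨μ, w, a1, a2, a3⟩
      rw [hA] at a3
      have a4 : ∀ᶠ q in c.F, LD c.W.T (c.W.D (c.g.p q.1)) (cx [] y1) μ.1 ∨ Q μ := by
        rcases a3.2.2.2 with k | k
        · filter_upwards [ev_p (Wd.ld_ev k)] with q hq using Or.inl hq
        · exact Eventually.of_forall fun _ => Or.inr k
      obtain ⟨⟨s, h⟩, k1, k2, k3, k4, k5⟩ := (ev_rp.and (a2.2.and (a4.and ((fe_ev a3.2.2.1).and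
        (ev_s (eventually_ge_atTop N)))))).exists
      refine ⟨((μ, w), (s, h), c.g.p s), ?_⟩
      simp only [eRP, ep, eL, eLo, Ball, Imp, List.mem_range]
      exact ⟨a1, k5, k1, trivial, k2, a3.1, a3.2.1, fun b' a b => k4 b' b a, k3⟩
  refine ⟨G, hG, fun x y hg => ?_, fun x hx hc => ?_, fun y hy hc => ?_,
    fun x y x' y' hg hg' => ?_⟩
  · obtain ⟨μ, w, rfl, a2, a3⟩ := (eG _ _).1 hg
    have a4 : C (y1 ++ μ :: w) := (hC _).2 ⟨μ, w, rfl, a3⟩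
    exact ⟨a2.1, h1 x μ w a2 a3, K.box.val (bx_app.2 ((K.pn_val a2 c1).mono ((hA μ).1 a3).1)), a4,
      K.pn_same a2, fun y' hy' hn => ext_of_conv hc (h1 x μ w a2 a3) a4 hy' hn⟩
  · obtain ⟨μ, w, a⟩ := h2 x hx hc
    exact ⟨_, (eG _ _).2 ⟨μ, w, rfl, a⟩⟩
  · obtain ⟨μ, w, rfl, a3⟩ := (hC y).1 hc
    have a4 := (hA μ).1 a3
    have hv : Val c1 μ.1 (μ :: w) := K.box.suffix hy le_rfl
    have : ∃ x, c.Pn Z x (μ :: w) := by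
      rcases a4.2.2.2 with k | k
      · refine K.pn_sur (b' := μ.1 + 1) (fun b' k1 k2 => ?_) hv ⟨a4.1, Or.inl (by omega)⟩
        rcases (show b' < μ.1 ∨ b' = μ.1 by omega) with k3 | rfl
        · exact a4.2.2.1 b' k1 k3
        · exact Or.inl k
      · exact K.pn_sur a4.2.2.1 hv ⟨a4.1, Or.inr ⟨rfl, hq μ k⟩⟩
    exact this.imp fun x hx => (eG _ _).2 ⟨μ, w, rfl, hx, a3⟩
  · obtain ⟨μ, w, rfl, a2, -⟩ := (eG _ _).1 hg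
    obtain ⟨μ', w', rfl, a2', -⟩ := (eG _ _).1 hg'
    rw [ky_app_lt, a2.ord a2']

end Cx

end Pool.Agent.Lib.MP_9e2528_lc.T3
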