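import Pool.Agent.Lib.MP_9e2528_lc.T11

set_option autoImplicit false

/-! Pieces given by first moves; smaller boxes. -/

namespace Pool.Agent.Lib.MP_9e2528_lc.T3

open Encodable Filter

/-- the points after `y1` whose next move satisfies `Q` -/
def Fq (y1 : Adr) (Q : Mv → Prop) (y : Adr) : Prop := ∃ μ w, y = y1 ++ μ :: w ∧ Q μ

theorem fq_app {y1 w : Adr} {μ : Mv} {Q : Mv → Prop} : Fq y1 Q (y1 ++ μ :: w) ↔ Q μ :=
  ⟨fun ⟨_, _, h, hq⟩ => (List.cons.inj (List.append_cancel_left h)).1 ▸ hq, fun h => ⟨μ, w, rfl, h⟩⟩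

theorem val_mok {z w : Adr} {μ : Mv} {c : Bool} {b : ℕ} (h : Val c b (z ++ μ :: w)) : Mok μ := by
  induction z generalizing c b with
  | nil => exact h.mok
  | cons ν z ih =>
    rcases (val_cons.1 h).2.2 with h1 | h1
    · simp at h1
    · exact ih h1.2

/-- action of the innermost marker of a side -/
def cen (s : Bool) : ℕ := if s = true then 4 else 2

theorem cen_mark (s : Bool) : cen s = 0 ∨ cen s = 2 ∨ cen s = 4 := by cases s <;> simp [cen]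

theorem side_conv {s : Bool} {μ1 μ2 : Mv} {v1 v2 w : Adr} (e2 : μ1.2.1 = s) (e5 : μ2.2.1 = s)
    (h3 : ¬ Out s w (μ1 :: v1)) (h4 : ¬ Out s (μ2 :: v2) w) :
    ∃ ν w', w = ν :: w' ∧ ν.2.1 = s ∧ ¬ Fo ν μ1 ∧ ¬ Fo μ2 ν := by
  cases w with
  | nil => cases s <;> simp [Out, e5] at h4
  | cons ν w =>
    have hs : ν.2.1 = s := by
      by_contra hs
      cases s <;> simp [Out, ky_cons_lt, kv_lt, e5, hs] at h4 hs
    exact ⟨ν, w, rfl, hs, fun h => h3 (out_of_fo hs e2 h _ _), fun h => h4 (out_of_fo e5 hs h _ _)⟩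

theorem cen_iff {c : Bool} {b0 : ℕ} {w : Adr} (hv : Val c b0 w) (b : ℕ) (s : Bool) :
    ¬ Out s [mk b false [] (cen s)] w ↔ ∃ μ w', w = μ :: w' ∧ μ.1 ≤ b ∧ μ.2.1 = s := by
  cases w with
  | nil => cases s <;> simp [Out, mk_nil, cen]
  | cons ν w =>
    have m := mark_lt (μ := mk b false [] (cen s)) hv (by cases s <;> simp [Bo, cen])
    have h3 := hv.mok
    obtain ⟨b', s', ρ', a'⟩ := ν
    cases s
    · rw [out_false, m.1, kv_lt]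
      cases s' <;> simp [mk_nil, cen, Fo, Mok, Imp] at h3 ⊢
      intro _ _ h4
      have := h3.2 h4
      omega
    · rw [out_true, m.2, kv_lt]
      cases s' <;> simp [mk_nil, cen, Fo, Mok, Imp] at h3 ⊢
      intro _ _ h4
      have := h3.2 h4
      omega

theorem lm_snoc (z : Adr) (μ : Mv) : lm (z ++ [μ]) = μ := by simp [lm]
theorem dr_snoc (z : Adr) (μ : Mv) : dr (z ++ [μ]) = z := by simp [dr]

theorem nb_mem (z : Adr) (b : ℕ) (s : Bool) (ρ : List ℕ) (a0 : ℕ) (w : Adr) {a : ℕ} (ha : a < 5) :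
    z ++ mk b s ρ a :: w ∈ Nb (z ++ [mk b s ρ a0]) w := by
  simp only [Nb, lm_snoc, dr_snoc, mk_lev, mk_path, mk_mk, List.mem_cons, List.mem_map,
    List.mem_range]
  exact Or.inr (Or.inr ⟨a, ha, rfl⟩)

/-- the picture of a point -/
def lk (h : Pc) (x : ℕ) : Adr := h.foldr (fun q a => if q.1 = x then q.2 else a) []

theorem lk_mem {h : Pc} {x : ℕ} {y : Adr} (hy : (x, y) ∈ h) : (x, lk h x) ∈ h := by
  induction h with
  | nil => simp at hy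
  | cons q h ih =>
    by_cases hq : q.1 = x
    · simp [lk, hq, Prod.ext_iff]
    · have := ih ((List.mem_cons.1 hy).resolve_left fun h => hq (h ▸ rfl))
      simp only [lk, List.foldr_cons, hq, if_false] at this ⊢
      exact List.mem_cons_of_mem _ this

namespace Cx

variable {c : Cx} {y1 : Adr} {c1 : Bool} {b : ℕ} {Z : Pc → Adr}

theorem Good.union {C1 C2 C : Adr → Prop} (h1 : c.Good C1) (h2 : c.Good C2)
    (hd : ∀ y, Val false 0 y → C1 y → ¬ C2 y) (H : ∀ y, Val false 0 y → (C y ↔ C1 y ∨ C2 y)) :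
    c.Good C :=
  Good.cases C1 (h1.of_eq fun y hy => ⟨fun h => ⟨(H y hy).2 (Or.inl h), h⟩, fun h => h.2⟩)
    (h2.of_eq fun y hy => ⟨fun h => ⟨(H y hy).2 (Or.inr h), fun h' => hd y hy h' h⟩,
      fun h => ((H y hy).1 h.1).resolve_left h.2⟩)

theorem Good.union1 {Q1 Q2 Q : Mv → Prop} (h1 : c.Good (Fq y1 Q1)) (h2 : c.Good (Fq y1 Q2))
    (hd : ∀ μ, Q1 μ → ¬ Q2 μ) (H : ∀ μ, Q μ ↔ Q1 μ ∨ Q2 μ) : c.Good (Fq y1 Q) :=
  h1.union h2 (by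
    rintro _ - ⟨μ, w, rfl, h⟩
    rw [fq_app]
    exact hd μ h) fun y _ => by simp only [Fq, H, and_or_left, exists_or]

theorem Good.and_const {C : Adr → Prop} (h : c.Good C) (p : Prop) : c.Good fun y => C y ∧ p := by
  by_cases hp : p
  · exact h.of_eq fun _ _ => by simp [hp]
  · exact good_point [] fun _ _ h => absurd h.2 hp

theorem Clm.good_up (K : c.Clm y1 c1 b Z) {b1 : ℕ} (hb : b ≤ b1)
    (h1 : c.Good (Fq y1 fun μ => b ≤ μ.1 ∧ μ.1 < b1)) (h2 : c.Good (Bx c1 y1 b1)) :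
    c.Good (Bx c1 y1 b) := by
  refine h1.union h2 ?_ fun y hy => ⟨?_, ?_⟩
  · rintro _ - ⟨μ, w, rfl, h⟩ h3
    have := (bx_app.1 h3).lev
    omega
  · rintro ⟨_ | ⟨μ, w⟩, hw, rfl⟩
    · exact Or.inr ⟨[], hw, rfl⟩
    · by_cases h : μ.1 < b1
      · exact Or.inl (fq_app.2 ⟨hw.lev, h⟩)
      · exact Or.inr ⟨_, hw.raise (by omega), rfl⟩
  · rintro (⟨μ, w, rfl, h⟩ | ⟨w, hw, rfl⟩)
    · exact bx_app.2 (K.box.suffix hy h.1)
    · exact ⟨w, hw.mono hb, rfl⟩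

theorem Clm.ev_strip (K : c.Clm y1 c1 b Z) {x e u : ℕ} {κ : Adr} (hx : c.Hd x)
    (hb : Bx c1 y1 b (c.f x)) (hn : c.W.NE e u)
    (h : Lb c.W.T (c.W.D u) c.W.Di e [] (pi y1 ++ κ) (c.f x)) :
    ∀ᶠ q in c.F, ∃ c' w, Val c' b w ∧ (x, Z q.2 ++ w) ∈ q.2 ∧
      Lb c.W.T (c.W.D u) (c.W.D q.1) e (cx [] y1) κ w := by
  filter_upwards [ev_lb hx hn h, K.ne _ _ hn, K.ev, ev_dom hx] with q h1 h2 ⟨c', B⟩ ⟨_, y, hy⟩
  obtain ⟨w', hw', rfl⟩ := (B.iff _ _ hy).1 hb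
  have h3 := h1 _ hy
  rw [← B.pi, lb_strip' h2 B.nd, cx_eq B.pi] at h3
  exact ⟨c', w', hw', hy, h3⟩

theorem Clm.fx_frz (K : c.Clm y1 c1 b Z) {e u : ℕ} {μ : Mv} {w : Adr}
    (hf : c.W.Frz e u (cx [] y1) μ) (hb : μ.1 = b) (hv : Val c1 b (μ :: w)) :
    c.Fx y1 Z (μ :: w) := by
  obtain ⟨x, hx, he⟩ := c.R.sur _ (K.box.val (bx_app.2 hv))
  refine ⟨x, he, hx, ?_⟩
  filter_upwards [K.ev_strip hx (he ▸ bx_app.2 hv) hf.1 (he ▸ (K.tr.strip hf.1).2 (hf.lb w))]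
    with q ⟨c', w', h1, h2, h3⟩
  rwa [hf.uniq (c.W.d_di _) h3 (hb ▸ h1)] at h2

theorem Clm.good_frz (K : c.Clm y1 c1 b Z) {e u : ℕ} {Q : Mv → Prop} (hQ : ComputablePred Q)
    (h : ∀ μ, Q μ → μ.1 = b ∧ c.W.Frz e u (cx [] y1) μ) : c.Good (Fq y1 Q) := by
  have hQ' : Sig 3 Q := Sig.of_comp hQ
  refine (good_label (C := fun y => ∃ t : Mv × Adr, y = y1 ++ t.1 :: t.2 ∧ Q t.1 ∧ Val false 0 y)
    (C' := Bx c1 y1 b) (l := fun y => (false, e, u, pi y1 ++ y.drop y1.length)) (by fun_prop)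
    (by fun_prop) K.pre ?_ ?_ ?_).of_eq fun y hy => ?_
  · rintro _ ⟨⟨μ, w⟩, rfl, h1, h2⟩
    exact bx_app.2 (K.box.suffix h2 (h μ h1).1.ge)
  · rintro _ ⟨⟨μ, w⟩, rfl, h1, -⟩
    rw [List.drop_left]
    exact Or.inr ⟨rfl, Or.inr ((K.tr.strip (h μ h1).2.1).2 ((h μ h1).2.lb w))⟩
  · rintro _ _ ⟨⟨μ, w⟩, rfl, h1, -⟩ ⟨w', hw', rfl⟩ h2
    obtain ⟨h3, h4⟩ := h μ h1
    rw [List.drop_left] at h2
    simp only [Wd.Lab, h4.1, K.tr.strip h4.1] at h2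
    rw [h4.uniq (κ := w) (w := w') (fun _ _ h => h) (by simpa using h2) (h3 ▸ hw')]
  · exact ⟨fun ⟨t, h1, h2, _⟩ => ⟨_, _, h1, h2⟩, fun ⟨μ, w, h1, h2⟩ => ⟨(μ, w), h1, h2, hy⟩⟩

theorem Clm.pre_sub (K : c.Clm y1 c1 b Z) {q1 q2 : Adr} (h1 : Val c1 b q1) (h2 : Val c1 b q2)
    {C : Adr → Prop} (H : ∀ y, Bx c1 y1 b y ∧ ky (y1 ++ q1) < ky y ∧ ky y < ky (y1 ++ q2) ↔ C y) :
    Sig 3 fun x => c.Hd x ∧ C (c.f x) :=
  (K.pre.and (pre_int (c := c) (K.box.val (bx_app.2 h1)) (K.box.val (bx_app.2 h2))).1).of_eq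
    fun x => by rw [← H]; tauto

theorem Bp.iff_sub {z v v' : Adr} {c' : Bool} {q : ℕ × Pc} {x1 x2 : ℕ}
    (B : c.Bp y1 c1 b z c' q) (hr : c.g.RP q.1 q.2) (h1 : (x1, v) ∈ q.2) (h2 : (x2, v') ∈ q.2)
    {C C' : Adr → Prop}
    (H : ∀ y, Bx c1 y1 b y ∧ ky (c.f x1) < ky y ∧ ky y < ky (c.f x2) ↔ C y)
    (H' : ∀ y, Bx c' z b y ∧ ky v < ky y ∧ ky y < ky v' ↔ C' y) (x : ℕ) (y : Adr)
    (h : (x, y) ∈ q.2) : C (c.f x) ↔ C' y := by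
  rw [← H, ← H', B.iff _ _ h, pic_ord hr h1 h, pic_ord hr h h2]

/-- the core of a period -/
theorem Clm.core (K : c.Clm y1 c1 b Z) {s : Bool} {ρ : List ℕ} {x x' : ℕ} {S : Pc → Bool}
    {R : Pc → List ℕ} (hS : Computable S) (hR : Computable R)
    (ht : c.W.Tr [] (y1 ++ cz b s ρ)) (hx : c.Hd x) (e1 : c.f x = y1 ++ [mk b s ρ 2])
    (e2 : c.f x' = y1 ++ [mk b s ρ 4])
    (h1 : ∀ᶠ q in c.F, (x, Z q.2 ++ [mk b (S q.2) (R q.2) 2]) ∈ q.2 ∧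
      (x', Z q.2 ++ [mk b (S q.2) (R q.2) 4]) ∈ q.2 ∧
      Er c.W.T (c.W.D (c.g.p q.1)) c.e (cx [] y1) (cz b (S q.2) (R q.2)) ∧
      ¬ Dag (c.W.D q.1) (cz b (S q.2) (R q.2)))
    (h2 : ∀ e u, c.W.NE e u →
      ∀ᶠ q in c.F, Er c.W.T (c.W.D u) e (cx [] y1) (cz b (S q.2) (R q.2))) :
    c.Clm (y1 ++ cz b s ρ) (cb c1 s ρ) (b + 1) fun h => Z h ++ cz b (S h) (R h) where
  tr := ht
  box := K.box.core le_rfl s ρ
  comp := by
    have := K.comp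
    fun_prop
  pre := K.pre_sub (val_mark _ le_rfl s ρ (by omega)) (val_mark _ le_rfl s ρ (by omega))
    (bx_intC le_rfl s ρ y1)
  ev := by
    filter_upwards [ev_rp, K.ev, h1, ev_dom hx] with q hr ⟨c', B⟩ ⟨a1, a2, a3, a4⟩ ⟨a5, _⟩
    refine ⟨_, B.box.core le_rfl (S q.2) (R q.2), er_app.2 ⟨B.er, cx_eq B.pi [] ▸ a3⟩,
      fun h => (dag_app.1 h).elim B.nd a4, by rw [pi_app, pi_app, pi_cz, pi_cz, B.pi],
      B.iff_sub hr a1 a2 (e1 ▸ e2 ▸ bx_intC le_rfl s ρ y1) (bx_intC le_rfl _ _ _), fun w hw hv => ?_⟩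
    by_cases h0 : R q.2 = []
    · simp only [cz, cb, h0, if_true, List.append_nil] at hv ⊢
      exact B.sat w hw (hv.mono (by omega))
    · refine (c.g.pic _ _ hr).sat _ _ w _ a1 a5 hw ?_
        ((B.box.core le_rfl (S q.2) (R q.2)).val (bx_app.2 hv))
      simpa [cz, h0] using nb_mem (Z q.2) b (S q.2) (R q.2) 2 w (a := 3) (by omega)
  ne e u hn := by
    filter_upwards [K.ev, K.ne e u hn, h2 e u hn] with q ⟨c', B⟩ a1 a2
    exact er_app.2 ⟨a1, cx_eq B.pi [] ▸ a2⟩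

/-- the next level -/
theorem Clm.next (K : c.Clm y1 c1 b Z) (h : ∀ s, c.Fx y1 Z [mk b false [] (cen s)]) :
    c.Clm y1 c1 (b + 1) Z := by
  obtain ⟨x, e1, h1⟩ := h false
  obtain ⟨x', e2, h2⟩ := h true
  simpa [cz, cb] using K.core (S := fun _ => false) (R := fun _ => []) (by fun_prop) (by fun_prop)
    (by simpa [cz] using K.tr) h1.1 e1 e2 (by
      filter_upwards [h1.2, h2.2] with q a1 a2 using ⟨a1, a2, trivial, not_dag_nil⟩)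
    fun _ _ _ => Eventually.of_forall fun _ => trivial

/-- the child box of a period -/
theorem Clm.child (K : c.Clm y1 c1 b Z) {s : Bool} {ρ : List ℕ} {x x' : ℕ} {S : Pc → Bool}
    {R : Pc → List ℕ} (hS : Computable S) (hR : Computable R)
    (ht : c.W.Tr [] (y1 ++ [mk b s ρ 1])) (hx : c.Hd x) (e1 : c.f x = y1 ++ [mk b s ρ 0])
    (e2 : c.f x' = y1 ++ [mk b s ρ 2])
    (h1 : ∀ᶠ q in c.F, (x, Z q.2 ++ [mk b (S q.2) (R q.2) 0]) ∈ q.2 ∧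
      (x', Z q.2 ++ [mk b (S q.2) (R q.2) 2]) ∈ q.2 ∧
      ¬ Ex c.W.T (c.W.D (c.g.p q.1)) c.e (cx [] y1) (mk b (S q.2) (R q.2) 1) ∧
      ¬ RD (c.W.D q.1) (mk b (S q.2) (R q.2) 1))
    (h2 : ∀ e u, c.W.NE e u →
      ∀ᶠ q in c.F, ¬ Ex c.W.T (c.W.D u) e (cx [] y1) (mk b (S q.2) (R q.2) 1)) :
    c.Clm (y1 ++ [mk b s ρ 1]) (dl ρ.length) 0 fun h => Z h ++ [mk b (S h) (R h) 1] where
  tr := ht
  box := K.box.child le_rfl s ρ
  comp := by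
    have := K.comp
    fun_prop
  pre := K.pre_sub (val_mark _ le_rfl s ρ (by omega)) (val_mark _ le_rfl s ρ (by omega))
    (bx_intY le_rfl s ρ y1)
  ev := by
    filter_upwards [ev_rp, K.ev, h1, ev_dom hx] with q hr ⟨c', B⟩ ⟨a1, a2, a3, a4⟩ ⟨a5, _⟩
    refine ⟨_, B.box.child le_rfl (S q.2) (R q.2), er_app.2 ⟨B.er, cx_eq B.pi [] ▸ a3, trivial⟩,
      fun h => (dag_app.1 h).elim B.nd fun h => (dag_cons.1 h).elim a4 not_dag_nil,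
      by rw [pi_app, pi_app, B.pi]; rfl,
      B.iff_sub hr a1 a2 (e1 ▸ e2 ▸ bx_intY le_rfl s ρ y1) (bx_intY le_rfl _ _ _), fun w hw hv => ?_⟩
    refine (c.g.pic _ _ hr).sat _ _ w _ a1 a5 hw ?_
      ((B.box.child le_rfl (S q.2) (R q.2)).val (bx_app.2 hv))
    simpa using nb_mem (Z q.2) b (S q.2) (R q.2) 0 w (a := 1) (by omega)
  ne e u hn := by
    filter_upwards [K.ev, K.ne e u hn, h2 e u hn] with q ⟨c', B⟩ a1 a2
    exact er_app.2 ⟨a1, cx_eq B.pi [] ▸ a2, trivial⟩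

/-- the property passes between the true suffix and the suffixes in late pictures -/
def Trf (c : Cx) (y1 : Adr) (Z : Pc → Adr) (P : Adr → Prop) : Prop :=
  ∀ x w0, c.f x = y1 ++ w0 → ∀ᶠ q in c.F, ∀ w, (x, Z q.2 ++ w) ∈ q.2 → (P w0 ↔ P w)

theorem Fx.trf {u : Adr} (h : c.Fx y1 Z u) (s : Bool) :
    (c.Trf y1 Z fun w => ¬ Out s w u) ∧ c.Trf y1 Z fun w => ¬ Out s u w := by
  obtain ⟨x', e, h⟩ := h
  refine ⟨fun x w0 e' => ?_, fun x w0 e' => ?_⟩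
  · filter_upwards [h.ev_out (x := x) s] with q h1 w hw
    rw [← (h1 w hw).1, e, e', out_app]
  · filter_upwards [h.ev_out (x := x) s] with q h1 w hw
    rw [← (h1 w hw).2, e, e', out_app]

theorem Trf.and {P P' : Adr → Prop} (h : c.Trf y1 Z P) (h' : c.Trf y1 Z P') :
    c.Trf y1 Z fun w => P w ∧ P' w := fun x w0 e => by
  filter_upwards [h x w0 e, h' x w0 e] with q h1 h2 w hw using and_congr (h1 w hw) (h2 w hw)

theorem Clm.good_pin' (K : c.Clm y1 c1 b Z) {Q : Mv → Prop} (hQ : ComputablePred Q) (s : Bool)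
    (hq : ∀ μ, Q μ → Low c.e (own μ) ∧ ¬ At c.W.Di c.e μ) {A : Mv → Prop}
    (hA : ∀ μ, A μ ↔ b ≤ μ.1 ∧ μ.2.1 = s ∧
      (∀ b', b ≤ b' → b' < μ.1 → FE c.W.T c.W.Di c.e (cx [] y1) b') ∧
      (LD c.W.T c.W.Di (cx [] y1) μ.1 ∨ Q μ))
    (hc : ∀ μ1 μ2 ν, A μ1 → A μ2 → ν.2.1 = s → ¬ Fo ν μ1 → ¬ Fo μ2 ν → A ν)
    (hB : ∀ μ w, Val c1 b (μ :: w) → A μ → ∃ P b', c.Trf y1 Z P ∧ P (μ :: w) ∧
      (∀ b'', b ≤ b'' → b'' < b' → FE c.W.T c.W.Di c.e (cx [] y1) b'') ∧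
      ∀ c' v, Val c' b v → P v → ∃ ν v', v = ν :: v' ∧ A ν ∧ c.Ok b b' ν) : c.Good (Fq y1 A) := by
  refine K.good_pin hQ s hq hA (fun _ => Iff.rfl) ?_ (fun x μ w h ha => ?_) ?_
  · rintro _ _ y ⟨μ, w, rfl, a1⟩ ⟨μ', w', rfl, a2⟩ - a3 a4
    obtain ⟨v, rfl⟩ := ky_conv y1 (lt_asymm a3) (lt_asymm a4)
    rw [ky_app_lt] at a3 a4
    have s1 := ((hA _).1 a1).2.1
    have s2 := ((hA _).1 a2).2.1
    cases s
    · obtain ⟨ν, v, rfl, k⟩ := side_conv s1 s2 (fun h => lt_asymm a3 (out_false.1 h))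
        fun h => lt_asymm a4 (out_false.1 h)
      exact fq_app.2 (hc _ _ _ a1 a2 k.1 k.2.1 k.2.2)
    · obtain ⟨ν, v, rfl, k⟩ := side_conv s2 s1 (fun h => lt_asymm a4 (out_true.1 h))
        fun h => lt_asymm a3 (out_true.1 h)
      exact fq_app.2 (hc _ _ _ a2 a1 k.1 k.2.1 k.2.2)
  · have hb := ((hA _).1 ha).1
    obtain ⟨P, b', k1, k2, -, k3⟩ := hB μ w ((K.pn_val h c1).mono hb) ha
    obtain ⟨w0, hw, he⟩ := K.pn_box h hb
    obtain ⟨q, k4, k5⟩ := ((k1 x w0 he).and h.2).exists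
    obtain ⟨ν, v, rfl, k6, -⟩ := k3 _ _ hw ((k4 _ k5).2 k2)
    exact ⟨ν, v, he, k6⟩
  · rintro x hx ⟨μ, w, he, ha⟩
    have hv : Val c1 b (μ :: w) := K.box.suffix (he ▸ c.R.val x hx) ((hA _).1 ha).1
    obtain ⟨P, b', k1, k2, k0, k3⟩ := hB μ w hv ha
    obtain ⟨μ', w', k4, k5, k6⟩ := K.pn_of k0 hx ⟨_, hv, he⟩ (P := P)
      (by filter_upwards [k1 x _ he] with q k w hw using (k w hw).1 k2)
      fun c' v a1 a2 => (k3 c' v a1 a2).imp fun _ h => h.imp fun _ h => ⟨h.1, h.2.2⟩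
    obtain ⟨ν, v, k7, k8, -⟩ := k3 _ _ ((K.pn_val k4 c1).mono k6) k5
    exact ⟨μ', w', k4, (List.cons.inj k7).1 ▸ k8⟩

end Cx

end Pool.Agent.Lib.MP_9e2528_lc.T3
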