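import Pool.Agent.Lib.MP_9e2528_lc.T12

set_option autoImplicit false

/-! Levels that are shown exactly; the island of a true level. -/

namespace Pool.Agent.Lib.MP_9e2528_lc.T3

open Encodable Filter

/-- the region of a path -/
def Rg (b : ℕ) (s : Bool) (g : List ℕ) (μ : Mv) : Prop := μ.1 = b ∧ μ.2.1 = s ∧ ∃ r, μ.2.2.1 = g ++ r

theorem rg_mk (b : ℕ) (s : Bool) {g : List ℕ} (hg : g ≠ []) (r : List ℕ) (a : ℕ) :
    Rg b s g (mk b s (g ++ r) a) := ⟨rfl, mk_side_ne (by simp [hg]) _ _ _, r, rfl⟩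

theorem rg_bounds {c s : Bool} {b0 b : ℕ} {g : List ℕ} {μ : Mv} {w : Adr} (hg : g ≠ [])
    (hv : Val c b0 (μ :: w)) (h : Rg b s g μ) :
    ∃ m, ¬ Out s (μ :: w) [mk b s (g ++ List.replicate m 0) (oum s)] ∧
      ¬ Out s [mk b s g (inn s)] (μ :: w) := by
  obtain ⟨h1, h2, r, h3⟩ := h
  refine ⟨r.length + 1, Out.asymm (out_of_fo (mk_oum_side _ _ _) h2
    (Or.inr ⟨h1.symm, by rw [h3]; exact (kb_app g).2 (kb_zeros r)⟩) _ _), ?_⟩
  cases r with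
  | nil =>
    have h4 := hv.mok.eq
    have h5 := hv.mok.1
    rw [h1, h2, h3, List.append_nil] at h4
    by_cases ha : μ.2.2.2 = inn s
    · rw [hv.eq_nil (by cases s <;> simp [Bo, ha, inn]), ← h4, ha]
      exact out_irrefl _ _
    · rw [← h4]
      cases s
      · exact fun h => lt_asymm (out_false.1 h)
          (mk_lt_mk _ _ _ (by simp [inn] at ha ⊢; omega) (by simp [inn]) _ _)
      · exact fun h => lt_asymm (out_true.1 h)
          (mk_lt_mk _ _ _ (by simp [inn] at ha ⊢; omega) h5 _ _)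
  | cons o r =>
    exact Out.asymm (out_of_fo h2 (mk_side_ne hg _ _ _)
      (Or.inr ⟨h1, by rw [h3]; exact kb_ext _ _ _⟩) _ _)

theorem Wd.isl_ok {W : Wd} {σ : List ℕ} {b k e : ℕ} {s : Bool} {μ : Mv} (ht : W.TrL σ b)
    (h0 : W.tp e = 0) (hk : (lam b).length + k = e + 1) (h : Rg b s (W.tps b k) μ) :
    Low e (own μ) ∧ ¬ At W.Di e μ := by
  obtain ⟨rfl, -, r, h1⟩ := h
  have h2 : own μ = seg W.tp (e + 1) ++ r := by
    rw [← hk, ← ht.own_eq, own, h1, List.append_assoc]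
  have h3 : Low e (own μ) := h2 ▸ low_app (low_seg.2 ⟨by omega, h0⟩) r
  refine ⟨h3, ?_⟩
  rintro ⟨i, -, -, h4, h5⟩
  rw [h2, seg_app_get _ (Nat.lt_succ_of_lt (h5 h3))] at h4
  exact h4.2 rfl

namespace Cx

variable {c : Cx} {y1 : Adr} {c1 : Bool} {b : ℕ} {Z : Pc → Adr}

theorem Clm.fix_half' (K : c.Clm y1 c1 b Z) {b1 : ℕ} (ht : c.W.TrL (cx [] y1) b)
    (h : ∀ b'', b ≤ b'' → b'' < b1 → FE c.W.T c.W.Di c.e (cx [] y1) b'') (s : Bool) (n0 : ℤ)
    (h1 : ∀ m c' w, Half s n0 m → Val c' b w → ¬ Out s [c.W.P b n0] w → ¬ Out s w [c.W.P b m] →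
      ∃ μ w', w = μ :: w' ∧ c.Ok b b1 μ) {n : ℤ} (hn : Half s n0 n) : c.Fx y1 Z [c.W.P b n] := by
  refine K.fix_half ht h s n0 (fun n n' c' w hn hn' hv h2 h3 => ?_) hn
  cases s
  · exact h1 n c' w hn hv (fun h4 => h3 (lt_of_le_of_lt (not_lt.1 fun h5 =>
      not_lt.2 hn' ((c.W.P_lt_iff b).1 h5)) (out_false.1 h4))) fun h4 => h2 (out_false.1 h4)
  · exact h1 n' c' w hn' hv (fun h4 => h2 (lt_of_lt_of_le (out_true.1 h4) (not_lt.1 fun h5 =>
      not_lt.2 hn ((c.W.P_lt_iff b).1 h5)))) fun h4 => h3 (out_true.1 h4)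

theorem Clm.cen_fx (K : c.Clm y1 c1 b Z)
    (h : ¬ c.W.TrL (cx [] y1) b ∨ FE c.W.T c.W.Di c.e (cx [] y1) b) (s : Bool) :
    c.Fx y1 Z [mk b false [] (cen s)] := by
  by_cases ht : c.W.TrL (cx [] y1) b
  · have e : c.W.P b (if s = true then 2 else 1) = mk b false [] (cen s) := by cases s <;> rfl
    rw [← e]
    refine K.fix_half' (b1 := b + 1) ht
      (fun b'' h1 h2 => (show b = b'' by omega) ▸ h.resolve_left (not_not.2 ht)) s
      (if s = true then 2 else 1)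
      (fun m c' w _ hv h1 _ => ?_) (by cases s <;> simp [Half])
    obtain ⟨μ, w', rfl, h3, -⟩ := (cen_iff hv b s).1 (e ▸ h1)
    exact ⟨μ, w', rfl, hv.lev, Or.inl (by omega)⟩
  · obtain ⟨e, u, hf⟩ := Wd.frz_level ht
    exact K.fx_frz (hf _ rfl) rfl (val_mark _ le_rfl _ _ (cen_mark s))

theorem Clm.upto (K : c.Clm y1 c1 b Z) {b' : ℕ} (hb : b ≤ b')
    (h : ∀ b'', b ≤ b'' → b'' < b' → FE c.W.T c.W.Di c.e (cx [] y1) b'') : c.Clm y1 c1 b' Z := by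
  induction hb with
  | refl => exact K
  | @step b' hb ih =>
    have K' := ih fun b'' h1 h2 => h b'' h1 (Nat.lt_succ_of_lt h2)
    exact K'.next (K'.cen_fx (Or.inr (h b' hb (Nat.lt_succ_self _))))

theorem Clm.good_side (K : c.Clm y1 c1 b Z) (s : Bool) : c.Good (Fq y1 fun μ => b ≤ μ.1 ∧
    μ.2.1 = s ∧ ∀ b', b ≤ b' → b' < μ.1 + 1 → FE c.W.T c.W.Di c.e (cx [] y1) b') := by
  refine K.good_pin' (Q := fun μ => Low c.e (lam μ.1)) (by fun_prop) s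
    (fun μ h => ⟨low_app h _, not_at_of_low h⟩)
    (fun μ => and_congr_right fun hb => and_congr_right fun _ =>
      ⟨fun h => ⟨fun b' h1 h2 => h b' h1 (by omega), h _ hb (by omega)⟩, fun h b' h1 h2 => ?_⟩)
    (fun μ1 μ2 ν h1 h2 h3 h4 h5 => ?_) fun μ w hv ha => ?_
  · rcases (show b' < μ.1 ∨ b' = μ.1 by omega) with h3 | rfl
    · exact h.1 b' h1 h3
    · exact h.2
  · simp only [Fo, not_or] at h4 h5
    exact ⟨by omega, h3, fun b' a1 a2 => h2.2.2 b' a1 (by omega)⟩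
  · refine ⟨_, μ.1 + 1, (((K.upto ha.1 fun b' a1 a2 => ha.2.2 b' a1 (by omega)).cen_fx
      (Or.inr (ha.2.2 _ ha.1 (by omega))) s).trf s).2,
      (cen_iff hv _ s).2 ⟨μ, w, rfl, le_rfl, ha.2.1⟩, ha.2.2, fun c' v a1 a2 => ?_⟩
    obtain ⟨ν, v', rfl, a3, a4⟩ := (cen_iff a1 _ s).1 a2
    exact ⟨ν, v', rfl, ⟨a1.lev, a4, fun b' a5 a6 => ha.2.2 b' a5 (by omega)⟩, a1.lev,
      Or.inl (by omega)⟩

/-- only levels that are not shown exactly need an argument -/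
theorem Clm.good_of (K : c.Clm y1 c1 b Z) (h : ∀ b1, b ≤ b1 →
    ¬ FE c.W.T c.W.Di c.e (cx [] y1) b1 → c.Clm y1 c1 b1 Z → c.Good (Bx c1 y1 b1)) :
    c.Good (Bx c1 y1 b) := by
  have h0 : c.Good (Fq y1 fun μ => b ≤ μ.1 ∧
      ∀ b', b ≤ b' → b' < μ.1 + 1 → FE c.W.T c.W.Di c.e (cx [] y1) b') :=
    (K.good_side false).union1 (K.good_side true) (fun μ a1 a2 => by simp [a1.2.1] at a2)
      fun μ => by cases μ.2.1 <;> simp
  by_cases h1 : ∃ b1, b ≤ b1 ∧ ¬ FE c.W.T c.W.Di c.e (cx [] y1) b1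
  · classical
    have h2 := Nat.find_spec h1
    have h3 : ∀ b', b ≤ b' → b' < Nat.find h1 → FE c.W.T c.W.Di c.e (cx [] y1) b' :=
      fun b' a1 a2 => by simpa [a1] using Nat.find_min h1 a2
    refine K.good_up h2.1 (h0.of_eq fun y _ => exists_congr fun μ => exists_congr fun w =>
      and_congr_right fun _ => and_congr_right fun _ => ⟨fun a => ?_, fun a b' a1 a2 =>
        h3 b' a1 (by omega)⟩) (h _ h2.1 h2.2 (K.upto h2.1 h3))
    by_contra hc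
    exact h2.2 (a _ h2.1 (by omega))
  · push Not at h1
    refine h0.union (good_point (C := fun y => y = y1 ∧ c1 = false) y1 fun _ _ h => h.1) ?_
      fun y hy => ⟨?_, ?_⟩
    · rintro _ - ⟨μ, w, rfl, -⟩ h2
      simp at h2
    · rintro ⟨_ | ⟨μ, w⟩, hw, rfl⟩
      · exact Or.inr ⟨by simp, hw⟩
      · exact Or.inl (fq_app.2 ⟨hw.lev, fun b' a _ => h1 b' a⟩)
    · rintro (⟨μ, w, rfl, h2⟩ | ⟨h2, h3⟩)
      · exact bx_app.2 (K.box.suffix hy h2.1)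
      · exact ⟨[], h3, by simp [h2]⟩

theorem Clm.isl_true (K : c.Clm y1 c1 b Z) (ht : c.W.TrL (cx [] y1) b) {k : ℕ}
    (hk : (lam b).length + k = c.e + 1) (h0 : 0 < k) (s : Bool) {k' a : ℕ} (hk' : k ≤ k')
    (ha : a = 0 ∨ a = 2 ∨ a = 4) : c.Fx y1 Z [mk b s (c.W.tps b k') a] := by
  have key : ∀ m, Half s (3 * sg (!s) k + (if s = true then 0 else 2)) m →
      Fm b s (fun ρ => ∃ r, ρ = c.W.tps b k ++ r) [c.W.P b m] := by
    intro m hm
    have h1 : k ≤ (m / 3).natAbs ∧ decide (0 < m / 3) = s := by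
      cases s <;> simp [Half, sg] at hm ⊢ <;> omega
    exact ⟨_, _, rfl, rfl, (mk_side_ne (by rw [Ne, Wd.tps_eq_nil]; omega) _ _ _).trans h1.2,
      c.W.tps_le b h1.1⟩
  have e : mk b s (c.W.tps b k') a = c.W.P b (3 * sg (!s) k' + (a / 2 : ℕ)) := by
    rw [Wd.P_eq _ _ (by omega), Wd.mk_eq_Pm, show 2 * (a / 2) = a by omega]
  rw [e]
  refine K.fix_half' (b1 := b) ht (fun _ _ _ => by omega) s
    (3 * sg (!s) k + (if s = true then 0 else 2)) (fun m c' w hm hv h1 h2 => ?_)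
    (by cases s <;> simp [Half, sg] <;> omega)
  obtain ⟨μ, w', rfl, h3⟩ := reg_conv (key m hm) (key _ (by cases s <;> simp [Half])) h2 h1
  exact ⟨μ, w', rfl, h3.1.ge, Or.inr ⟨h3.1, Wd.isl_ok ht c.g.tp_zero hk h3⟩⟩

theorem Clm.isl_fx (K : c.Clm y1 c1 b Z) (ht : c.W.TrL (cx [] y1) b) {k : ℕ}
    (hk : (lam b).length + k = c.e + 1) (h0 : 0 < k) (s : Bool) (m : ℕ) {a : ℕ}
    (ha : a = 0 ∨ a = 2 ∨ a = 4) : c.Fx y1 Z [mk b s (c.W.tps b k ++ List.replicate m 0) a] := by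
  rcases c.W.path_cases b (c.W.tps b k ++ List.replicate m 0) with h | ⟨k', o, r, h, h1⟩
  · rw [h]
    exact K.isl_true ht hk h0 s (by simp) ha
  · obtain rfl : o = 0 := by
      have h2 := congrArg (·[k']?) h
      simp only [List.getElem?_append_right (c.W.tps_len b k').le, Wd.tps_len, Nat.sub_self,
        List.getElem?_cons_zero] at h2
      rcases lt_or_ge k' k with h3 | h3
      · rw [Wd.tps, seg_app_get _ h3] at h2
        exact absurd (Option.some.inj h2).symm h1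
      · rw [List.getElem?_append_right (by simpa using h3)] at h2
        exact List.eq_of_mem_replicate (List.mem_of_getElem? h2)
    obtain ⟨e, u, hf⟩ := Wd.frz_region ht h1.symm
    exact K.fx_frz (hf _ r rfl h) rfl (val_mark _ le_rfl _ _ ha)

theorem Clm.good_isl (K : c.Clm y1 c1 b Z) (ht : c.W.TrL (cx [] y1) b)
    (hf : ¬ FE c.W.T c.W.Di c.e (cx [] y1) b) {k : ℕ} (hk : (lam b).length + k = c.e + 1)
    (h0 : 0 < k) (s : Bool) : c.Good (Fq y1 (Rg b s (c.W.tps b k))) := by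
  have hg : c.W.tps b k ≠ [] := by rw [Ne, Wd.tps_eq_nil]; omega
  refine K.good_pin' (Q := Rg b s (c.W.tps b k)) ?_ s (fun μ => Wd.isl_ok ht c.g.tp_zero hk)
    (fun μ => ⟨fun h => ⟨h.1.ge, h.2.1, fun _ _ _ => by have := h.1; omega, Or.inr h⟩,
      fun h => h.2.2.2.resolve_left fun h1 => ?_⟩) ?_ fun μ w hv ha => ?_
  · refine (show ComputablePred fun μ : Mv => μ.1 = b ∧ μ.2.1 = s ∧
      μ.2.2.1 = c.W.tps b k ++ μ.2.2.1.drop k by fun_prop).of_eq fun μ =>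
        and_congr_right fun _ => and_congr_right fun _ => ⟨fun h => ⟨_, h⟩, ?_⟩
    rintro ⟨r, h⟩
    rw [h, List.drop_left' (c.W.tps_len b k)]
  · rcases h.1.lt_or_eq with h2 | h2
    · exact hf (h.2.2.1 b le_rfl h2)
    · exact ht.not_ld (h2 ▸ h1)
  · rintro μ1 μ2 ν ⟨e1, -, r1, e3⟩ ⟨e4, -, r2, e6⟩ hs h5 h6
    simp only [Fo, not_or, not_and, e1, e3, e4, e6] at h5 h6
    have hb : ν.1 = b := by omega
    exact ⟨hb, hs, kb_conv _ (h5.2 hb) (h6.2 hb.symm)⟩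
  · obtain ⟨m, h1⟩ := rg_bounds hg hv ha
    refine ⟨_, b, ((K.isl_fx ht hk h0 s m (oum_mark s)).trf s).1.and
      ((K.isl_true ht hk h0 s le_rfl (inn_mark s)).trf s).2, h1, fun _ _ _ => by omega,
      fun c' v _ a2 => ?_⟩
    obtain ⟨ν, v', rfl, h3⟩ := reg_conv ⟨_, _, rfl, rg_mk b s hg _ _⟩
      ⟨_, _, rfl, rfl, mk_side_ne hg _ _ _, [], by simp⟩ a2.1 a2.2
    exact ⟨ν, v', rfl, h3, h3.1.ge, Or.inr ⟨h3.1, Wd.isl_ok ht c.g.tp_zero hk h3⟩⟩

end Cx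

end Pool.Agent.Lib.MP_9e2528_lc.T3
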