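import Pool.Agent.Lib.MP_9e2528_lc.T13

set_option autoImplicit false

/-! The finitely many true periods that are erased in pictures. -/

namespace Pool.Agent.Lib.MP_9e2528_lc.T3

open Encodable Filter

@[fun_prop] theorem lk_comp {α : Type} [Primcodable α] {h : α → Pc} {x : α → ℕ} (hh : Computable h)
    (hx : Computable x) : Computable fun a => lk (h a) (x a) := by unfold lk; fun_prop

theorem er_cz {T : List ℕ → Prop} {D : ℕ → ℕ → Prop} {e b a : ℕ} {σ ρ : List ℕ} {s : Bool}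
    (h : ¬ Ex T D e σ (mk b s ρ a)) : Er T D e σ (cz b s ρ) := by
  unfold cz
  split_ifs
  · trivial
  · exact ⟨h, trivial⟩

theorem dag_cz {D : ℕ → ℕ → Prop} {b a : ℕ} {ρ : List ℕ} {s : Bool} (h : ¬ RD D (mk b s ρ a)) :
    ¬ Dag D (cz b s ρ) := by
  unfold cz
  split_ifs
  · exact not_dag_nil
  · exact fun h1 => (dag_cons.1 h1).elim h not_dag_nil

namespace Cx

variable {c : Cx} {y1 : Adr} {c1 : Bool} {b : ℕ} {Z : Pc → Adr} {s : Bool} {k : ℕ}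

theorem Clm.anchor (K : c.Clm y1 c1 b Z) (ht : c.W.TrL (cx [] y1) b) {a x e u : ℕ}
    (ha : a = 0 ∨ a = 2 ∨ a = 4) (hx : c.Hd x) (he : c.f x = y1 ++ [mk b s (c.W.tps b k) a])
    (hn : c.W.NE e u) : ∀ᶠ q in c.F, ∃ s' ρ', (x, Z q.2 ++ [mk b s' ρ' a]) ∈ q.2 ∧
      ¬ RD (c.W.D q.1) (mk b s' ρ' a) ∧ ¬ Ex c.W.T (c.W.D u) e (cx [] y1) (mk b s' ρ' a) := by
  have tm := Wd.trM_mk ht s k a
  have h0 := c.W.ne_tp _ _ hn
  filter_upwards [ev_rp, K.ev_strip hx (he ▸ bx_app.2 (val_mark _ le_rfl _ _ ha)) hn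
    (κ := [mk b false [] a]) (he ▸ (K.tr.strip hn).2 (lb_mark _ b s (by omega)
      (Or.inr (tm.not_ex h0 u))))] with q hr ⟨c', w, hv, hq, hl⟩
  have hd : ¬ Dag (c.W.D q.1) w := fun h =>
    (K.tr.snoc tm).not_dag (he ▸ pic_dag hr hq (dag_app.2 (Or.inr h)))
  obtain ⟨s', ρ', rfl, h⟩ := hl.mark hv ha hd
  refine ⟨s', ρ', hq, fun h => hd (dag_cons.2 (Or.inl h)), h.elim ?_ id⟩
  rintro rfl
  exact (Wd.trM_mk ht s' 0 a).not_ex h0 u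

theorem Clm.anchor_low (K : c.Clm y1 c1 b Z) (ht : c.W.TrL (cx [] y1) b) {k0 a x : ℕ}
    (hk : (lam b).length + k0 = c.e + 1) (hlt : k < k0) (ha : a = 0 ∨ a = 2 ∨ a = 4)
    (he : c.f x = y1 ++ [mk b s (c.W.tps b k) a]) :
    ∀ᶠ q in c.F, ∀ s' ρ', (x, Z q.2 ++ [mk b s' ρ' a]) ∈ q.2 →
      ¬ Ex c.W.T (c.W.D (c.g.p q.1)) c.e (cx [] y1) (mk b s' ρ' a) := by
  filter_upwards [K.pin] with q h1 s' ρ' hq hex
  have hp := h1 x _ [] hq le_rfl (fun _ h2 h3 => absurd h3 (not_lt.2 h2)) hex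
    (Or.inr (Or.inr (he ▸ (K.tr.snoc (Wd.trM_mk ht s k a)).not_dag)))
  have hs := K.pn_same hp
  rw [he, Wd.mk_eq_Pm] at hs
  obtain ⟨j, hj⟩ := Wd.Cl.marker ⟨K.tr, K.tr, rfl⟩ ht ha (val_mark false le_rfl _ _ ha) hs
  have hl : Low c.e (own (mk b s' ρ' a)) := hex.resolve_left (ht.not_ld' _)
  rw [hj] at hp
  rw [(List.cons.inj hj).1, (Wd.trM_Pm ht j a).own_eq, low_seg] at hl
  have h2 : k0 ≤ j.natAbs := by
    have := hl.1
    simp only [Wd.Pm, mk_lev, mk_path, Wd.tps_len] at this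
    omega
  obtain ⟨x', e', hp'⟩ := K.isl_true ht hk (by omega) (decide (0 < j)) h2 ha
  have h3 : c.f x = c.f x' := ky_inj (le_antisymm (not_lt.1 fun h => lt_irrefl _ ((hp'.ord hp).1 h))
    (not_lt.1 fun h => lt_irrefl _ ((hp.ord hp').1 h)))
  rw [he, e'] at h3
  have h4 := congrArg (·.2.2.1.length) (List.cons.inj (List.append_cancel_left h3)).1
  simp only [mk_path, Wd.tps_len] at h4
  omega

theorem own_mark {z : Adr} {c' s' : Bool} {q : ℕ × Pc} {x a : ℕ} {ρ' : List ℕ}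
    (B : c.Bp y1 c1 b z c' q) (hr : c.g.RP q.1 q.2) (h0 : Er c.W.T (c.W.D 0) 0 [] z) (ha : ¬ a = 3)
    (hq : (x, z ++ [mk b s' ρ' a]) ∈ q.2) : ∃ ν : Mv, ν.1 = b ∧ ν.2.2.2 = a ∧
      Lb c.W.T (c.W.D 0) c.W.Di 0 [] (pi y1 ++ [ν]) (c.f x) := by
  have P := c.g.pic _ _ hr
  obtain ⟨κ, k1, k2⟩ := P.own0 _ _ hq
  obtain ⟨κ', rfl, k3⟩ := (lb_strip h0 (not_dag_bot _)).1 k1
  obtain ⟨ν, rfl, k4⟩ := k3.of_mark ha
  exact ⟨ν, k4.1, k4.2, by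
    simpa [Wd.Lab, c.W.ne_zero 0, B.pi] using sh_lab (P.hd _ _ hq).1 k2⟩

theorem Clm.period (K : c.Clm y1 c1 b Z) (ht : c.W.TrL (cx [] y1) b) {x0 x2 x4 : ℕ} (hx : c.Hd x2)
    (e0 : c.f x0 = y1 ++ [mk b s (c.W.tps b k) 0]) (e2 : c.f x2 = y1 ++ [mk b s (c.W.tps b k) 2])
    (e4 : c.f x4 = y1 ++ [mk b s (c.W.tps b k) 4]) :
    ∀ᶠ q in c.F, ∀ s2 ρ2, (x2, Z q.2 ++ [mk b s2 ρ2 2]) ∈ q.2 →
      (∀ s0 ρ0, (x0, Z q.2 ++ [mk b s0 ρ0 0]) ∈ q.2 → mk b s0 ρ0 0 = mk b s2 ρ2 0) ∧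
      ∀ s4 ρ4, (x4, Z q.2 ++ [mk b s4 ρ4 4]) ∈ q.2 → mk b s4 ρ4 4 = mk b s2 ρ2 4 := by
  have hn := c.W.ne_zero 0
  filter_upwards [ev_rp, K.ev, K.ne 0 0 hn, ev_dom hx] with q hr ⟨c', B⟩ h0 ⟨hp, _⟩ s2 ρ2 h2
  have sat : ∀ a, a = 0 ∨ a = 2 ∨ a = 4 → ∃ x, (x, Z q.2 ++ [mk b s2 ρ2 a]) ∈ q.2 := fun a ha =>
    (c.g.pic _ _ hr).sat _ _ [] _ h2 hp (by simp; omega) (nb_mem _ _ _ _ _ _ (by omega))
      (B.box.val (bx_app.2 (val_mark _ le_rfl _ _ ha)))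
  refine ⟨fun s0 ρ0 h1 => ?_, fun s4 ρ4 h1 => ?_⟩
  · obtain ⟨x, h3⟩ := sat 0 (by omega)
    rcases lt_trichotomy (ky [mk b s0 ρ0 0]) (ky [mk b s2 ρ2 0]) with h | h | h
    · obtain ⟨w, -, h4⟩ := (bx_intY le_rfl s (c.W.tps b k) y1 _).1 ⟨B.mem hr h3 le_rfl,
        e0 ▸ (pic_ord hr h1 h3).2 (by simpa using h), e2 ▸ (pic_ord hr h3 h2).2
          ((ky_app_lt _).2 (mk_lt_mk _ _ _ (by omega) (by omega) _ _))⟩
      obtain ⟨ν, -, k1, k2⟩ := own_mark B hr h0 (by omega) h3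
      have tm := Wd.trM_mk ht s k 1
      rw [h4, List.append_assoc, K.tr.strip hn, List.singleton_append, lb_cons] at k2
      rcases k2 with k2 | k2 | k2 | ⟨-, -, κ, k2, -⟩
      · exact absurd k2.1 (tm.not_ex (c.W.ne_tp _ _ hn) 0)
      · exact absurd k2.2.1.rd tm.not_rd
      · simp at k2
      · rw [(List.cons.inj k2).1] at k1
        simp at k1
    · exact (List.cons.inj (ky_inj h)).1
    · obtain ⟨w, -, h4⟩ := (intY (c := false) le_rfl s2 ρ2 _).1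
        ⟨val_mark _ le_rfl _ _ (by omega), h, by
          have := (pic_ord hr h1 h2).1 (by
            rw [e0, e2, ky_app_lt]
            exact mk_lt_mk _ _ _ (by omega) (by omega) _ _)
          simpa using this⟩
      simpa using congrArg (·.2.2.2) (List.cons.inj h4).1
  · obtain ⟨x, h3⟩ := sat 4 (by omega)
    rcases lt_trichotomy (ky [mk b s4 ρ4 4]) (ky [mk b s2 ρ2 4]) with h | h | h
    · obtain ⟨w, hw, h4⟩ := (intC (c := false) le_rfl s2 ρ2 _).1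
        ⟨val_mark _ le_rfl _ _ (by omega), by
          have := (pic_ord hr h2 h1).1 (by
            rw [e2, e4, ky_app_lt]
            exact mk_lt_mk _ _ _ (by omega) (by omega) _ _)
          simpa using this, h⟩
      unfold cz at h4
      split_ifs at h4
      · obtain rfl : w = _ := h4.symm
        simpa using hw.lev
      · simpa using congrArg (·.2.2.2) (List.cons.inj h4).1
    · exact (List.cons.inj (ky_inj h)).1
    · obtain ⟨w, hw, h4⟩ := (bx_intC le_rfl s (c.W.tps b k) y1 _).1 ⟨B.mem hr h3 le_rfl,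
        e2 ▸ (pic_ord hr h2 h3).2 ((ky_app_lt _).2 (mk_lt_mk _ _ _ (by omega) (by omega) _ _)),
        e4 ▸ (pic_ord hr h3 h1).2 (by simpa using h)⟩
      obtain ⟨ν, k1, -, k2⟩ := own_mark B hr h0 (by omega) h3
      have tr := (Wd.Cl.core ⟨K.tr, K.tr, rfl⟩ ht s s k k).1
      rw [h4, show pi y1 = pi (y1 ++ cz b s (c.W.tps b k)) by simp [pi_app, pi_cz],
        tr.strip hn] at k2
      have := k2.lev hw
      omega

/-- the boxes inside an erased true period -/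
theorem Clm.subs (K : c.Clm y1 c1 b Z) (ht : c.W.TrL (cx [] y1) b) {k0 : ℕ}
    (hk : (lam b).length + k0 = c.e + 1) (hlt : k < k0) (s : Bool) :
    (∃ Z', c.Clm (y1 ++ [mk b s (c.W.tps b k) 1]) (dl (c.W.tps b k).length) 0 Z') ∧
      ∃ Z', c.Clm (y1 ++ cz b s (c.W.tps b k)) (cb c1 s (c.W.tps b k)) (b + 1) Z' := by
  have ex : ∀ a, a = 0 ∨ a = 2 ∨ a = 4 → ∃ x, c.Hd x ∧ c.f x = y1 ++ [mk b s (c.W.tps b k) a] :=
    fun a ha => c.R.sur _ (K.box.val (bx_app.2 (val_mark _ le_rfl _ _ ha)))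
  obtain ⟨x0, h0, e0⟩ := ex 0 (by omega)
  obtain ⟨x2, h2, e2⟩ := ex 2 (by omega)
  obtain ⟨x4, h4, e4⟩ := ex 4 (by omega)
  obtain ⟨S, R, hS, hR, H⟩ : ∃ (S : Pc → Bool) (R : Pc → List ℕ), Computable S ∧ Computable R ∧
      ∀ t h s' ρ', c.g.RP t h → (x2, Z h ++ [mk b s' ρ' 2]) ∈ h →
        ∀ a, mk b (S h) (R h) a = mk b s' ρ' a := by
    refine ⟨fun h => (lm (lk h x2)).2.1, fun h => (lm (lk h x2)).2.2.1, by fun_prop, by fun_prop,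
      fun t h s' ρ' hr hq a => ?_⟩
    beta_reduce
    rw [(pic_eq hr (lk_mem hq) hq).1 rfl, lm_snoc]
    exact mk_mk _ _ _ _ _
  have hn := c.W.ne_zero 0
  have E1 : ∀ᶠ q in c.F, ((x0, Z q.2 ++ [mk b (S q.2) (R q.2) 0]) ∈ q.2 ∧
      (x2, Z q.2 ++ [mk b (S q.2) (R q.2) 2]) ∈ q.2 ∧
      (x4, Z q.2 ++ [mk b (S q.2) (R q.2) 4]) ∈ q.2) ∧
      ¬ Ex c.W.T (c.W.D (c.g.p q.1)) c.e (cx [] y1) (mk b (S q.2) (R q.2) 2) ∧
      ¬ RD (c.W.D q.1) (mk b (S q.2) (R q.2) 2) := by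
    filter_upwards [ev_rp, K.anchor ht (by omega) h0 e0 hn, K.anchor ht (by omega) h2 e2 hn,
      K.anchor ht (by omega) h4 e4 hn, K.anchor_low ht hk hlt (by omega) e2,
      K.period ht h2 e0 e2 e4] with q hr ⟨s0, ρ0, a0, _⟩ ⟨s2, ρ2, a2, a3, _⟩ ⟨s4, ρ4, a4, _⟩ a5 a6
    simp only [H _ _ _ _ hr a2]
    exact ⟨⟨(a6 _ _ a2).1 _ _ a0 ▸ a0, a2, (a6 _ _ a2).2 _ _ a4 ▸ a4⟩, a5 _ _ a2, a3⟩
  have E2 : ∀ e u, c.W.NE e u →
      ∀ᶠ q in c.F, ¬ Ex c.W.T (c.W.D u) e (cx [] y1) (mk b (S q.2) (R q.2) 2) := fun e u hn => by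
    filter_upwards [ev_rp, K.anchor ht (by omega) h2 e2 hn] with q hr ⟨s2, ρ2, a2, _, a3⟩
    rwa [H _ _ _ _ hr a2]
  refine ⟨⟨_, K.child hS hR (K.tr.snoc (Wd.trM_mk ht s k 1)) h0 e0 e2 ?_ E2⟩,
    _, K.core hS hR (Wd.Cl.core ⟨K.tr, K.tr, rfl⟩ ht s s k k).1 h2 e2 e4 ?_ fun e u hn => ?_⟩
  · filter_upwards [E1] with q a using ⟨a.1.1, a.1.2.1, a.2⟩
  · filter_upwards [E1] with q a using ⟨a.1.2.1, a.1.2.2, er_cz a.2.1, dag_cz a.2.2⟩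
  · filter_upwards [E2 e u hn] with q a using er_cz a

end Cx

end Pool.Agent.Lib.MP_9e2528_lc.T3
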