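import Pool.Agent.Lib.MP_9e2528_lc.T14

set_option autoImplicit false

/-! Every copy over a well-founded tree is matched with three quantifiers. -/

namespace Pool.Agent.Lib.MP_9e2528_lc.T3

open Encodable Filter

/-- the path leaves `g` by an outcome in `p` -/
def Zn (b : ℕ) (s : Bool) (g : List ℕ) (p : ℕ → Prop) (μ : Mv) : Prop :=
  μ.1 = b ∧ μ.2.1 = s ∧ ∃ o r, μ.2.2.1 = g ++ o :: r ∧ p o

theorem Zn.same {b : ℕ} {s : Bool} {g : List ℕ} {p p' : ℕ → Prop} {μ : Mv} (h : Zn b s g p μ)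
    (h' : Zn b s g p' μ) : ∃ o, p o ∧ p' o := by
  obtain ⟨-, -, o, r, h1, h2⟩ := h
  obtain ⟨-, -, o', r', h3, h4⟩ := h'
  exact ⟨o, h2, (List.cons.inj (List.append_cancel_left (h3.symm.trans h1))).1 ▸ h4⟩

theorem Zn.imp {b : ℕ} {s : Bool} {g : List ℕ} {p p' : ℕ → Prop} {μ : Mv} (h : Zn b s g p μ)
    (H : ∀ o, p o → p' o) : Zn b s g p' μ :=
  let ⟨h1, h2, o, r, h3, h4⟩ := h; ⟨h1, h2, o, r, h3, H o h4⟩

theorem enc_bound (M n : ℕ) : ∃ B, ∀ l : List ℕ, l.length ≤ n → (∀ a ∈ l, a ≤ M) → encode l < B := by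
  induction n with
  | zero => exact ⟨1, fun l h _ => by simp [List.length_eq_zero_iff.1 (Nat.le_zero.1 h)]⟩
  | succ n ih =>
    obtain ⟨B, hB⟩ := ih
    refine ⟨(M + B + 1) ^ 2 + 1, ?_⟩
    rintro (_ | ⟨a, l⟩) h1 h2
    · simp
    · have h3 := hB l (by simpa using h1) fun a ha => h2 a (List.mem_cons_of_mem _ ha)
      have h4 := h2 a (by simp)
      have h5 := Nat.pair_lt_max_add_one_sq a (encode l)
      have h6 : (max a (encode l) + 1) ^ 2 ≤ (M + B + 1) ^ 2 := Nat.pow_le_pow_left (by omega) 2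
      rw [encode_list_cons, encode_nat]
      omega

theorem Wd.nfe {W : Wd} {e b : ℕ} {σ : List ℕ} (h0 : W.tp e = 0) (h : ¬ FE W.T W.Di e σ b) :
    σ.length < (lam b).length ∧ (lam b).length ≤ e ∧
      ∀ i < (lam b).length, (lam b)[i]?.getD 0 ≤ W.tp i := by
  simp only [FE, LD, Bex, not_or, not_not, not_exists, not_and, List.mem_range, Wd.Di] at h
  have h1 : ∀ i < (lam b).length, (lam b)[i]?.getD 0 ≤ W.tp i := fun i hi => by
    have := h.1.2 i hi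
    omega
  refine ⟨W.t_len _ _ h.1.1, not_lt.1 fun h2 => h.2 ?_, h1⟩
  have := h1 e h2
  simpa [Low, h0, h2] using this

theorem Wd.nfe_bound (W : Wd) {e : ℕ} (h0 : W.tp e = 0) :
    ∃ B, ∀ σ b, ¬ FE W.T W.Di e σ b → b < B := by
  obtain ⟨B, hB⟩ := enc_bound (∑ i ∈ Finset.range e, W.tp i) e
  refine ⟨B, fun σ b h => ?_⟩
  obtain ⟨-, h1, h2⟩ := Wd.nfe h0 h
  rw [← enc_lam b]
  refine hB _ h1 fun a ha => ?_
  obtain ⟨i, hi, rfl⟩ := List.getElem_of_mem ha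
  exact le_trans (by simpa [hi] using h2 i hi) (Finset.single_le_sum (f := W.tp)
    (fun _ _ => Nat.zero_le _) (Finset.mem_range.2 (by omega)))

namespace Cx

variable {c : Cx} {y1 : Adr} {c1 : Bool} {b : ℕ} {Z : Pc → Adr} {s : Bool} {k : ℕ} {g : List ℕ}

theorem Good.zn {p1 p2 p : ℕ → Prop} (h1 : c.Good (Fq y1 (Zn b s g p1)))
    (h2 : c.Good (Fq y1 (Zn b s g p2))) (hd : ∀ o, p1 o → ¬ p2 o) (H : ∀ o, p o ↔ p1 o ∨ p2 o) :
    c.Good (Fq y1 (Zn b s g p)) :=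
  h1.union1 h2 (fun _ a1 a2 => let ⟨o, a3, a4⟩ := a1.same a2; hd o a3 a4) fun μ => by
    simp only [Zn, H, and_or_left, exists_or]

theorem Clm.zone (K : c.Clm y1 c1 b Z) (s : Bool) (g : List ℕ) (o : ℕ) {y : Adr}
    (hy : Val false 0 y) : Out s (y1 ++ [mk b s (g ++ [o]) (inn s)]) y ∧
      Out s y (y1 ++ [mk b s g (oum s)]) ↔ Fq y1 (Zn b s g fun o' => o < o') y := by
  constructor
  · rintro ⟨h1, h2⟩
    have v1 := val_mark c1 (le_refl b) s (g ++ [o]) (inn_mark s)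
    have v2 := val_mark c1 (le_refl b) s g (oum_mark s)
    obtain ⟨w, hw, rfl⟩ : Bx c1 y1 b y := by
      cases s
      · exact K.box.mid hy v1 v2 (lt_asymm (out_false.1 h1)) (lt_asymm (out_false.1 h2))
      · exact K.box.mid hy v2 v1 (lt_asymm (out_true.1 h2)) (lt_asymm (out_true.1 h1))
    obtain ⟨μ, w, rfl, h3⟩ := (T3.zone hw b s g o).1 ⟨by simpa using h1, by simpa using h2⟩
    exact fq_app.2 h3
  · rintro ⟨μ, w, rfl, h⟩
    simpa using (T3.zone (K.box.suffix (c' := c1) hy le_rfl) b s g o).2 ⟨μ, w, rfl, h⟩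

theorem Clm.gap (K : c.Clm y1 c1 b Z) (ht : c.W.TrL (cx [] y1) b) {p : ℕ → Prop}
    (hp : ∀ o, p o → o ≠ 0 ∧ o ≠ c.W.tp ((lam b).length + k)) {y y' : Adr} (hy : Val false 0 y)
    (hy' : Val false 0 y') (h : Fq y1 (Zn b s (c.W.tps b k) p) y)
    (h' : Fq y1 (Zn b s (c.W.tps b k) p) y') : c.W.Same y y' := by
  obtain ⟨μ, w, rfl, h1, -, o, r, h2, h3⟩ := h
  obtain ⟨μ', w', rfl, h1', -, o', r', h2', h3'⟩ := h'
  exact Wd.Cl.gap ⟨K.tr, K.tr, rfl⟩ ht (K.box.suffix (c' := c1) hy le_rfl)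
    (K.box.suffix (c' := c1) hy' le_rfl) ⟨μ, w, k, o, r, rfl, h1, h2, hp o h3⟩
    ⟨μ', w', k, o', r', rfl, h1', h2', hp o' h3'⟩

/-- everything that leaves a true period towards the outside -/
theorem Clm.good_zn (K : c.Clm y1 c1 b Z) (ht : c.W.TrL (cx [] y1) b)
    (h : c.Good (Fq y1 (Rg b s (c.W.tps b (k + 1))))) :
    c.Good (Fq y1 (Zn b s (c.W.tps b k) fun _ => True)) := by
  obtain ⟨t, e⟩ : ∃ t, t = c.W.tp ((lam b).length + k) := ⟨_, rfl⟩
  have v : ∀ ρ a, a = 0 ∨ a = 2 ∨ a = 4 → Val false 0 (y1 ++ [mk b s ρ a]) := fun ρ a ha =>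
    K.box.val (bx_app.2 (val_mark _ le_rfl _ _ ha))
  have g1 : c.Good (Fq y1 (Zn b s (c.W.tps b k) fun o => o = t)) :=
    h.of_eq fun y _ => by simp [Fq, Rg, Zn, Wd.tps_succ, e]
  have g2 : c.Good (Fq y1 (Zn b s (c.W.tps b k) fun o => t < o)) :=
    (good_out s (v _ _ (inn_mark s)) (v _ _ (oum_mark s)) fun y y' hy hy' a1 a2 a3 a4 =>
      K.gap ht (fun o => by omega) hy hy' ((K.zone s _ t hy).1 ⟨a1, a2⟩)
        ((K.zone s _ t hy').1 ⟨a3, a4⟩)).of_eq fun y hy => K.zone s _ t hy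
  have g3 : c.Good (Fq y1 (Zn b s (c.W.tps b k) fun o => o = 0 ∧ o < t)) := by
    by_cases h0 : t = 0
    · refine good_point [] ?_
      rintro _ - ⟨μ, w, -, -, -, o, r, -, h1⟩
      omega
    · obtain ⟨e', u, hf⟩ := Wd.frz_region ht (e ▸ h0)
      refine (K.good_frz (e := e') (u := u) (Q := fun μ => μ.1 = b ∧ μ.2.1 = s ∧
        μ.2.2.1 = c.W.tps b k ++ 0 :: μ.2.2.1.drop (k + 1)) (by fun_prop)
        fun μ h => ⟨h.1, hf μ _ h.1 h.2.2⟩).of_eq fun y _ => exists_congr fun μ =>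
          exists_congr fun w => and_congr_right fun _ => and_congr_right fun _ =>
            and_congr_right fun _ => ⟨fun h => ⟨0, _, h, rfl, by omega⟩, ?_⟩
      rintro ⟨_, r, h1, rfl, -⟩
      rw [h1, List.drop_append]
      simp
  have key : ∀ y, Val false 0 y → (Out s (y1 ++ [mk b s (c.W.tps b k ++ [0]) (inn s)]) y ∧
      Out s y (y1 ++ [mk b s (c.W.tps b k ++ [t - 1]) (inn s)]) ↔
      Fq y1 (Zn b s (c.W.tps b k) fun o => 0 < o ∧ o < t) y ∧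
        ¬ y = y1 ++ [mk b s (c.W.tps b k ++ [t - 1]) (inn s)]) := by
    intro y hy
    have z0 := K.zone s (c.W.tps b k) 0 hy
    have z1 := K.zone s (c.W.tps b k) (t - 1) hy
    constructor
    · rintro ⟨h1, h2⟩
      have h0 : Out s [mk b s (c.W.tps b k ++ [t - 1]) (inn s)] [mk b s (c.W.tps b k) (oum s)] :=
        out_of_fo (mk_side_ne (ρ := c.W.tps b k ++ [t - 1]) (by simp) b s _)
          (mk_oum_side b s (c.W.tps b k)) (Or.inr ⟨rfl, kb_ext _ _ []⟩) _ _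
      obtain ⟨μ, w, rfl, h3, h4, o, r, h5, h6⟩ := z0.1 ⟨h1, h2.trans ((out_app _ _).2 h0)⟩
      refine ⟨fq_app.2 ⟨h3, h4, o, r, h5, h6, not_le.1 fun h7 => ?_⟩,
        fun h7 => out_irrefl _ _ (h7 ▸ h2)⟩
      exact h2.asymm (z1.2 (fq_app.2 ⟨h3, h4, o, r, h5, by omega⟩)).1
    · rintro ⟨⟨μ, w, rfl, h1⟩, h2⟩
      have h3 := z0.2 (fq_app.2 (h1.imp fun _ h => h.1))
      refine ⟨h3.1, (out_total s _ _).resolve_right ?_⟩
      rintro (h4 | h4)
      · exact h2 h4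
      · obtain ⟨o, h5, h6⟩ := h1.same (fq_app.1 (z1.1 ⟨h4, h3.2⟩))
        omega
  have g4 : c.Good (Fq y1 (Zn b s (c.W.tps b k) fun o => 0 < o ∧ o < t)) :=
    Good.cases (fun y => y = y1 ++ [mk b s (c.W.tps b k ++ [t - 1]) (inn s)])
      (good_point _ fun _ _ h => h.2)
      ((good_out s (v _ _ (inn_mark s)) (v _ _ (inn_mark s)) fun y y' hy hy' a1 a2 a3 a4 =>
        K.gap ht (fun o => by omega) hy hy' ((key y hy).1 ⟨a1, a2⟩).1
          ((key y' hy').1 ⟨a3, a4⟩).1).of_eq key)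
  exact (g1.zn (p := fun o => t ≤ o) g2 (by omega) (by omega)).zn
    (g3.zn (p := fun o => o < t) g4 (by omega) (by omega)) (by omega) fun o => by simp; omega

theorem Clm.good_per (K : c.Clm y1 c1 b Z)
    (h1 : c.Good (Bx (dl g.length) (y1 ++ [mk b s g 1]) 0))
    (h3 : c.Good (Bx (cb c1 s g) (y1 ++ cz b s g) (b + 1))) :
    c.Good (Fq y1 fun μ => μ.1 = b ∧ μ.2.1 = s ∧ μ.2.2.1 = g) := by
  have he : ∀ {μ : Mv} {w : Adr} {a : ℕ}, Val false 0 (y1 ++ μ :: w) →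
      (μ.1 = b ∧ μ.2.1 = s ∧ μ.2.2.1 = g) ∧ μ.2.2.2 = a → μ = mk b s g a := by
    rintro μ w _ hy ⟨⟨rfl, rfl, rfl⟩, rfl⟩
    exact (val_mok hy).eq.symm
  have pt : ∀ a, c.Good (Fq y1 fun μ => (μ.1 = b ∧ μ.2.1 = s ∧ μ.2.2.1 = g) ∧ μ.2.2.2 = a) := by
    intro a
    by_cases a1 : a = 1
    · refine (h1.and_const ((mk b s g 1).2.1 = s)).of_eq fun y hy => ⟨?_, ?_⟩
      · rintro ⟨⟨w, -, rfl⟩, h⟩
        exact ⟨_, w, by simp, ⟨rfl, h, rfl⟩, a1.symm⟩
      · rintro ⟨μ, w, rfl, h⟩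
        obtain rfl := he hy h
        subst a1
        exact ⟨⟨w, by simpa [bt, nx] using (K.box.suffix (c' := c1) hy le_rfl).tail (Or.inl rfl),
          by simp⟩, h.1.2.1⟩
    by_cases a3 : a = 3
    · refine (h3.and_const (¬ g = [])).of_eq fun y hy => ⟨?_, ?_⟩
      · rintro ⟨⟨w, -, rfl⟩, h⟩
        exact ⟨mk b s g 3, w, by simp [cz, h], ⟨rfl, mk_side_ne h _ _ _, rfl⟩, a3.symm⟩
      · rintro ⟨μ, w, rfl, h⟩
        obtain rfl := he hy h
        subst a3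
        have hg : ¬ g = [] := fun h => ((val_mok hy).2 h).1 rfl
        exact ⟨⟨w, by simpa [bt, nx, cb, hg, mk_side_ne hg] using
          (K.box.suffix (c' := c1) hy le_rfl).tail (Or.inr rfl), by simp [cz, hg]⟩, hg⟩
    · refine good_point (y1 ++ [mk b s g a]) ?_
      rintro _ hy ⟨μ, w, rfl, h⟩
      obtain rfl := he hy h
      rw [(K.box.suffix (c' := c1) hy le_rfl).eq_nil (by simp [Bo, a1, a3])]
  have fin : ∀ n, c.Good (Fq y1 fun μ => (μ.1 = b ∧ μ.2.1 = s ∧ μ.2.2.1 = g) ∧ μ.2.2.2 < n) := by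
    intro n
    induction n with
    | zero => exact good_point [] fun _ _ ⟨_, _, _, h⟩ => absurd h.2 (Nat.not_lt_zero _)
    | succ n ih =>
      exact ih.union1 (pt n) (fun μ a1 a2 => by have := a1.2; have := a2.2; omega) fun μ => by
        rw [← and_or_left, Nat.lt_succ_iff_lt_or_eq]
  refine (fin 5).of_eq fun y hy => ⟨fun ⟨μ, w, a1, a2⟩ => ⟨μ, w, a1, a2.1⟩, ?_⟩
  rintro ⟨μ, w, rfl, h⟩
  exact ⟨μ, w, rfl, h, (val_mok hy).1⟩

theorem Clm.good_true (K : c.Clm y1 c1 b Z) (ht : c.W.TrL (cx [] y1) b)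
    (hf : ¬ FE c.W.T c.W.Di c.e (cx [] y1) b)
    (h1 : ∀ y2 c2 Z', cx [] y2 = cx [] y1 ++ [(lam b).length] → c.Clm y2 c2 0 Z' →
      c.Good (Bx c2 y2 0))
    (h3 : ∀ y2 c2 Z', cx [] y2 = cx [] y1 → c.Clm y2 c2 (b + 1) Z' → c.Good (Bx c2 y2 (b + 1))) :
    c.Good (Bx c1 y1 b) := by
  obtain ⟨k0, hk⟩ : ∃ k0, (lam b).length + (k0 + 1) = c.e + 1 :=
    ⟨c.e - (lam b).length, by have := (Wd.nfe c.g.tp_zero hf).2.1; omega⟩
  have hc : ∀ s k, k < k0 + 1 →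
      c.Good (Bx (cb c1 s (c.W.tps b k)) (y1 ++ cz b s (c.W.tps b k)) (b + 1)) := fun s k h =>
    let ⟨_, K'⟩ := (K.subs ht hk h s).2
    h3 _ _ _ (cx_eq (by simp [pi_app, pi_cz]) []) K'
  have key : ∀ s j k, k + j = k0 + 1 → c.Good (Fq y1 (Rg b s (c.W.tps b k))) := by
    intro s j
    induction j with
    | zero =>
      rintro _ rfl
      exact K.good_isl ht hf hk (by omega) s
    | succ j ih =>
      intro k h
      obtain ⟨_, K'⟩ := (K.subs (k := k) ht hk (by omega) s).1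
      refine (K.good_per (h1 _ _ _ (cx_child _ rfl) K') (hc s k (by omega))).union1
        (K.good_zn ht (ih (k + 1) (by omega))) ?_ fun μ => ⟨?_, ?_⟩
      · rintro μ ⟨-, -, a1⟩ ⟨-, -, o, r, a2, -⟩
        simp [a1] at a2
      · rintro ⟨a1, a2, _ | ⟨o, r⟩, a3⟩
        · exact Or.inl ⟨a1, a2, by simpa using a3⟩
        · exact Or.inr ⟨a1, a2, o, r, a3, trivial⟩
      · rintro (⟨a1, a2, a3⟩ | ⟨a1, a2, o, r, a3, -⟩)
        · exact ⟨a1, a2, [], by simpa using a3⟩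
        · exact ⟨a1, a2, _, a3⟩
  refine K.good_up (Nat.le_succ b) ((key false _ 0 (zero_add _)).union1 (key true _ 0 (zero_add _))
    (fun μ a1 a2 => by simpa [a1.2.1] using a2.2.1) fun μ => ?_)
    (by simpa [cz, cb] using hc false 0 (by omega))
  cases h : μ.2.1 <;> simp [Rg, h] <;> omega

theorem Clm.good (n : ℕ) : ∀ {y1 : Adr} {c1 : Bool} {b : ℕ} {Z : Pc → Adr},
    c.e - (cx [] y1).length = n → c.Clm y1 c1 b Z → c.Good (Bx c1 y1 b) := by
  obtain ⟨B, hB⟩ := c.W.nfe_bound c.g.tp_zero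
  induction n using Nat.strong_induction_on with
  | _ n ih =>
    suffices H : ∀ (m : ℕ) {y1 : Adr} {c1 : Bool} {b : ℕ} {Z : Pc → Adr}, B - b = m →
        c.e - (cx [] y1).length = n → c.Clm y1 c1 b Z → c.Good (Bx c1 y1 b) from
      fun {_ _ _ _} h K => H _ rfl h K
    intro m
    induction m using Nat.strong_induction_on with
    | _ m ih' =>
      intro y1 c1 b Z hm hn K
      refine K.good_of fun b1 hb hf K' => ?_
      have h1 := hB _ _ hf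
      have h2 := Wd.nfe c.g.tp_zero hf
      by_cases ht : c.W.TrL (cx [] y1) b1
      · exact K'.good_true ht hf
          (fun y2 c2 Z' e K2 => ih _ (by rw [e]; simp; omega) rfl K2)
          fun y2 c2 Z' e K2 => ih' _ (by omega) rfl (e ▸ hn) K2
      · obtain ⟨e, u, h3⟩ := Wd.frz_level ht
        exact K'.good_up (Nat.le_succ _) (K'.good_frz (e := e) (u := u) (by fun_prop)
          fun μ h => ⟨by omega, h3 μ (by omega)⟩)
          (ih' _ (by omega) rfl hn (K'.next (K'.cen_fx (Or.inl ht))))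

theorem good_all (c : Cx) : c.Good (Val false 0) :=
  (Clm.good _ rfl (clm_root c)).of_eq fun y _ => (bx_nil _ _ y).symm

end Cx

end Pool.Agent.Lib.MP_9e2528_lc.T3
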