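import Pool.Agent.Lib.MP_9e2528_lc.T0

set_option autoImplicit false

/-! Lexicographic sums and presentations: general tools for the coding. -/

namespace Pool.Agent.Lib.MP_9e2528_lc.T3.C

open Encodable Function

section
variable {α β K K' : Type} [LinearOrder K] [LinearOrder K']

/-- `H` is an order isomorphism from `D` onto `D'` -/
structure AIso (D : α → Prop) (D' : β → Prop) (ka : α → K) (kb : β → K') (H : α → β → Prop) :
    Prop where
  dom : ∀ a b, H a b → D a ∧ D' b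
  tot : ∀ a, D a → ∃ b, H a b
  sur : ∀ b, D' b → ∃ a, H a b
  ord : ∀ a b a' b', H a b → H a' b' → (ka a < ka a' ↔ kb b < kb b')

/-- `g` maps the points `C` of the `e`-th program isomorphically onto `D` -/
structure Cp (D : α → Prop) (ka : α → K) (C : ℕ → Prop) (e : ℕ) (g : ℕ → α) : Prop where
  val : ∀ x, C x → D (g x)
  sur : ∀ a, D a → ∃ x, C x ∧ g x = a
  inj : ∀ x x', C x → C x' → g x = g x' → x = x'
  ord : ∀ x x', C x → C x' → (ltI e x x' ↔ ka (g x) < ka (g x'))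

/-- `G` is an order isomorphism between sets of points of two programs -/
structure NIso (C C' : ℕ → Prop) (e e' : ℕ) (G : ℕ × ℕ → Prop) : Prop where
  hd : ∀ x x', G (x, x') → C x ∧ C' x'
  tot : ∀ x, C x → ∃ x', G (x, x')
  sur : ∀ x', C' x' → ∃ x, G (x, x')
  ord : ∀ x x' z z', G (x, x') → G (z, z') → (ltI e x z ↔ ltI e' x' z')

/-- lexicographic key -/
def lexk (ka : α → K) (p : α × List ℕ) : K ×ₗ List ℕ := toLex (ka p.1, p.2)

variable {D : α → Prop} {D' : β → Prop} {ka : α → K} {kb : β → K'} {H E E' : α → β → Prop}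
  {C C' : ℕ → Prop} {e e' : ℕ} {g : ℕ → α} {g' : ℕ → β} {G : ℕ × ℕ → Prop}

theorem loc_congr (h : Loc D ka kb E) (H : ∀ a b, E a b ↔ E' a b) : Loc D ka kb E' :=
  (funext₂ fun a b => propext (H a b) : E = E') ▸ h

theorem AIso.symm (h : AIso D D' ka kb H) : AIso D' D kb ka fun b a => H a b :=
  ⟨fun _ _ h1 => (h.dom _ _ h1).symm, h.sur, h.tot, fun _ _ _ _ h1 h2 => (h.ord _ _ _ _ h1 h2).symm⟩

theorem AIso.uniq (h : AIso D D' ka kb H) (hkb : Injective kb) {a : α} {b b' : β} (h1 : H a b)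
    (h2 : H a b') : b = b' := by
  rcases lt_trichotomy (kb b) (kb b') with h3 | h3 | h3
  · exact absurd ((h.ord _ _ _ _ h1 h2).2 h3) (lt_irrefl _)
  · exact hkb h3
  · exact absurd ((h.ord _ _ _ _ h2 h1).2 h3) (lt_irrefl _)

theorem lexk_lt (hk : Injective ka) {p q : α × List ℕ} :
    lexk ka p < lexk ka q ↔ ka p.1 < ka q.1 ∨ (p.1 = q.1 ∧ p.2 < q.2) := by
  simp [lexk, Prod.Lex.toLex_lt_toLex, hk.eq_iff]

theorem lexk_same (a : α) {w w' : List ℕ} : lexk ka (a, w) < lexk ka (a, w') ↔ w < w' := by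
  simp [lexk, Prod.Lex.toLex_lt_toLex]

theorem lexk_fst {p q : α × List ℕ} (h : ka p.1 < ka q.1) : lexk ka p < lexk ka q := by
  simp [lexk, Prod.Lex.toLex_lt_toLex, h]

theorem lexk_le {p q : α × List ℕ} (h : lexk ka p ≤ lexk ka q) : ka p.1 ≤ ka q.1 :=
  not_lt.1 fun h1 => absurd h (not_le.2 (lexk_fst h1))

omit [LinearOrder K] in
theorem lexk_inj (hk : Injective ka) : Injective (lexk ka) := fun p q h => by
  have h1 : (ka p.1, p.2) = (ka q.1, q.2) := toLex.injective h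
  exact Prod.ext (hk (Prod.mk.inj h1).1) (Prod.mk.inj h1).2

/-- the local condition for a lexicographic sum over an isomorphism -/
theorem loc_lex (hka : Injective ka) (hkb : Injective kb) (h : AIso D D' ka kb H)
    {Df : α → List ℕ → Prop} {F : α → β → List ℕ → List ℕ → Prop}
    (hF : ∀ a b, H a b → Loc (Df a) (fun w => w) (fun w => w) (F a b)) :
    Loc (fun p : α × List ℕ => D p.1 ∧ Df p.1 p.2) (lexk ka) (lexk kb)
      fun p q => H p.1 q.1 ∧ F p.1 q.1 p.2 q.2 := by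
  rintro ⟨a, w⟩ ⟨ha, hw⟩
  obtain ⟨b, hab⟩ := h.tot a ha
  have tri : ∀ {a' b'}, H a' b' → (ka a < ka a' ∧ kb b < kb b') ∨ (a' = a ∧ b' = b) ∨
      (ka a' < ka a ∧ kb b' < kb b) := by
    intro a' b' h1
    rcases lt_trichotomy (ka a) (ka a') with h2 | h2 | h2
    · exact Or.inl ⟨h2, (h.ord _ _ _ _ hab h1).1 h2⟩
    · obtain rfl := hka h2
      exact Or.inr (Or.inl ⟨rfl, h.uniq hkb h1 hab⟩)
    · exact Or.inr (Or.inr ⟨h2, (h.ord _ _ _ _ h1 hab).1 h2⟩)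
  rcases hF a b hab w hw with ⟨v, hv, H1⟩ | ⟨Z, h1, ⟨v, hv⟩, h3, h4, h5, h6⟩
  · refine Or.inl ⟨(b, v), ⟨hab, hv⟩, ?_⟩
    rintro ⟨a', w'⟩ ⟨b', v'⟩ ⟨h1, h2⟩
    rcases tri h1 with ⟨h3, h4⟩ | ⟨rfl, rfl⟩ | ⟨h3, h4⟩
    · have h5 := lexk_fst (p := (a, w)) (q := (a', w')) h3
      have h6 := lexk_fst (p := (b, v)) (q := (b', v')) h4
      simp [h5, h6, lt_asymm h5, lt_asymm h6]
    · simpa only [lexk_same] using H1 _ _ h2
    · have h5 := lexk_fst (p := (a', w')) (q := (a, w)) h3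
      have h6 := lexk_fst (p := (b', v')) (q := (b, v)) h4
      simp [h5, h6, lt_asymm h5, lt_asymm h6]
  · refine Or.inr ⟨fun q => q.1 = b ∧ Z q.2, ?_, ⟨(b, v), hab, hv⟩, ?_, ?_, ?_, ?_⟩
    · rintro ⟨b', v'⟩ ⟨h7, h8⟩
      obtain rfl : b' = b := h.uniq hkb h7 hab
      exact ⟨rfl, h1 _ h8⟩
    · rintro ⟨_, u⟩ ⟨rfl, hu⟩
      obtain ⟨c, hc, hl⟩ := h3 u hu
      exact ⟨(_, c), ⟨hab, hc⟩, (lexk_same _).2 hl⟩
    · rintro ⟨_, u⟩ ⟨rfl, hu⟩
      obtain ⟨c, hc, hl⟩ := h4 u hu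
      exact ⟨(_, c), ⟨hab, hc⟩, (lexk_same _).2 hl⟩
    · rintro ⟨_, u⟩ ⟨_, u'⟩ ⟨rfl, hu⟩ ⟨rfl, hu'⟩ hl
      obtain ⟨c, hc, hl, hl'⟩ := h5 u u' hu hu' ((lexk_same _).1 hl)
      exact ⟨(_, c), ⟨hab, hc⟩, (lexk_same _).2 hl, (lexk_same _).2 hl'⟩
    · rintro ⟨a', w'⟩ ⟨b', v'⟩ ⟨h7, h8⟩
      rcases tri h7 with ⟨h9, h10⟩ | ⟨rfl, rfl⟩ | ⟨h9, h10⟩
      · refine Or.inr (Or.inr ⟨lexk_fst h9, ?_⟩)
        rintro ⟨_, z⟩ ⟨rfl, -⟩
        exact lexk_fst h10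
      · refine (h6 _ _ h8).imp (fun h => ⟨rfl, h⟩) (Or.imp (fun h => ⟨(lexk_same _).2 h.1, ?_⟩)
          fun h => ⟨(lexk_same _).2 h.1, ?_⟩)
        · rintro ⟨_, z⟩ ⟨rfl, hz⟩
          exact (lexk_same _).2 (h.2 z hz)
        · rintro ⟨_, z⟩ ⟨rfl, hz⟩
          exact (lexk_same _).2 (h.2 z hz)
      · refine Or.inr (Or.inl ⟨lexk_fst h9, ?_⟩)
        rintro ⟨_, z⟩ ⟨rfl, -⟩
        exact lexk_fst h10

theorem Cp.aiso (P : Cp D ka C e g) (P' : Cp D' kb C' e' g') (h : NIso C C' e e' G) :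
    AIso D D' ka kb fun a b => ∃ x y, G (x, y) ∧ g x = a ∧ g' y = b where
  dom := by
    rintro _ _ ⟨x, y, h1, rfl, rfl⟩
    exact ⟨P.val _ (h.hd _ _ h1).1, P'.val _ (h.hd _ _ h1).2⟩
  tot := fun a ha => by
    obtain ⟨x, hx, rfl⟩ := P.sur a ha
    obtain ⟨y, hy⟩ := h.tot x hx
    exact ⟨_, x, y, hy, rfl, rfl⟩
  sur := fun b hb => by
    obtain ⟨y, hy, rfl⟩ := P'.sur b hb
    obtain ⟨x, hx⟩ := h.sur y hy
    exact ⟨_, x, y, hx, rfl, rfl⟩
  ord := by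
    rintro _ _ _ _ ⟨x, y, h1, rfl, rfl⟩ ⟨x', y', h2, rfl, rfl⟩
    rw [← P.ord _ _ (h.hd _ _ h1).1 (h.hd _ _ h2).1, ← P'.ord _ _ (h.hd _ _ h1).2 (h.hd _ _ h2).2]
    exact h.ord _ _ _ _ h1 h2

/-- back and forth between presentations -/
theorem lift_iso (P : Cp D ka C e g) (P' : Cp D' kb C' e' g') (hka : Injective ka)
    (hkb : Injective kb) (hL : Loc D ka kb E) (hL' : Loc D' kb ka fun b a => E a b)
    (hE : ∀ a b, E a b → D a ∧ D' b) :
    (∃ G, NIso C C' e e' G ∧ ∀ x y, G (x, y) → E (g x) (g' y)) ∧ ∀ n, Del (n + 3) C →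
      Del (n + 3) C' → (Sig (n + 3) fun p : ℕ × ℕ => C p.1 ∧ C' p.2 ∧ E (g p.1) (g' p.2)) →
      ∃ G, (NIso C C' e e' G ∧ ∀ x y, G (x, y) → E (g x) (g' y)) ∧ Sig (n + 3) G := by
  have h1 := hL.lift (C := C) (C' := C') (fun a b h => (hE a b h).2) P.val P'.sur
  have h2 := loc_congr (hL'.lift (C := C') (C' := C) (fun b a h => (hE a b h).1) P'.val P.sur)
    (E' := fun y x => C x ∧ C' y ∧ E (g x) (g' y)) fun _ _ => and_left_comm
  have h3 : ∀ x y x' y', (C x ∧ C' y ∧ E (g x) (g' y)) → (C x' ∧ C' y' ∧ E (g x') (g' y')) →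
      (ka (g x) = ka (g x') → x = x') ∧ (kb (g' y) = kb (g' y') → y = y') :=
    fun _ _ _ _ h h' => ⟨fun he => P.inj _ _ h.1 h'.1 (hka he),
      fun he => P'.inj _ _ h.2.1 h'.2.1 (hkb he)⟩
  have h4 : ∀ G, IsoR C C' (fun x => ka (g x)) (fun y => kb (g' y))
      (fun x y => C x ∧ C' y ∧ E (g x) (g' y)) G →
      NIso C C' e e' G ∧ ∀ x y, G (x, y) → E (g x) (g' y) := fun G h =>
    ⟨⟨fun x y hx => ⟨(h.sub _ _ hx).1, (h.sub _ _ hx).2.1⟩, h.tot, h.sur, fun x y z t hx hz => by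
      rw [P.ord _ _ (h.sub _ _ hx).1 (h.sub _ _ hz).1,
        P'.ord _ _ (h.sub _ _ hx).2.1 (h.sub _ _ hz).2.1]
      exact h.ord _ _ _ _ hx hz⟩, fun x y hx => (h.sub _ _ hx).2.2⟩
  refine ⟨(bf_iso h1 h2 h3).imp h4, fun n hC hC' hS => ?_⟩
  obtain ⟨A, hA, hA'⟩ : ∃ A : ℕ × ℕ → Prop, Sig (n + 3) A ∧ ∀ p, A p ↔
    C p.1 ∧ C' p.2 ∧ E (g p.1) (g' p.2) := ⟨_, hS, fun _ => Iff.rfl⟩
  have h5 : Sig (n + 3) fun q : (ℕ × ℕ) × ℕ × ℕ => A q.1 ∧ A q.2 ∧
      (ltI e q.1.1 q.2.1 ↔ ltI e' q.1.2 q.2.2) := by fun_prop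
  obtain ⟨G, h6, h7⟩ := bf_iso_sig (n := n + 2) h1 h2 h3 hC hC' (h5.of_eq fun q => by
    rw [hA', hA']
    refine and_congr_right fun h => and_congr_right fun h' => ?_
    rw [P.ord _ _ h.1 h'.1, P'.ord _ _ h.2.1 h'.2.1])
  exact ⟨G, h4 G h6, h7⟩

theorem Cp.eq_of (P : Cp D ka C e g) (hka : Injective ka) {x x' : ℕ} (hx : C x) (hx' : C x')
    (h : ¬ ltI e x x') (h' : ¬ ltI e x' x) : x = x' := by
  rw [P.ord _ _ hx hx'] at h
  rw [P.ord _ _ hx' hx] at h'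
  exact P.inj _ _ hx hx' (hka (le_antisymm (not_lt.1 h') (not_lt.1 h)))

/-- the function behind an isomorphism between the whole domains -/
theorem fun_of_niso (P : Cp D ka (fun a => leI e a a) e g) (P' : Cp D' kb (fun a => leI e' a a) e' g')
    (hka : Injective ka) (hkb : Injective kb)
    (h : NIso (fun a => leI e a a) (fun a => leI e' a a) e e' G) :
    ∃ J, IsoI e e' J ∧ ∀ a b, (leI e a a ∧ J a = b) ↔ G (a, b) := by
  have hirr : ∀ e a, ¬ ltI e a a := fun _ _ h => h.2 rfl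
  have hex : ∀ a, ∃ b, leI e a a → G (a, b) := fun a => by
    by_cases ha : leI e a a
    · exact (h.tot a ha).imp fun _ hb _ => hb
    · exact ⟨0, fun h => absurd h ha⟩
  choose J hJ using hex
  have hgr : ∀ a b, (leI e a a ∧ J a = b) ↔ G (a, b) := by
    refine fun a b => ⟨?_, fun hq => ?_⟩
    · rintro ⟨ha, rfl⟩
      exact hJ a ha
    · have ha := (h.hd _ _ hq).1
      exact ⟨ha, P'.eq_of hkb (h.hd _ _ (hJ a ha)).2 (h.hd _ _ hq).2
        (fun h1 => hirr _ _ ((h.ord _ _ _ _ (hJ a ha) hq).2 h1))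
        fun h1 => hirr _ _ ((h.ord _ _ _ _ hq (hJ a ha)).2 h1)⟩
  refine ⟨J, ⟨⟨fun a ha => (h.hd _ _ (hJ a ha)).2, fun a ha b hb he => ?_, fun b hb => ?_⟩,
    fun a ha b hb => h.ord _ _ _ _ (hJ a ha) (hJ b hb)⟩, hgr⟩
  · exact P.eq_of hka ha hb
      (fun h1 => hirr e' (J b) (he ▸ (h.ord _ _ _ _ (hJ a ha) (hJ b hb)).1 h1))
      fun h1 => hirr e' (J b) (he ▸ (h.ord _ _ _ _ (hJ b hb) (hJ a ha)).1 h1)
  · obtain ⟨a, ha⟩ := h.sur b hb
    exact ⟨a, (hgr _ _).2 ha⟩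

end

section
variable {P K : Type} [Primcodable P] [Inhabited P] [LinearOrder K]

/-- the point coded by a number -/
def dec (P : Type) [Primcodable P] [Inhabited P] (a : ℕ) : P := (decode a).getD default

@[fun_prop] theorem dec_comp : Computable (dec P) := by unfold dec; fun_prop

/-- a computable order given by keys -/
def canO (kp : P → K) (hk : Injective kp) (hc : ComputablePred fun q : P × P => kp q.1 < kp q.2)
    (D : P → Prop) (hD : ComputablePred D) : CLO where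
  dom := {a | encode (dec P a) = a ∧ D (dec P a)}
  lt a b := (encode (dec P a) = a ∧ D (dec P a)) ∧
    (encode (dec P b) = b ∧ D (dec P b)) ∧ kp (dec P a) < kp (dec P b)
  dom_comp := by
    change ComputablePred fun a => encode (dec P a) = a ∧ D (dec P a)
    fun_prop
  lt_comp := cp_and (by fun_prop) (cp_and (by fun_prop)
    (cp_comp hc (f := fun p : ℕ × ℕ => (dec P p.1, dec P p.2)) (by fun_prop)))
  mem := fun _ _ h => ⟨h.1, h.2.1⟩
  irrefl := fun _ h => lt_irrefl _ h.2.2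
  trans := fun _ _ _ h h' => ⟨h.1, h'.2.1, lt_trans h.2.2 h'.2.2⟩
  total := fun a ha b hb => by
    rcases lt_trichotomy (kp (dec P a)) (kp (dec P b)) with h | h | h
    · exact Or.inl ⟨ha, hb, h⟩
    · exact Or.inr (Or.inl (by rw [← ha.1, hk h, hb.1]))
    · exact Or.inr (Or.inr ⟨hb, ha, h⟩)

theorem cp_of_iso {kp : P → K} {hk : Injective kp}
    {hc : ComputablePred fun q : P × P => kp q.1 < kp q.2} {D : P → Prop} {hD : ComputablePred D}
    {e : ℕ} {M : CLO} (he : IsIndex e M) {f : ℕ → ℕ} (hf : IsIso M (canO kp hk hc D hD) f) :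
    Cp D kp (fun a => leI e a a) e fun a => dec P (f a) where
  val := fun a ha => (hf.1.1 (he.dom.1 ha)).2
  ord := fun a b ha hb => by
    rw [he.lt, hf.2 a (he.dom.1 ha) b (he.dom.1 hb)]
    exact ⟨fun h => h.2.2, fun h => ⟨hf.1.1 (he.dom.1 ha), hf.1.1 (he.dom.1 hb), h⟩⟩
  inj := fun a b ha hb hab => hf.1.2.1 (he.dom.1 ha) (he.dom.1 hb) (by
    rw [← (hf.1.1 (he.dom.1 ha)).1, hab, (hf.1.1 (he.dom.1 hb)).1])
  sur := fun x hx => by
    have h1 : dec P (encode x) = x := by simp [dec]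
    obtain ⟨a, ha, ha'⟩ := hf.1.2.2
      (show encode x ∈ (canO kp hk hc D hD).dom from ⟨by rw [h1], by rwa [h1]⟩)
    exact ⟨a, he.dom.2 ha, by rw [ha', h1]⟩

theorem index_dom {e : ℕ} {M : CLO} (he : IsIndex e M) (a b : ℕ) (hab : leI e a b) :
    leI e a a ∧ leI e b b := by
  rw [he.dom, he.dom]
  rcases he.le.1 hab with ⟨h1, rfl⟩ | h1
  · exact ⟨h1, h1⟩
  · exact M.mem _ _ h1

/-- indices for a uniform family -/
theorem canO_index (kp : P → K) (hk : Injective kp)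
    (hc : ComputablePred fun q : P × P => kp q.1 < kp q.2) (D : ℕ → P → Prop)
    (hD : ComputablePred fun q : ℕ × P => D q.1 q.2) (hD' : ∀ x, ComputablePred (D x)) :
    ∃ r, Computable r ∧ ∀ x, IsIndex (r x) (canO kp hk hc (D x) (hD' x)) := by
  obtain ⟨A, hA, hA'⟩ : ∃ A : ℕ × ℕ → Prop, ComputablePred A ∧ ∀ p, A p ↔
      encode (dec P p.2) = p.2 ∧ D p.1 (dec P p.2) := ⟨_, cp_and (by fun_prop)
    (cp_comp hD (f := fun p : ℕ × ℕ => (p.1, dec P p.2)) (by fun_prop)), fun _ => Iff.rfl⟩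
  obtain ⟨B, hB, hB'⟩ : ∃ B : ℕ × ℕ → Prop, ComputablePred B ∧ ∀ p, B p ↔
      kp (dec P p.1) < kp (dec P p.2) :=
    ⟨_, cp_comp hc (f := fun p : ℕ × ℕ => (dec P p.1, dec P p.2)) (by fun_prop), fun _ => Iff.rfl⟩
  obtain ⟨c, hc'⟩ := exists_code_of_pred (P := fun z =>
    (A (z.unpair.1, z.unpair.2.unpair.1) ∧ z.unpair.2.unpair.1 = z.unpair.2.unpair.2) ∨
      (A (z.unpair.1, z.unpair.2.unpair.1) ∧ A (z.unpair.1, z.unpair.2.unpair.2) ∧
        B z.unpair.2.unpair)) (by fun_prop)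
  refine ⟨fun x => encode (c.curry x), Computable.encode.comp
    (Nat.Partrec.Code.primrec₂_curry.to_comp.comp (Computable.const c) Computable.id),
    fun x a b => ?_⟩
  have := hc' (Nat.pair x (Nat.pair a b))
  simp only [Nat.unpair_pair, hA', hB'] at this
  rw [Denumerable.ofNat_encode, Nat.Partrec.Code.eval_curry]
  exact this

end

end Pool.Agent.Lib.MP_9e2528_lc.T3.C
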