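import Pool.Agent.Lib.MP_9e2528_lc.T1a

set_option autoImplicit false

/-! Blocks: a finite run of adjacent points followed by a dense tail. -/

namespace Pool.Agent.Lib.MP_9e2528_lc.T3.C

open Encodable Function

def Tz (φ : ℕ → Prop) (w : List ℕ) : Prop :=
  w = 1 :: w.drop 1 ∧ ¬ lastw (w.drop 1) = 0 ∧ φ (lz (w.drop 1))

def okw (β : ℕ) (φ : ℕ → Prop) (w : List ℕ) : Prop :=
  (w = [0, w[1]?.getD 0] ∧ w[1]?.getD 0 ≤ β) ∨ Tz φ w

open Classical in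
/-- the number of points after the first one in the run -/
noncomputable def xt (β : ℕ) (φ : ℕ → Prop) : ℕ := if Unb φ then β else β + 1

noncomputable def mz (φ : ℕ → Prop) : List ℕ := 1 :: (List.replicate (sSup {t | φ t}) 0 ++ [1])

noncomputable def pw (β : ℕ) (φ : ℕ → Prop) (j : ℕ) : List ℕ := if j ≤ β then [0, j] else mz φ

def Tt (φ : ℕ → Prop) (w : List ℕ) : Prop := Tz φ w ∧ (Unb φ ∨ w ≠ mz φ)

section
variable {β β' : ℕ} {φ φ' : ℕ → Prop}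

theorem le_xt : β ≤ xt β φ := by
  unfold xt
  split_ifs <;> omega

theorem tz_cons' {v : List ℕ} : Tz φ (1 :: v) ↔ lastw v ≠ 0 ∧ φ (lz v) := by simp [Tz]

theorem Tz.form {w : List ℕ} (h : Tz φ w) : ∃ v, w = 1 :: v ∧ lastw v ≠ 0 ∧ φ (lz v) :=
  ⟨_, h.1, h.2.1, h.2.2⟩

theorem tz_mz (h0 : φ 0) (h : ¬ Unb φ) : Tz φ (mz φ) := by
  rw [mz, tz_cons']
  refine ⟨by simp, ?_⟩
  rw [show [1] = [0 + 1] from rfl, lz_rep]
  exact Nat.sSup_mem (s := {t | φ t}) ⟨0, h0⟩ (bdd_of_not_unb h)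

theorem mz_le (h : ¬ Unb φ) {w : List ℕ} (hw : Tz φ w) : ¬ w < mz φ := by
  obtain ⟨v, rfl, h1, h2⟩ := hw.form
  have h3 : lz v ≤ sSup {t | φ t} := le_csSup (bdd_of_not_unb h) h2
  rw [mz, List.cons_lt_cons_iff]
  simp only [lt_irrefl, true_and, false_or]
  rcases h3.lt_or_eq with h4 | h4
  · exact lt_asymm (rep_lt_dn h1 h4 _)
  · rw [← h4]
    exact rep_one_le h1

theorem lt_app_snoc (w z : List ℕ) (c : ℕ) : w < w ++ (z ++ [c]) := by
  cases z with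
  | nil => exact lt_app_cons _ _ _
  | cons a z => exact lt_app_cons _ _ _

theorem tt_app {w : List ℕ} (hw : Tz φ w) (z : List ℕ) : Tt φ (w ++ (z ++ [1])) := by
  refine ⟨?_, ?_⟩
  · obtain ⟨v, rfl, h1, h2⟩ := hw.form
    rw [List.cons_append, tz_cons', lz_app h1, ← List.append_assoc, lastw_snoc]
    exact ⟨by simp, h2⟩
  · by_cases h : Unb φ
    · exact Or.inl h
    · refine Or.inr fun he => mz_le h hw ?_
      rw [← he]
      exact lt_app_snoc _ _ _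

theorem tt_exists (h0 : φ 0) : ∃ w, Tt φ w :=
  ⟨_, tt_app (w := [1, 1]) (tz_cons'.2 ⟨by simp, by simpa [lz_cons] using h0⟩) []⟩

theorem tt_above {u : List ℕ} (h : Tz φ u) : ∃ w, Tt φ w ∧ u < w :=
  ⟨_, tt_app h [], lt_app_cons _ _ _⟩

theorem tt_between {u v : List ℕ} (hu : Tz φ u) (hv : Tz φ v) (h : u < v) :
    ∃ w, Tt φ w ∧ u < w ∧ w < v := by
  refine ⟨_, tt_app hu (List.replicate v.length 0), lt_app_snoc _ _ _, app_rep_lt h ?_ _⟩
  obtain ⟨v, rfl, h1, -⟩ := hv.form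
  rwa [lastw_cons h1]

theorem mz_lt (h : ¬ Unb φ) {v : List ℕ} (hv : Tt φ v) : mz φ < v := by
  rcases lt_trichotomy (mz φ) v with h2 | h2 | h2
  · exact h2
  · exact absurd h2.symm (hv.2.resolve_left h)
  · exact absurd h2 (mz_le h hv.1)

theorem tt_below (h0 : φ 0) {v : List ℕ} (hv : Tt φ v) : ∃ w, Tt φ w ∧ w < v := by
  by_cases h : Unb φ
  · obtain ⟨v, rfl, h1, -⟩ := hv.1.form
    obtain ⟨t, ht, ht'⟩ := h (lz v + 1)
    refine ⟨1 :: (List.replicate t 0 ++ [0 + 1]), ⟨tz_cons'.2 ⟨by simp, by rwa [lz_rep]⟩, Or.inl h⟩,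
      List.cons_lt_cons_iff.2 (Or.inr ⟨rfl, rep_lt_dn h1 (by omega) _⟩)⟩
  · obtain ⟨w, hw, -, h3⟩ := tt_between (tz_mz h0 h) hv.1 (mz_lt h hv)
    exact ⟨w, hw, h3⟩

theorem not_unb_of' {j : ℕ} (h : j ≤ xt β φ) (h' : ¬ j ≤ β) : ¬ Unb φ ∧ j = β + 1 := by
  unfold xt at h
  split_ifs at h with hu
  · exact absurd h h'
  · exact ⟨hu, by omega⟩

theorem okw_iff (h0 : φ 0) {w : List ℕ} :
    okw β φ w ↔ (∃ j ≤ xt β φ, w = pw β φ j) ∨ Tt φ w := by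
  constructor
  · rintro (⟨h1, h2⟩ | h)
    · exact Or.inl ⟨_, h2.trans le_xt, by rwa [pw, if_pos h2]⟩
    · by_cases h1 : Unb φ ∨ w ≠ mz φ
      · exact Or.inr ⟨h, h1⟩
      · push Not at h1
        exact Or.inl ⟨β + 1, by simp [xt, h1.1], by simp [pw, h1.2]⟩
  · rintro (⟨j, hj, rfl⟩ | h)
    · by_cases h1 : j ≤ β
      · left
        simp [pw, h1]
      · right
        rw [pw, if_neg h1]
        exact tz_mz h0 (not_unb_of' hj h1).1
    · exact Or.inr h.1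

theorem pw_lt {j j' : ℕ} (h : j < j') (h' : j' ≤ xt β φ) : pw β φ j < pw β φ j' := by
  by_cases h1 : j' ≤ β
  · rw [pw, pw, if_pos h1, if_pos (h.le.trans h1)]
    simp [List.cons_lt_cons_iff, h]
  · have := not_unb_of' h' h1
    rw [pw, pw, if_neg h1, if_pos (by omega), mz]
    simp [List.cons_lt_cons_iff]

theorem pw_lt_iff {j j' : ℕ} (h : j ≤ xt β φ) (h' : j' ≤ xt β φ) :
    pw β φ j < pw β φ j' ↔ j < j' := by
  refine ⟨fun h1 => ?_, fun h1 => pw_lt h1 h'⟩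
  rcases lt_trichotomy j j' with h2 | rfl | h2
  · exact h2
  · exact absurd h1 (lt_irrefl _)
  · exact absurd (pw_lt h2 h) (lt_asymm h1)

theorem pw_inj {j j' : ℕ} (h : j ≤ xt β φ) (h' : j' ≤ xt β φ) (he : pw β φ j = pw β φ j') :
    j = j' := by
  rcases lt_trichotomy j j' with h2 | h2 | h2
  · exact absurd (pw_lt h2 h') (by rw [he]; exact lt_irrefl _)
  · exact h2
  · exact absurd (pw_lt h2 h) (by rw [he]; exact lt_irrefl _)

theorem pw_lt_tt {j : ℕ} {w : List ℕ} (h : j ≤ xt β φ) (hw : Tt φ w) : pw β φ j < w := by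
  by_cases h1 : j ≤ β
  · obtain ⟨v, rfl, -⟩ := hw.1.form
    simp [pw, h1, List.cons_lt_cons_iff]
  · rw [pw, if_neg h1]
    exact mz_lt (not_unb_of' h h1).1 hw

/-- matching points of two blocks -/
def FB (β β' : ℕ) (φ φ' : ℕ → Prop) (w v : List ℕ) : Prop :=
  (∃ j ≤ xt β φ, j ≤ xt β' φ' ∧ w = pw β φ j ∧ v = pw β' φ' j) ∨ (Tt φ w ∧ Tt φ' v)

theorem FB.symm {w v : List ℕ} (h : FB β β' φ φ' w v) : FB β' β φ' φ v w :=
  h.imp (fun ⟨j, h1, h2, h3, h4⟩ => ⟨j, h2, h1, h4, h3⟩) And.symm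

theorem loc_block (h0 : φ 0) (h0' : φ' 0) (he : xt β φ = xt β' φ') :
    Loc (okw β φ) (fun w => w) (fun w => w) (FB β β' φ φ') := by
  intro w hw
  rcases (okw_iff h0).1 hw with ⟨j, hj, rfl⟩ | ht
  · refine Or.inl ⟨_, Or.inl ⟨j, hj, he ▸ hj, rfl, rfl⟩, ?_⟩
    rintro w v (⟨i, hi, hi', rfl, rfl⟩ | ⟨h1, h2⟩)
    · simp only [pw_lt_iff hj hi, pw_lt_iff hi hj, pw_lt_iff (he ▸ hj) hi',
        pw_lt_iff hi' (he ▸ hj), and_self]
    · have h3 := pw_lt_tt hj h1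
      have h4 := pw_lt_tt (he ▸ hj : j ≤ xt β' φ') h2
      simp [h3, h4, lt_asymm h3, lt_asymm h4]
  · have hi : ∀ v, FB β β' φ φ' w v ↔ Tt φ' v := fun v => ⟨fun h => (h.resolve_left
      fun ⟨j, h1, _, h2, _⟩ => lt_irrefl _ (h2 ▸ pw_lt_tt h1 ht)).2, fun h => Or.inr ⟨ht, h⟩⟩
    simp only [hi]
    refine Or.inr ⟨Tt φ', fun _ h => h, tt_exists h0', fun u hu => tt_below h0' hu,
      fun u hu => tt_above hu.1, fun u v hu hv => tt_between hu.1 hv.1, ?_⟩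
    rintro w' v (⟨i, hi, hi', rfl, rfl⟩ | ⟨h1, h2⟩)
    · exact Or.inr (Or.inl ⟨pw_lt_tt hi ht, fun z hz => pw_lt_tt hi' hz⟩)
    · exact Or.inl h2

end

/-- a family of blocks -/
structure Sys (B K : Type) where
  kb : B → K
  VB : B → Prop
  base : B → ℕ
  fire : B → ℕ → Prop
  inj : Injective kb
  pos : ∀ b, 0 < base b
  zero : ∀ b, fire b 0

namespace Sys

variable {B K : Type} (S : Sys B K)

def D (p : B × List ℕ) : Prop := S.VB p.1 ∧ okw (S.base p.1) (S.fire p.1) p.2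
noncomputable def ex (b : B) : ℕ := xt (S.base b) (S.fire b)
noncomputable def pt (b : B) (j : ℕ) : B × List ℕ := (b, pw (S.base b) (S.fire b) j)
def Tail (p : B × List ℕ) : Prop := Tt (S.fire p.1) p.2

variable {S}

@[simp] theorem pt_fst (b : B) (j : ℕ) : (S.pt b j).1 = b := rfl

theorem ex_pos (b : B) : 0 < S.ex b := (S.pos b).trans_le le_xt

theorem classify {p : B × List ℕ} (h : S.D p) : (∃ j ≤ S.ex p.1, p = S.pt p.1 j) ∨ S.Tail p :=
  ((okw_iff (S.zero _)).1 h.2).imp (fun ⟨j, h1, h2⟩ => ⟨j, h1, Prod.ext rfl h2⟩) id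

theorem valid_pt {b : B} (h : S.VB b) {j : ℕ} (hj : j ≤ S.ex b) : S.D (S.pt b j) :=
  ⟨h, (okw_iff (S.zero _)).2 (Or.inl ⟨j, hj, rfl⟩)⟩

theorem valid_tl {b : B} (h : S.VB b) {u : List ℕ} (hu : Tt (S.fire b) u) : S.D (b, u) :=
  ⟨h, (okw_iff (S.zero _)).2 (Or.inr hu)⟩

theorem pt_inj {b b' : B} {j j' : ℕ} (hj : j ≤ S.ex b) (hj' : j' ≤ S.ex b')
    (he : S.pt b j = S.pt b' j') : b = b' ∧ j = j' := by
  obtain rfl : b = b' := congrArg Prod.fst he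
  exact ⟨rfl, pw_inj hj hj' (congrArg Prod.snd he)⟩

theorem pt_not_tail {b : B} {j : ℕ} (hj : j ≤ S.ex b) : ¬ S.Tail (S.pt b j) :=
  fun h => lt_irrefl _ (pw_lt_tt hj h)

variable [LinearOrder K]

theorem pt_lt_iff {b : B} {j j' : ℕ} (hj : j ≤ S.ex b) (hj' : j' ≤ S.ex b) :
    lexk S.kb (S.pt b j) < lexk S.kb (S.pt b j') ↔ j < j' :=
  (lexk_same _).trans (pw_lt_iff hj hj')

theorem pt_lt_tail {p : B × List ℕ} {j : ℕ} (hj : j ≤ S.ex p.1) (hp : S.Tail p) :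
    lexk S.kb (S.pt p.1 j) < lexk S.kb p := (lexk_same _).2 (pw_lt_tt hj hp)

theorem pt_zero_le {p : B × List ℕ} (hp : S.D p) : lexk S.kb (S.pt p.1 0) ≤ lexk S.kb p := by
  rcases classify hp with ⟨j, hj, he⟩ | ht
  · rw [he]
    exact not_lt.1 fun h => absurd ((pt_lt_iff hj (Nat.zero_le _)).1 h) (Nat.not_lt_zero _)
  · exact (pt_lt_tail (Nat.zero_le _) ht).le

theorem fst_eq {p q r : B × List ℕ} (h1 : lexk S.kb p ≤ lexk S.kb q) (h2 : lexk S.kb q ≤ lexk S.kb r)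
    (he : p.1 = r.1) : q.1 = p.1 := S.inj (le_antisymm (he ▸ lexk_le h2) (lexk_le h1))

def AdjA (S : Sys B K) (p q : B × List ℕ) : Prop :=
  lexk S.kb p < lexk S.kb q ∧ ¬ ∃ c, S.D c ∧ lexk S.kb p < lexk S.kb c ∧ lexk S.kb c < lexk S.kb q

theorem adj_pt {b : B} {j : ℕ} (hj : j < S.ex b) : S.AdjA (S.pt b j) (S.pt b (j + 1)) := by
  refine ⟨(pt_lt_iff hj.le hj).2 (Nat.lt_succ_self j), ?_⟩
  rintro ⟨c, hc, h1, h2⟩
  obtain rfl : c.1 = b := fst_eq h1.le h2.le rfl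
  rcases classify hc with ⟨i, hi, he⟩ | ht
  · rw [he, pt_fst] at h1 h2
    have := (pt_lt_iff hj.le hi).1 h1
    have := (pt_lt_iff hi hj).1 h2
    omega
  · exact lt_asymm h2 (pt_lt_tail hj ht)

/-- the last point of a run and the tail points have no next point -/
theorem no_succ {p q : B × List ℕ} (hp : S.D p) (hq : S.D q)
    (h : p = S.pt p.1 (S.ex p.1) ∨ S.Tail p) : ¬ S.AdjA p q := by
  rintro ⟨h1, h2⟩
  obtain ⟨b, w⟩ := p
  have h3 : ∀ v, Tt (S.fire b) v → w < v → ∃ u, Tt (S.fire b) u ∧ w < u ∧ u < v := by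
    intro v hv hw
    rcases h with h | h
    · obtain ⟨u, hu, h4⟩ := tt_below (S.zero b) hv
      exact ⟨u, hu, (congrArg Prod.snd h).trans_lt (pw_lt_tt le_rfl hu), h4⟩
    · exact tt_between h.1 hv.1 hw
  have h4 : ∃ u, Tt (S.fire b) u ∧ w < u := by
    rcases h with h | h
    · obtain ⟨u, hu⟩ := tt_exists (S.zero b)
      exact ⟨u, hu, (congrArg Prod.snd h).trans_lt (pw_lt_tt le_rfl hu)⟩
    · exact tt_above h.1
  rcases (lexk_lt S.inj).1 h1 with h5 | ⟨h5, h6⟩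
  · obtain ⟨u, hu, h6⟩ := h4
    exact h2 ⟨(b, u), valid_tl hp.1 hu, (lexk_same _).2 h6, lexk_fst h5⟩
  · obtain ⟨b', v⟩ := q
    obtain rfl : b = b' := h5
    rcases classify hq with ⟨i, hi, he⟩ | ht
    · rw [he] at h1
      rcases h with h | h
      · rw [h] at h1
        exact absurd ((pt_lt_iff le_rfl hi).1 h1) (not_lt.2 hi)
      · exact lt_asymm h1 (pt_lt_tail (p := (b, w)) hi h)
    · obtain ⟨u, hu, h7, h8⟩ := h3 v ht h6
      exact h2 ⟨(b, u), valid_tl hp.1 hu, (lexk_same _).2 h7, (lexk_same _).2 h8⟩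

theorem adj_iff {p q : B × List ℕ} (hp : S.D p) (hq : S.D q) :
    S.AdjA p q ↔ ∃ j < S.ex p.1, p = S.pt p.1 j ∧ q = S.pt p.1 (j + 1) := by
  refine ⟨fun h => ?_, ?_⟩
  · rcases classify hp with ⟨j, hj, he⟩ | ht
    · rcases hj.lt_or_eq with hj' | rfl
      · refine ⟨j, hj', he, lexk_inj S.inj ?_⟩
        have h1 := adj_pt hj'
        rw [← he] at h1
        rcases lt_trichotomy (lexk S.kb q) (lexk S.kb (S.pt p.1 (j + 1))) with h2 | h2 | h2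
        · exact absurd ⟨q, hq, h.1, h2⟩ h1.2
        · exact h2
        · exact absurd ⟨_, valid_pt hp.1 hj', h1.1, h2⟩ h.2
      · exact absurd h (no_succ hp hq (Or.inl he))
    · exact absurd h (no_succ hp hq (Or.inr ht))
  · rintro ⟨j, hj, he, rfl⟩
    have := adj_pt hj
    rwa [← he] at this

end Sys

end Pool.Agent.Lib.MP_9e2528_lc.T3.C
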