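import Pool.Agent.Lib.MP_9e2528_lc.T1b

set_option autoImplicit false

/-! Copies of a block order: the blocks are read off the order. -/

namespace Pool.Agent.Lib.MP_9e2528_lc.T3.C

open Encodable Function Sys

/-- `a` lies in the tail of the block that starts at `z` -/
def InT (e z a : ℕ) : Prop := ∃ m u, Chain e z m u ∧ ltI e u a ∧
  ¬ ∃ c d, Adj e c d ∧ leI e u c ∧ leI e c a

@[fun_prop] theorem inT_sig {n : ℕ} {α : Type} [Primcodable α] {e a b : α → ℕ} (he : Computable e)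
    (ha : Computable a) (hb : Computable b) : Sig (n + 3) fun x => InT (e x) (a x) (b x) := by
  have h1 : Sig (n + 2) fun x : (α × ℕ) × ℕ =>
      ∃ c d, Adj (e x.1.1) c d ∧ leI (e x.1.1) x.2 c ∧ leI (e x.1.1) c (b x.1.1) := by fun_prop
  exact Sig.ex (Sig.ex (Sig.and (by fun_prop) (Sig.and (by fun_prop) h1.not_succ)))

variable {B K : Type} [LinearOrder K]

/-- a copy of the block order -/
structure Pr (S : Sys B K) (e : ℕ) (adr : ℕ → B × List ℕ) : Prop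
    extends Cp S.D (lexk S.kb) (fun a => leI e a a) e adr where
  dom : ∀ a b, leI e a b → leI e a a ∧ leI e b b

variable {S : Sys B K} {e : ℕ} {adr : ℕ → B × List ℕ}

theorem Pr.ltI_iff (P : Pr S e adr) {a b : ℕ} :
    ltI e a b ↔ leI e a a ∧ leI e b b ∧ lexk S.kb (adr a) < lexk S.kb (adr b) :=
  ⟨fun h => ⟨(P.dom _ _ h.1).1, (P.dom _ _ h.1).2,
    (P.ord _ _ (P.dom _ _ h.1).1 (P.dom _ _ h.1).2).1 h⟩, fun h => (P.ord _ _ h.1 h.2.1).2 h.2.2⟩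

theorem Pr.leI_iff (P : Pr S e adr) {a b : ℕ} :
    leI e a b ↔ leI e a a ∧ leI e b b ∧ lexk S.kb (adr a) ≤ lexk S.kb (adr b) := by
  refine ⟨fun h => ⟨(P.dom _ _ h).1, (P.dom _ _ h).2, ?_⟩, fun ⟨ha, hb, h⟩ => ?_⟩
  · by_cases he : a = b
    · rw [he]
    · exact (P.ltI_iff.1 ⟨h, he⟩).2.2.le
  · rcases h.lt_or_eq with h | h
    · exact (P.ltI_iff.2 ⟨ha, hb, h⟩).1
    · exact P.inj _ _ ha hb (lexk_inj S.inj h) ▸ ha

theorem Pr.adj_iff (P : Pr S e adr) {a b : ℕ} : Adj e a b ↔ leI e a a ∧ leI e b b ∧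
    ∃ x j, j < S.ex x ∧ adr a = S.pt x j ∧ adr b = S.pt x (j + 1) := by
  constructor
  · rintro ⟨h1, h2⟩
    obtain ⟨ha, hb, h3⟩ := P.ltI_iff.1 h1
    refine ⟨ha, hb, _, (Sys.adj_iff (P.val _ ha) (P.val _ hb)).1 ⟨h3, ?_⟩⟩
    rintro ⟨c, hc, h4, h5⟩
    obtain ⟨z, hz, rfl⟩ := P.sur c hc
    exact h2 ⟨z, P.ltI_iff.2 ⟨ha, hz, h4⟩, P.ltI_iff.2 ⟨hz, hb, h5⟩⟩
  · rintro ⟨ha, hb, x, j, hj, h3, h4⟩
    have h1 := Sys.adj_pt hj
    rw [← h3, ← h4] at h1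
    refine ⟨P.ltI_iff.2 ⟨ha, hb, h1.1⟩, ?_⟩
    rintro ⟨z, h4, h5⟩
    exact h1.2 ⟨adr z, P.val _ (P.ltI_iff.1 h5).1, (P.ltI_iff.1 h4).2.2, (P.ltI_iff.1 h5).2.2⟩

theorem Pr.vb (P : Pr S e adr) {a j : ℕ} {x : B} (ha : leI e a a) (he : adr a = S.pt x j) :
    S.VB x := (he ▸ P.val a ha : S.D (S.pt x j)).1

theorem Pr.chain_iff (P : Pr S e adr) {a m b j : ℕ} {x : B} (ha : leI e a a)
    (hj : j ≤ S.ex x) (he : adr a = S.pt x j) :
    Chain e a m b ↔ leI e b b ∧ j + m ≤ S.ex x ∧ adr b = S.pt x (j + m) := by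
  constructor
  · rintro ⟨l, ⟨h1, h2⟩, h3⟩
    have : ∀ i ≤ m, leI e (l[i]?.getD 0) (l[i]?.getD 0) ∧ j + i ≤ S.ex x ∧
        adr (l[i]?.getD 0) = S.pt x (j + i) := by
      intro i
      induction i with
      | zero => exact fun _ => h1.symm ▸ ⟨ha, hj, he⟩
      | succ i ih =>
        intro hi
        obtain ⟨-, h4, h5⟩ := ih (by omega)
        obtain ⟨-, h6, y, k, hk, h7, h8⟩ := P.adj_iff.1 (h3 i (List.mem_range.2 hi))
        obtain ⟨rfl, rfl⟩ := Sys.pt_inj h4 hk.le (h5.symm.trans h7)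
        exact ⟨h6, hk, h8⟩
    exact h2 ▸ this m le_rfl
  · rintro ⟨hb, h1, h2⟩
    have : ∀ i, ∃ c, i ≤ m → leI e c c ∧ adr c = S.pt x (j + i) := by
      intro i
      by_cases hi : i ≤ m
      · obtain ⟨c, hc⟩ := P.sur _ (valid_pt (P.vb ha he) (j := j + i) (by omega))
        exact ⟨c, fun _ => hc⟩
      · exact ⟨0, fun h => absurd h hi⟩
    choose c hc using this
    refine ⟨seg c (m + 1), ⟨?_, ?_⟩, fun i hi => ?_⟩
    · rw [seg_get _ (by omega)]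
      exact P.inj _ _ (hc 0 (by omega)).1 ha ((hc 0 (by omega)).2.trans he.symm)
    · rw [seg_get _ (by omega)]
      exact P.inj _ _ (hc m le_rfl).1 hb ((hc m le_rfl).2.trans h2.symm)
    · have hi' := List.mem_range.1 hi
      dsimp only
      rw [seg_get _ (by omega), seg_get _ (by omega)]
      exact P.adj_iff.2 ⟨(hc i (by omega)).1, (hc (i + 1) (by omega)).1, x, j + i, by omega,
        (hc i (by omega)).2, (hc (i + 1) (by omega)).2⟩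

theorem Pr.ex_chain (P : Pr S e adr) {a j : ℕ} {x : B} (ha : leI e a a)
    (hj : j ≤ S.ex x) (he : adr a = S.pt x j) (m : ℕ) : (∃ b, Chain e a m b) ↔ j + m ≤ S.ex x := by
  simp only [P.chain_iff ha hj he]
  refine ⟨fun ⟨_, h⟩ => h.2.1, fun h => ?_⟩
  obtain ⟨b, hb⟩ := P.sur _ (valid_pt (P.vb ha he) h)
  exact ⟨b, hb.1, h, hb.2⟩

theorem Pr.pred_iff (P : Pr S e adr) {a : ℕ} : (∃ z, Adj e z a) ↔ leI e a a ∧
    ∃ x j, j < S.ex x ∧ adr a = S.pt x (j + 1) := by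
  constructor
  · rintro ⟨z, hz⟩
    obtain ⟨-, h1, x, j, hj, -, h2⟩ := P.adj_iff.1 hz
    exact ⟨h1, x, j, hj, h2⟩
  · rintro ⟨h1, x, j, hj, h2⟩
    obtain ⟨z, hz, hz'⟩ := P.sur _ (valid_pt (P.vb h1 h2) hj.le)
    exact ⟨z, P.adj_iff.2 ⟨hz, h1, x, j, hj, hz', h2⟩⟩

theorem Pr.succ_iff (P : Pr S e adr) {a : ℕ} : (∃ z, Adj e a z) ↔ leI e a a ∧
    ∃ x j, j < S.ex x ∧ adr a = S.pt x j := by
  constructor
  · rintro ⟨z, hz⟩
    obtain ⟨h1, -, x, j, hj, h2, -⟩ := P.adj_iff.1 hz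
    exact ⟨h1, x, j, hj, h2⟩
  · rintro ⟨h1, x, j, hj, h2⟩
    obtain ⟨z, hz, hz'⟩ := P.sur _ (valid_pt (P.vb h1 h2) hj)
    exact ⟨z, P.adj_iff.2 ⟨h1, hz, x, j, hj, h2, hz'⟩⟩

theorem Pr.isIt_iff (P : Pr S e adr) {a : ℕ} :
    IsIt e a ↔ leI e a a ∧ adr a = S.pt (adr a).1 0 := by
  constructor
  · rintro ⟨h1, h2⟩
    obtain ⟨ha, x, j, hj, he⟩ := P.succ_iff.1 h2
    cases j with
    | zero => exact ⟨ha, by rw [he]; rfl⟩
    | succ j => exact absurd (P.pred_iff.2 ⟨ha, x, j, by omega, he⟩) h1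
  · rintro ⟨ha, hx⟩
    refine ⟨fun h => ?_, P.succ_iff.2 ⟨ha, _, 0, ex_pos _, hx⟩⟩
    obtain ⟨-, y, j, hj, he⟩ := P.pred_iff.1 h
    exact absurd (Sys.pt_inj (Nat.zero_le _) hj (hx.symm.trans he)).2 (by omega)

theorem Pr.start_iff (P : Pr S e adr) {a m : ℕ} (hm : m ≠ 0) :
    Start e a m ↔ IsIt e a ∧ S.ex (adr a).1 = m := by
  constructor
  · rintro ⟨ha, h1, h2, h3⟩
    obtain ⟨m, rfl⟩ := Nat.exists_eq_succ_of_ne_zero hm
    have h4 : IsIt e a := ⟨h1, h2.elim fun _ h => chain_adj h⟩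
    have h5 := P.ex_chain ha (Nat.zero_le _) (P.isIt_iff.1 h4).2
    rw [h5] at h2 h3
    exact ⟨h4, by omega⟩
  · rintro ⟨h4, rfl⟩
    have h5 := P.ex_chain (P.isIt_iff.1 h4).1 (Nat.zero_le _) (P.isIt_iff.1 h4).2
    exact ⟨(P.isIt_iff.1 h4).1, h4.1, (h5 _).2 (by omega), fun h => by have := (h5 _).1 h; omega⟩

theorem Pr.ex_start (P : Pr S e adr) {x : B} (hx : S.VB x) : ∃ z, IsIt e z ∧ (adr z).1 = x := by
  obtain ⟨z, hz, he⟩ := P.sur _ (valid_pt hx (Nat.zero_le _))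
  exact ⟨z, P.isIt_iff.2 ⟨hz, by rw [he]; rfl⟩, by rw [he]; rfl⟩

/-- the block starts present the blocks -/
theorem Pr.blocks (P : Pr S e adr) : Cp S.VB S.kb (IsIt e) e fun z => (adr z).1 where
  val := fun z hz => (P.val z (P.isIt_iff.1 hz).1).1
  sur := fun _ => P.ex_start
  inj := fun z z' hz hz' he => P.inj _ _ (P.isIt_iff.1 hz).1 (P.isIt_iff.1 hz').1 (by
    rw [(P.isIt_iff.1 hz).2, (P.isIt_iff.1 hz').2, he])
  ord := fun z z' hz hz' => by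
    rw [P.ord _ _ (P.isIt_iff.1 hz).1 (P.isIt_iff.1 hz').1, lexk_lt S.inj]
    refine or_iff_left fun h => ?_
    rw [(P.isIt_iff.1 hz).2, (P.isIt_iff.1 hz').2, h.1] at h
    exact lt_irrefl _ h.2

theorem Pr.inT_iff (P : Pr S e adr) {z a : ℕ} (hz : IsIt e z) :
    InT e z a ↔ leI e a a ∧ (adr a).1 = (adr z).1 ∧ S.Tail (adr a) := by
  obtain ⟨hz, he⟩ := P.isIt_iff.1 hz
  simp only [InT, P.chain_iff hz (Nat.zero_le _) he, zero_add]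
  constructor
  · rintro ⟨m, u, ⟨hu, hm, hu'⟩, h1, h2⟩
    obtain ⟨-, ha, h3⟩ := P.ltI_iff.1 h1
    have h4 : ∀ x j, j < S.ex x → S.VB x → lexk S.kb (adr u) ≤ lexk S.kb (S.pt x j) →
        ¬ lexk S.kb (S.pt x j) ≤ lexk S.kb (adr a) := by
      intro x j hj hx h5 h6
      obtain ⟨c, hc, hc'⟩ := P.sur _ (valid_pt hx hj.le)
      obtain ⟨d, hd⟩ := P.succ_iff.2 ⟨hc, x, j, hj, hc'⟩
      exact h2 ⟨c, d, hd, P.leI_iff.2 ⟨hu, hc, hc' ▸ h5⟩, P.leI_iff.2 ⟨hc, ha, hc' ▸ h6⟩⟩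
    have h5 : (adr a).1 = (adr z).1 := by
      by_contra hc
      refine h4 _ 0 (ex_pos _) (P.val a ha).1 (lexk_fst ?_).le (pt_zero_le (P.val a ha))
      rw [hu'] at h3 ⊢
      exact (lexk_le h3.le).lt_of_ne fun h => hc (S.inj h).symm
    refine ⟨ha, h5, (Sys.classify (P.val a ha)).resolve_left ?_⟩
    rintro ⟨j, hj, h6⟩
    rw [h5] at hj h6
    rw [hu', h6] at h3
    have h7 := (pt_lt_iff hm hj).1 h3
    exact h4 _ m (by omega) (P.val z hz).1 (by rw [hu']) (h6 ▸ h3.le)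
  · rintro ⟨ha, h1, h2⟩
    obtain ⟨u, hu, hu'⟩ := P.sur _ (valid_pt (P.val z hz).1 le_rfl)
    refine ⟨_, u, ⟨hu, le_rfl, hu'⟩, P.ltI_iff.2 ⟨hu, ha, ?_⟩, ?_⟩
    · rw [hu', ← h1]
      exact pt_lt_tail le_rfl h2
    · rintro ⟨c, d, h3, h4, h5⟩
      obtain ⟨-, x, j, hj, h6⟩ := P.succ_iff.1 ⟨d, h3⟩
      have h7 := (P.leI_iff.1 h4).2.2
      have h8 := (P.leI_iff.1 h5).2.2
      rw [hu', h6] at h7
      rw [h6] at h8
      obtain rfl : x = (adr z).1 := fst_eq h7 h8 h1.symm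
      exact absurd ((pt_lt_iff hj.le le_rfl).2 hj) (not_lt.2 h7)

/-- an isomorphism of the blocks that keeps the lengths of the runs extends to the copies -/
theorem layer0 {S' : Sys B K} {e' : ℕ} {adr' : ℕ → B × List ℕ} (P : Pr S e adr)
    (P' : Pr S' e' adr') {G : ℕ × ℕ → Prop} (h : NIso (IsIt e) (IsIt e') e e' G)
    (hx : ∀ z z', G (z, z') → S.ex (adr z).1 = S'.ex (adr' z').1) :
    (∃ J, IsoI e e' J) ∧ ∀ n, Sig (n + 3) G →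
      ∃ J, IsoI e e' J ∧ Sig (n + 3) fun p : ℕ × ℕ => leI e p.1 p.1 ∧ J p.1 = p.2 := by
  have hA := P.blocks.aiso P'.blocks h
  have hx' : ∀ b b', (∃ z z', G (z, z') ∧ (adr z).1 = b ∧ (adr' z').1 = b') → S.ex b = S'.ex b' := by
    rintro _ _ ⟨z, z', h1, rfl, rfl⟩
    exact hx z z' h1
  have hL := loc_lex S.inj S'.inj hA (Df := fun b => okw (S.base b) (S.fire b))
    (F := fun b b' => FB (S.base b) (S'.base b') (S.fire b) (S'.fire b'))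
    fun b b' h1 => loc_block (S.zero b) (S'.zero b') (hx' b b' h1)
  have hL' := loc_lex S'.inj S.inj hA.symm (Df := fun b => okw (S'.base b) (S'.fire b))
    (F := fun b' b v w => FB (S.base b) (S'.base b') (S.fire b) (S'.fire b') w v)
    fun b' b h1 => loc_congr (loc_block (S'.zero b') (S.zero b) (hx' b b' h1).symm)
      fun _ _ => ⟨FB.symm, FB.symm⟩
  obtain ⟨⟨G2, h1, -⟩, h2⟩ := lift_iso P.toCp P'.toCp (lexk_inj S.inj) (lexk_inj S'.inj) hL hL'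
    fun p q h1 => ⟨⟨(hA.dom _ _ h1.1).1, (okw_iff (S.zero _)).2
      (h1.2.imp (fun ⟨j, h, _, h', _⟩ => ⟨j, h, h'⟩) And.left)⟩, (hA.dom _ _ h1.1).2,
      (okw_iff (S'.zero _)).2 (h1.2.imp (fun ⟨j, _, h, _, h'⟩ => ⟨j, h, h'⟩) And.right)⟩
  have h3 := fun G => fun_of_niso (G := G) P.toCp P'.toCp (lexk_inj S.inj) (lexk_inj S'.inj)
  refine ⟨(h3 _ h1).imp fun _ h => h.1, fun n hG => ?_⟩
  have h4 : Sig (n + 3) fun p : ℕ × ℕ => ∃ z z', G (z, z') ∧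
      ((∃ j, Chain e z j p.1 ∧ Chain e' z' j p.2) ∨ (InT e z p.1 ∧ InT e' z' p.2)) := by fun_prop
  refine (h2 n (by fun_prop) (by fun_prop) (h4.of_eq ?_)).elim fun G3 h5 => (h3 _ h5.1.1).imp
    fun J h7 => ⟨h7.1, h5.2.of_eq fun p => (h7.2 p.1 p.2).symm⟩
  rintro ⟨a, a'⟩
  have key : ∀ z z', G (z, z') →
      (((∃ j, Chain e z j a ∧ Chain e' z' j a') ∨ (InT e z a ∧ InT e' z' a')) ↔
        leI e a a ∧ leI e' a' a' ∧ (adr z).1 = (adr a).1 ∧ (adr' z').1 = (adr' a').1 ∧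
          FB (S.base (adr a).1) (S'.base (adr' a').1) (S.fire (adr a).1) (S'.fire (adr' a').1)
            (adr a).2 (adr' a').2) := by
    intro z z' hz
    obtain ⟨h5, h6⟩ := h.hd _ _ hz
    simp only [P.inT_iff h5, P'.inT_iff h6,
      P.chain_iff (P.isIt_iff.1 h5).1 (Nat.zero_le _) (P.isIt_iff.1 h5).2,
      P'.chain_iff (P'.isIt_iff.1 h6).1 (Nat.zero_le _) (P'.isIt_iff.1 h6).2, zero_add]
    constructor
    · rintro (⟨j, ⟨ha, hj, he⟩, ha', hj', he'⟩ | ⟨⟨ha, he, ht⟩, ha', he', ht'⟩)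
      · rw [he, he']
        exact ⟨ha, ha', rfl, rfl, Or.inl ⟨j, hj, hj', rfl, rfl⟩⟩
      · exact ⟨ha, ha', he.symm, he'.symm, Or.inr ⟨ht, ht'⟩⟩
    · rintro ⟨ha, ha', he, he', ⟨j, hj, hj', h7, h8⟩ | ⟨ht, ht'⟩⟩
      · rw [he, he']
        exact Or.inl ⟨j, ⟨ha, hj, Prod.ext rfl h7⟩, ha', hj', Prod.ext rfl h8⟩
      · exact Or.inr ⟨⟨ha, he.symm, ht⟩, ha', he'.symm, ht'⟩
  constructor
  · rintro ⟨z, z', hz, h5⟩
    obtain ⟨ha, ha', he, he', h6⟩ := (key z z' hz).1 h5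
    exact ⟨ha, ha', ⟨z, z', hz, he, he'⟩, h6⟩
  · rintro ⟨ha, ha', ⟨z, z', hz, he, he'⟩, h6⟩
    exact ⟨z, z', hz, (key z z' hz).2 ⟨ha, ha', he, he', h6⟩⟩

end Pool.Agent.Lib.MP_9e2528_lc.T3.C
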