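import Pool.Agent.Lib.MP_9e2528_lc.T1c

set_option autoImplicit false

/-! The block order that codes a labelled order. -/

namespace Pool.Agent.Lib.MP_9e2528_lc.T3.C

open Encodable Function Sys

def okv (v : List ℕ) : Prop := ¬ v = [] ∧ (v.drop 1 = [] ∨ ¬ lastw (v.drop 1) = 0)

def bs (v : List ℕ) : ℕ := if v.drop 1 = [] then (if v = [0] then 4 else 3) else 1

theorem okv_iff {v : List ℕ} : okv v ↔ (∃ l, v = [l]) ∨ ∃ l u, v = l :: u ∧ lastw u ≠ 0 := by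
  cases v with
  | nil => simp [okv]
  | cons l u => simp [okv]

theorem nil_lt_of {u : List ℕ} (h : lastw u ≠ 0) : [] < u := by
  cases u with
  | nil => simp at h
  | cons a u => exact List.nil_lt_cons _ _

theorem single_lt {l m : ℕ} {u : List ℕ} (h : lastw u ≠ 0) : [l] < m :: u ↔ l ≤ m := by
  simp [List.cons_lt_cons_iff, nil_lt_of h, le_iff_lt_or_eq]

theorem lt_single {l m : ℕ} {u : List ℕ} : m :: u < [l] ↔ m < l := by
  simp [List.cons_lt_cons_iff]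

/-- matching blocks over matching heads -/
def FH (X X' : List ℕ → ℕ) (v v' : List ℕ) : Prop := (∃ l, v = [l] ∧ v' = [l]) ∨
  ∃ l u u', v = l :: u ∧ v' = l :: u' ∧ lastw u ≠ 0 ∧ lastw u' ≠ 0 ∧ X v = X' v'

theorem FH.symm {X X' : List ℕ → ℕ} {v v' : List ℕ} (h : FH X X' v v') : FH X' X v' v :=
  h.imp (fun ⟨l, h1, h2⟩ => ⟨l, h2, h1⟩)
    fun ⟨l, u, u', h1, h2, h3, h4, h5⟩ => ⟨l, u', u, h2, h1, h4, h3, h5.symm⟩

theorem loc_head {X X' : List ℕ → ℕ}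
    (tr : ∀ l u, lastw u ≠ 0 → ∃ c ≠ 0, ∀ u', X (l :: u) = X' (l :: (u' ++ [c]))) :
    Loc okv (fun w => w) (fun w => w) (FH X X') := by
  intro v hv
  rcases okv_iff.1 hv with ⟨l, rfl⟩ | ⟨l, u, rfl, hu⟩
  · refine Or.inl ⟨[l], Or.inl ⟨l, rfl, rfl⟩, ?_⟩
    rintro _ _ (⟨m, rfl, rfl⟩ | ⟨m, w, w', rfl, rfl, h1, h2, -⟩)
    · exact ⟨Iff.rfl, Iff.rfl⟩
    · simp only [single_lt h1, single_lt h2, lt_single, and_self]
  obtain ⟨c, hc, hX⟩ := tr l u hu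
  have hm : ∀ u', FH X X' (l :: u) (l :: (u' ++ [c])) := fun u' =>
    Or.inr ⟨l, u, _, rfl, rfl, hu, by simpa using hc, hX u'⟩
  refine Or.inr ⟨fun w => ∃ u', w = l :: u' ∧ lastw u' ≠ 0, ?_, ⟨_, hm []⟩, ?_, ?_, ?_, ?_⟩
  · rintro _ (⟨m, h1, rfl⟩ | ⟨m, w, w', h1, rfl, -, h2, -⟩)
    · obtain ⟨-, rfl⟩ := List.cons.inj h1
      simp at hu
    · exact ⟨w', by rw [(List.cons.inj h1).1], h2⟩
  · rintro _ ⟨y, rfl, hy⟩
    exact ⟨_, hm (List.replicate y.length 0),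
      List.cons_lt_cons_iff.2 (Or.inr ⟨rfl, rep_lt_dn hy (lz_lt_length hy) _⟩)⟩
  · rintro _ ⟨y, rfl, -⟩
    exact ⟨_, hm y, lt_app_cons (l :: y) _ _⟩
  · rintro _ _ ⟨x, rfl, -⟩ ⟨y, rfl, hy⟩ h
    have h1 : x < y := by simpa [List.cons_lt_cons_iff] using h
    refine ⟨_, hm (x ++ List.replicate y.length 0), ?_, ?_⟩ <;> rw [List.append_assoc]
    · exact lt_app_snoc (l :: x) _ _
    · exact List.cons_lt_cons_iff.2 (Or.inr ⟨rfl, app_rep_lt h1 hy _⟩)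
  · rintro _ _ (⟨m, rfl, rfl⟩ | ⟨m, w, w', rfl, rfl, h1, h2, -⟩)
    · rcases le_or_gt m l with h | h
      · exact Or.inr (Or.inl ⟨(single_lt hu).2 h, fun _ ⟨_, h3, h4⟩ => h3 ▸ (single_lt h4).2 h⟩)
      · exact Or.inr (Or.inr ⟨lt_single.2 h, fun _ ⟨_, h3, _⟩ => h3 ▸ lt_single.2 h⟩)
    · rcases lt_trichotomy m l with h | rfl | h
      · exact Or.inr (Or.inl ⟨fork_lt [] h _ _, fun _ ⟨_, h3, _⟩ => h3 ▸ fork_lt [] h _ _⟩)
      · exact Or.inl ⟨w', rfl, h2⟩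
      · exact Or.inr (Or.inr ⟨fork_lt [] h _ _, fun _ ⟨_, h3, _⟩ => h3 ▸ fork_lt [] h _ _⟩)

/-- a labelled order: keys, domain, and a test for the labels -/
structure Dat (A K : Type) where
  k : A → K
  inj : Injective k
  V : A → Prop
  Φ : A → ℕ → ℕ → ℕ → Prop

def fr {A : Type} (Φ : A → ℕ → ℕ → ℕ → Prop) (b : A × List ℕ) (t : ℕ) : Prop :=
  b.2.drop 1 = [] ∨ t = 0 ∨ (2 ≤ lastw b.2 ∧ Φ b.1 (b.2[0]?.getD 0) (lastw b.2 - 2) t)

namespace Dat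

variable {A K : Type} (T : Dat A K)

def sys : Sys (A × List ℕ) (K ×ₗ List ℕ) where
  kb := lexk T.k
  VB b := T.V b.1 ∧ okv b.2
  base b := bs b.2
  fire := fr T.Φ
  inj := lexk_inj T.inj
  pos b := by
    unfold bs
    split_ifs <;> omega
  zero _ := Or.inr (Or.inl rfl)

def Lab (y : A) (l : ℕ) : Prop := ∃ w, Unb (T.Φ y l w)

/-- the last point of the block `[l]` with three successors -/
noncomputable def bg (y : A) (l : ℕ) : (A × List ℕ) × List ℕ :=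
  T.sys.pt (y, [l]) (if l = 0 then 1 else 0)

def BigA (p : (A × List ℕ) × List ℕ) : Prop := ∃ j, j + 3 ≤ T.sys.ex p.1 ∧ p = T.sys.pt p.1 j

variable {T}

theorem ex_single (y : A) (l : ℕ) : T.sys.ex (y, [l]) = (if l = 0 then 1 else 0) + 3 := by
  have : Unb (fr T.Φ (y, [l])) := fun t => ⟨t, le_rfl, Or.inl rfl⟩
  simp only [Sys.ex, sys, xt, if_pos this, bs]
  split_ifs <;> simp_all

theorem ex_slot (y : A) (l : ℕ) {u : List ℕ} (hu : lastw u ≠ 0) :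
    (T.sys.ex (y, l :: u) = 1 ∧ 2 ≤ lastw u ∧ Unb (T.Φ y l (lastw u - 2))) ∨
      (T.sys.ex (y, l :: u) = 2 ∧ ¬ (2 ≤ lastw u ∧ Unb (T.Φ y l (lastw u - 2)))) := by
  have h0 : u ≠ [] := (nil_lt_of hu).ne'
  have h1 : ∀ t, fr T.Φ (y, l :: u) t ↔ t = 0 ∨ (2 ≤ lastw u ∧ T.Φ y l (lastw u - 2) t) := by
    simp [fr, h0, lastw_cons hu]
  by_cases h : Unb (fr T.Φ (y, l :: u))
  · refine Or.inl ⟨by simp [Sys.ex, sys, xt, h, bs, h0], ?_, fun t => ?_⟩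
    · obtain ⟨t, ht, h2⟩ := h 1
      exact (((h1 t).1 h2).resolve_left (by omega)).1
    · obtain ⟨t', ht, h2⟩ := h (t + 1)
      exact ⟨t', by omega, (((h1 t').1 h2).resolve_left (by omega)).2⟩
  · refine Or.inr ⟨by simp [Sys.ex, sys, xt, h, bs, h0], fun h2 => h fun t => ?_⟩
    obtain ⟨t', ht, h3⟩ := h2.2 t
    exact ⟨t', ht, (h1 t').2 (Or.inr ⟨h2.1, h3⟩)⟩

theorem ex_mk (y : A) (l : ℕ) (u : List ℕ) {w : ℕ} (h : Unb (T.Φ y l w)) :
    T.sys.ex (y, l :: (u ++ [w + 2])) = 1 :=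
  ((ex_slot y l (by simp)).resolve_right fun h1 => h1.2 (by simpa using h)).1

theorem transfer {A' K' : Type} {T' : Dat A' K'} {y : A} {y' : A'}
    (h : ∀ l, T.Lab y l → T'.Lab y' l) (l : ℕ) (u : List ℕ) (hu : lastw u ≠ 0) :
    ∃ c ≠ 0, ∀ u', T.sys.ex (y, l :: u) = T'.sys.ex (y', l :: (u' ++ [c])) := by
  rcases ex_slot (T := T) y l hu with h1 | h1
  · obtain ⟨w, hw⟩ := h l ⟨_, h1.2.2⟩
    exact ⟨w + 2, by omega, fun u' => h1.1.trans (ex_mk y' l u' hw).symm⟩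
  · exact ⟨1, one_ne_zero, fun u' => h1.1.trans
      ((ex_slot y' l (by simp)).resolve_left fun h2 => by simpa using h2.2.1).1.symm⟩

theorem vb_single {y : A} (hy : T.V y) (l : ℕ) : T.sys.VB (y, [l]) :=
  ⟨hy, okv_iff.2 (Or.inl ⟨l, rfl⟩)⟩

theorem le_ex (y : A) (l : ℕ) : (if l = 0 then 1 else 0) ≤ T.sys.ex (y, [l]) := by
  rw [ex_single]
  omega

theorem valid_bg {y : A} (hy : T.V y) (l : ℕ) : T.sys.D (T.bg y l) :=
  valid_pt (vb_single hy l) (le_ex y l)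

theorem big_bg (y : A) (l : ℕ) : T.BigA (T.bg y l) := ⟨_, (ex_single y l).ge, rfl⟩

theorem single_of {b : A × List ℕ} (hb : T.sys.VB b) (h : 3 ≤ T.sys.ex b) :
    ∃ l, b = (b.1, [l]) := by
  obtain ⟨y, v⟩ := b
  rcases okv_iff.1 hb.2 with ⟨l, h1⟩ | ⟨l, u, h1, hu⟩
  · exact ⟨l, Prod.ext rfl h1⟩
  · obtain rfl : v = l :: u := h1
    rcases ex_slot (T := T) y l hu with h1 | h1 <;> omega

variable [LinearOrder K]

theorem bg_lt (y : A) (l : ℕ) : lexk T.sys.kb (T.bg y l) < lexk T.sys.kb (T.bg y (l + 1)) :=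
  lexk_fst ((lexk_same y).2 (lt_single.2 (Nat.lt_succ_self l)))

theorem blk_between {p : (A × List ℕ) × List ℕ} {y : A} {l : ℕ}
    (h1 : lexk T.sys.kb (T.bg y l) < lexk T.sys.kb p)
    (h2 : lexk T.sys.kb p < lexk T.sys.kb (T.bg y (l + 1))) :
    p.1.1 = y ∧ ¬ p.1.2 < [l] ∧ ¬ [l + 1] < p.1.2 := by
  have h3 : lexk T.k (y, [l]) ≤ lexk T.k p.1 := lexk_le h1.le
  have h4 : lexk T.k p.1 ≤ lexk T.k (y, [l + 1]) := lexk_le h2.le
  obtain rfl : p.1.1 = y := T.inj (le_antisymm (lexk_le h4) (lexk_le h3))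
  exact ⟨rfl, fun h => not_lt.2 h3 ((lexk_same _).2 h), fun h => not_lt.2 h4 ((lexk_same _).2 h)⟩

theorem single_between {y y' : A} {l m j : ℕ} (hj : j ≤ if m = 0 then 1 else 0)
    (h1 : lexk T.sys.kb (T.bg y l) < lexk T.sys.kb (T.sys.pt (y', [m]) j))
    (h2 : lexk T.sys.kb (T.sys.pt (y', [m]) j) < lexk T.sys.kb (T.bg y (l + 1))) : False := by
  obtain ⟨rfl, h3, h4⟩ := blk_between h1 h2
  simp only [pt_fst, lt_single] at h3 h4
  obtain rfl | rfl : m = l ∨ m = l + 1 := by omega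
  · exact absurd ((pt_lt_iff (le_ex _ _) (hj.trans (le_ex _ _))).1 h1) (not_lt.2 hj)
  · simpa using (pt_lt_iff (hj.trans (le_ex _ _)) (le_ex _ _)).1 h2

theorem big_between {p : (A × List ℕ) × List ℕ} (hp : T.sys.D p) (hb : T.BigA p) {y : A} {l : ℕ}
    (h1 : lexk T.sys.kb (T.bg y l) < lexk T.sys.kb p)
    (h2 : lexk T.sys.kb p < lexk T.sys.kb (T.bg y (l + 1))) : False := by
  obtain ⟨j, hj, he⟩ := hb
  obtain ⟨m, hm⟩ := single_of hp.1 (by omega)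
  rw [hm, ex_single] at hj
  rw [he, hm] at h1 h2
  exact single_between (by omega) h1 h2

theorem between_iff {b : A × List ℕ} (hb : T.sys.VB b) {y : A} {l : ℕ} :
    (lexk T.sys.kb (T.bg y l) < lexk T.sys.kb (T.sys.pt b 0) ∧
      lexk T.sys.kb (T.sys.pt b 0) < lexk T.sys.kb (T.bg y (l + 1))) ↔
      ∃ u, b = (y, l :: u) ∧ lastw u ≠ 0 := by
  constructor
  · rintro ⟨h1, h2⟩
    obtain ⟨y', v⟩ := b
    rcases okv_iff.1 hb.2 with ⟨m, h3⟩ | ⟨m, u, h3, hu⟩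
    · obtain rfl : v = [m] := h3
      exact (single_between (Nat.zero_le _) h1 h2).elim
    · obtain rfl : v = m :: u := h3
      obtain ⟨rfl, h3, h4⟩ := blk_between h1 h2
      simp only [pt_fst, lt_single, single_lt hu] at h3 h4
      obtain rfl : m = l := by omega
      exact ⟨u, rfl, hu⟩
  · rintro ⟨u, rfl, hu⟩
    exact ⟨lexk_fst ((lexk_same y).2 ((single_lt hu).2 le_rfl)),
      lexk_fst ((lexk_same y).2 (lt_single.2 (Nat.lt_succ_self l)))⟩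

end Dat

end Pool.Agent.Lib.MP_9e2528_lc.T3.C
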