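import Pool.Agent.Lib.MP_9e2528_lc.T1d

set_option autoImplicit false

/-! Heads, separators and slots are read off a copy of the coding order. -/

namespace Pool.Agent.Lib.MP_9e2528_lc.T3.C

open Encodable Function Sys Dat

def Big (e c : ℕ) : Prop := ∃ d, Chain e c 3 d
def NxB (e c d : ℕ) : Prop := ltI e c d ∧ Big e d ∧ ¬ ∃ z, ltI e c z ∧ ltI e z d ∧ Big e z
def PosL (e a m : ℕ) (L : List ℕ) : Prop := Adj e a (L[0]?.getD 0) ∧
  Ball (List.range m) fun j => NxB e (L[j]?.getD 0) (L[j + 1]?.getD 0)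
def SlotL (e a l : ℕ) (L : List ℕ) (z : ℕ) : Prop :=
  PosL e a (l + 1) L ∧ ltI e (L[l]?.getD 0) z ∧ ltI e z (L[l + 1]?.getD 0)
def Slot (e a l z : ℕ) : Prop := ∃ L, SlotL e a l L z
def SepP (e a l z : ℕ) : Prop := ∃ L, PosL e a (l + 1) L ∧ z = L[l + 1]?.getD 0
def ShC (e a l s : ℕ) : Prop :=
  l < s ∧ BEx s fun q : List ℕ × ℕ => SlotL e a l q.1 q.2 ∧ Start e q.2 1

section
variable {n : ℕ} {α : Type} [Primcodable α] {e a b m : α → ℕ} {L : α → List ℕ}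

@[fun_prop] theorem big_sig (he : Computable e) (ha : Computable a) :
    Sig (n + 2) fun x => Big (e x) (a x) := by unfold Big; fun_prop

@[fun_prop] theorem nxB_del (he : Computable e) (ha : Computable a) (hb : Computable b) :
    Del (n + 3) fun x => NxB (e x) (a x) (b x) := by
  have h1 : Sig (n + 2) fun x => ∃ z, ltI (e x) (a x) z ∧ ltI (e x) z (b x) ∧ Big (e x) z := by
    fun_prop
  exact Del.and (by fun_prop) ((big_sig he hb).del.and h1.del.not)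

@[fun_prop] theorem posL_del (he : Computable e) (ha : Computable a) (hm : Computable m)
    (hL : Computable L) : Del (n + 3) fun x => PosL (e x) (a x) (m x) (L x) := by
  unfold PosL; fun_prop

@[fun_prop] theorem slotL_del (he : Computable e) (ha : Computable a) (hm : Computable m)
    (hL : Computable L) (hb : Computable b) :
    Del (n + 3) fun x => SlotL (e x) (a x) (m x) (L x) (b x) := by unfold SlotL; fun_prop

@[fun_prop] theorem slot_sig (he : Computable e) (ha : Computable a) (hm : Computable m)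
    (hb : Computable b) : Sig (n + 3) fun x => Slot (e x) (a x) (m x) (b x) := by
  unfold Slot; fun_prop

@[fun_prop] theorem sepP_sig (he : Computable e) (ha : Computable a) (hm : Computable m)
    (hb : Computable b) : Sig (n + 3) fun x => SepP (e x) (a x) (m x) (b x) := by
  unfold SepP; fun_prop

theorem shC_del (he : Computable e) (ha : Computable a) (hm : Computable m)
    (hb : Computable b) : Del (n + 3) fun x => ShC (e x) (a x) (m x) (b x) := by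
  unfold ShC; fun_prop

end

variable {A K : Type} [LinearOrder K] {T : Dat A K} {e : ℕ} {adr : ℕ → (A × List ℕ) × List ℕ}

theorem Pr.big_iff (P : Pr T.sys e adr) {c : ℕ} : Big e c ↔ leI e c c ∧ T.BigA (adr c) := by
  constructor
  · rintro ⟨d, hd⟩
    obtain ⟨hc, x, j, hj, he⟩ := P.succ_iff.1 (chain_adj hd)
    refine ⟨hc, j, ?_, by rw [he]; rfl⟩
    rw [he]
    exact (P.ex_chain hc hj.le he 3).1 ⟨d, hd⟩
  · rintro ⟨hc, j, hj, he⟩
    exact (P.ex_chain hc (by omega) he 3).2 hj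

theorem Pr.nx_iff (P : Pr T.sys e adr) {c d l : ℕ} {y : A} (hc : leI e c c) (he : adr c = T.bg y l) :
    NxB e c d ↔ leI e d d ∧ adr d = T.bg y (l + 1) := by
  constructor
  · rintro ⟨h1, h2, h3⟩
    obtain ⟨hd, h4⟩ := P.big_iff.1 h2
    have h5 := (P.ltI_iff.1 h1).2.2
    rw [he] at h5
    refine ⟨hd, lexk_inj T.sys.inj (le_antisymm (not_lt.1 fun h => ?_)
      (not_lt.1 (big_between (P.val d hd) h4 h5)))⟩
    obtain ⟨z, hz, hz'⟩ := P.sur _ (valid_bg (P.vb hc he).1 (l + 1))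
    exact h3 ⟨z, P.ltI_iff.2 ⟨hc, hz, by rw [he, hz']; exact bg_lt y l⟩,
      P.ltI_iff.2 ⟨hz, hd, by rwa [hz']⟩, P.big_iff.2 ⟨hz, hz' ▸ big_bg y _⟩⟩
  · rintro ⟨hd, he'⟩
    refine ⟨P.ltI_iff.2 ⟨hc, hd, by rw [he, he']; exact bg_lt y l⟩,
      P.big_iff.2 ⟨hd, he' ▸ big_bg y _⟩, ?_⟩
    rintro ⟨z, h1, h2, h3⟩
    exact big_between (P.val z (P.big_iff.1 h3).1) (P.big_iff.1 h3).2
      (he ▸ (P.ltI_iff.1 h1).2.2) (he' ▸ (P.ltI_iff.1 h2).2.2)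

theorem Pr.hd_iff (P : Pr T.sys e adr) {a : ℕ} :
    Start e a 4 ↔ IsIt e a ∧ (adr a).1.2 = [0] := by
  rw [P.start_iff (by omega)]
  refine and_congr_right fun ha => ⟨fun h => ?_, fun h => ?_⟩
  · obtain ⟨l, hl⟩ := single_of (P.blocks.val a ha) (by omega)
    rw [hl, ex_single] at h
    rw [hl]
    split_ifs at h with h0
    · rw [h0]
    · omega
  · rw [show (adr a).1 = ((adr a).1.1, [0]) from Prod.ext rfl h, ex_single]
    rfl

theorem Pr.hd_pt (P : Pr T.sys e adr) {a : ℕ} (ha : Start e a 4) :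
    adr a = T.sys.pt ((adr a).1.1, [0]) 0 := by
  obtain ⟨h1, h2⟩ := P.hd_iff.1 ha
  rw [← h2]
  exact (P.isIt_iff.1 h1).2

/-- the heads present the labelled order -/
theorem Pr.heads (P : Pr T.sys e adr) :
    Cp T.V T.k (fun a => Start e a 4) e fun a => (adr a).1.1 where
  val := fun a ha => (P.val a ha.1).1.1
  sur := fun y hy => by
    obtain ⟨z, hz, he⟩ := P.ex_start (vb_single hy 0)
    exact ⟨z, P.hd_iff.2 ⟨hz, by rw [he]⟩, by rw [he]⟩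
  inj := fun a a' ha ha' he => P.inj _ _ ha.1 ha'.1 (by rw [P.hd_pt ha, P.hd_pt ha', he])
  ord := fun a a' ha ha' => by
    rw [P.blocks.ord _ _ (P.hd_iff.1 ha).1 (P.hd_iff.1 ha').1]
    refine (lexk_lt T.inj).trans (or_iff_left fun h => ?_)
    rw [(P.hd_iff.1 ha).2, (P.hd_iff.1 ha').2] at h
    exact lt_irrefl _ h.2

theorem Pr.posL_iff (P : Pr T.sys e adr) {a m : ℕ} {L : List ℕ} (ha : Start e a 4) :
    PosL e a m L ↔ ∀ j ≤ m, leI e (L[j]?.getD 0) (L[j]?.getD 0) ∧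
      adr (L[j]?.getD 0) = T.bg (adr a).1.1 j := by
  have h0 : ∀ c, Adj e a c ↔ leI e c c ∧ adr c = T.bg (adr a).1.1 0 := fun c => by
    rw [P.adj_iff]
    refine ⟨?_, fun h => ⟨ha.1, h.1, _, 0, ex_pos _, P.hd_pt ha, h.2⟩⟩
    rintro ⟨-, hc, x, j, hj, h1, h2⟩
    obtain ⟨rfl, rfl⟩ := Sys.pt_inj (Nat.zero_le _) hj.le ((P.hd_pt ha).symm.trans h1)
    exact ⟨hc, h2⟩
  rw [PosL, h0]
  constructor
  · rintro ⟨h1, h2⟩ j
    induction j with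
    | zero => exact fun _ => h1
    | succ j ih =>
      exact fun hj => (P.nx_iff (ih (by omega)).1 (ih (by omega)).2).1 (h2 j (List.mem_range.2 hj))
  · refine fun h => ⟨h 0 (Nat.zero_le _), fun j hj => ?_⟩
    have hj' := List.mem_range.1 hj
    exact (P.nx_iff (h j hj'.le).1 (h j hj'.le).2).2 (h (j + 1) hj')

theorem Pr.posL_ex (P : Pr T.sys e adr) {a : ℕ} (ha : Start e a 4) (m : ℕ) : ∃ L, PosL e a m L := by
  choose c hc using fun j => P.sur _ (valid_bg (P.heads.val a ha) j)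
  refine ⟨seg c (m + 1), (P.posL_iff ha).2 fun j hj => ?_⟩
  rw [seg_get _ (by omega)]
  exact hc j

theorem Pr.sep_iff (P : Pr T.sys e adr) {a l z : ℕ} (ha : Start e a 4) :
    SepP e a l z ↔ IsIt e z ∧ (adr z).1 = ((adr a).1.1, [l + 1]) := by
  rw [P.isIt_iff]
  constructor
  · rintro ⟨L, hL, rfl⟩
    obtain ⟨h1, h2⟩ := (P.posL_iff ha).1 hL (l + 1) le_rfl
    rw [h2]
    exact ⟨⟨h1, rfl⟩, rfl⟩
  · rintro ⟨⟨h1, h2⟩, h3⟩
    obtain ⟨L, hL⟩ := P.posL_ex ha (l + 1)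
    obtain ⟨h4, h5⟩ := (P.posL_iff ha).1 hL (l + 1) le_rfl
    exact ⟨L, hL, P.inj _ _ h1 h4 (by rw [h2, h3, h5]; rfl)⟩

theorem Pr.slot_iff (P : Pr T.sys e adr) {a l z : ℕ} (ha : Start e a 4) (hz : IsIt e z) :
    Slot e a l z ↔ ∃ u, (adr z).1 = ((adr a).1.1, l :: u) ∧ lastw u ≠ 0 := by
  rw [← between_iff (P.blocks.val z hz), ← (P.isIt_iff.1 hz).2]
  constructor
  · rintro ⟨L, hL, h1, h2⟩
    rw [← ((P.posL_iff ha).1 hL l (by omega)).2, ← ((P.posL_iff ha).1 hL (l + 1) le_rfl).2]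
    exact ⟨(P.ltI_iff.1 h1).2.2, (P.ltI_iff.1 h2).2.2⟩
  · rintro ⟨h1, h2⟩
    obtain ⟨L, hL⟩ := P.posL_ex ha (l + 1)
    have h3 := (P.posL_iff ha).1 hL l (by omega)
    have h4 := (P.posL_iff ha).1 hL (l + 1) le_rfl
    exact ⟨L, hL, P.ltI_iff.2 ⟨h3.1, (P.isIt_iff.1 hz).1, h3.2 ▸ h1⟩,
      P.ltI_iff.2 ⟨(P.isIt_iff.1 hz).1, h4.1, h4.2 ▸ h2⟩⟩

theorem Pr.sh_iff (P : Pr T.sys e adr) {a l : ℕ} (ha : Start e a 4) :
    (∃ s, ShC e a l s) ↔ T.Lab (adr a).1.1 l := by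
  constructor
  · rintro ⟨s, -, ⟨L, z⟩, -, h1, h2⟩
    obtain ⟨hz, h3⟩ := (P.start_iff one_ne_zero).1 h2
    obtain ⟨u, h4, hu⟩ := (P.slot_iff ha hz).1 ⟨L, h1⟩
    rw [h4] at h3
    exact ⟨_, ((ex_slot _ l hu).resolve_right fun h => by omega).2.2⟩
  · rintro ⟨w, hw⟩
    obtain ⟨z, hz, he⟩ := P.ex_start (x := ((adr a).1.1, l :: ([] ++ [w + 2])))
      ⟨P.heads.val a ha, okv_iff.2 (Or.inr ⟨l, _, rfl, by simp⟩)⟩
    obtain ⟨L, hL⟩ := (P.slot_iff ha hz).2 ⟨_, he, by simp⟩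
    exact ⟨max l (encode (L, z)) + 1, by omega, (L, z), by omega, hL,
      (P.start_iff one_ne_zero).2 ⟨hz, he ▸ ex_mk _ l [] hw⟩⟩

/-- a label preserving isomorphism of the heads extends to the blocks -/
theorem layer1 {T' : Dat A K} {e' : ℕ} {adr' : ℕ → (A × List ℕ) × List ℕ} (P : Pr T.sys e adr)
    (P' : Pr T'.sys e' adr') {G : ℕ × ℕ → Prop}
    (h : NIso (fun a => Start e a 4) (fun a => Start e' a 4) e e' G)
    (hl : ∀ a a' l, G (a, a') → (T.Lab (adr a).1.1 l ↔ T'.Lab (adr' a').1.1 l)) :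
    (∃ G1, NIso (IsIt e) (IsIt e') e e' G1 ∧
      ∀ z z', G1 (z, z') → T.sys.ex (adr z).1 = T'.sys.ex (adr' z').1) ∧ ∀ n, Sig (n + 3) G →
      ∃ G1, (NIso (IsIt e) (IsIt e') e e' G1 ∧
        ∀ z z', G1 (z, z') → T.sys.ex (adr z).1 = T'.sys.ex (adr' z').1) ∧ Sig (n + 3) G1 := by
  have hA := P.heads.aiso P'.heads h
  have hl' : ∀ y y', (∃ a a', G (a, a') ∧ (adr a).1.1 = y ∧ (adr' a').1.1 = y') →
      ∀ l, T.Lab y l ↔ T'.Lab y' l := by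
    rintro _ _ ⟨a, a', h1, rfl, rfl⟩ l
    exact hl a a' l h1
  have hL := loc_lex T.inj T'.inj hA (Df := fun _ => okv)
    (F := fun y y' => FH (fun v => T.sys.ex (y, v)) fun v => T'.sys.ex (y', v))
    fun y y' h1 => loc_head (transfer fun l => (hl' y y' h1 l).1)
  have hL' := loc_lex T'.inj T.inj hA.symm (Df := fun _ => okv)
    (F := fun y' y v w => FH (fun v => T.sys.ex (y, v)) (fun v => T'.sys.ex (y', v)) w v)
    fun y' y h1 => loc_congr (loc_head (transfer fun l => (hl' y y' h1 l).2))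
      fun _ _ => ⟨FH.symm, FH.symm⟩
  obtain ⟨h1, h2⟩ := lift_iso P.blocks P'.blocks T.sys.inj T'.sys.inj hL hL'
    fun p q h1 => ⟨⟨(hA.dom _ _ h1.1).1, okv_iff.2 (h1.2.imp (fun ⟨l, h, _⟩ => ⟨l, h⟩)
      fun ⟨l, u, _, h, _, h', _⟩ => ⟨l, u, h, h'⟩)⟩, (hA.dom _ _ h1.1).2, okv_iff.2
      (h1.2.imp (fun ⟨l, _, h⟩ => ⟨l, h⟩) fun ⟨l, _, u, _, h, _, h', _⟩ => ⟨l, u, h, h'⟩)⟩
  have h3 : ∀ (b b' : A × List ℕ), FH (fun v => T.sys.ex (b.1, v)) (fun v => T'.sys.ex (b'.1, v))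
      b.2 b'.2 → T.sys.ex b = T'.sys.ex b' := by
    rintro ⟨y, v⟩ ⟨y', v'⟩ (⟨l, rfl, rfl⟩ | ⟨l, u, u', -, -, -, -, h4⟩)
    · rw [ex_single, ex_single]
    · exact h4
  refine ⟨h1.imp fun G1 h4 => ⟨h4.1, fun z z' h5 => h3 _ _ (h4.2 z z' h5).2⟩, fun n hG => ?_⟩
  have h4 : Sig (n + 3) fun p : ℕ × ℕ => ∃ a a', G (a, a') ∧ ((p.1 = a ∧ p.2 = a') ∨
      (∃ l, SepP e a l p.1 ∧ SepP e' a' l p.2) ∨ ∃ l m, ¬ m = 0 ∧ Start e p.1 m ∧ Start e' p.2 m ∧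
        Slot e a l p.1 ∧ Slot e' a' l p.2) := by fun_prop
  refine (h2 n (by fun_prop) (by fun_prop) (h4.of_eq ?_)).imp fun G1 h5 =>
    ⟨⟨h5.1.1, fun z z' h6 => h3 _ _ (h5.1.2 z z' h6).2⟩, h5.2⟩
  rintro ⟨z, z'⟩
  constructor
  · rintro ⟨a, a', hG, h5⟩
    obtain ⟨ha, ha'⟩ := h.hd _ _ hG
    rcases h5 with ⟨rfl, rfl⟩ | ⟨l, h5, h6⟩ | ⟨l, m, hm, h5, h6, h7, h8⟩
    · exact ⟨(P.hd_iff.1 ha).1, (P'.hd_iff.1 ha').1, ⟨_, _, hG, rfl, rfl⟩,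
        Or.inl ⟨0, (P.hd_iff.1 ha).2, (P'.hd_iff.1 ha').2⟩⟩
    · obtain ⟨hz, he⟩ := (P.sep_iff ha).1 h5
      obtain ⟨hz', he'⟩ := (P'.sep_iff ha').1 h6
      exact ⟨hz, hz', ⟨a, a', hG, by rw [he], by rw [he']⟩,
        Or.inl ⟨l + 1, by rw [he], by rw [he']⟩⟩
    · obtain ⟨hz, hx⟩ := (P.start_iff hm).1 h5
      obtain ⟨hz', hx'⟩ := (P'.start_iff hm).1 h6
      obtain ⟨u, he, hu⟩ := (P.slot_iff ha hz).1 h7
      obtain ⟨u', he', hu'⟩ := (P'.slot_iff ha' hz').1 h8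
      exact ⟨hz, hz', ⟨a, a', hG, by rw [he], by rw [he']⟩,
        Or.inr ⟨l, u, u', by rw [he], by rw [he'], hu, hu', hx.trans hx'.symm⟩⟩
  · rintro ⟨hz, hz', ⟨a, a', hG, he, he'⟩, h5⟩
    obtain ⟨ha, ha'⟩ := h.hd _ _ hG
    refine ⟨a, a', hG, ?_⟩
    rcases h5 with ⟨_ | l, h5, h6⟩ | ⟨l, u, u', h5, h6, hu, hu', h7⟩
    · exact Or.inl ⟨P.heads.inj _ _ (P.hd_iff.2 ⟨hz, h5⟩) ha he.symm,
        P'.heads.inj _ _ (P'.hd_iff.2 ⟨hz', h6⟩) ha' he'.symm⟩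
    · exact Or.inr (Or.inl ⟨l, (P.sep_iff ha).2 ⟨hz, Prod.ext he.symm h5⟩,
        (P'.sep_iff ha').2 ⟨hz', Prod.ext he'.symm h6⟩⟩)
    · exact Or.inr (Or.inr ⟨l, _, (ex_pos _).ne', (P.start_iff (ex_pos _).ne').2 ⟨hz, rfl⟩,
        (P'.start_iff (ex_pos _).ne').2 ⟨hz', h7.symm⟩,
        (P.slot_iff ha hz).2 ⟨u, Prod.ext he.symm h5, hu⟩,
        (P'.slot_iff ha' hz').2 ⟨u', Prod.ext he'.symm h6, hu'⟩⟩)

end Pool.Agent.Lib.MP_9e2528_lc.T3.C
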