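import Pool.Agent.Lib.MP_9e2528_lc.T0

set_option autoImplicit false

/-! The skeleton: moves, addresses and their order. -/

namespace Pool.Agent.Lib.MP_9e2528_lc.T3

open Encodable

/-- level, side, path, action (0, 2, 4 markers, 1 child box, 3 core) -/
abbrev Mv := ℕ × Bool × List ℕ × ℕ
abbrev Adr := List Mv

/-- signed number -/
def sg (s : Bool) (n : ℕ) : ℤ := if s = true then -(n : ℤ) else n

def pk (s : Bool) (ρ : List ℕ) (a : ℕ) : List ℤ :=
  ρ.foldr (fun o l => 0 :: sg s o :: l) [sg s 1, sg false a]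

def kv (μ : Mv) : List ℤ := sg (!μ.2.1) 1 :: sg μ.2.1 μ.1 :: pk μ.2.1 μ.2.2.1 μ.2.2.2

def ky (y : Adr) : List (List ℤ) := y.map kv ++ [[0]]

/-- Kleene Brouwer order -/
def KB : List ℕ → List ℕ → Prop
  | [], _ => False
  | _ :: _, [] => True
  | o :: r, o' :: r' => o < o' ∨ (o = o' ∧ KB r r')

@[simp] theorem kb_nil (r : List ℕ) : ¬ KB [] r := by simp [KB]
@[simp] theorem kb_cons_nil (o : ℕ) (r : List ℕ) : KB (o :: r) [] := by simp [KB]
@[simp] theorem kb_cons (o o' : ℕ) (r r' : List ℕ) :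
    KB (o :: r) (o' :: r') ↔ o < o' ∨ (o = o' ∧ KB r r') := by simp [KB]

theorem kb_app (g : List ℕ) {r r' : List ℕ} : KB (g ++ r) (g ++ r') ↔ KB r r' := by
  induction g with
  | nil => simp
  | cons o g ih => simp [ih]

theorem kb_ext (g : List ℕ) (o : ℕ) (r : List ℕ) : KB (g ++ o :: r) g := by
  simpa using (kb_app g (r := o :: r) (r' := [])).2 (by simp)

theorem kb_fork (g : List ℕ) {o o' : ℕ} (h : o < o') (r r' : List ℕ) :
    KB (g ++ o :: r) (g ++ o' :: r') := (kb_app g).2 (by simp [h])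

theorem KB.trans : ∀ {a b c : List ℕ}, KB a b → KB b c → KB a c
  | [], _, _, h, _ => absurd h (kb_nil _)
  | _ :: _, [], _, _, h => absurd h (kb_nil _)
  | _ :: _, _ :: _, [], _, _ => by simp
  | x :: a, y :: b, z :: c, h, h' => by
    rw [kb_cons] at h h' ⊢
    rcases h with h | ⟨rfl, h⟩ <;> rcases h' with h' | ⟨rfl, h'⟩
    · exact Or.inl (h.trans h')
    · exact Or.inl h
    · exact Or.inl h'
    · exact Or.inr ⟨rfl, h.trans h'⟩

theorem kb_irrefl : ∀ a : List ℕ, ¬ KB a a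
  | [] => kb_nil _
  | _ :: a => by simpa using kb_irrefl a

theorem KB.asymm {a b : List ℕ} (h : KB a b) : ¬ KB b a := fun h' => kb_irrefl _ (h.trans h')

theorem kb_total : ∀ a b : List ℕ, KB a b ∨ a = b ∨ KB b a
  | [], [] => by simp
  | [], _ :: _ => by simp
  | _ :: _, [] => by simp
  | x :: a, y :: b => by
    rcases lt_trichotomy x y with h | rfl | h
    · simp [h]
    · simpa using kb_total a b
    · simp [h]

theorem KB.big : ∀ {a b : List ℕ}, KB a b → ∃ N, KB a (b ++ [N])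
  | [], _, h => absurd h (kb_nil _)
  | x :: _, [], _ => ⟨x + 1, by simp⟩
  | x :: a, y :: b, h => by
    rcases (kb_cons _ _ _ _).1 h with h1 | ⟨rfl, h1⟩
    · exact ⟨0, by simp [h1]⟩
    · obtain ⟨N, hN⟩ := KB.big (a := a) (b := b) h1
      exact ⟨N, by simp [hN]⟩

theorem kb_zeros : ∀ a : List ℕ, KB (List.replicate (a.length + 1) 0) a
  | [] => by simp
  | x :: a => by
    rw [List.length_cons, List.replicate_succ, kb_cons]
    rcases Nat.eq_zero_or_pos x with rfl | h
    · exact Or.inr ⟨rfl, kb_zeros a⟩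
    · exact Or.inl h

/-- convexity of the set of extensions -/
theorem kb_conv : ∀ (g : List ℕ) {a b c : List ℕ}, ¬ KB c (g ++ a) → ¬ KB (g ++ b) c →
    ∃ d, c = g ++ d
  | [], _, _, c, _, _ => ⟨c, rfl⟩
  | _ :: _, _, _, [], _, h => absurd (by simp) h
  | x :: g, a, b, y :: c, h, h' => by
    simp only [List.cons_append, kb_cons, not_or, not_and] at h h'
    obtain rfl : x = y := by omega
    obtain ⟨d, rfl⟩ := kb_conv g (h.2 rfl) (h'.2 rfl)
    exact ⟨d, rfl⟩

/-- the zone of the outcomes above `o` -/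
theorem kb_zone : ∀ (g : List ℕ) (o : ℕ) (c : List ℕ), KB (g ++ [o]) c ∧ KB c g ↔
    ∃ o' r, c = g ++ o' :: r ∧ o < o'
  | [], o, [] => by simp
  | [], o, y :: c => by simp
  | x :: g, o, [] => by simp
  | x :: g, o, y :: c => by
    have := kb_zone g o c
    simp only [List.cons_append, kb_cons, List.cons.injEq]
    constructor
    · rintro ⟨h1, h2⟩
      obtain rfl : x = y := by omega
      obtain ⟨o', r, h⟩ := this.1 ⟨by simpa using h1, by simpa using h2⟩
      exact ⟨o', r, ⟨rfl, h.1⟩, h.2⟩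
    · rintro ⟨o', r, ⟨rfl, h1⟩, h2⟩
      have := this.2 ⟨o', r, h1, h2⟩
      simp [this.1, this.2]

theorem sg_lt {s : Bool} {a b : ℕ} : sg s a < sg s b ↔ if s = true then b < a else a < b := by
  cases s <;> simp [sg]

theorem sg_inj {s : Bool} {a b : ℕ} : sg s a = sg s b ↔ a = b := by
  cases s <;> simp [sg]

theorem pk_lt (s : Bool) (a a' : ℕ) : ∀ ρ ρ' : List ℕ, pk s ρ a < pk s ρ' a' ↔
    (if s = true then KB ρ' ρ else KB ρ ρ') ∨ (ρ = ρ' ∧ a < a')
  | [], [] => by simp [pk, List.cons_lt_cons_iff, sg]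
  | [], _ :: _ => by cases s <;> simp [pk, List.cons_lt_cons_iff, sg]
  | _ :: _, [] => by cases s <;> simp [pk, List.cons_lt_cons_iff, sg]
  | x :: ρ, y :: ρ' => by
    have := pk_lt s a a' ρ ρ'
    unfold pk at this
    simp only [pk, List.foldr_cons, List.cons_lt_cons_iff, lt_irrefl, true_and, false_or, this,
      sg_lt, sg_inj, kb_cons, List.cons.injEq]
    cases s <;> simp only [if_true, if_false, Bool.false_eq_true] <;> tauto

/-- the period of the first move is further out -/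
def Fo (μ ν : Mv) : Prop := μ.1 < ν.1 ∨ (μ.1 = ν.1 ∧ KB μ.2.2.1 ν.2.2.1)

theorem kv_lt {μ ν : Mv} : kv μ < kv ν ↔ (μ.2.1 = false ∧ ν.2.1 = true) ∨
    (μ.2.1 = false ∧ ν.2.1 = false ∧ Fo μ ν) ∨ (μ.2.1 = true ∧ ν.2.1 = true ∧ Fo ν μ) ∨
    (μ.2.1 = ν.2.1 ∧ μ.1 = ν.1 ∧ μ.2.2.1 = ν.2.2.1 ∧ μ.2.2.2 < ν.2.2.2) := by
  obtain ⟨b, s, ρ, a⟩ := μ
  obtain ⟨b', s', ρ', a'⟩ := ν
  cases s <;> cases s' <;>
    simp [kv, List.cons_lt_cons_iff, pk_lt, sg_lt, sg_inj, Fo] <;> tauto

theorem kv_inj : Function.Injective kv := by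
  rintro ⟨b, s, ρ, a⟩ ⟨b', s', ρ', a'⟩ h
  have h1 : ¬ kv (b, s, ρ, a) < kv (b', s', ρ', a') := by rw [h]; exact lt_irrefl _
  have h2 : ¬ kv (b', s', ρ', a') < kv (b, s, ρ, a) := by rw [h]; exact lt_irrefl _
  rw [kv_lt] at h1 h2
  have h3 := kb_total ρ ρ'
  cases s <;> cases s' <;> simp [Fo] at h1 h2 ⊢
  all_goals
    obtain rfl : b = b' := by omega
    obtain rfl : ρ = ρ' := by tauto
    simp at h1 h2 ⊢
    omega

theorem kv_lt_mid {μ : Mv} : kv μ < [0] ↔ μ.2.1 = false := by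
  obtain ⟨b, s, ρ, a⟩ := μ
  cases s <;> simp [kv, List.cons_lt_cons_iff, sg]

theorem mid_lt_kv {μ : Mv} : [0] < kv μ ↔ μ.2.1 = true := by
  obtain ⟨b, s, ρ, a⟩ := μ
  cases s <;> simp [kv, List.cons_lt_cons_iff, sg]

theorem kv_ne_mid (μ : Mv) : kv μ ≠ [0] := by simp [kv]

theorem ky_nil : ky [] = [[0]] := rfl
theorem ky_cons (μ : Mv) (w : Adr) : ky (μ :: w) = kv μ :: ky w := rfl
theorem ky_app (z w : Adr) : ky (z ++ w) = z.map kv ++ ky w := by simp [ky]

@[simp] theorem ky_nil_lt {μ : Mv} {w : Adr} : ky [] < ky (μ :: w) ↔ μ.2.1 = true := by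
  simp [ky_nil, ky_cons, List.cons_lt_cons_iff, mid_lt_kv, (kv_ne_mid μ).symm]

@[simp] theorem ky_lt_nil {μ : Mv} {w : Adr} : ky (μ :: w) < ky [] ↔ μ.2.1 = false := by
  simp [ky_nil, ky_cons, List.cons_lt_cons_iff, kv_lt_mid, kv_ne_mid μ]

theorem ky_cons_lt {μ ν : Mv} {w v : Adr} :
    ky (μ :: w) < ky (ν :: v) ↔ kv μ < kv ν ∨ (μ = ν ∧ ky w < ky v) := by
  simp [ky_cons, List.cons_lt_cons_iff, kv_inj.eq_iff]

@[simp] theorem ky_app_lt (z : Adr) {w v : Adr} : ky (z ++ w) < ky (z ++ v) ↔ ky w < ky v := by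
  rw [ky_app, ky_app, app_lt_app]

theorem ky_inj : Function.Injective ky := by
  intro y
  induction y with
  | nil =>
    rintro (_ | ⟨ν, v⟩) h
    · rfl
    · exact absurd (List.cons.inj h).1.symm (kv_ne_mid ν)
  | cons μ w ih =>
    rintro (_ | ⟨ν, v⟩) h
    · exact absurd (List.cons.inj h).1 (kv_ne_mid μ)
    · rw [kv_inj (List.cons.inj h).1, ih (List.cons.inj h).2]

/-- convexity of the set of extensions of an address -/
theorem ky_conv : ∀ (z : Adr) {a b y : Adr}, ¬ ky y < ky (z ++ a) → ¬ ky (z ++ b) < ky y →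
    ∃ w, y = z ++ w
  | [], _, _, y, _, _ => ⟨y, rfl⟩
  | μ :: z, a, b, [], h, h' => by
    simp only [List.cons_append, ky_nil_lt, ky_lt_nil] at h h'
    simp [h] at h'
  | μ :: z, a, b, ν :: y, h, h' => by
    simp only [List.cons_append, ky_cons_lt, not_or, not_and] at h h'
    obtain rfl : μ = ν := kv_inj (le_antisymm (not_lt.1 h.1) (not_lt.1 h'.1))
    obtain ⟨w, rfl⟩ := ky_conv z (h.2 rfl) (h'.2 rfl)
    exact ⟨w, rfl⟩

/-- `y` is further out than `y'` in the direction of the side `s` -/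
def Out (s : Bool) (y y' : Adr) : Prop := if s = true then ky y' < ky y else ky y < ky y'

theorem out_false {y y' : Adr} : Out false y y' ↔ ky y < ky y' := by simp [Out]
theorem out_true {y y' : Adr} : Out true y y' ↔ ky y' < ky y := by simp [Out]

theorem Out.trans {s : Bool} {x y z : Adr} (h : Out s x y) (h' : Out s y z) : Out s x z := by
  cases s
  · exact out_false.2 (lt_trans (out_false.1 h) (out_false.1 h'))
  · exact out_true.2 (lt_trans (out_true.1 h') (out_true.1 h))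

theorem out_irrefl (s : Bool) (x : Adr) : ¬ Out s x x := by cases s <;> simp [Out]

theorem Out.asymm {s : Bool} {x y : Adr} (h : Out s x y) : ¬ Out s y x :=
  fun h' => out_irrefl _ _ (h.trans h')

theorem out_total (s : Bool) (x y : Adr) : Out s x y ∨ x = y ∨ Out s y x := by
  rcases lt_trichotomy (ky x) (ky y) with h | h | h
  · cases s <;> simp [Out, h]
  · exact Or.inr (Or.inl (ky_inj h))
  · cases s <;> simp [Out, h]

@[simp] theorem out_app (s : Bool) (z : Adr) {w v : Adr} : Out s (z ++ w) (z ++ v) ↔ Out s w v := by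
  cases s <;> simp [Out]

theorem out_of_fo {s : Bool} {μ ν : Mv} (h1 : μ.2.1 = s) (h2 : ν.2.1 = s) (h : Fo μ ν)
    (w v : Adr) : Out s (μ :: w) (ν :: v) := by
  cases s <;> simp [Out, ky_cons_lt, kv_lt, h1, h2, h]

section
variable {α : Type} [Primcodable α]

@[fun_prop] theorem sg_comp {s : α → Bool} {n : α → ℕ} (hs : Computable s) (hn : Computable n) :
    Computable fun a => sg (s a) (n a) := by
  refine Computable.encode_iff.1 ((show Computable fun a =>
    if s a = true then 2 * n a - 1 else 2 * n a by fun_prop).of_eq fun a => ?_)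
  unfold sg
  split_ifs
  · cases n a with
    | zero => rfl
    | succ k => exact (show encode (Int.negSucc k) = 2 * (k + 1) - 1 from rfl).symm
  · rfl

theorem int_lt_comp : ComputablePred fun p : ℤ × ℤ => p.1 < p.2 := by
  refine (show ComputablePred fun p : ℤ × ℤ =>
    (encode p.1 % 2 = 1 ∧ encode p.2 % 2 = 0) ∨
    (encode p.1 % 2 = 0 ∧ encode p.2 % 2 = 0 ∧ encode p.1 < encode p.2) ∨
    (encode p.1 % 2 = 1 ∧ encode p.2 % 2 = 1 ∧ encode p.2 < encode p.1) by fun_prop).of_eq ?_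
  have h1 : ∀ n : ℕ, encode (Int.ofNat n) = 2 * n := fun _ => rfl
  have h2 : ∀ n : ℕ, encode (Int.negSucc n) = 2 * n + 1 := fun _ => rfl
  rintro ⟨_ | _, _ | _⟩ <;> simp only [h1, h2] <;> simp only [Int.ofNat_eq_natCast, Int.negSucc_eq] <;>
    omega

@[fun_prop] theorem ky_comp : Computable ky := by unfold ky kv pk; fun_prop

@[fun_prop] theorem ky_lt_comp {f g : α → Adr} (hf : Computable f) (hg : Computable g) :
    ComputablePred fun a => ky (f a) < ky (g a) :=
  cp_comp (f := fun a => (ky (f a), ky (g a))) (lex_comp (W := List ℤ) (lex_comp int_lt_comp))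
    (by fun_prop)

/-- predicates defined by a recursion on a list that carries a state -/
theorem cp_rec {σ β : Type} [Primcodable σ] [Primcodable β] [Inhabited β]
    {P : α → σ → List β → Prop} {B : α → σ → Prop} {A C : α → σ → β → List β → Prop}
    {g : α → σ → β → σ} (h0 : ∀ a s, P a s [] ↔ B a s)
    (h1 : ∀ a s b l, P a s (b :: l) ↔ A a s b l ∨ (C a s b l ∧ P a (g a s b) l))
    (hB : ComputablePred fun p : α × σ => B p.1 p.2)
    (hA : ComputablePred fun p : α × σ × β × List β => A p.1 p.2.1 p.2.2.1 p.2.2.2)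
    (hC : ComputablePred fun p : α × σ × β × List β => C p.1 p.2.1 p.2.2.1 p.2.2.2)
    (hg : Computable fun p : α × σ × β => g p.1 p.2.1 p.2.2) :
    ComputablePred fun p : α × σ × List β => P p.1 p.2.1 p.2.2 := by
  obtain ⟨B', hB', eB⟩ : ∃ B' : α × σ → Prop, ComputablePred B' ∧ ∀ a s, B' (a, s) ↔ B a s :=
    ⟨_, hB, fun _ _ => Iff.rfl⟩
  obtain ⟨A', hA', eA⟩ : ∃ A' : α × σ × β × List β → Prop, ComputablePred A' ∧
    ∀ a s b l, A' (a, s, b, l) ↔ A a s b l := ⟨_, hA, fun _ _ _ _ => Iff.rfl⟩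
  obtain ⟨C', hC', eC⟩ : ∃ C' : α × σ × β × List β → Prop, ComputablePred C' ∧
    ∀ a s b l, C' (a, s, b, l) ↔ C a s b l := ⟨_, hC, fun _ _ _ _ => Iff.rfl⟩
  obtain ⟨g', hg', eg⟩ : ∃ g' : α × σ × β → σ, Computable g' ∧
    ∀ a s b, g' (a, s, b) = g a s b := ⟨_, hg, fun _ _ _ => rfl⟩
  have h : ComputablePred fun p : α × σ × List β => Bex (List.range (p.2.2.length + 1)) fun i =>
      (Ball (List.range i) fun j => C' (p.1, (p.2.2.take j).foldl (fun s b => g' (p.1, s, b)) p.2.1,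
        p.2.2[j]?.getD default, p.2.2.drop (j + 1))) ∧
      ((i = p.2.2.length ∧ B' (p.1, (p.2.2.take i).foldl (fun s b => g' (p.1, s, b)) p.2.1)) ∨
        (i < p.2.2.length ∧ A' (p.1, (p.2.2.take i).foldl (fun s b => g' (p.1, s, b)) p.2.1,
          p.2.2[i]?.getD default, p.2.2.drop (i + 1)))) := by fun_prop
  refine h.of_eq ?_
  rintro ⟨a, s, l⟩
  simp only [Bex, Ball, List.mem_range, eA, eB, eC, eg]
  induction l generalizing s with
  | nil => simp [h0]
  | cons b l ih =>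
    rw [h1, ← ih, List.length_cons, Nat.exists_lt_succ_left]
    simp only [Nat.forall_lt_succ_left]
    simp [and_assoc, and_left_comm (b := C a s b l)]

end

end Pool.Agent.Lib.MP_9e2528_lc.T3
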