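import Pool.Agent.Lib.MP_9e2528_lc.T7
import Pool.Agent.Lib.MP_9e2528_lc.T19

set_option autoImplicit false

/-! The reduction. -/

namespace Pool.Agent.Lib.MP_9e2528_lc.T3

open Encodable

/-- a uniformly computable family of trees without simple paths -/
theorem tree_raw {S : ℕ → Prop} (hS : Pi11 S) (m : ℕ) : ∃ R' : ℕ × List ℕ → Prop,
    ComputablePred R' ∧ (∀ x, ¬ S x → ∃ F : ℕ → ℕ, ∀ k, R' (x, seg F k)) ∧
      ∀ x (F : ℕ → ℕ), (∀ k, R' (x, seg F k)) → ¬ S x ∧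
        ¬ Sig (m + 1) fun q : ℕ × ℕ => F q.1 = q.2 := by
  obtain ⟨R, hR, H⟩ := hS
  obtain ⟨U, hU, hU'⟩ : ∃ U : ℕ × ℕ → Prop, Del (m + 2) U ∧ ∀ p, U p ↔ Uni m p.1 p.2 :=
    ⟨_, (uni_sig m).del, fun _ => Iff.rfl⟩
  have hR' : Del (m + 2) R := Del.of_comp hR
  have hQ : Sig (m + 2) fun p : ℕ × List ℕ => ¬ R (p.1, p.2.map fun z => z.unpair.1) ∧
      Ball (List.range p.2.length) fun e => ¬ U (e, encode (e, (p.2[e]?.getD 0).unpair.2)) ∨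
        ∃ y, ¬ y = (p.2[e]?.getD 0).unpair.2 ∧ U (e, encode (e, y)) := by fun_prop
  obtain ⟨R', hR', H'⟩ := hQ.a11.tree
  refine ⟨R', hR', fun x hx => ?_, fun x F hF => ?_⟩
  · rw [H] at hx
    push Not at hx
    obtain ⟨f1, hf1⟩ := hx
    have : ∀ e, ∃ v : ℕ, ¬ U (e, encode (e, v)) ∨ ∃ y, ¬ y = v ∧ U (e, encode (e, y)) := by
      intro e
      by_cases h : U (e, encode (e, 0))
      · exact ⟨1, Or.inr ⟨0, by simp, h⟩⟩
      · exact ⟨0, Or.inl h⟩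
    choose f2 hf2 using this
    obtain ⟨g, hg⟩ := (H' x fun j => Nat.pair (f1 j) (f2 j)).1 fun k =>
      ⟨by rw [seg_map]; simpa [seg] using hf1 k, fun e he => by
        simp only [seg_length, List.mem_range] at he
        dsimp only
        rw [seg_get _ he]
        simpa using hf2 e⟩
    exact ⟨_, hg⟩
  · have := (H' x fun j => (F j).unpair.1).2 ⟨fun j => (F j).unpair.2, by simpa using hF⟩
    refine ⟨fun hx => ?_, fun hp' => ?_⟩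
    · obtain ⟨k, hk⟩ := (H x).1 hx fun j => (F j).unpair.1.unpair.1
      exact (this k).1 (by rwa [seg_map])
    · obtain ⟨A, hA, hA'⟩ : ∃ A : ℕ × ℕ → Prop, Sig (m + 1) A ∧ ∀ q, A q ↔ F q.1 = q.2 :=
        ⟨_, hp', fun _ => Iff.rfl⟩
      have h1 : Sig (m + 1) fun q : ℕ × ℕ => ∃ b, A (q.1, b) ∧ b.unpair.1.unpair.2 = q.2 := by
        fun_prop
      obtain ⟨e, he⟩ := uni_univ m h1
      have h2 : ∀ y, U (e, encode (e, y)) ↔ (F e).unpair.1.unpair.2 = y := fun y => by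
        rw [hU', ← he (e, y)]
        simp [hA']
      have h3 := (this (e + 1)).2 e (by simp)
      dsimp only at h3
      rw [seg_get _ (Nat.lt_succ_self e)] at h3
      rcases h3 with h3 | ⟨y, h3, h4⟩
      · exact h3 ((h2 _).2 rfl)
      · exact h3 ((h2 _).1 h4).symm

theorem tree_of_pi11 {S : ℕ → Prop} (hS : Pi11 S) (m : ℕ) : ∃ T : ℕ → List ℕ → Prop,
    (ComputablePred fun p : ℕ × List ℕ => T p.1 p.2) ∧
    (∀ x σ n, T x (σ ++ [n]) → σ.length < n) ∧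
    (∀ x, S x → ¬ ∃ σ : ℕ → List ℕ, ∀ j, ∃ n, σ (j + 1) = σ j ++ [n] ∧ T x (σ (j + 1))) ∧
    (∀ x, ¬ S x → ∃ p : ℕ → ℕ, ∀ k, T x (seg p (k + 1))) ∧
    ∀ x (p : ℕ → ℕ), (∀ k, T x (seg p (k + 1))) → ¬ Sig (m + 1) fun q : ℕ × ℕ => p q.1 = q.2 := by
  obtain ⟨R, hR, h1, h2⟩ := tree_raw hS m
  have key : ∀ x (p : ℕ → ℕ), (∀ k, Ball (List.range ((seg p (k + 1)).length + 1)) fun j =>
      R (x, ((seg p (k + 1)).take j).map fun z => z.unpair.1)) →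
      ∀ k, R (x, seg (fun j => (p j).unpair.1) k) := by
    intro x p h k
    have := h k k (by simp)
    dsimp only at this
    rwa [seg_take _ (by omega), seg_map] at this
  refine ⟨fun x l => (Ball (List.range (l.length + 1)) fun j =>
      R (x, (l.take j).map fun z => z.unpair.1)) ∧
    Ball (List.range l.length) fun i => i < l[i]?.getD 0, by fun_prop, fun x σ n h => ?_,
    fun x hx ⟨σ, hσ⟩ => ?_, fun x hx => ?_, fun x p hp hs => ?_⟩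
  · simpa using h.2 σ.length (by simp)
  · obtain ⟨F, hF⟩ := branch_of_seq (τ := σ) fun j => (hσ j).imp fun _ h => h.1
    refine (h2 x (fun j => (F j).unpair.1) fun k => ?_).1 hx
    obtain ⟨-, -, h3, -⟩ := hσ k
    rw [← seg_map (fun z => z.unpair.1), (hF k).2]
    exact h3 k (List.mem_range.2 (Nat.lt_succ_of_le (hF k).1))
  · obtain ⟨F, hF⟩ := h1 x hx
    refine ⟨fun j => Nat.pair (F j) (j + 1), fun k => ⟨fun j hj => ?_, fun i hi => ?_⟩⟩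
    · simp only [seg_length, List.mem_range] at hj
      rw [seg_take _ (by omega), seg_map]
      simpa using hF j
    · simp only [seg_length, List.mem_range] at hi
      rw [seg_get _ hi]
      exact Nat.right_le_pair _ _
  · refine (h2 x _ (key x p fun k => (hp k).1)).2 ?_
    obtain ⟨A, hA, hA'⟩ : ∃ A : ℕ × ℕ → Prop, Sig (m + 1) A ∧ ∀ q, A q ↔ p q.1 = q.2 :=
      ⟨_, hs, fun _ => Iff.rfl⟩
    have h3 : Sig (m + 1) fun q : ℕ × ℕ => ∃ b, A (q.1, b) ∧ b.unpair.1 = q.2 := by fun_prop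
    exact h3.of_eq fun q => by simp [hA']

/-- labels coded by numbers -/
def Wd.LabN (W : Wd) (y : Adr) (l : ℕ) : Prop := W.Lab y ((decode l).getD default)

theorem Wd.same_iff {W : Wd} {y y' : Adr} : W.Same y y' ↔ ∀ l, W.LabN y l ↔ W.LabN y' l :=
  ⟨fun h _ => h _, fun h l => by simpa [Wd.LabN] using h (encode l)⟩

section
variable {O : Opp} {W : Wd} {e e' : ℕ} {f f' : ℕ → Adr} {V V' : Adr → Prop}

/-- an isomorphism of the labelled orders is an isomorphism of the heads -/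
theorem hiso_of_pi (h : Rep O ky V W.LabN e f) (h' : Rep O ky V' W.LabN e' f')
    {Ψ : Adr → Adr → Prop} (h1 : W.PI Ψ) (h2 : Onto Ψ V V') :
    HIso O e e' fun p => O.Hd e p.1 ∧ O.Hd e' p.2 ∧ Ψ (f p.1) (f' p.2) where
  hd := fun _ _ h3 => ⟨h3.1, h3.2.1⟩
  tot := fun x hx => by
    obtain ⟨y, h3, h4⟩ := h2.1 _ (h.val x hx)
    obtain ⟨x', h5, rfl⟩ := h'.sur y h3
    exact ⟨x', hx, h5, h4⟩
  sur := fun x hx => by
    obtain ⟨y, h3, h4⟩ := h2.2 _ (h'.val x hx)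
    obtain ⟨x', h5, rfl⟩ := h.sur y h3
    exact ⟨x', h5, hx, h4⟩
  ord := fun _ _ _ _ h3 h4 => by
    rw [h.ord _ _ h3.1 h4.1, h'.ord _ _ h3.2.1 h4.2.1]
    exact h1.2 _ _ _ _ h3.2.2 h4.2.2
  lab := fun _ _ l h3 => by
    rw [h.lab _ _ h3.1, h'.lab _ _ h3.2.1]
    exact Wd.same_iff.1 (h1.1 _ _ h3.2.2) l

/-- two readings of the same program -/
theorem pi_of_rep (h : Rep O ky V W.LabN e f) (h' : Rep O ky V' W.LabN e f') :
    W.PI (fun y y' => ∃ a, O.Hd e a ∧ f a = y ∧ f' a = y') ∧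
      Onto (fun y y' => ∃ a, O.Hd e a ∧ f a = y ∧ f' a = y') V V' := by
  refine ⟨⟨?_, ?_⟩, fun y hy => ?_, fun y hy => ?_⟩
  · rintro _ _ ⟨a, ha, rfl, rfl⟩
    exact Wd.same_iff.2 fun l => (h.lab a l ha).symm.trans (h'.lab a l ha)
  · rintro _ _ _ _ ⟨a, ha, rfl, rfl⟩ ⟨b, hb, rfl, rfl⟩
    exact (h.ord a b ha hb).symm.trans (h'.ord a b ha hb)
  · obtain ⟨a, ha, rfl⟩ := h.sur y hy
    exact ⟨_, h'.val a ha, a, ha, rfl, rfl⟩
  · obtain ⟨a, ha, rfl⟩ := h'.sur y hy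
    exact ⟨_, h.val a ha, a, ha, rfl, rfl⟩

end

theorem isIso_comp {L M N : CLO} {f g : ℕ → ℕ} (hf : IsIso L M f) (hg : IsIso M N g) :
    IsIso L N fun a => g (f a) :=
  ⟨hg.1.comp hf.1, fun a ha b hb => (hf.2 a ha b hb).trans (hg.2 _ (hf.1.1 ha) _ (hf.1.1 hb))⟩

theorem isIso_congr {M N : CLO} {f g : ℕ → ℕ} (hf : IsIso M N f) (h : ∀ a ∈ M.dom, f a = g a) :
    IsIso M N g :=
  ⟨hf.1.congr h, fun a ha b hb => by rw [← h a ha, ← h b hb]; exact hf.2 a ha b hb⟩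

/-- the outcome of the categoricity construction -/
def Constr : Prop := ∀ (O : Opp) (T : ℕ → List ℕ → Prop),
  (ComputablePred fun p : ℕ × List ℕ => T p.1 p.2) → (∀ x σ n, T x (σ ++ [n]) → σ.length < n) →
  ∃ W : ℕ → Wd, (∀ x, (W x).T = T x) ∧ (∀ x, Sig 5 fun p : ℕ × ℕ => (W x).tp p.1 = p.2) ∧
    (Sig 3 fun p : ℕ × Adr × ℕ => (W p.1).LabN p.2.1 p.2.2) ∧
    ∀ x, (W x).WF → ∀ e e' f f', Rep O ky (Val false 0) (W x).LabN e f →
      Rep O ky (Val false 0) (W x).LabN e' f' → ∃ G, HIso O e e' G ∧ Sig 3 G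

theorem hard_of (hC : Constr) {S : ℕ → Prop} (hS : Pi11 S) {n : ℕ} (hn : 3 ≤ n) :
    S ≤₀ CatIndex n := by
  obtain ⟨m, rfl⟩ : ∃ m, n = m + 3 := ⟨n - 3, by omega⟩
  obtain ⟨T, t1, t2, t3, t4, t5⟩ := tree_of_pi11 hS (m + 4)
  obtain ⟨O, hO⟩ := coding
  obtain ⟨W, w1, w2, w3, w4⟩ := hC O T t1 t2
  obtain ⟨L, r, g, hr, hg, c1, c2, c3⟩ := hO ky ky_inj (by fun_prop) (fun c => Val c 0)
    (fun c => by fun_prop) (fun x => (W x).LabN) w3
  refine ⟨r, hr, fun x => ⟨fun hx => ⟨_, c1 x, ?_⟩, ?_⟩⟩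
  · rintro M N ⟨f, hf⟩ ⟨f', hf'⟩
    obtain ⟨e, he⟩ := exists_index M
    obtain ⟨e', he'⟩ := exists_index N
    obtain ⟨G, g1, g2⟩ := w4 x (by rw [Wd.WF, w1]; exact t3 x hx) e e' _ _
      (c2 x false M e f he hf) (c2 x false N e' f' he' hf')
    obtain ⟨J, j1, j2⟩ := (c3 x false false M N e e' f f' G he hf he' hf' g1).2 0 g2
    exact ⟨J, j1, (graph_del (n := 2) j2).mono (by omega)⟩
  · rintro ⟨L', l1, l2⟩
    by_contra hx
    obtain ⟨p, hp⟩ := t4 x hx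
    have hiso : IsIso (L x false) L' id :=
      (isoI_iff (c1 x) l1).1 ((isoI_iff l1 l1).2 (isIso_id L'))
    obtain ⟨Ψ, p1, p2⟩ := Wd.ill_iso (W := W x) (p := p) (by rw [w1]; exact hp)
    obtain ⟨e', he'⟩ := exists_index (L x true)
    obtain ⟨J, hJ⟩ := (c3 x true false _ _ _ _ _ _ _ he' (isIso_id _) (c1 x) (isIso_id _)
      (hiso_of_pi (c2 x true _ _ _ he' (isIso_id _)) (c2 x false _ _ _ (c1 x) (isIso_id _))
        p1.symm p2.symm)).1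
    obtain ⟨f, hf, hf', -⟩ := l2 (L x false) (L x true) ⟨_, hiso⟩ ⟨_, isIso_comp hJ hiso⟩
    classical
    have hf2 : IsIso (L x false) (L x true) fun a => if a ∈ (L x false).dom then f a else 0 :=
      isIso_congr hf fun a ha => by simp [ha]
    obtain ⟨q1, q2⟩ := pi_of_rep (c2 x false _ _ _ (c1 x) (isIso_id _))
      (c2 x true _ _ _ (c1 x) hf2)
    refine (Wd.path_sig (n := m) (by rw [w1]; exact cp_comp t1 (f := fun l => (x, l)) (by fun_prop))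
      (w2 x) q1 ?_ q2).elim fun p' h => t5 x p' (by rw [← w1]; exact h.1) h.2
    obtain ⟨A, hA, hA'⟩ : ∃ A : ℕ × ℕ → Prop, Sig (m + 4 + 1) A ∧ ∀ p, A p ↔
      p.1 ∈ (L x false).dom ∧ f p.1 = p.2 := ⟨_, hf'.mono (by omega), fun _ => Iff.rfl⟩
    obtain ⟨D, hD, hD'⟩ : ∃ D : ℕ → Prop, Del (m + 4 + 1) D ∧ ∀ a, D a ↔ a ∈ (L x false).dom :=
      ⟨_, Del.of_comp (L x false).dom_comp, fun _ => Iff.rfl⟩
    obtain ⟨H, hH, hH'⟩ : ∃ H : ℕ × ℕ → Prop, Sig (m + 4 + 1) H ∧ ∀ a b, O.Hd a b ↔ H (a, b) :=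
      ⟨_, O.hd_del.sig.mono (by omega), fun _ _ => Iff.rfl⟩
    have : Sig (m + 4 + 1) fun q : Adr × Adr => ∃ a, H (r x, a) ∧ g a = q.1 ∧
      ((∃ b, A (a, b) ∧ g b = q.2) ∨ (¬ D a ∧ g 0 = q.2)) := by fun_prop
    refine this.of_eq fun q => exists_congr fun a => ?_
    by_cases ha : a ∈ (L x false).dom <;> simp [hA', hD', hH', ha]

theorem constr : Constr := by
  intro O T t1 t2
  refine ⟨fun x => wd O (T x) (t2 x), fun _ => rfl, fun x => tp_sig O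
    (cp_comp t1 (f := fun l => (x, l)) (by fun_prop)),
    lab_sig (T := fun p => T p.1 p.2) (hT := t2) O t1, fun x hw e e' f f' h h' => ?_⟩
  have hc : ComputablePred (T x) := cp_comp t1 (f := fun l => (x, l)) (by fun_prop)
  obtain ⟨G, g0, g1, g2, g3, g4⟩ := Cx.good_all ⟨O, wd O (T x) (t2 x), e + 1,
    gm O hc e.succ_ne_zero (inf_of_rep e.succ_ne_zero h), f, h, hw⟩
  obtain ⟨G', g0', g1', g2', g3', g4'⟩ := Cx.good_all ⟨O, wd O (T x) (t2 x), e' + 1,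
    gm O hc e'.succ_ne_zero (inf_of_rep e'.succ_ne_zero h'), f', h', hw⟩
  refine ⟨fun p => ∃ y, G (p.1, y) ∧ G' (p.2, y), ⟨?_, fun a ha => ?_, fun a ha => ?_, ?_, ?_⟩,
    by fun_prop⟩
  · rintro a b ⟨y, h1, h2⟩
    exact ⟨(g1 _ _ h1).1, (g1' _ _ h2).1⟩
  · obtain ⟨y, hy⟩ := g2 a ha (h.val a ha)
    obtain ⟨b, hb⟩ := g3' y (g1 _ _ hy).2.2.1 (g1 _ _ hy).2.2.1
    exact ⟨b, y, hy, hb⟩
  · obtain ⟨y, hy⟩ := g2' a ha (h'.val a ha)
    obtain ⟨b, hb⟩ := g3 y (g1' _ _ hy).2.2.1 (g1' _ _ hy).2.2.1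
    exact ⟨b, y, hb, hy⟩
  · rintro a b a' b' ⟨y, h1, h2⟩ ⟨y', h3, h4⟩
    exact (h.ord _ _ (g1 _ _ h1).1 (g1 _ _ h3).1).trans ((g4 _ _ _ _ h1 h3).trans
      ((g4' _ _ _ _ h2 h4).symm.trans (h'.ord _ _ (g1' _ _ h2).1 (g1' _ _ h4).1).symm))
  · rintro a b l ⟨y, h1, h2⟩
    exact (h.lab _ _ (g1 _ _ h1).1).trans ((Wd.same_iff.1 (g1 _ _ h1).2.2.2.2.1 l).trans
      ((Wd.same_iff.1 (g1' _ _ h2).2.2.2.2.1 l).symm.trans (h'.lab _ _ (g1' _ _ h2).1).symm))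

theorem hard3 {S : ℕ → Prop} (hS : Pi11 S) {n : ℕ} (hn : 3 ≤ n) : S ≤₀ CatIndex n :=
  hard_of constr hS hn

end Pool.Agent.Lib.MP_9e2528_lc.T3
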