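import Pool.Agent.Lib.MP_9e2528_lc.T20

set_option autoImplicit false

/-! One reduction for all levels. -/

namespace Pool.Agent.Lib.MP_9e2528_lc.T3

open Encodable

/-- position of a triple in a truth table -/
def cd (m e x : ℕ) : ℕ := Nat.pair m (Nat.pair e x)

/-- a finite piece of a truth table with witnesses is consistent -/
def TOk (l : List ℕ) : Prop :=
  Ball (List.range l.length) fun m => Ball (List.range l.length) fun e =>
    Ball (List.range l.length) fun x => Ball (List.range l.length) fun y =>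
      Imp (cd 0 e x < l.length) (Imp (l[cd 0 e x]?.getD 0 = 0) (run e y x = none) ∧
        Imp (l[cd 0 e x]?.getD 0 = y + 1) (¬ run e y x = none)) ∧
      Imp (cd (m + 1) e x < l.length ∧ cd m e (Nat.pair x y) < l.length)
        (Imp (l[cd (m + 1) e x]?.getD 0 = 0) (¬ l[cd m e (Nat.pair x y)]?.getD 0 = 0) ∧
          Imp (l[cd (m + 1) e x]?.getD 0 = y + 1) (l[cd m e (Nat.pair x y)]?.getD 0 = 0))

@[fun_prop] theorem cd_comp {α : Type} [Primcodable α] {m e x : α → ℕ} (hm : Computable m)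
    (he : Computable e) (hx : Computable x) : Computable fun a => cd (m a) (e a) (x a) := by
  unfold cd; fun_prop

@[fun_prop] theorem tok_comp : ComputablePred TOk := by unfold TOk; fun_prop

theorem tok_iff {g : ℕ → ℕ} : (∀ k, TOk (seg g k)) ↔ ∀ m e x y,
    ((g (cd 0 e x) = 0 → run e y x = none) ∧ (g (cd 0 e x) = y + 1 → ¬ run e y x = none)) ∧
    ((g (cd (m + 1) e x) = 0 → ¬ g (cd m e (Nat.pair x y)) = 0) ∧
      (g (cd (m + 1) e x) = y + 1 → g (cd m e (Nat.pair x y)) = 0)) := by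
  simp only [TOk, Ball, Imp, seg_length, List.mem_range]
  constructor
  · intro h m e x y
    obtain ⟨k, hk⟩ : ∃ k, m + e + x + y + cd 0 e x + cd (m + 1) e x + cd m e (Nat.pair x y) < k :=
      ⟨_, Nat.lt_succ_self _⟩
    have h1 := h k m (by omega) e (by omega) x (by omega) y (by omega)
    rw [seg_get _ (by omega), seg_get _ (by omega), seg_get _ (by omega)] at h1
    exact ⟨h1.1 (by omega), h1.2 ⟨by omega, by omega⟩⟩
  · intro h k m _ e _ x _ y _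
    refine ⟨fun h1 => ?_, fun h1 => ?_⟩
    · rw [seg_get _ h1]
      exact (h m e x y).1
    · rw [seg_get _ h1.1, seg_get _ h1.2]
      exact (h m e x y).2

theorem tok_sound {g : ℕ → ℕ} (h : ∀ k, TOk (seg g k)) (m e x : ℕ) :
    ¬ g (cd m e x) = 0 ↔ Uni m e x := by
  rw [tok_iff] at h
  induction m generalizing x with
  | zero =>
    refine ⟨fun h1 => ⟨g (cd 0 e x) - 1, (h 0 e x _).1.2 (by omega)⟩, ?_⟩
    rintro ⟨s, hs⟩ h1
    exact hs ((h 0 e x s).1.1 h1)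
  | succ m ih =>
    refine ⟨fun h1 => ⟨g (cd (m + 1) e x) - 1, fun h2 =>
      (ih _).2 h2 ((h m e x _).2.2 (by omega))⟩, ?_⟩
    rintro ⟨y, hy⟩ h1
    exact hy ((ih _).1 ((h m e x y).2.1 h1))

theorem tok_exists : ∃ g : ℕ → ℕ, ∀ k, TOk (seg g k) := by
  classical
  have h0 : ∀ m e x, ∃ v : ℕ, (v = 0 ↔ ¬ Uni m e x) ∧ ∀ y, v = y + 1 →
      (m = 0 → ¬ run e y x = none) ∧ ∀ m', m = m' + 1 → ¬ Uni m' e (Nat.pair x y) := by
    intro m e x
    by_cases h : Uni m e x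
    · cases m with
      | zero =>
        obtain ⟨s, hs⟩ := id h
        exact ⟨s + 1, by simp [h], fun y hy => ⟨fun _ => (by omega : s = y) ▸ hs, by omega⟩⟩
      | succ m =>
        obtain ⟨s, hs⟩ := id h
        refine ⟨s + 1, by simp [h], fun y hy => ⟨by omega, fun m' hm => ?_⟩⟩
        obtain rfl : m = m' := by omega
        exact (by omega : s = y) ▸ hs
    · exact ⟨0, by simp [h], by omega⟩
  choose v hv using h0
  refine ⟨fun z => v z.unpair.1 z.unpair.2.unpair.1 z.unpair.2.unpair.2, tok_iff.2 fun m e x y => ?_⟩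
  simp only [cd, Nat.unpair_pair, (hv _ _ _).1, not_not]
  refine ⟨⟨fun h => ?_, fun h => ((hv 0 e x).2 y h).1 rfl⟩, fun h => ?_,
    fun h => ((hv _ e x).2 y h).2 m rfl⟩
  · by_contra hc
    exact h ⟨y, hc⟩
  · by_contra hc
    exact h ⟨y, hc⟩

theorem uni_a11 : (A11 fun p : ℕ × ℕ × ℕ => Uni p.1 p.2.1 p.2.2) ∧
    A11 fun p : ℕ × ℕ × ℕ => ¬ Uni p.1 p.2.1 p.2.2 := by
  obtain ⟨g0, hg0⟩ := tok_exists
  refine ⟨⟨fun q => TOk q.2 ∧ Imp (cd q.1.1 q.1.2.1 q.1.2.2 < q.2.length)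
      (¬ q.2[cd q.1.1 q.1.2.1 q.1.2.2]?.getD 0 = 0), by fun_prop, fun p => ⟨fun h => ?_, ?_⟩⟩,
    ⟨fun q => TOk q.2 ∧ Imp (cd q.1.1 q.1.2.1 q.1.2.2 < q.2.length)
      (q.2[cd q.1.1 q.1.2.1 q.1.2.2]?.getD 0 = 0), by fun_prop, fun p => ⟨fun h => ?_, ?_⟩⟩⟩
  · refine ⟨g0, fun k => ⟨hg0 k, fun hk => ?_⟩⟩
    dsimp only at hk ⊢
    rw [seg_get _ (by simpa using hk)]
    exact (tok_sound hg0 _ _ _).2 h
  · rintro ⟨g, hg⟩
    have := (hg (cd p.1 p.2.1 p.2.2 + 1)).2 (by simp)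
    dsimp only at this
    rw [seg_get _ (Nat.lt_succ_self _)] at this
    exact (tok_sound (fun k => (hg k).1) _ _ _).1 this
  · refine ⟨g0, fun k => ⟨hg0 k, fun hk => ?_⟩⟩
    dsimp only at hk ⊢
    rw [seg_get _ (by simpa using hk)]
    by_contra hc
    exact h ((tok_sound hg0 _ _ _).1 hc)
  · rintro ⟨g, hg⟩ h
    have := (hg (cd p.1 p.2.1 p.2.2 + 1)).2 (by simp)
    dsimp only at this
    rw [seg_get _ (Nat.lt_succ_self _)] at this
    exact (tok_sound (fun k => (hg k).1) _ _ _).2 h this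

/-- a uniformly computable family of trees without arithmetical paths -/
theorem raw_all {S : ℕ → Prop} (hS : Pi11 S) : ∃ R' : ℕ × List ℕ → Prop,
    ComputablePred R' ∧ (∀ x, ¬ S x → ∃ F : ℕ → ℕ, ∀ k, R' (x, seg F k)) ∧
      ∀ x (F : ℕ → ℕ), (∀ k, R' (x, seg F k)) → ¬ S x ∧
        ∀ m, ¬ Sig (m + 1) fun q : ℕ × ℕ => F q.1 = q.2 := by
  obtain ⟨R, hR, H⟩ := hS
  obtain ⟨U, hU, hU0, hU'⟩ : ∃ U : ℕ × ℕ → Prop, A11 U ∧ (A11 fun p => ¬ U p) ∧
      ∀ p, U p ↔ Uni p.1.unpair.1 p.1.unpair.2 (encode p) :=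
    ⟨_, uni_a11.1.comp (f := fun p : ℕ × ℕ => (p.1.unpair.1, p.1.unpair.2, encode p)) (by fun_prop),
      uni_a11.2.comp (f := fun p : ℕ × ℕ => (p.1.unpair.1, p.1.unpair.2, encode p)) (by fun_prop),
      fun _ => Iff.rfl⟩
  have hV : A11 fun p : ℕ × ℕ => ¬ U p ∨ ∃ y, ¬ y = p.2 ∧ U (p.1, y) :=
    hU0.or (A11.ex (A11.and (A11.of_comp (by fun_prop))
      (hU.comp (f := fun q : (ℕ × ℕ) × ℕ => (q.1.1, q.2)) (by fun_prop))))
  obtain ⟨V, hV, hV'⟩ : ∃ V : ℕ × ℕ → Prop, A11 V ∧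
      ∀ p, V p ↔ ¬ U p ∨ ∃ y, ¬ y = p.2 ∧ U (p.1, y) := ⟨_, hV, fun _ => Iff.rfl⟩
  have hQ : A11 fun p : ℕ × List ℕ => ¬ R (p.1, p.2.map fun z => z.unpair.1) ∧
      ∀ e, (e < p.2.length ∧ V (e, (p.2[e]?.getD 0).unpair.2)) ∨ (¬ e < p.2.length ∧ True) :=
    A11.and (A11.of_comp (by fun_prop)) (A11.all (A11.ite (by fun_prop)
      (hV.comp (f := fun q : (ℕ × List ℕ) × ℕ => (q.2, (q.1.2[q.2]?.getD 0).unpair.2))
        (by fun_prop)) (A11.of_comp (by fun_prop))))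
  obtain ⟨R', hR', H'⟩ := hQ.tree
  refine ⟨R', hR', fun x hx => ?_, fun x F hF => ?_⟩
  · rw [H] at hx
    push Not at hx
    obtain ⟨f1, hf1⟩ := hx
    have : ∀ e, ∃ v : ℕ, V (e, v) := by
      intro e
      by_cases h : U (e, 0)
      · exact ⟨1, (hV' _).2 (Or.inr ⟨0, by simp, h⟩)⟩
      · exact ⟨0, (hV' _).2 (Or.inl h)⟩
    choose f2 hf2 using this
    obtain ⟨g, hg⟩ := (H' x fun j => Nat.pair (f1 j) (f2 j)).1 fun k =>
      ⟨by rw [seg_map]; simpa [seg] using hf1 k, fun e => by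
        by_cases he : e < k
        · left
          dsimp only
          rw [seg_get _ he]
          simpa [he] using hf2 e
        · simp [he]⟩
    exact ⟨_, hg⟩
  · have := (H' x fun j => (F j).unpair.1).2 ⟨fun j => (F j).unpair.2, by simpa using hF⟩
    refine ⟨fun hx => ?_, fun m hp' => ?_⟩
    · obtain ⟨k, hk⟩ := (H x).1 hx fun j => (F j).unpair.1.unpair.1
      exact (this k).1 (by rwa [seg_map])
    · obtain ⟨A, hA, hA'⟩ : ∃ A : ℕ × ℕ → Prop, Sig (m + 1) A ∧ ∀ q, A q ↔ F q.1 = q.2 :=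
        ⟨_, hp', fun _ => Iff.rfl⟩
      have h1 : Sig (m + 1) fun q : ℕ × ℕ => ∃ b, A (q.1, b) ∧ b.unpair.1.unpair.2 = q.2 := by
        fun_prop
      obtain ⟨e, he⟩ := uni_univ m h1
      have h2 : ∀ y, U (Nat.pair m e, y) ↔ (F (Nat.pair m e)).unpair.1.unpair.2 = y := fun y => by
        rw [hU']
        simp only [Nat.unpair_pair]
        rw [← he (Nat.pair m e, y)]
        simp [hA']
      have h3 := (((this (Nat.pair m e + 1)).2 (Nat.pair m e)).resolve_right (by simp)).2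
      dsimp only at h3
      rw [seg_get _ (Nat.lt_succ_self _), hV'] at h3
      rcases h3 with h3 | ⟨y, h3, h4⟩
      · exact h3 ((h2 _).2 rfl)
      · exact h3 ((h2 _).1 h4).symm

theorem tree_all {S : ℕ → Prop} (hS : Pi11 S) : ∃ T : ℕ → List ℕ → Prop,
    (ComputablePred fun p : ℕ × List ℕ => T p.1 p.2) ∧
    (∀ x σ n, T x (σ ++ [n]) → σ.length < n) ∧
    (∀ x, S x → ¬ ∃ σ : ℕ → List ℕ, ∀ j, ∃ n, σ (j + 1) = σ j ++ [n] ∧ T x (σ (j + 1))) ∧
    (∀ x, ¬ S x → ∃ p : ℕ → ℕ, ∀ k, T x (seg p (k + 1))) ∧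
    ∀ x (p : ℕ → ℕ), (∀ k, T x (seg p (k + 1))) → ∀ m, ¬ Sig (m + 1) fun q : ℕ × ℕ => p q.1 = q.2 := by
  obtain ⟨R, hR, h1, h2⟩ := raw_all hS
  have key : ∀ x (p : ℕ → ℕ), (∀ k, Ball (List.range ((seg p (k + 1)).length + 1)) fun j =>
      R (x, ((seg p (k + 1)).take j).map fun z => z.unpair.1)) →
      ∀ k, R (x, seg (fun j => (p j).unpair.1) k) := by
    intro x p h k
    have := h k k (by simp)
    dsimp only at this
    rwa [seg_take _ (by omega), seg_map] at this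
  refine ⟨fun x l => (Ball (List.range (l.length + 1)) fun j =>
      R (x, (l.take j).map fun z => z.unpair.1)) ∧
    Ball (List.range l.length) fun i => i < l[i]?.getD 0, by fun_prop, fun x σ n h => ?_,
    fun x hx ⟨σ, hσ⟩ => ?_, fun x hx => ?_, fun x p hp m hs => ?_⟩
  · simpa using h.2 σ.length (by simp)
  · obtain ⟨F, hF⟩ := branch_of_seq (τ := σ) fun j => (hσ j).imp fun _ h => h.1
    refine (h2 x (fun j => (F j).unpair.1) fun k => ?_).1 hx
    obtain ⟨-, -, h3, -⟩ := hσ k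
    rw [← seg_map (fun z => z.unpair.1), (hF k).2]
    exact h3 k (List.mem_range.2 (Nat.lt_succ_of_le (hF k).1))
  · obtain ⟨F, hF⟩ := h1 x hx
    refine ⟨fun j => Nat.pair (F j) (j + 1), fun k => ⟨fun j hj => ?_, fun i hi => ?_⟩⟩
    · simp only [seg_length, List.mem_range] at hj
      rw [seg_take _ (by omega), seg_map]
      simpa using hF j
    · simp only [seg_length, List.mem_range] at hi
      rw [seg_get _ hi]
      exact Nat.right_le_pair _ _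
  · refine (h2 x _ (key x p fun k => (hp k).1)).2 m ?_
    obtain ⟨A, hA, hA'⟩ : ∃ A : ℕ × ℕ → Prop, Sig (m + 1) A ∧ ∀ q, A q ↔ p q.1 = q.2 :=
      ⟨_, hs, fun _ => Iff.rfl⟩
    have h3 : Sig (m + 1) fun q : ℕ × ℕ => ∃ b, A (q.1, b) ∧ b.unpair.1 = q.2 := by fun_prop
    exact h3.of_eq fun q => by simp [hA']

theorem deltaCat_mono {n n' : ℕ} {L : CLO} (h : DeltaCat n L) (hn : n ≤ n') : DeltaCat n' L :=
  fun M N hM hN => (h M N hM hN).imp fun _ h => ⟨h.1, h.2.mono hn⟩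

theorem hard_all {S : ℕ → Prop} (hS : Pi11 S) : ∃ r : ℕ → ℕ, Computable r ∧ ∀ x, ∃ L : CLO,
    IsIndex (r x) L ∧ (S x → DeltaCat 3 L) ∧ (¬ S x → ∀ n, ¬ DeltaCat n L) := by
  obtain ⟨T, t1, t2, t3, t4, t5⟩ := tree_all hS
  obtain ⟨O, hO⟩ := coding
  obtain ⟨W, w1, w2, w3, w4⟩ := constr O T t1 t2
  obtain ⟨L, r, g, hr, hg, c1, c2, c3⟩ := hO ky ky_inj (by fun_prop) (fun c => Val c 0)
    (fun c => by fun_prop) (fun x => (W x).LabN) w3
  refine ⟨r, hr, fun x => ⟨_, c1 x, fun hx => ?_, fun hx m l1 => ?_⟩⟩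
  · rintro M N ⟨f, hf⟩ ⟨f', hf'⟩
    obtain ⟨e, he⟩ := exists_index M
    obtain ⟨e', he'⟩ := exists_index N
    obtain ⟨G, g1, g2⟩ := w4 x (by rw [Wd.WF, w1]; exact t3 x hx) e e' _ _
      (c2 x false M e f he hf) (c2 x false N e' f' he' hf')
    obtain ⟨J, j1, j2⟩ := (c3 x false false M N e e' f f' G he hf he' hf' g1).2 0 g2
    exact ⟨J, j1, graph_del (n := 2) j2⟩
  · have l2 := deltaCat_mono l1 (show m ≤ m + 3 by omega)
    obtain ⟨p, hp⟩ := t4 x hx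
    have hiso : IsIso (L x false) (L x false) id := isIso_id _
    obtain ⟨Ψ, p1, p2⟩ := Wd.ill_iso (W := W x) (p := p) (by rw [w1]; exact hp)
    obtain ⟨e', he'⟩ := exists_index (L x true)
    obtain ⟨J, hJ⟩ := (c3 x true false _ _ _ _ _ _ _ he' (isIso_id _) (c1 x) (isIso_id _)
      (hiso_of_pi (c2 x true _ _ _ he' (isIso_id _)) (c2 x false _ _ _ (c1 x) (isIso_id _))
        p1.symm p2.symm)).1
    obtain ⟨f, hf, hf', -⟩ := l2 (L x false) (L x true) ⟨_, hiso⟩ ⟨_, isIso_comp hJ hiso⟩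
    classical
    have hf2 : IsIso (L x false) (L x true) fun a => if a ∈ (L x false).dom then f a else 0 :=
      isIso_congr hf fun a ha => by simp [ha]
    obtain ⟨q1, q2⟩ := pi_of_rep (c2 x false _ _ _ (c1 x) (isIso_id _))
      (c2 x true _ _ _ (c1 x) hf2)
    refine (Wd.path_sig (n := m) (by rw [w1]; exact cp_comp t1 (f := fun l => (x, l)) (by fun_prop))
      (w2 x) q1 ?_ q2).elim fun p' h => t5 x p' (by rw [← w1]; exact h.1) _ h.2
    obtain ⟨A, hA, hA'⟩ : ∃ A : ℕ × ℕ → Prop, Sig (m + 4 + 1) A ∧ ∀ p, A p ↔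
      p.1 ∈ (L x false).dom ∧ f p.1 = p.2 := ⟨_, hf'.mono (by omega), fun _ => Iff.rfl⟩
    obtain ⟨D, hD, hD'⟩ : ∃ D : ℕ → Prop, Del (m + 4 + 1) D ∧ ∀ a, D a ↔ a ∈ (L x false).dom :=
      ⟨_, Del.of_comp (L x false).dom_comp, fun _ => Iff.rfl⟩
    obtain ⟨H, hH, hH'⟩ : ∃ H : ℕ × ℕ → Prop, Sig (m + 4 + 1) H ∧ ∀ a b, O.Hd a b ↔ H (a, b) :=
      ⟨_, O.hd_del.sig.mono (by omega), fun _ _ => Iff.rfl⟩
    have : Sig (m + 4 + 1) fun q : Adr × Adr => ∃ a, H (r x, a) ∧ g a = q.1 ∧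
      ((∃ b, A (a, b) ∧ g b = q.2) ∨ (¬ D a ∧ g 0 = q.2)) := by fun_prop
    refine this.of_eq fun q => exists_congr fun a => ?_
    by_cases ha : a ∈ (L x false).dom <;> simp [hA', hD', hH', ha]

end Pool.Agent.Lib.MP_9e2528_lc.T3
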