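import Pool.Agent.Lib.MP_9e2528_lc.T2

set_option autoImplicit false

/-! Valid addresses, intervals and density. -/

namespace Pool.Agent.Lib.MP_9e2528_lc.T3

open Encodable

def mk (b : ℕ) (s : Bool) (ρ : List ℕ) (a : ℕ) : Mv :=
  (b, if ρ = [] then decide (a = 4) else s, ρ, a)

def Mok (μ : Mv) : Prop :=
  μ.2.2.2 < 5 ∧ Imp (μ.2.2.1 = []) (¬ μ.2.2.2 = 3 ∧ μ.2.1 = decide (μ.2.2.2 = 4))

def Bo (μ : Mv) : Prop := μ.2.2.2 = 1 ∨ μ.2.2.2 = 3

/-- the rigid pattern -/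
def dl (n : ℕ) : Bool := decide (n.unpair.1 = 0)

def bt (μ : Mv) : Bool := if μ.2.2.2 = 1 then dl μ.2.2.1.length else μ.2.1

def nx (μ : Mv) : ℕ := if μ.2.2.2 = 1 then 0 else μ.1 + 1

def Val : Bool → ℕ → Adr → Prop
  | c, _, [] => c = false
  | _, b, μ :: w => (b ≤ μ.1 ∧ Mok μ ∧ ¬ Bo μ ∧ w = []) ∨
      ((b ≤ μ.1 ∧ Mok μ ∧ Bo μ) ∧ Val (bt μ) (nx μ) w)

@[simp] theorem val_nil {c : Bool} {b : ℕ} : Val c b [] ↔ c = false := Iff.rfl

theorem val_cons {c : Bool} {b : ℕ} {μ : Mv} {w : Adr} : Val c b (μ :: w) ↔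
    b ≤ μ.1 ∧ Mok μ ∧ ((¬ Bo μ ∧ w = []) ∨ (Bo μ ∧ Val (bt μ) (nx μ) w)) := by
  rw [Val]; tauto

theorem dl_rigid {k : ℕ} (hk : 0 < k) (N : ℕ) : ∃ n, N ≤ n ∧ dl n ≠ dl (n + k) := by
  have h1 : Nat.pair 0 (k + N + 1) + k = Nat.pair k (k + N + 1) := by
    simp [Nat.pair, show k < k + N + 1 by omega]
  refine ⟨Nat.pair 0 (k + N + 1), le_trans (by omega) (Nat.right_le_pair _ _), ?_⟩
  rw [h1]
  simp [dl, hk.ne']

@[simp] theorem mk_lev (b : ℕ) (s : Bool) (ρ : List ℕ) (a : ℕ) : (mk b s ρ a).1 = b := rfl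
@[simp] theorem mk_path (b : ℕ) (s : Bool) (ρ : List ℕ) (a : ℕ) : (mk b s ρ a).2.2.1 = ρ := rfl
@[simp] theorem mk_act (b : ℕ) (s : Bool) (ρ : List ℕ) (a : ℕ) : (mk b s ρ a).2.2.2 = a := rfl
theorem mk_side (b : ℕ) (s : Bool) (ρ : List ℕ) (a : ℕ) :
    (mk b s ρ a).2.1 = if ρ = [] then decide (a = 4) else s := rfl
theorem mk_side_ne {ρ : List ℕ} (h : ρ ≠ []) (b : ℕ) (s : Bool) (a : ℕ) : (mk b s ρ a).2.1 = s := by
  simp [mk, h]
theorem mk_ne {ρ : List ℕ} (h : ρ ≠ []) (b : ℕ) (s : Bool) (a : ℕ) : mk b s ρ a = (b, s, ρ, a) := by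
  simp [mk, h]
theorem mk_nil (b : ℕ) (s : Bool) (a : ℕ) : mk b s [] a = (b, decide (a = 4), [], a) := by simp [mk]

theorem Mok.eq {μ : Mv} (h : Mok μ) : mk μ.1 μ.2.1 μ.2.2.1 μ.2.2.2 = μ := by
  obtain ⟨b, s, ρ, a⟩ := μ
  by_cases hρ : ρ = []
  · have := (h.2 hρ).2
    dsimp only at this
    simp [mk, hρ, this]
  · simp [mk, hρ]

theorem mk_mk (b : ℕ) (s : Bool) (ρ : List ℕ) (a a' : ℕ) :
    mk b (mk b s ρ a).2.1 ρ a' = mk b s ρ a' := by
  by_cases h : ρ = [] <;> simp [mk, h]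

theorem mok_mk {b : ℕ} {s : Bool} {ρ : List ℕ} {a : ℕ} (h : a < 5) (h' : ρ = [] → ¬ a = 3) :
    Mok (mk b s ρ a) := ⟨h, fun h1 => ⟨h' h1, by
      have h2 : ρ = [] := h1
      simp [mk, h2]⟩⟩

theorem Val.mono {c : Bool} {b b' : ℕ} {w : Adr} (h : Val c b w) (hb : b' ≤ b) : Val c b' w := by
  cases w with
  | nil => exact h
  | cons μ w => rw [val_cons] at h ⊢; exact ⟨hb.trans h.1, h.2⟩

theorem Val.raise {c c' : Bool} {b b' : ℕ} {μ : Mv} {w : Adr} (h : Val c b (μ :: w))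
    (hb : b' ≤ μ.1) : Val c' b' (μ :: w) := by
  rw [val_cons] at h ⊢; exact ⟨hb, h.2⟩

theorem Val.lev {c : Bool} {b : ℕ} {μ : Mv} {w : Adr} (h : Val c b (μ :: w)) : b ≤ μ.1 :=
  (val_cons.1 h).1

theorem Val.mok {c : Bool} {b : ℕ} {μ : Mv} {w : Adr} (h : Val c b (μ :: w)) : Mok μ :=
  (val_cons.1 h).2.1

theorem Val.eq_nil {c : Bool} {b : ℕ} {μ : Mv} {w : Adr} (h : Val c b (μ :: w)) (h' : ¬ Bo μ) :
    w = [] := ((val_cons.1 h).2.2.resolve_right fun h1 => h' h1.1).2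

theorem Val.tail {c : Bool} {b : ℕ} {μ : Mv} {w : Adr} (h : Val c b (μ :: w)) (h' : Bo μ) :
    Val (bt μ) (nx μ) w := ((val_cons.1 h).2.2.resolve_left fun h1 => h1.1 h').2

theorem val_mark (c : Bool) {b0 b : ℕ} (hb : b0 ≤ b) (s : Bool) (ρ : List ℕ) {a : ℕ}
    (ha : a = 0 ∨ a = 2 ∨ a = 4) : Val c b0 [mk b s ρ a] :=
  val_cons.2 ⟨hb, mok_mk (by omega) (by omega), Or.inl ⟨by simp [Bo]; omega, rfl⟩⟩

theorem mk_lt_mk (b : ℕ) (s : Bool) (ρ : List ℕ) {a a' : ℕ} (h : a < a') (h' : a' < 5)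
    (w v : Adr) : ky (mk b s ρ a :: w) < ky (mk b s ρ a' :: v) := by
  rw [ky_cons_lt, kv_lt]
  by_cases hρ : ρ = []
  · by_cases h4 : a' = 4
    · simp [mk, hρ, h4, show ¬ a = 4 by omega]
    · simp [mk, hρ, h4, show ¬ a = 4 by omega, h]
  · simp [mk, hρ, h]

theorem fo_squeeze {μ ν μ' : Mv} (h0 : μ.1 = μ'.1) (h1 : μ.2.2.1 = μ'.2.2.1) (h2 : Fo μ ν) :
    ¬ Fo ν μ' := by
  unfold Fo at *
  rintro (h | ⟨h, h'⟩) <;> rcases h2 with h2 | ⟨h2, h2'⟩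
  · omega
  · omega
  · omega
  · exact h2'.asymm (h1 ▸ h')

theorem fo_same {μ ν : Mv} (h0 : μ.1 = ν.1) (h1 : μ.2.2.1 = ν.2.2.1) : ¬ Fo μ ν := by
  unfold Fo
  rw [h0, h1]
  simp [kb_irrefl]

/-- a move between two moves of a period that are on the same side belongs to the period -/
theorem kv_between {μ ν μ' : Mv} (h0 : μ.1 = μ'.1) (h1 : μ.2.2.1 = μ'.2.2.1) (hs : μ.2.1 = μ'.2.1)
    (h : kv μ < kv ν) (h' : kv ν < kv μ') : ν.1 = μ.1 ∧ ν.2.1 = μ.2.1 ∧ ν.2.2.1 = μ.2.2.1 ∧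
      μ.2.2.2 < ν.2.2.2 ∧ ν.2.2.2 < μ'.2.2.2 := by
  rw [kv_lt] at h h'
  obtain ⟨b1, s1, ρ1, a1⟩ := μ
  obtain ⟨b2, s2, ρ2, a2⟩ := μ'
  obtain ⟨b, s, ρ, a⟩ := ν
  dsimp only at h0 h1 hs
  subst h0 h1 hs
  have e1 := @KB.asymm ρ ρ1
  have e2 := kb_irrefl ρ
  cases s1 <;> cases s <;> simp [Fo] at h h' ⊢
  all_goals
    obtain rfl : b = b1 := by omega
    obtain rfl : ρ = ρ1 := by
      by_contra hne
      simp [hne, Ne.symm hne] at h h'
      tauto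
    simp [e2] at h h' ⊢
    omega

theorem mark_lt {c : Bool} {b : ℕ} {μ ν : Mv} {w : Adr} (hv : Val c b (ν :: w)) (hμ : ¬ Bo μ) :
    (ky [μ] < ky (ν :: w) ↔ kv μ < kv ν) ∧ (ky (ν :: w) < ky [μ] ↔ kv ν < kv μ) := by
  rw [ky_cons_lt, ky_cons_lt]
  constructor
  · refine or_iff_left ?_
    rintro ⟨rfl, h⟩
    rw [hv.eq_nil hμ] at h
    exact lt_irrefl _ h
  · refine or_iff_left ?_
    rintro ⟨rfl, h⟩
    rw [hv.eq_nil hμ] at h
    exact lt_irrefl _ h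

theorem intY {c : Bool} {b0 b : ℕ} (hb : b0 ≤ b) (s : Bool) (ρ : List ℕ) (w : Adr) :
    Val c b0 w ∧ ky [mk b s ρ 0] < ky w ∧ ky w < ky [mk b s ρ 2] ↔
      ∃ w', Val (dl ρ.length) 0 w' ∧ w = [mk b s ρ 1] ++ w' := by
  constructor
  · rintro ⟨hv, h1, h2⟩
    cases w with
    | nil =>
      simp only [ky_lt_nil, ky_nil_lt, mk_side] at h1 h2
      split_ifs at h1 h2 <;> simp_all
    | cons ν w =>
      rw [(mark_lt hv (by simp [Bo])).1] at h1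
      rw [(mark_lt hv (by simp [Bo])).2] at h2
      obtain ⟨h3, h4, h5, h6, h7⟩ := kv_between (μ := mk b s ρ 0) (μ' := mk b s ρ 2) rfl rfl
        (by simp [mk_side]) h1 h2
      obtain rfl : ν = mk b s ρ 1 := by
        rw [← hv.mok.eq, h3, h4, h5, show ν.2.2.2 = 1 by simp at h6 h7; omega]
        exact mk_mk _ _ _ _ _
      exact ⟨w, by simpa [bt, nx] using hv.tail (Or.inl rfl), rfl⟩
  · rintro ⟨w', h, rfl⟩
    exact ⟨val_cons.2 ⟨hb, mok_mk (by omega) (by omega), Or.inr ⟨Or.inl rfl, by simpa [bt, nx]⟩⟩,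
      mk_lt_mk _ _ _ (by omega) (by omega) _ _, mk_lt_mk _ _ _ (by omega) (by omega) _ _⟩

/-- the address of the core of a period -/
def cz (b : ℕ) (s : Bool) (ρ : List ℕ) : Adr := if ρ = [] then [] else [mk b s ρ 3]

/-- the bit of the core of a period -/
def cb (c s : Bool) (ρ : List ℕ) : Bool := if ρ = [] then c else s

theorem cen_lt {c : Bool} {b : ℕ} {w : Adr} (h : Val c (b + 1) w) (s : Bool) {a : ℕ}
    (ha : ¬ a = 4) (v : Adr) : ky (mk b s [] a :: v) < ky w := by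
  cases w with
  | nil => simp [mk_nil, ha]
  | cons ν w =>
    have := h.lev
    rw [ky_cons_lt, kv_lt]
    cases hs : ν.2.1 <;> simp [mk_nil, ha, Fo, show b < ν.1 by omega]

theorem lt_cen {c : Bool} {b : ℕ} {w : Adr} (h : Val c (b + 1) w) (s : Bool) (v : Adr) :
    ky w < ky (mk b s [] 4 :: v) := by
  cases w with
  | nil => simp [mk_nil]
  | cons ν w =>
    have := h.lev
    rw [ky_cons_lt, kv_lt]
    cases hs : ν.2.1 <;> simp [mk_nil, Fo, show b < ν.1 by omega]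

theorem intC {c : Bool} {b0 b : ℕ} (hb : b0 ≤ b) (s : Bool) (ρ : List ℕ) (w : Adr) :
    Val c b0 w ∧ ky [mk b s ρ 2] < ky w ∧ ky w < ky [mk b s ρ 4] ↔
      ∃ w', Val (cb c s ρ) (b + 1) w' ∧ w = cz b s ρ ++ w' := by
  by_cases hρ : ρ = []
  · subst hρ
    simp only [cz, cb, if_true, List.nil_append, exists_eq_right']
    refine ⟨?_, fun h => ⟨h.mono (by omega), cen_lt h _ (by omega) _, lt_cen h _ _⟩⟩
    rintro ⟨hv, h1, h2⟩
    cases w with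
    | nil => exact hv
    | cons ν w =>
      rw [(mark_lt hv (by simp [Bo])).1, kv_lt] at h1
      rw [(mark_lt hv (by simp [Bo])).2, kv_lt] at h2
      refine hv.raise ?_
      have h3 := hv.mok
      obtain ⟨b', s', ρ', a'⟩ := ν
      cases s' <;> simp [mk_nil, Fo, Mok, Imp] at h1 h2 h3 ⊢
      · rcases h1 with h1 | ⟨-, h1, h4⟩
        · exact h1
        · have := h3.2 h1
          omega
      · rcases h2 with h2 | ⟨-, h2, h4⟩
        · exact h2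
        · have := h3.2 h2
          omega
  · simp only [cz, cb, if_neg hρ]
    constructor
    · rintro ⟨hv, h1, h2⟩
      cases w with
      | nil =>
        simp only [ky_lt_nil, ky_nil_lt, mk_side_ne hρ] at h1 h2
        simp_all
      | cons ν w =>
        rw [(mark_lt hv (by simp [Bo])).1] at h1
        rw [(mark_lt hv (by simp [Bo])).2] at h2
        obtain ⟨h3, h4, h5, h6, h7⟩ := kv_between (μ := mk b s ρ 2) (μ' := mk b s ρ 4) rfl rfl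
          (by simp [mk_side_ne hρ]) h1 h2
        obtain rfl : ν = mk b s ρ 3 := by
          rw [← hv.mok.eq, h3, h4, h5, show ν.2.2.2 = 3 by simp at h6 h7; omega]
          exact mk_mk _ _ _ _ _
        exact ⟨w, by simpa [bt, nx, mk_side_ne hρ] using hv.tail (Or.inr rfl), rfl⟩
    · rintro ⟨w', h, rfl⟩
      exact ⟨val_cons.2 ⟨hb, mok_mk (by omega) (by simp [hρ]),
        Or.inr ⟨Or.inr rfl, by simpa [bt, nx, mk_side_ne hρ]⟩⟩,
        mk_lt_mk _ _ _ (by omega) (by omega) _ _, mk_lt_mk _ _ _ (by omega) (by omega) _ _⟩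

/-- action of the inner marker of a region -/
def inn (s : Bool) : ℕ := if s = true then 0 else 4
/-- action of the outer marker of a period -/
def oum (s : Bool) : ℕ := if s = true then 4 else 0

theorem inn_mark (s : Bool) : inn s = 0 ∨ inn s = 2 ∨ inn s = 4 := by cases s <;> simp [inn]
theorem oum_mark (s : Bool) : oum s = 0 ∨ oum s = 2 ∨ oum s = 4 := by cases s <;> simp [oum]
theorem mk_oum_side (b : ℕ) (s : Bool) (ρ : List ℕ) : (mk b s ρ (oum s)).2.1 = s := by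
  cases s <;> by_cases h : ρ = [] <;> simp [mk, oum, h]

/-- the first move is at level `b`, on side `s`, and its path satisfies `p` -/
def Fm (b : ℕ) (s : Bool) (p : List ℕ → Prop) (w : Adr) : Prop :=
  ∃ μ w', w = μ :: w' ∧ μ.1 = b ∧ μ.2.1 = s ∧ p μ.2.2.1

theorem zone {c : Bool} {b0 : ℕ} {w : Adr} (hv : Val c b0 w) (b : ℕ) (s : Bool) (g : List ℕ)
    (o : ℕ) : Out s [mk b s (g ++ [o]) (inn s)] w ∧ Out s w [mk b s g (oum s)] ↔
      Fm b s (fun ρ => ∃ o' r, ρ = g ++ o' :: r ∧ o < o') w := by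
  have e1 : (mk b s (g ++ [o]) (inn s)).2.1 = s := mk_side_ne (by simp) _ _ _
  have e2 := mk_oum_side b s g
  constructor
  · rintro ⟨h1, h2⟩
    cases w with
    | nil => cases s <;> simp [Out, e2] at h2
    | cons ν w =>
      have h3 := hv.mok.1
      have m1 := mark_lt (μ := mk b s (g ++ [o]) (inn s)) hv (by cases s <;> simp [Bo, inn])
      have m2 := mark_lt (μ := mk b s g (oum s)) hv (by cases s <;> simp [Bo, oum])
      refine ⟨ν, w, rfl, ?_⟩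
      beta_reduce
      rw [← kb_zone]
      cases s
      · rw [out_false, m1.1, kv_lt, e1] at h1
        rw [out_false, m2.2, kv_lt, e2] at h2
        simp [Fo, inn, oum] at h1 h2
        rcases h1 with h1 | h1 | h1
        · simp [h1] at h2
        · rcases h1.2 with h4 | h4 <;> rcases h2.2 with h5 | h5
          · omega
          · omega
          · omega
          · exact ⟨h5.1, h2.1, h4.2, h5.2⟩
        · omega
      · rw [out_true, m1.2, kv_lt, e1] at h1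
        rw [out_true, m2.1, kv_lt, e2] at h2
        simp [Fo, inn, oum] at h1 h2
        rcases h2 with h2 | h2
        · rcases h1 with h1 | h1
          · simp [h1] at h2
          · rcases h1.2 with h4 | h4 <;> rcases h2.2 with h5 | h5
            · omega
            · omega
            · omega
            · exact ⟨h5.1, h2.1, h4.2, h5.2⟩
        · omega
  · rintro ⟨μ, w', rfl, h1, h2, h3⟩
    rw [← kb_zone] at h3
    exact ⟨out_of_fo e1 h2 (Or.inr ⟨h1.symm, h3.1⟩) _ _, out_of_fo h2 e2 (Or.inr ⟨h1, h3.2⟩) _ _⟩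

/-- regions are convex -/
theorem reg_conv {b : ℕ} {s : Bool} {g : List ℕ} {w w1 w2 : Adr}
    (h1 : Fm b s (fun ρ => ∃ r, ρ = g ++ r) w1) (h2 : Fm b s (fun ρ => ∃ r, ρ = g ++ r) w2)
    (h3 : ¬ Out s w w1) (h4 : ¬ Out s w2 w) : Fm b s (fun ρ => ∃ r, ρ = g ++ r) w := by
  obtain ⟨μ1, v1, rfl, e1, e2, r1, e3⟩ := h1
  obtain ⟨μ2, v2, rfl, e4, e5, r2, e6⟩ := h2
  cases w with
  | nil => cases s <;> simp [Out, e5] at h4
  | cons ν w =>
    have hs : ν.2.1 = s := by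
      by_contra hs
      cases s <;> simp [Out, ky_cons_lt, kv_lt, e5, hs] at h4 hs
    have h5 : ¬ Fo ν μ1 := fun h => h3 (out_of_fo hs e2 h _ _)
    have h6 : ¬ Fo μ2 ν := fun h => h4 (out_of_fo e5 hs h _ _)
    simp only [Fo, not_or, not_and, e1, e3, e4, e6] at h5 h6
    have hb : ν.1 = b := by omega
    exact ⟨ν, w, rfl, hb, hs, kb_conv g (h5.2 hb) (h6.2 hb.symm)⟩

theorem lev_conv {c : Bool} {b b' : ℕ} {w w1 w2 : Adr} (h1 : Val c b w1) (h2 : Val c b w2)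
    (h3 : ¬ ky w < ky w1) (h4 : ¬ ky w2 < ky w) (hv : Val c b' w) : Val c b w := by
  cases w with
  | nil => exact hv
  | cons ν w =>
    refine hv.raise ?_
    by_contra hc
    cases hs : ν.2.1
    · refine h3 ?_
      cases w1 with
      | nil => simpa using hs
      | cons μ w1 =>
        have := h1.lev
        rw [ky_cons_lt, kv_lt]
        cases hs' : μ.2.1 <;> simp [hs, Fo, show ν.1 < μ.1 by omega]
    · refine h4 ?_
      cases w2 with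
      | nil => simpa using hs
      | cons μ w2 =>
        have := h2.lev
        rw [ky_cons_lt, kv_lt]
        cases hs' : μ.2.1 <;> simp [hs, Fo, show ν.1 < μ.1 by omega]

/-- no extreme points -/
theorem Val.out {c : Bool} {b : ℕ} {w : Adr} (h : Val c b w) (s c' : Bool) :
    ∃ u, Val c' b u ∧ Out s u w := by
  cases w with
  | nil => exact ⟨_, val_mark c' le_rfl s [] (oum_mark s), by cases s <;> simp [Out, mk_oum_side]⟩
  | cons μ w =>
    refine ⟨_, val_mark c' le_rfl s (List.replicate (μ.2.2.1.length + 1) 0) (oum_mark s), ?_⟩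
    by_cases hs : μ.2.1 = s
    · refine out_of_fo (mk_oum_side _ _ _) hs ?_ _ _
      rcases h.lev.lt_or_eq with h1 | h1
      · exact Or.inl h1
      · exact Or.inr ⟨h1, kb_zeros _⟩
    · cases s <;> simp [Out, ky_cons_lt, kv_lt, mk_oum_side] at hs ⊢ <;> simp [hs]

theorem Fo.big {μ ν : Mv} (h : Fo μ ν) : ∃ N, ∀ s a, Fo μ (ν.1, s, ν.2.2.1 ++ [N], a) := by
  rcases h with h | ⟨h, h'⟩
  · exact ⟨0, fun _ _ => Or.inl h⟩
  · obtain ⟨N, hN⟩ := h'.big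
    exact ⟨N, fun _ _ => Or.inr ⟨h, hN⟩⟩

theorem kv_act {μ ν : Mv} (h : kv μ < kv ν) {a : ℕ}
    (ha : μ.1 = ν.1 → μ.2.1 = ν.2.1 → μ.2.2.1 = ν.2.2.1 → a < ν.2.2.2) :
    kv (μ.1, μ.2.1, μ.2.2.1, a) < kv ν := by
  rw [kv_lt] at h ⊢
  unfold Fo at *
  tauto

theorem kv_act' {μ ν : Mv} (h : kv μ < kv ν) {a : ℕ}
    (ha : μ.1 = ν.1 → μ.2.1 = ν.2.1 → μ.2.2.1 = ν.2.2.1 → μ.2.2.2 < a) :
    kv μ < kv (ν.1, ν.2.1, ν.2.2.1, a) := by
  rw [kv_lt] at h ⊢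
  unfold Fo at *
  tauto

theorem val_box {c : Bool} {b : ℕ} {μ : Mv} (h : b ≤ μ.1) (h1 : Mok μ) (h2 : Bo μ) :
    Val c b [μ, mk (nx μ) false [] 0] :=
  val_cons.2 ⟨h, h1, Or.inr ⟨h2, val_mark _ le_rfl _ _ (by omega)⟩⟩

theorem dense_mark {c : Bool} {b : ℕ} {μ ν : Mv} (h1 : Val c b [μ]) (h2 : Val c b [ν])
    (h3 : ¬ Bo μ) (h4 : ¬ Bo ν) (h : kv μ < kv ν) :
    ∃ u, Val c b u ∧ ky [μ] < ky u ∧ ky u < ky [ν] := by
  have k1 := h1.mok
  have k2 := h2.mok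
  have l1 := h1.lev
  have l2 := h2.lev
  have fin : ∀ ξ : Mv, b ≤ ξ.1 → Mok ξ → kv μ < kv ξ → kv ξ < kv ν →
      ∃ u, Val c b u ∧ ky [μ] < ky u ∧ ky u < ky [ν] := by
    intro ξ e1 e2 e3 e4
    by_cases hb : Bo ξ
    · exact ⟨_, val_box e1 e2 hb, ky_cons_lt.2 (Or.inl e3), ky_cons_lt.2 (Or.inl e4)⟩
    · exact ⟨[ξ], val_cons.2 ⟨e1, e2, Or.inl ⟨hb, rfl⟩⟩, ky_cons_lt.2 (Or.inl e3),
        ky_cons_lt.2 (Or.inl e4)⟩
  have h' := kv_lt.1 h
  obtain ⟨b1, s1, ρ1, a1⟩ := μ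
  obtain ⟨b2, s2, ρ2, a2⟩ := ν
  simp only [Bo, Mok, Imp, not_or] at h3 h4 k1 k2 l1 l2 h'
  rcases h' with h' | h' | h' | h'
  · exact fin (b1 + b2 + 1, false, [], 0) (by simp; omega) (by simp [Mok, Imp])
      (by simp [kv_lt, h'.1, Fo]) (by simp [kv_lt, h'.2])
  · obtain ⟨N, hN⟩ := h'.2.2.big
    by_cases ha : a2 = 0
    · exact fin (b2, false, ρ2 ++ [N], 0) l2 (by simp [Mok, Imp])
        (kv_lt.2 (Or.inr (Or.inl ⟨h'.1, rfl, hN _ _⟩)))
        (kv_lt.2 (Or.inr (Or.inl ⟨rfl, h'.2.1, Or.inr ⟨rfl, kb_ext _ _ _⟩⟩)))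
    · refine fin (b2, s2, ρ2, 1) l2 ?_ (kv_lt.2 (Or.inr (Or.inl ⟨h'.1, h'.2.1, h'.2.2⟩)))
        (by simp [kv_lt]; omega)
      simp [Mok, Imp, h'.2.1]
  · obtain ⟨N, hN⟩ := h'.2.2.big
    by_cases ha : a1 = 4
    · exact fin (b1, true, ρ1 ++ [N], 0) l1 (by simp [Mok, Imp])
        (kv_lt.2 (Or.inr (Or.inr (Or.inl ⟨h'.1, rfl, Or.inr ⟨rfl, kb_ext _ _ _⟩⟩))))
        (kv_lt.2 (Or.inr (Or.inr (Or.inl ⟨rfl, h'.2.1, hN _ _⟩))))
    · refine fin (b1, s1, ρ1, 3) l1 ?_ (by simp [kv_lt]; omega)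
        (kv_lt.2 (Or.inr (Or.inr (Or.inl ⟨h'.1, h'.2.1, h'.2.2⟩))))
      have : ¬ ρ1 = [] := fun h0 => by simpa [h'.1, ha] using (k1.2 h0).2
      simp [Mok, Imp, this]
  · obtain ⟨rfl, rfl, rfl, h5⟩ := h'
    refine fin (b1, s1, ρ1, a1 + 1) l1 ⟨by simp; omega, fun h0 => ?_⟩ (by simp [kv_lt])
      (by simp [kv_lt]; omega)
    have e1 := (k1.2 h0).2
    have e2 := (k2.2 h0).2
    have e3 : a1 = 4 ↔ a2 = 4 := by simpa using e1.symm.trans e2
    obtain rfl : a1 = 0 := by omega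
    simpa using e1

theorem Val.dense : ∀ {w v : Adr} {c : Bool} {b : ℕ}, Val c b w → Val c b v → ky w < ky v →
    ∃ u, Val c b u ∧ ky w < ky u ∧ ky u < ky v
  | [], [], _, _, _, _, h => absurd h (lt_irrefl _)
  | [], ν :: v, c, b, _, h2, h => by
    refine ⟨_, val_mark c (h2.lev.trans (Nat.le_succ _)) true [] (a := 4) (by omega),
      by simp [mk_nil], ky_cons_lt.2 (Or.inl ?_)⟩
    simp [kv_lt, mk_nil, Fo, ky_nil_lt.1 h]
  | μ :: w, [], c, b, h1, _, h => by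
    refine ⟨_, val_mark c (h1.lev.trans (Nat.le_succ _)) true [] (a := 0) (by omega),
      ky_cons_lt.2 (Or.inl ?_), by simp [mk_nil]⟩
    simp [kv_lt, mk_nil, Fo, ky_lt_nil.1 h]
  | μ :: w, ν :: v, c, b, h1, h2, h => by
    rcases ky_cons_lt.1 h with h3 | ⟨rfl, h3⟩
    · by_cases hμ : Bo μ
      · obtain ⟨u, hu, hu'⟩ := (h1.tail hμ).out true (bt μ)
        exact ⟨μ :: u, val_cons.2 ⟨h1.lev, h1.mok, Or.inr ⟨hμ, hu⟩⟩,
          ky_cons_lt.2 (Or.inr ⟨rfl, out_true.1 hu'⟩), ky_cons_lt.2 (Or.inl h3)⟩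
      by_cases hν : Bo ν
      · obtain ⟨u, hu, hu'⟩ := (h2.tail hν).out false (bt ν)
        exact ⟨ν :: u, val_cons.2 ⟨h2.lev, h2.mok, Or.inr ⟨hν, hu⟩⟩,
          ky_cons_lt.2 (Or.inl h3), ky_cons_lt.2 (Or.inr ⟨rfl, out_false.1 hu'⟩)⟩
      obtain rfl := h1.eq_nil hμ
      obtain rfl := h2.eq_nil hν
      exact dense_mark h1 h2 hμ hν h3
    · by_cases hμ : Bo μ
      · obtain ⟨u, hu, h4, h5⟩ := Val.dense (h1.tail hμ) (h2.tail hμ) h3
        exact ⟨μ :: u, val_cons.2 ⟨h1.lev, h1.mok, Or.inr ⟨hμ, hu⟩⟩,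
          ky_cons_lt.2 (Or.inr ⟨rfl, h4⟩), ky_cons_lt.2 (Or.inr ⟨rfl, h5⟩)⟩
      · rw [h1.eq_nil hμ, h2.eq_nil hμ] at h3
        exact absurd h3 (lt_irrefl _)

/-- the box with address `z`, bit `c` and levels from `b` on -/
def Bx (c : Bool) (z : Adr) (b : ℕ) (y : Adr) : Prop := ∃ w, Val c b w ∧ y = z ++ w

theorem bx_app {c : Bool} {z w : Adr} {b : ℕ} : Bx c z b (z ++ w) ↔ Val c b w :=
  ⟨fun ⟨_, h, he⟩ => List.append_cancel_left he ▸ h, fun h => ⟨w, h, rfl⟩⟩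

theorem bx_intY {c : Bool} {b0 b : ℕ} (hb : b0 ≤ b) (s : Bool) (ρ : List ℕ) (z y : Adr) :
    Bx c z b0 y ∧ ky (z ++ [mk b s ρ 0]) < ky y ∧ ky y < ky (z ++ [mk b s ρ 2]) ↔
      Bx (dl ρ.length) (z ++ [mk b s ρ 1]) 0 y := by
  constructor
  · rintro ⟨⟨w, hw, rfl⟩, h1, h2⟩
    obtain ⟨w', h3, rfl⟩ := (intY hb s ρ w).1 ⟨hw, by simpa using h1, by simpa using h2⟩
    exact ⟨w', h3, by simp⟩
  · rintro ⟨w, hw, rfl⟩
    have := (intY (c := c) hb s ρ _).2 ⟨w, hw, rfl⟩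
    rw [List.append_assoc]
    exact ⟨bx_app.2 this.1, by simpa using this.2⟩

theorem bx_intC {c : Bool} {b0 b : ℕ} (hb : b0 ≤ b) (s : Bool) (ρ : List ℕ) (z y : Adr) :
    Bx c z b0 y ∧ ky (z ++ [mk b s ρ 2]) < ky y ∧ ky y < ky (z ++ [mk b s ρ 4]) ↔
      Bx (cb c s ρ) (z ++ cz b s ρ) (b + 1) y := by
  constructor
  · rintro ⟨⟨w, hw, rfl⟩, h1, h2⟩
    obtain ⟨w', h3, rfl⟩ := (intC hb s ρ w).1 ⟨hw, by simpa using h1, by simpa using h2⟩
    exact ⟨w', h3, by simp⟩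
  · rintro ⟨w, hw, rfl⟩
    have := (intC (c := c) hb s ρ _).2 ⟨w, hw, rfl⟩
    rw [List.append_assoc]
    exact ⟨bx_app.2 this.1, by simpa using this.2⟩

section
variable {α : Type} [Primcodable α]

@[fun_prop] theorem mk_comp {b a : α → ℕ} {s : α → Bool} {ρ : α → List ℕ} (hb : Computable b)
    (hs : Computable s) (hρ : Computable ρ) (ha : Computable a) :
    Computable fun x => mk (b x) (s x) (ρ x) (a x) := by unfold mk; fun_prop
@[fun_prop] theorem mok_comp : ComputablePred Mok := by unfold Mok; fun_prop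
@[fun_prop] theorem bo_comp : ComputablePred Bo := by unfold Bo; fun_prop
@[fun_prop] theorem dl_comp : Computable dl := by unfold dl; fun_prop
@[fun_prop] theorem bt_comp : Computable bt := by unfold bt; fun_prop
@[fun_prop] theorem nx_comp : Computable nx := by unfold nx; fun_prop
@[fun_prop] theorem cz_comp {b : α → ℕ} {s : α → Bool} {ρ : α → List ℕ} (hb : Computable b)
    (hs : Computable s) (hρ : Computable ρ) : Computable fun x => cz (b x) (s x) (ρ x) := by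
  unfold cz; fun_prop

@[fun_prop] theorem val_comp {c : α → Bool} {b : α → ℕ} {w : α → Adr} (hc : Computable c)
    (hb : Computable b) (hw : Computable w) : ComputablePred fun x => Val (c x) (b x) (w x) := by
  have := cp_rec (α := Unit) (P := fun _ (s : Bool × ℕ) (l : Adr) => Val s.1 s.2 l)
    (B := fun _ s => s.1 = false) (A := fun _ s μ w => s.2 ≤ μ.1 ∧ Mok μ ∧ ¬ Bo μ ∧ w = [])
    (C := fun _ s μ _ => s.2 ≤ μ.1 ∧ Mok μ ∧ Bo μ) (g := fun _ _ μ => (bt μ, nx μ))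
    (fun _ _ => Iff.rfl) (fun _ _ _ _ => Iff.rfl) (by fun_prop) (by fun_prop) (by fun_prop)
    (by fun_prop)
  exact cp_comp this (f := fun x => ((), (c x, b x), w x)) (by fun_prop)

end

end Pool.Agent.Lib.MP_9e2528_lc.T3
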