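import Pool.Agent.Lib.MP_9e2528_lc.T3

set_option autoImplicit false

/-! Labels of addresses. -/

namespace Pool.Agent.Lib.MP_9e2528_lc.T3

open Encodable

/-- the guess that owns a level -/
def lam (b : ℕ) : List ℕ := (decode b).getD []
/-- the guess that owns the period of a move -/
def own (μ : Mv) : List ℕ := lam μ.1 ++ μ.2.2.1
def Low (e : ℕ) (ω : List ℕ) : Prop := ω[e]? = some 0
/-- the level is invalid or dead -/
def LD (T : List ℕ → Prop) (D : ℕ → ℕ → Prop) (σ : List ℕ) (b : ℕ) : Prop :=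
  ¬ T (σ ++ [(lam b).length]) ∨ Bex (List.range (lam b).length) fun i => D i ((lam b)[i]?.getD 0)
/-- the move is shown exactly -/
def Ex (T : List ℕ → Prop) (D : ℕ → ℕ → Prop) (e : ℕ) (σ : List ℕ) (μ : Mv) : Prop :=
  LD T D σ μ.1 ∨ Low e (own μ)
/-- the move leads into a dead region -/
def RD (D : ℕ → ℕ → Prop) (μ : Mv) : Prop :=
  Bex (List.range (own μ).length) fun i => (lam μ.1).length ≤ i ∧ D i ((own μ)[i]?.getD 0)
/-- the move leads into a region that is atomised for the player `e` -/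
def At (D : ℕ → ℕ → Prop) (e : ℕ) (μ : Mv) : Prop :=
  Bex (List.range (own μ).length) fun i => (lam μ.1).length ≤ i ∧ D i ((own μ)[i]?.getD 0) ∧
    Imp (Low e (own μ)) (i < e)
def Dag (D : ℕ → ℕ → Prop) (y : Adr) : Prop := Bex y (RD D)
def nrm (μ : Mv) : Mv := mk μ.1 false [] μ.2.2.2
def cnx (σ : List ℕ) (μ : Mv) : List ℕ := if μ.2.2.2 = 1 then σ ++ [(lam μ.1).length] else σ
def cx (σ : List ℕ) (z : Adr) : List ℕ := z.foldl cnx σ
def fm (κ : Adr) : Mv := κ[0]?.getD default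
/-- the labels carried by the atoms of level `b` -/
def Cls (D : ℕ → ℕ → Prop) (e b : ℕ) (κ : Adr) : Prop :=
  κ = [] ∨ b < (fm κ).1 ∨ ((fm κ).1 = b ∧ ((fm κ).2.2.1 = [] ∨ At D e (fm κ)))

/-- the address carries the label `κ` of the player `e` -/
def Lb (T : List ℕ → Prop) (D' D : ℕ → ℕ → Prop) (e : ℕ) : List ℕ → Adr → Adr → Prop
  | _, κ, [] => κ = []
  | σ, κ, μ :: w => ((Ex T D' e σ μ ∧ κ = μ :: w) ∨ (¬ LD T D' σ μ.1 ∧ At D e μ ∧ Cls D e μ.1 κ)) ∨
      ((¬ Ex T D' e σ μ ∧ (μ.2.2.2 = 3 ∨ κ = nrm μ :: κ.drop 1)) ∧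
        Lb T D' D e (cnx σ μ) (if μ.2.2.2 = 3 then κ else κ.drop 1) w)

/-- all moves are erased -/
def Er (T : List ℕ → Prop) (D : ℕ → ℕ → Prop) (e : ℕ) : List ℕ → Adr → Prop
  | _, [] => True
  | σ, μ :: w => ¬ Ex T D e σ μ ∧ Er T D e (cnx σ μ) w

/-- normal form -/
def pi : Adr → Adr
  | [] => []
  | μ :: w => if μ.2.2.2 = 3 then pi w else nrm μ :: pi w

variable {T : List ℕ → Prop} {D D' D'' : ℕ → ℕ → Prop} {e : ℕ}

theorem lam_enc (l : List ℕ) : lam (encode l) = l := by simp [lam]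
theorem enc_lam (b : ℕ) : encode (lam b) = b := by simp [lam, Denumerable.decode_eq_ofNat]

@[simp] theorem fm_cons (μ : Mv) (w : Adr) : fm (μ :: w) = μ := rfl
@[simp] theorem cx_nil (σ : List ℕ) : cx σ [] = σ := rfl
@[simp] theorem cx_cons (σ : List ℕ) (μ : Mv) (w : Adr) : cx σ (μ :: w) = cx (cnx σ μ) w := rfl
theorem cx_app (σ : List ℕ) (z w : Adr) : cx σ (z ++ w) = cx (cx σ z) w := by simp [cx]
@[simp] theorem nrm_lev (μ : Mv) : (nrm μ).1 = μ.1 := rfl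
@[simp] theorem nrm_path (μ : Mv) : (nrm μ).2.2.1 = [] := rfl
@[simp] theorem nrm_act (μ : Mv) : (nrm μ).2.2.2 = μ.2.2.2 := rfl
theorem nrm_mk (b : ℕ) (s : Bool) (ρ : List ℕ) (a : ℕ) : nrm (mk b s ρ a) = mk b false [] a := rfl
theorem own_mk (b : ℕ) (s : Bool) (ρ : List ℕ) (a : ℕ) : own (mk b s ρ a) = lam b ++ ρ := rfl

theorem pi_app (z w : Adr) : pi (z ++ w) = pi z ++ pi w := by
  induction z with
  | nil => rfl
  | cons μ z ih => by_cases h : μ.2.2.2 = 3 <;> simp [pi, h, ih]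

theorem cx_pi (σ : List ℕ) (z : Adr) : cx σ (pi z) = cx σ z := by
  induction z generalizing σ with
  | nil => rfl
  | cons μ z ih => by_cases h : μ.2.2.2 = 3 <;> simp [pi, h, ih, cnx]

theorem cx_eq {z z' : Adr} (h : pi z = pi z') (σ : List ℕ) : cx σ z = cx σ z' := by
  rw [← cx_pi, h, cx_pi]

theorem pi_cz (b : ℕ) (s : Bool) (ρ : List ℕ) : pi (cz b s ρ) = [] := by
  unfold cz
  split_ifs <;> simp [pi]

theorem low_app {l : List ℕ} (h : Low e l) (r : List ℕ) : Low e (l ++ r) := by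
  have h1 : e < l.length := by
    by_contra hc
    simp [Low, List.getElem?_eq_none (not_lt.1 hc)] at h
  rwa [Low, List.getElem?_append_left h1]

theorem Low.lt {l : List ℕ} (h : Low e l) : e < l.length := by
  by_contra hc
  simp [Low, List.getElem?_eq_none (not_lt.1 hc)] at h

theorem At.rd {μ : Mv} (h : At D e μ) : RD D μ := by
  obtain ⟨i, hi, h1, h2, -⟩ := h
  exact ⟨i, hi, h1, h2⟩

theorem not_at_of_low {μ : Mv} (h : Low e (lam μ.1)) : ¬ At D e μ := by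
  rintro ⟨i, -, h1, -, h2⟩
  have := h2 (low_app h _)
  have := h.lt
  omega

theorem not_rd_nil {μ : Mv} (h : μ.2.2.1 = []) : ¬ RD D μ := by
  rintro ⟨i, hi, h1, -⟩
  simp [own, h] at hi
  omega

theorem LD.mono {σ : List ℕ} {b : ℕ} (h : LD T D σ b) (hD : ∀ i o, D i o → D' i o) :
    LD T D' σ b := h.imp id fun ⟨i, hi, h⟩ => ⟨i, hi, hD _ _ h⟩
theorem Ex.mono {σ : List ℕ} {μ : Mv} (h : Ex T D e σ μ) (hD : ∀ i o, D i o → D' i o) :
    Ex T D' e σ μ := h.imp (fun h => h.mono hD) id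
theorem RD.mono {μ : Mv} (h : RD D μ) (hD : ∀ i o, D i o → D' i o) : RD D' μ :=
  let ⟨i, hi, h1, h⟩ := h; ⟨i, hi, h1, hD _ _ h⟩
theorem At.mono {μ : Mv} (h : At D e μ) (hD : ∀ i o, D i o → D' i o) : At D' e μ :=
  let ⟨i, hi, h1, h, h2⟩ := h; ⟨i, hi, h1, hD _ _ h, h2⟩
theorem Dag.mono {y : Adr} (h : Dag D y) (hD : ∀ i o, D i o → D' i o) : Dag D' y :=
  let ⟨μ, hμ, h⟩ := h; ⟨μ, hμ, h.mono hD⟩
theorem Cls.mono {b : ℕ} {κ : Adr} (h : Cls D e b κ) (hD : ∀ i o, D i o → D' i o) :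
    Cls D' e b κ := h.imp id (Or.imp id (And.imp id (Or.imp id fun h => h.mono hD)))

theorem dag_app {z w : Adr} : Dag D (z ++ w) ↔ Dag D z ∨ Dag D w := by
  simp [Dag, Bex, or_and_right, exists_or]
theorem dag_cons {μ : Mv} {w : Adr} : Dag D (μ :: w) ↔ RD D μ ∨ Dag D w := by simp [Dag, Bex]
theorem not_dag_nil : ¬ Dag D [] := by simp [Dag, Bex]
theorem not_dag_bot (y : Adr) : ¬ Dag (fun _ _ => False) y := by simp [Dag, RD, Bex]

theorem Er.anti {σ : List ℕ} {z : Adr} (h : Er T D' e σ z) (hD : ∀ i o, D i o → D' i o) :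
    Er T D e σ z := by
  induction z generalizing σ with
  | nil => trivial
  | cons μ z ih => exact ⟨fun h1 => h.1 (h1.mono hD), ih h.2⟩

theorem er_app {σ : List ℕ} {z w : Adr} :
    Er T D e σ (z ++ w) ↔ Er T D e σ z ∧ Er T D e (cx σ z) w := by
  induction z generalizing σ with
  | nil => simp [Er]
  | cons μ z ih => simp [Er, ih, and_assoc]

theorem lb_nil {σ : List ℕ} {κ : Adr} : Lb T D' D e σ κ [] ↔ κ = [] := Iff.rfl

theorem lb_cons {σ : List ℕ} {κ w : Adr} {μ : Mv} : Lb T D' D e σ κ (μ :: w) ↔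
    (Ex T D' e σ μ ∧ κ = μ :: w) ∨ (¬ LD T D' σ μ.1 ∧ At D e μ ∧ Cls D e μ.1 κ) ∨
      (¬ Ex T D' e σ μ ∧ μ.2.2.2 = 3 ∧ Lb T D' D e σ κ w) ∨
      (¬ Ex T D' e σ μ ∧ ¬ μ.2.2.2 = 3 ∧ ∃ κ', κ = nrm μ :: κ' ∧ Lb T D' D e (cnx σ μ) κ' w) := by
  rw [Lb, or_assoc]
  refine or_congr_right (or_congr_right ?_)
  by_cases h : μ.2.2.2 = 3
  · simp [h, cnx]
  · simp only [h, false_or, if_false, false_and, and_false, not_false_eq_true, true_and, and_assoc]
    refine and_congr_right fun _ => ⟨fun h1 => ⟨_, h1⟩, ?_⟩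
    rintro ⟨κ', rfl, h1⟩
    exact ⟨rfl, h1⟩

theorem Lb.mono {σ : List ℕ} {κ y : Adr} (h : Lb T D' D e σ κ y) (hD : ∀ i o, D i o → D'' i o) :
    Lb T D' D'' e σ κ y := by
  induction y generalizing σ κ with
  | nil => exact h
  | cons μ y ih =>
    exact h.imp (Or.imp id (And.imp id (And.imp (fun h => h.mono hD) fun h => h.mono hD)))
      (And.imp id ih)

theorem lb_exists (σ : List ℕ) (y : Adr) : ∃ κ, Lb T D' D e σ κ y := by
  induction y generalizing σ with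
  | nil => exact ⟨[], rfl⟩
  | cons μ y ih =>
    simp only [lb_cons]
    by_cases h : Ex T D' e σ μ
    · exact ⟨_, Or.inl ⟨h, rfl⟩⟩
    by_cases h3 : μ.2.2.2 = 3
    · obtain ⟨κ, hκ⟩ := ih σ
      exact ⟨κ, Or.inr (Or.inr (Or.inl ⟨h, h3, hκ⟩))⟩
    · obtain ⟨κ, hκ⟩ := ih (cnx σ μ)
      exact ⟨_, Or.inr (Or.inr (Or.inr ⟨h, h3, κ, rfl, hκ⟩))⟩

/-- an erased live start only contributes its normal form -/
theorem lb_strip {σ : List ℕ} {κ z w : Adr} (h1 : Er T D' e σ z) (h2 : ¬ Dag D z) :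
    Lb T D' D e σ κ (z ++ w) ↔ ∃ κ', κ = pi z ++ κ' ∧ Lb T D' D e (cx σ z) κ' w := by
  induction z generalizing σ κ with
  | nil => simp [pi]
  | cons μ z ih =>
    rw [dag_cons, not_or] at h2
    have h3 : ¬ At D e μ := fun h => h2.1 h.rd
    rw [List.cons_append, lb_cons]
    by_cases h : μ.2.2.2 = 3
    · simp [h1.1, h3, h, pi, cnx, ih (by simpa [cnx, h] using h1.2) h2.2]
    · simp only [h1.1, h3, h, pi, ih h1.2 h2.2, false_and, and_false, false_or, not_false_eq_true,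
        true_and, if_false, cx_cons, List.cons_append]
      constructor
      · rintro ⟨_, rfl, κ', rfl, h4⟩
        exact ⟨κ', rfl, h4⟩
      · rintro ⟨κ', rfl, h4⟩
        exact ⟨_, rfl, κ', rfl, h4⟩

theorem lb_strip' {σ : List ℕ} {κ z w : Adr} (h1 : Er T D' e σ z) (h2 : ¬ Dag D z) :
    Lb T D' D e σ (pi z ++ κ) (z ++ w) ↔ Lb T D' D e (cx σ z) κ w := by
  simp [lb_strip h1 h2]

theorem lb_clone {σ : List ℕ} {κ z z' w : Adr} (h1 : Er T D' e σ z) (h2 : ¬ Dag D z)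
    (h1' : Er T D' e σ z') (h2' : ¬ Dag D z') (h : pi z = pi z') :
    Lb T D' D e σ κ (z ++ w) ↔ Lb T D' D e σ κ (z' ++ w) := by
  rw [lb_strip h1 h2, lb_strip h1' h2', h, cx_eq h]

/-- labels do not go below the level of the box -/
theorem Lb.lev {σ : List ℕ} {ν : Mv} {κ w : Adr} {c : Bool} {b : ℕ} (h : Lb T D' D e σ (ν :: κ) w)
    (hv : Val c b w) : b ≤ ν.1 := by
  induction w generalizing c b with
  | nil => exact absurd h (by simp [lb_nil])
  | cons μ w ih =>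
    have := hv.lev
    rcases lb_cons.1 h with h | h | h | h
    · rwa [(List.cons.inj h.2).1]
    · rcases h.2.2 with h | h | h
      · simp at h
      · simp at h; omega
      · have := h.1
        simp at this; omega
    · have := ih h.2.2 (hv.tail (Or.inr h.2.1))
      simp [nx, h.2.1] at this
      omega
    · obtain ⟨κ', h1, -⟩ := h.2.2
      rwa [(List.cons.inj h1).1]

/-- the whole level is shown exactly -/
def FE (T : List ℕ → Prop) (D : ℕ → ℕ → Prop) (e : ℕ) (σ : List ℕ) (b : ℕ) : Prop :=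
  LD T D σ b ∨ Low e (lam b)

theorem FE.ex {σ : List ℕ} {μ : Mv} (h : FE T D e σ μ.1) : Ex T D e σ μ :=
  h.imp id fun h => low_app h _

theorem FE.mono {σ : List ℕ} {b : ℕ} (h : FE T D e σ b) (hD : ∀ i o, D i o → D' i o) :
    FE T D' e σ b := h.imp (fun h => h.mono hD) id

theorem Ex.fe {σ : List ℕ} {μ : Mv} (h : Ex T D e σ μ) (h' : μ.2.2.1 = []) : FE T D e σ μ.1 :=
  h.imp id fun h => by simpa [own, h'] using h

/-- an exact label determines its point unless it is also given to atoms -/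
theorem Lb.uniq {σ : List ℕ} {μ : Mv} {κ w : Adr} {c : Bool} {b : ℕ}
    (h : Lb T D' D e σ (μ :: κ) w) (hv : Val c b w)
    (h1 : ∀ b', b ≤ b' → b' < μ.1 → FE T D' e σ b') (h2 : Ex T D' e σ μ) :
    w = μ :: κ ∨ (Dag D w ∧ At D e μ ∧ ¬ LD T D' σ μ.1) := by
  cases w with
  | nil => exact absurd h (by simp [lb_nil])
  | cons ν w =>
    have hl := hv.lev
    have key : ¬ LD T D' σ ν.1 → At D e ν → ¬ FE T D' e σ ν.1 := fun h3 h4 h5 =>
      h5.elim h3 fun h5 => not_at_of_low h5 h4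
    rcases lb_cons.1 h with h | h | h | h
    · exact Or.inl h.2.symm
    · rcases h.2.2 with h3 | h3 | ⟨h3, h4 | h4⟩
      · simp at h3
      · exact absurd (h1 _ hl h3) (key h.1 h.2.1)
      · exact absurd (h3 ▸ h2.fe h4) (key h.1 h.2.1)
      · exact Or.inr ⟨dag_cons.2 (Or.inl h.2.1.rd), h4, fun h5 => h.1 (h3 ▸ h5)⟩
    · have h3 := h.2.2.lev (hv.tail (Or.inr h.2.1))
      simp [nx, h.2.1] at h3
      exact absurd (h1 _ hl h3).ex h.1
    · obtain ⟨κ', h3, -⟩ := h.2.2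
      obtain rfl := (List.cons.inj h3).1
      exact absurd (FE.ex (μ := ν) (h2.fe rfl)) h.1

/-- a live point with the label of a marker is a marker -/
theorem Lb.mark {σ : List ℕ} {w : Adr} {c : Bool} {b a : ℕ}
    (h : Lb T D' D e σ [mk b false [] a] w) (hv : Val c b w) (ha : a = 0 ∨ a = 2 ∨ a = 4)
    (hd : ¬ Dag D w) : ∃ s ρ, w = [mk b s ρ a] ∧ (ρ = [] ∨ ¬ Ex T D' e σ (mk b s ρ a)) := by
  cases w with
  | nil => exact absurd h (by simp [lb_nil])
  | cons ν w =>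
    have hl := hv.lev
    rcases lb_cons.1 h with h | h | h | h
    · exact ⟨false, [], h.2.symm, Or.inl rfl⟩
    · exact absurd (dag_cons.2 (Or.inl h.2.1.rd)) hd
    · have h3 := h.2.2.lev (hv.tail (Or.inr h.2.1))
      simp [nx, h.2.1] at h3
      omega
    · obtain ⟨κ', h3, -⟩ := h.2.2
      have h4 := (List.cons.inj h3).1
      have h5 : b = ν.1 := congrArg (·.1) h4
      have h6 : a = ν.2.2.2 := congrArg (·.2.2.2) h4
      have h7 := hv.mok.eq
      rw [← h5, ← h6] at h7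
      exact ⟨_, _, by rw [h7, hv.eq_nil (by unfold Bo; omega)], Or.inr (h7.symm ▸ h.1)⟩

/-- the label of a marker -/
theorem lb_mark (σ : List ℕ) (b : ℕ) (s : Bool) {ρ : List ℕ} {a : ℕ} (ha : ¬ a = 3)
    (h : ρ = [] ∨ ¬ Ex T D' e σ (mk b s ρ a)) : Lb T D' D e σ [mk b false [] a] [mk b s ρ a] := by
  rw [lb_cons]
  by_cases h1 : Ex T D' e σ (mk b s ρ a)
  · obtain rfl := h.resolve_right (not_not.2 h1)
    exact Or.inl ⟨h1, by simp [mk_nil]⟩
  · exact Or.inr (Or.inr (Or.inr ⟨h1, ha, [], rfl, rfl⟩))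

/-- the own label of a marker -/
theorem Lb.of_mark {σ : List ℕ} {κ : Adr} {b a : ℕ} {s : Bool} {ρ : List ℕ} (ha : ¬ a = 3)
    (h : Lb T D' (fun _ _ => False) e σ κ [mk b s ρ a]) : ∃ ν : Mv, κ = [ν] ∧ ν.1 = b ∧ ν.2.2.2 = a := by
  rcases lb_cons.1 h with h | h | h | h
  · exact ⟨_, h.2, rfl, rfl⟩
  · exact absurd (dag_cons.2 (Or.inl h.2.1.rd)) (not_dag_bot [_])
  · exact absurd h.2.1 ha
  · obtain ⟨κ', h1, h2⟩ := h.2.2
    exact ⟨_, by rw [h1, lb_nil.1 h2], rfl, rfl⟩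

theorem Lb.of_ex {σ : List ℕ} {κ w : Adr} {μ : Mv} (h : Lb T D' (fun _ _ => False) e σ κ (μ :: w))
    (hx : Ex T D' e σ μ) : κ = μ :: w := by
  rcases lb_cons.1 h with h | h | h | h
  · exact h.2
  · exact absurd (dag_cons.2 (Or.inl h.2.1.rd)) (not_dag_bot [_])
  · exact absurd hx h.1
  · exact absurd hx h.1

/-- the labels of an atom -/
theorem lb_atom {σ : List ℕ} {κ w : Adr} {μ : Mv} {c : Bool} {b : ℕ} (hv : Val c b (μ :: w))
    (h1 : ¬ LD T D' σ μ.1) (h2 : At D e μ) : Lb T D' D e σ κ (μ :: w) ↔ Cls D e μ.1 κ := by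
  refine ⟨fun h => ?_, fun h => lb_cons.2 (Or.inr (Or.inl ⟨h1, h2, h⟩))⟩
  rcases lb_cons.1 h with h | h | h | h
  · rw [h.2]
    exact Or.inr (Or.inr ⟨rfl, Or.inr h2⟩)
  · exact h.2.2
  · cases κ with
    | nil => exact Or.inl rfl
    | cons ν κ =>
      have h3 := h.2.2.lev (hv.tail (Or.inr h.2.1))
      simp [nx, h.2.1] at h3
      exact Or.inr (Or.inl h3)
  · obtain ⟨κ', rfl, -⟩ := h.2.2
    exact Or.inr (Or.inr ⟨rfl, Or.inl rfl⟩)

section
variable {α : Type} [Primcodable α] {T : α → List ℕ → Prop} {D D' : α → ℕ → ℕ → Prop}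
  {e b : α → ℕ} {σ : α → List ℕ} {μ : α → Mv} {y κ : α → Adr}

@[fun_prop] theorem lam_comp : Computable lam := by unfold lam; fun_prop
@[fun_prop] theorem own_comp : Computable own := by unfold own; fun_prop
@[fun_prop] theorem nrm_comp : Computable nrm := by unfold nrm; fun_prop
@[fun_prop] theorem fm_comp : Computable fm := by unfold fm; fun_prop
@[fun_prop] theorem low_comp (he : Computable e) (hσ : Computable σ) :
    ComputablePred fun x => Low (e x) (σ x) := by unfold Low; fun_prop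
@[fun_prop] theorem cnx_comp (hσ : Computable σ) (hμ : Computable μ) :
    Computable fun x => cnx (σ x) (μ x) := by unfold cnx; fun_prop

theorem ld_comp (hT : ComputablePred fun p : α × List ℕ => T p.1 p.2)
    (hD : ComputablePred fun p : α × ℕ × ℕ => D p.1 p.2.1 p.2.2) :
    ComputablePred fun p : α × List ℕ × ℕ => LD (T p.1) (D p.1) p.2.1 p.2.2 := by
  obtain ⟨T', hT', rfl⟩ : ∃ T' : α × List ℕ → Prop, ComputablePred T' ∧ T = fun a l => T' (a, l) :=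
    ⟨_, hT, rfl⟩
  obtain ⟨D', hD', rfl⟩ : ∃ D' : α × ℕ × ℕ → Prop, ComputablePred D' ∧
    D = fun a i o => D' (a, i, o) := ⟨_, hD, rfl⟩
  unfold LD
  fun_prop

theorem at_comp (hD : ComputablePred fun p : α × ℕ × ℕ => D p.1 p.2.1 p.2.2) :
    ComputablePred fun p : α × ℕ × Mv => At (D p.1) p.2.1 p.2.2 := by
  obtain ⟨D', hD', rfl⟩ : ∃ D' : α × ℕ × ℕ → Prop, ComputablePred D' ∧
    D = fun a i o => D' (a, i, o) := ⟨_, hD, rfl⟩
  unfold At
  fun_prop

theorem dag_comp (hD : ComputablePred fun p : α × ℕ × ℕ => D p.1 p.2.1 p.2.2) :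
    ComputablePred fun p : α × Adr => Dag (D p.1) p.2 := by
  obtain ⟨D', hD', rfl⟩ : ∃ D' : α × ℕ × ℕ → Prop, ComputablePred D' ∧
    D = fun a i o => D' (a, i, o) := ⟨_, hD, rfl⟩
  unfold Dag RD
  fun_prop

theorem lb_comp (hT : ComputablePred fun p : α × List ℕ => T p.1 p.2)
    (hD' : ComputablePred fun p : α × ℕ × ℕ => D' p.1 p.2.1 p.2.2)
    (hD : ComputablePred fun p : α × ℕ × ℕ => D p.1 p.2.1 p.2.2) (he : Computable e) :
    ComputablePred fun p : α × (List ℕ × Adr) × Adr =>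
      Lb (T p.1) (D' p.1) (D p.1) (e p.1) p.2.1.1 p.2.1.2 p.2.2 := by
  obtain ⟨L, hL, eL⟩ : ∃ L : α × List ℕ × ℕ → Prop, ComputablePred L ∧
    ∀ a σ b, LD (T a) (D' a) σ b ↔ L (a, σ, b) := ⟨_, ld_comp hT hD', fun _ _ _ => Iff.rfl⟩
  obtain ⟨A, hA, eA⟩ : ∃ A : α × ℕ × Mv → Prop, ComputablePred A ∧
    ∀ a e μ, At (D a) e μ ↔ A (a, e, μ) := ⟨_, at_comp hD, fun _ _ _ => Iff.rfl⟩
  refine cp_rec (P := fun a (s : List ℕ × Adr) (l : Adr) => Lb (T a) (D' a) (D a) (e a) s.1 s.2 l)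
    (B := fun _ s => s.2 = [])
    (A := fun a s μ w => (Ex (T a) (D' a) (e a) s.1 μ ∧ s.2 = μ :: w) ∨
      (¬ LD (T a) (D' a) s.1 μ.1 ∧ At (D a) (e a) μ ∧ Cls (D a) (e a) μ.1 s.2))
    (C := fun a s μ _ => ¬ Ex (T a) (D' a) (e a) s.1 μ ∧ (μ.2.2.2 = 3 ∨ s.2 = nrm μ :: s.2.drop 1))
    (g := fun _ s μ => (cnx s.1 μ, if μ.2.2.2 = 3 then s.2 else s.2.drop 1))
    (fun _ _ => Iff.rfl) (fun _ _ _ _ => Iff.rfl) (by fun_prop) ?_ ?_ (by fun_prop)
  · simp only [Ex, Cls, eL, eA]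
    fun_prop
  · simp only [Ex, eL]
    fun_prop

end

end Pool.Agent.Lib.MP_9e2528_lc.T3
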