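import Pool.Agent.Lib.MP_9e2528_lc.T4

set_option autoImplicit false

/-! The labels in the limit; true objects. -/

namespace Pool.Agent.Lib.MP_9e2528_lc.T3

open Encodable

abbrev Lbl := Bool × ℕ × ℕ × Adr

/-- the outcome of the construction: tree, true path, dead entries by stage, lasting indices -/
structure Wd where
  intro ::
  T : List ℕ → Prop
  tp : ℕ → ℕ
  D : ℕ → ℕ → ℕ → Prop
  NE : ℕ → ℕ → Prop
  t_len : ∀ σ n, T (σ ++ [n]) → σ.length < n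
  d_sub : ∀ u i o, D u i o → o ≠ 0 ∧ o ≠ tp i
  d_ev : ∀ i o, o ≠ 0 → o ≠ tp i → ∃ u, D u i o
  d_mono : ∀ u v i o, u ≤ v → D u i o → D v i o
  ne_tp : ∀ e u, NE e u → tp e ≠ 0
  ne_ex : ∀ e, tp e ≠ 0 → ∃ u, NE e u
  ne_zero : ∀ u, NE 0 u

namespace Wd

variable (W : Wd)

/-- entries that die -/
def Di (i o : ℕ) : Prop := o ≠ 0 ∧ o ≠ W.tp i

def Lab (y : Adr) (l : Lbl) : Prop :=
  (l.1 = true ∧ Dag W.Di y) ∨
    (l.1 = false ∧ (¬ W.NE l.2.1 l.2.2.1 ∨ Lb W.T (W.D l.2.2.1) W.Di l.2.1 [] l.2.2.2 y))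

def Same (y y' : Adr) : Prop := ∀ l, W.Lab y l ↔ W.Lab y' l

/-- the level is true in the context -/
def TrL (σ : List ℕ) (b : ℕ) : Prop :=
  W.T (σ ++ [(lam b).length]) ∧ lam b = seg W.tp (lam b).length

/-- the true path after the owner of the level -/
def tps (b k : ℕ) : List ℕ := seg (fun i => W.tp ((lam b).length + i)) k

def TrM (σ : List ℕ) (μ : Mv) : Prop := W.TrL σ μ.1 ∧ μ.2.2.1 = W.tps μ.1 μ.2.2.1.length

def Tr : List ℕ → Adr → Prop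
  | _, [] => True
  | σ, μ :: w => W.TrM σ μ ∧ Tr (cnx σ μ) w

/-- true clones -/
def Cl (z z' : Adr) : Prop := W.Tr [] z ∧ W.Tr [] z' ∧ pi z = pi z'

/-- the move with action `a` of the true period number `j` -/
def Pm (b : ℕ) (j : ℤ) (a : ℕ) : Mv := mk b (decide (0 < j)) (W.tps b j.natAbs) a

/-- the true markers -/
def P (b : ℕ) (n : ℤ) : Mv := W.Pm b (n / 3) (2 * (n % 3).toNat)

/-- order preserving and label preserving relations -/
def PI (Ψ : Adr → Adr → Prop) : Prop :=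
  (∀ y y', Ψ y y' → W.Same y y') ∧ ∀ y y' x x', Ψ y y' → Ψ x x' → (ky y < ky x ↔ ky y' < ky x')

end Wd

def Onto (Ψ : Adr → Adr → Prop) (C C' : Adr → Prop) : Prop :=
  (∀ y, C y → ∃ y', C' y' ∧ Ψ y y') ∧ ∀ y', C' y' → ∃ y, C y ∧ Ψ y y'

variable {W : Wd}

theorem Wd.Same.symm {y y' : Adr} (h : W.Same y y') : W.Same y' y := fun l => (h l).symm
theorem Wd.Same.trans {x y z : Adr} (h : W.Same x y) (h' : W.Same y z) : W.Same x z :=
  fun l => (h l).trans (h' l)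
theorem Wd.same_refl (y : Adr) : W.Same y y := fun _ => Iff.rfl

theorem Wd.PI.symm {Ψ : Adr → Adr → Prop} (h : W.PI Ψ) : W.PI fun y y' => Ψ y' y :=
  ⟨fun _ _ h1 => (h.1 _ _ h1).symm, fun _ _ _ _ h1 h2 => (h.2 _ _ _ _ h1 h2).symm⟩

theorem Wd.PI.eq_iff {Ψ : Adr → Adr → Prop} (h : W.PI Ψ) {y y' x x' : Adr} (h1 : Ψ y y')
    (h2 : Ψ x x') : y = x ↔ y' = x' := by
  have h3 := h.2 _ _ _ _ h1 h2
  have h4 := h.2 _ _ _ _ h2 h1
  constructor
  · rintro rfl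
    exact ky_inj (le_antisymm (not_lt.1 fun h => lt_irrefl _ (h4.2 h))
      (not_lt.1 fun h => lt_irrefl _ (h3.2 h)))
  · rintro rfl
    exact ky_inj (le_antisymm (not_lt.1 fun h => lt_irrefl _ (h4.1 h))
      (not_lt.1 fun h => lt_irrefl _ (h3.1 h)))

theorem Onto.symm {Ψ : Adr → Adr → Prop} {C C' : Adr → Prop} (h : Onto Ψ C C') :
    Onto (fun y y' => Ψ y' y) C' C := ⟨h.2, h.1⟩

theorem Wd.Cl.symm {z z' : Adr} (h : W.Cl z z') : W.Cl z' z := ⟨h.2.1, h.1, h.2.2.symm⟩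

theorem Wd.d_di (W : Wd) (u : ℕ) : ∀ i o, W.D u i o → W.Di i o := W.d_sub u

theorem Wd.same_dag {y y' : Adr} (h : W.Same y y') : Dag W.Di y ↔ Dag W.Di y' := by
  simpa [Wd.Lab] using h (true, 0, 0, [])

theorem Wd.same_lb {y y' κ : Adr} {e u : ℕ} (h : W.Same y y') (hn : W.NE e u) :
    Lb W.T (W.D u) W.Di e [] κ y ↔ Lb W.T (W.D u) W.Di e [] κ y' := by
  simpa [Wd.Lab, hn] using h (false, e, u, κ)

theorem Wd.same_of {y y' : Adr} (h1 : Dag W.Di y ↔ Dag W.Di y')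
    (h2 : ∀ e u κ, W.NE e u → (Lb W.T (W.D u) W.Di e [] κ y ↔ Lb W.T (W.D u) W.Di e [] κ y')) :
    W.Same y y' := by
  rintro ⟨t, e, u, κ⟩
  by_cases hn : W.NE e u
  · simp [Wd.Lab, h1, hn, h2 e u κ hn]
  · simp [Wd.Lab, h1, hn]

@[simp] theorem Wd.tps_len (b k : ℕ) : (W.tps b k).length = k := by simp [Wd.tps]
@[simp] theorem Wd.tps_zero (b : ℕ) : W.tps b 0 = [] := rfl
theorem Wd.tps_succ (b k : ℕ) : W.tps b (k + 1) = W.tps b k ++ [W.tp ((lam b).length + k)] :=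
  seg_succ _ _
theorem Wd.tps_eq_nil {b k : ℕ} : W.tps b k = [] ↔ k = 0 := by
  rw [← List.length_eq_zero_iff, Wd.tps_len]

theorem Wd.tps_le (b : ℕ) {k k' : ℕ} (h : k ≤ k') : ∃ r, W.tps b k' = W.tps b k ++ r := by
  induction h with
  | refl => exact ⟨[], by simp⟩
  | step _ ih =>
    obtain ⟨r, hr⟩ := ih
    exact ⟨_, by rw [Wd.tps_succ, hr, List.append_assoc]⟩

theorem Wd.tps_kb (b : ℕ) {k k' : ℕ} (h : k < k') : KB (W.tps b k') (W.tps b k) := by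
  obtain ⟨r, hr⟩ := W.tps_le b (show k + 1 ≤ k' from h)
  rw [hr, Wd.tps_succ, List.append_assoc]
  exact kb_ext _ _ _

/-- a path follows the true path or leaves it at a first place -/
theorem Wd.path_cases (W : Wd) (b : ℕ) (ρ : List ℕ) : ρ = W.tps b ρ.length ∨
    ∃ k o r, ρ = W.tps b k ++ o :: r ∧ o ≠ W.tp ((lam b).length + k) := by
  induction ρ using List.reverseRecOn with
  | nil => exact Or.inl rfl
  | append_singleton ρ o ih =>
    rcases ih with h | ⟨k, o', r, h, h'⟩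
    · by_cases ho : o = W.tp ((lam b).length + ρ.length)
      · left
        rw [List.length_append, List.length_singleton, Wd.tps_succ, ← h, ho]
      · exact Or.inr ⟨_, o, [], by rw [← h], ho⟩
    · exact Or.inr ⟨k, o', r ++ [o], by simp [h], h'⟩

theorem seg_add (f : ℕ → ℕ) (n k : ℕ) : seg f (n + k) = seg f n ++ seg (fun i => f (n + i)) k := by
  simp [seg, List.range_add]

theorem Wd.TrL.own_eq {σ : List ℕ} {b : ℕ} (h : W.TrL σ b) (k : ℕ) :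
    lam b ++ W.tps b k = seg W.tp ((lam b).length + k) := by
  rw [seg_add, ← h.2]; rfl

theorem seg_app_get (f : ℕ → ℕ) {n i : ℕ} (h : i < n) (r : List ℕ) :
    (seg f n ++ r)[i]? = some (f i) := by
  rw [List.getElem?_append_left (by simpa using h)]
  simp [seg, h]

theorem seg_app_at (f : ℕ → ℕ) (n o : ℕ) (r : List ℕ) : (seg f n ++ o :: r)[n]? = some o := by
  rw [List.getElem?_append_right (by simp)]
  simp

theorem Wd.TrL.not_ld {σ : List ℕ} {b : ℕ} (h : W.TrL σ b) : ¬ LD W.T W.Di σ b := by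
  rintro (h1 | ⟨i, hi, h1⟩)
  · exact h1 h.1
  · rw [h.2, seg_get _ (List.mem_range.1 hi)] at h1
    exact h1.2 rfl

theorem Wd.TrL.not_ld' {σ : List ℕ} {b : ℕ} (h : W.TrL σ b) (u : ℕ) : ¬ LD W.T (W.D u) σ b :=
  fun h1 => h.not_ld (h1.mono (W.d_di u))

theorem Wd.TrM.own_eq {σ : List ℕ} {μ : Mv} (h : W.TrM σ μ) :
    own μ = seg W.tp ((lam μ.1).length + μ.2.2.1.length) := by
  rw [← h.1.own_eq, ← h.2]; rfl

theorem low_seg {f : ℕ → ℕ} {e n : ℕ} : Low e (seg f n) ↔ e < n ∧ f e = 0 := by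
  by_cases h : e < n
  · have := seg_app_get f h []
    rw [List.append_nil] at this
    rw [Low, this]
    simp [h]
  · exact ⟨fun h1 => absurd (by simpa using h1.lt) h, fun h1 => absurd h1.1 h⟩

theorem Wd.TrM.not_rd {σ : List ℕ} {μ : Mv} (h : W.TrM σ μ) : ¬ RD W.Di μ := by
  rintro ⟨i, hi, -, h1⟩
  rw [h.own_eq] at hi h1
  rw [seg_get _ (by simpa using hi)] at h1
  exact h1.2 rfl

theorem Wd.TrM.not_ex {σ : List ℕ} {μ : Mv} {e : ℕ} (h : W.TrM σ μ) (he : W.tp e ≠ 0) (u : ℕ) :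
    ¬ Ex W.T (W.D u) e σ μ := by
  rintro (h1 | h1)
  · exact h.1.not_ld' u h1
  · rw [h.own_eq, low_seg] at h1
    exact he h1.2

theorem Wd.tr_app {σ : List ℕ} {z w : Adr} :
    W.Tr σ (z ++ w) ↔ W.Tr σ z ∧ W.Tr (cx σ z) w := by
  induction z generalizing σ with
  | nil => simp [Wd.Tr]
  | cons μ z ih => simp [Wd.Tr, ih, and_assoc]

theorem Wd.Tr.snoc {z : Adr} {μ : Mv} (h : W.Tr [] z) (h' : W.TrM (cx [] z) μ) :
    W.Tr [] (z ++ [μ]) := Wd.tr_app.2 ⟨h, h', trivial⟩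

theorem Wd.Tr.not_dag {σ : List ℕ} {z : Adr} (h : W.Tr σ z) : ¬ Dag W.Di z := by
  induction z generalizing σ with
  | nil => exact not_dag_nil
  | cons μ z ih => exact fun h1 => (dag_cons.1 h1).elim h.1.not_rd (ih h.2)

theorem Wd.Tr.er {σ : List ℕ} {z : Adr} {e : ℕ} (h : W.Tr σ z) (he : W.tp e ≠ 0) (u : ℕ) :
    Er W.T (W.D u) e σ z := by
  induction z generalizing σ with
  | nil => trivial
  | cons μ z ih => exact ⟨h.1.not_ex he u, ih h.2⟩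

theorem Wd.Tr.strip {z w κ : Adr} {e u : ℕ} (h : W.Tr [] z) (hn : W.NE e u) :
    Lb W.T (W.D u) W.Di e [] (pi z ++ κ) (z ++ w) ↔ Lb W.T (W.D u) W.Di e (cx [] z) κ w :=
  lb_strip' (h.er (W.ne_tp _ _ hn) u) h.not_dag

/-- clones have the same labels -/
theorem Wd.Cl.same {z z' : Adr} (h : W.Cl z z') (w : Adr) : W.Same (z ++ w) (z' ++ w) :=
  Wd.same_of (by simp [dag_app, h.1.not_dag, h.2.1.not_dag]) fun _ u _ hn =>
    lb_clone (h.1.er (W.ne_tp _ _ hn) u) h.1.not_dag (h.2.1.er (W.ne_tp _ _ hn) u) h.2.1.not_dag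
      h.2.2

theorem Wd.Cl.same_lb {z z' w w' κ : Adr} {e u : ℕ} (h : W.Cl z z') (hn : W.NE e u)
    (hs : W.Same (z ++ w) (z' ++ w')) :
    Lb W.T (W.D u) W.Di e (cx [] z) κ w ↔ Lb W.T (W.D u) W.Di e (cx [] z) κ w' := by
  rw [← h.1.strip hn, Wd.same_lb hs hn, h.2.2, h.2.1.strip hn, cx_eq h.2.2]

theorem Wd.trM_mk {σ : List ℕ} {b : ℕ} (h : W.TrL σ b) (s : Bool) (k a : ℕ) :
    W.TrM σ (mk b s (W.tps b k) a) := ⟨h, by simp⟩

theorem Wd.trM_Pm {σ : List ℕ} {b : ℕ} (h : W.TrL σ b) (j : ℤ) (a : ℕ) : W.TrM σ (W.Pm b j a) :=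
  Wd.trM_mk h _ _ _

theorem Wd.Cl.snoc {z z' : Adr} {b : ℕ} (h : W.Cl z z') (hb : W.TrL (cx [] z) b) (j j' : ℤ)
    (a : ℕ) : W.Cl (z ++ [W.Pm b j a]) (z' ++ [W.Pm b j' a]) :=
  ⟨h.1.snoc (Wd.trM_Pm hb _ _), h.2.1.snoc (Wd.trM_Pm (cx_eq h.2.2 [] ▸ hb) _ _), by
    rw [pi_app, pi_app, h.2.2]; rfl⟩

theorem Wd.Cl.core {z z' : Adr} {b : ℕ} (h : W.Cl z z') (hb : W.TrL (cx [] z) b) (s s' : Bool)
    (k k' : ℕ) : W.Cl (z ++ cz b s (W.tps b k)) (z' ++ cz b s' (W.tps b k')) := by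
  have key : ∀ {z : Adr} (s : Bool) (k : ℕ), W.Tr [] z → W.TrL (cx [] z) b →
      W.Tr [] (z ++ cz b s (W.tps b k)) := by
    intro z s k h hb
    unfold cz
    split_ifs
    · simpa using h
    · exact h.snoc (Wd.trM_mk hb _ _ _)
  exact ⟨key _ _ h.1 hb, key _ _ h.2.1 (cx_eq h.2.2 [] ▸ hb), by
    rw [pi_app, pi_app, h.2.2, pi_cz, pi_cz]⟩

/-- a move that leaves the true path by a finite outcome is atomised -/
theorem Wd.TrL.at_dev {σ : List ℕ} {μ : Mv} {k o e : ℕ} {r : List ℕ} (h : W.TrL σ μ.1)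
    (hρ : μ.2.2.1 = W.tps μ.1 k ++ o :: r) (h0 : o ≠ 0) (h1 : o ≠ W.tp ((lam μ.1).length + k))
    (he : W.tp e ≠ 0 ∨ (lam μ.1).length + k ≤ e) : At W.Di e μ := by
  have h2 : own μ = seg W.tp ((lam μ.1).length + k) ++ o :: r := by
    rw [← h.own_eq, own, hρ, List.append_assoc]
  refine ⟨(lam μ.1).length + k, by simp [h2], by omega, ?_, fun h3 => ?_⟩
  · rw [h2, seg_app_at]
    exact ⟨h0, h1⟩
  · rw [h2, Low] at h3
    rcases lt_trichotomy ((lam μ.1).length + k) e with h4 | h4 | h4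
    · exact h4
    · rw [← h4, seg_app_at] at h3
      exact absurd (Option.some.inj h3) h0
    · rw [seg_app_get _ h4] at h3
      exact absurd (Option.some.inj h3) (he.resolve_right (by omega))

/-- the path leaves the true path by a finite outcome -/
def Wd.Dev (W : Wd) (b : ℕ) (w : Adr) : Prop := ∃ μ w' k o r, w = μ :: w' ∧ μ.1 = b ∧
  μ.2.2.1 = W.tps b k ++ o :: r ∧ o ≠ 0 ∧ o ≠ W.tp ((lam b).length + k)

/-- all atoms of a true level have the same labels -/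
theorem Wd.Cl.gap {z z' w w' : Adr} {b b0 b1 : ℕ} {c c' : Bool} (h : W.Cl z z')
    (hb : W.TrL (cx [] z) b) (hv : Val c b0 w) (hv' : Val c' b1 w') (hw : W.Dev b w)
    (hw' : W.Dev b w') : W.Same (z ++ w) (z' ++ w') := by
  obtain ⟨μ, w, k, o, r, rfl, rfl, h1, h2, h3⟩ := hw
  obtain ⟨μ', w', k', o', r', rfl, he, h1', h2', h3'⟩ := hw'
  rw [← he] at h1' h3'
  have hb' : W.TrL (cx [] z) μ'.1 := he ▸ hb
  have h0 := W.ne_tp _ _ (W.ne_zero 0)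
  refine ((h.same _).trans (Wd.same_of ?_ fun e u κ hn => ?_))
  · simp [dag_app, dag_cons, (hb.at_dev h1 h2 h3 (Or.inl h0)).rd,
      (hb'.at_dev h1' h2' h3' (Or.inl h0)).rd]
  · have h4 := W.ne_tp _ _ hn
    rw [cx_eq h.2.2] at hb hb'
    simp only [lb_strip (h.2.1.er h4 u) h.2.1.not_dag,
      lb_atom hv (hb.not_ld' u) (hb.at_dev h1 h2 h3 (Or.inl h4)),
      lb_atom hv' (hb'.not_ld' u) (hb'.at_dev h1' h2' h3' (Or.inl h4)), he]

/-- the move is shown exactly for ever by the lasting index `(e, u)` -/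
def Wd.Frz (W : Wd) (e u : ℕ) (σ : List ℕ) (μ : Mv) : Prop :=
  W.NE e u ∧ Ex W.T (W.D u) e σ μ ∧ (LD W.T (W.D u) σ μ.1 ∨ ¬ At W.Di e μ)

theorem Wd.Frz.uniq {e u : ℕ} {σ : List ℕ} {μ : Mv} {κ w : Adr} {c : Bool} {D : ℕ → ℕ → Prop}
    (h : W.Frz e u σ μ) (hD : ∀ i o, D i o → W.Di i o) (hl : Lb W.T (W.D u) D e σ (μ :: κ) w)
    (hv : Val c μ.1 w) : w = μ :: κ :=
  (hl.uniq hv (fun _ h1 h2 => by omega) h.2.1).resolve_right fun h1 =>
    h.2.2.elim h1.2.2 fun h2 => h2 (h1.2.1.mono hD)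

theorem Wd.Frz.lb {e u : ℕ} {σ : List ℕ} {μ : Mv} (h : W.Frz e u σ μ) (κ : Adr) :
    Lb W.T (W.D u) W.Di e σ (μ :: κ) (μ :: κ) := lb_cons.2 (Or.inl ⟨h.2.1, rfl⟩)

/-- frozen points are determined by their labels -/
theorem Wd.Cl.frz {z z' w w' : Adr} {μ : Mv} {e u : ℕ} {c : Bool} (h : W.Cl z z')
    (hf : W.Frz e u (cx [] z) μ) (hv : Val c μ.1 w') (hs : W.Same (z ++ μ :: w) (z' ++ w')) :
    w' = μ :: w := hf.uniq (fun _ _ h => h) ((h.same_lb hf.1 hs).1 (hf.lb w)) hv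

theorem Wd.frz_region {σ : List ℕ} {b k : ℕ} (hb : W.TrL σ b)
    (h : W.tp ((lam b).length + k) ≠ 0) : ∃ e u, ∀ (μ : Mv) (r : List ℕ), μ.1 = b →
      μ.2.2.1 = W.tps b k ++ 0 :: r → W.Frz e u σ μ := by
  obtain ⟨u, hu⟩ := W.ne_ex _ h
  refine ⟨(lam b).length + k, u, ?_⟩
  rintro μ r rfl hρ
  have h2 : own μ = seg W.tp ((lam μ.1).length + k) ++ 0 :: r := by
    rw [← hb.own_eq, own, hρ, List.append_assoc]
  have h3 : Low ((lam μ.1).length + k) (own μ) := by rw [h2, Low, seg_app_at]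
  refine ⟨hu, Or.inr h3, Or.inr ?_⟩
  rintro ⟨i, -, -, h4, h5⟩
  rw [h2, seg_app_get _ (h5 h3)] at h4
  exact h4.2 rfl

theorem Wd.ld_stage {σ : List ℕ} {b : ℕ} (h : LD W.T W.Di σ b) :
    ∃ u, ∀ v, u ≤ v → LD W.T (W.D v) σ b := by
  rcases h with h | ⟨i, hi, h⟩
  · exact ⟨0, fun _ _ => Or.inl h⟩
  · obtain ⟨u, hu⟩ := W.d_ev _ _ h.1 h.2
    exact ⟨u, fun v hv => Or.inr ⟨i, hi, W.d_mono _ _ _ _ hv hu⟩⟩

/-- a level that is not true is frozen -/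
theorem Wd.frz_level {σ : List ℕ} {b : ℕ} (hb : ¬ W.TrL σ b) :
    ∃ e u, ∀ μ : Mv, μ.1 = b → W.Frz e u σ μ := by
  by_cases h : LD W.T W.Di σ b
  · obtain ⟨u, hu⟩ := W.ld_stage h
    refine ⟨0, u, ?_⟩
    rintro μ rfl
    exact ⟨W.ne_zero u, Or.inl (hu u le_rfl), Or.inl (hu u le_rfl)⟩
  · simp only [LD, not_or, not_not, Bex, not_exists, not_and, List.mem_range] at h
    have h1 : ∃ i < (lam b).length, ¬ (lam b)[i]?.getD 0 = W.tp i := by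
      by_contra hc
      push Not at hc
      refine hb ⟨h.1, List.ext_getElem (by simp) fun i h1 h2 => ?_⟩
      simpa [seg, h1] using hc i h1
    obtain ⟨i, hi, h1⟩ := h1
    have h2 : (lam b)[i]?.getD 0 = 0 := by
      by_contra hc
      exact h.2 i hi ⟨hc, h1⟩
    obtain ⟨u, hu⟩ := W.ne_ex i fun h3 => h1 (h2.trans h3.symm)
    refine ⟨i, u, ?_⟩
    rintro μ rfl
    have h3 : Low i (lam μ.1) := by simpa [Low, hi] using h2
    exact ⟨hu, Or.inr (low_app h3 _), Or.inr (not_at_of_low h3)⟩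

theorem Wd.P_eq (b : ℕ) (j : ℤ) {i : ℕ} (hi : i < 3) : W.P b (3 * j + i) = W.Pm b j (2 * i) := by
  unfold Wd.P
  rw [show (3 * j + i) / 3 = j by omega, show (3 * j + (i : ℤ)) % 3 = i by omega]
  rfl

theorem Wd.P_act (b : ℕ) (n : ℤ) : (W.P b n).2.2.2 = 0 ∨ (W.P b n).2.2.2 = 2 ∨ (W.P b n).2.2.2 = 4 := by
  simp only [Wd.P, Wd.Pm, mk_act]
  omega

theorem Wd.val_P (c : Bool) {b0 b : ℕ} (hb : b0 ≤ b) (n : ℤ) : Val c b0 [W.P b n] :=
  val_mark c hb _ _ (W.P_act b n)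

theorem Wd.Pm_lt (b : ℕ) {j j' : ℤ} (h : j < j') (a a' : ℕ) (w v : Adr) :
    ky (W.Pm b j a :: w) < ky (W.Pm b j' a' :: v) := by
  refine ky_cons_lt.2 (Or.inl (kv_lt.2 ?_))
  have e1 : ∀ (j : ℤ) (a : ℕ), j < 0 → (W.Pm b j a).2.1 = false := fun j a hj => by
    rw [Wd.Pm, mk_side_ne (by rw [Ne, Wd.tps_eq_nil]; omega)]
    simp; omega
  have e2 : ∀ (j : ℤ) (a : ℕ), 0 < j → (W.Pm b j a).2.1 = true := fun j a hj => by
    rw [Wd.Pm, mk_side_ne (by rw [Ne, Wd.tps_eq_nil]; omega)]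
    simpa using hj
  cases h1 : (W.Pm b j a).2.1 <;> cases h2 : (W.Pm b j' a').2.1
  · have : ¬ 0 < j' := fun h3 => by simp [e2 _ _ h3] at h2
    exact Or.inr (Or.inl ⟨rfl, rfl, Or.inr ⟨rfl, W.tps_kb b (by omega)⟩⟩)
  · exact Or.inl ⟨rfl, rfl⟩
  · have : ¬ 0 < j' := fun h3 => by simp [e2 _ _ h3] at h2
    simp [e1 j a (by omega)] at h1
  · have : ¬ j < 0 := fun h3 => by simp [e1 _ _ h3] at h1
    exact Or.inr (Or.inr (Or.inl ⟨rfl, rfl, Or.inr ⟨rfl, W.tps_kb b (by omega)⟩⟩))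

theorem Wd.P_lt (b : ℕ) {n n' : ℤ} (h : n < n') : ky [W.P b n] < ky [W.P b n'] := by
  rcases (show n / 3 < n' / 3 ∨ n / 3 = n' / 3 by omega) with h1 | h1
  · exact W.Pm_lt b h1 _ _ _ _
  · unfold Wd.P Wd.Pm
    rw [h1]
    exact mk_lt_mk _ _ _ (by omega) (by omega) _ _

theorem Wd.P_lt_iff (b : ℕ) {n n' : ℤ} : ky [W.P b n] < ky [W.P b n'] ↔ n < n' := by
  refine ⟨fun h => ?_, W.P_lt b⟩
  rcases lt_trichotomy n n' with h1 | rfl | h1
  · exact h1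
  · exact absurd h (lt_irrefl _)
  · exact absurd (W.P_lt b h1) (lt_asymm h)

/-- every marker of a true period is one of the `P b n` -/
theorem Wd.mk_eq_Pm (b : ℕ) (s : Bool) (k a : ℕ) :
    mk b s (W.tps b k) a = W.Pm b (sg (!s) k) a := by
  have h1 : (sg (!s) k).natAbs = k := by cases s <;> simp [sg]
  rw [Wd.Pm, h1]
  rcases Nat.eq_zero_or_pos k with rfl | hk
  · simp [mk_nil]
  · cases s <;> simp [sg, hk, show ¬ (k : ℤ) < 0 by omega]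

/-- true markers are determined by their labels up to a shift of the period -/
theorem Wd.Cl.marker {z z' w' : Adr} {b a : ℕ} {j : ℤ} {c : Bool} (h : W.Cl z z')
    (hb : W.TrL (cx [] z) b) (ha : a = 0 ∨ a = 2 ∨ a = 4) (hv : Val c b w')
    (hs : W.Same (z ++ [W.Pm b j a]) (z' ++ w')) : ∃ j', w' = [W.Pm b j' a] := by
  have h0 := W.ne_tp _ _ (W.ne_zero 0)
  have hd : ¬ Dag W.Di w' := fun h1 => (h.1.snoc (Wd.trM_Pm hb j a)).not_dag
    ((Wd.same_dag hs).2 (dag_app.2 (Or.inr h1)))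
  obtain ⟨s, ρ, rfl, -⟩ := ((h.same_lb (W.ne_zero 0) hs).1 (lb_mark _ b _ (by omega)
    (Or.inr ((Wd.trM_Pm hb j a).not_ex h0 0)))).mark hv ha hd
  rcases W.path_cases b ρ with h1 | ⟨k, o, r, h1, h2⟩
  · exact ⟨_, by rw [h1, Wd.mk_eq_Pm]⟩
  by_cases ho : o = 0
  · subst ho
    obtain ⟨e, u, hf⟩ := Wd.frz_region hb h2.symm
    have := h.symm.frz (c := c) (cx_eq h.2.2 [] ▸ hf (mk b s ρ a) r rfl h1)
      (val_mark _ le_rfl _ _ ha) hs.symm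
    exact ⟨j, this.symm⟩
  · exact absurd (dag_cons.2 (Or.inl
      (Wd.TrL.at_dev (μ := mk b s ρ a) hb h1 ho h2 (Or.inl h0)).rd)) hd

theorem Wd.Cl.marker' {z z' w' : Adr} {b : ℕ} {n : ℤ} {c : Bool} (h : W.Cl z z')
    (hb : W.TrL (cx [] z) b) (hv : Val c b w') (hs : W.Same (z ++ [W.P b n]) (z' ++ w')) :
    ∃ n', w' = [W.P b n'] ∧ n' % 3 = n % 3 := by
  obtain ⟨j', rfl⟩ := h.marker hb (W.P_act b n) hv hs
  refine ⟨3 * j' + ((n % 3).toNat : ℕ), by rw [Wd.P_eq _ _ (by omega)]; rfl, by omega⟩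

end Pool.Agent.Lib.MP_9e2528_lc.T3
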