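import Pool.Agent.Lib.MP_9e2528_lc.T6

set_option autoImplicit false

/-! Isomorphisms from paths. -/

namespace Pool.Agent.Lib.MP_9e2528_lc.T3

open Encodable

/-- the two sets are isomorphic -/
def Wd.Iso (W : Wd) (C C' : Adr → Prop) : Prop :=
  ∃ Ψ, W.PI Ψ ∧ Onto Ψ C C' ∧ ∀ y y', Ψ y y' → C y ∧ C' y'

/-- cells of a chain of cuts -/
inductive Ix
  | lo : Ix
  | pt : ℤ → Ix
  | gp : ℤ → Ix
  | hi : Ix

def Ix.a : Ix → ℤ
  | .lo => 0
  | .pt _ => 1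
  | .gp _ => 1
  | .hi => 2

def Ix.n : Ix → ℤ
  | .lo => 0
  | .pt n => 2 * n
  | .gp n => 2 * n + 1
  | .hi => 0

def Ix.r (i j : Ix) : Prop := i.a < j.a ∨ (i.a = j.a ∧ i.n < j.n)

theorem Ix.tri (i j : Ix) : i = j ∨ i.r j ∨ j.r i := by
  cases i <;> cases j <;> simp [Ix.r, Ix.a, Ix.n] <;> omega

/-- all points of the first set are below all points of the second -/
def Below (A B : Adr → Prop) : Prop := ∀ x y, A x → B y → ky x < ky y

/-- decomposition into matched cells -/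
structure Dec (Q : (Adr → Prop) → (Adr → Prop) → Prop) (C C' : Adr → Prop)
    (A A' : Ix → Adr → Prop) : Prop where
  sub : ∀ i y, A i y → C y
  sub' : ∀ i y, A' i y → C' y
  cov : ∀ y, C y → ∃ i, A i y
  cov' : ∀ y, C' y → ∃ i, A' i y
  ord : ∀ i j, Ix.r i j → Below (A i) (A j)
  ord' : ∀ i j, Ix.r i j → Below (A' i) (A' j)
  q : ∀ i, Q (A i) (A' i)

/-- the glued relation -/
inductive Gl (I : (Adr → Prop) → (Adr → Prop) → Prop)
    (S : ℕ → (Adr → Prop) → (Adr → Prop) → Prop)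
    (A A' : ℕ → (Adr → Prop) → (Adr → Prop) → Ix → Adr → Prop)
    (F : (Adr → Prop) → (Adr → Prop) → Adr → Adr → Prop) :
    ℕ → (Adr → Prop) → (Adr → Prop) → Adr → Adr → Prop
  | base {k C C' y y'} (i : Ix) : S k C C' → I (A k C C' i) (A' k C C' i) →
      F (A k C C' i) (A' k C C' i) y y' → Gl I S A A' F k C C' y y'
  | step {k C C' y y'} (i : Ix) : S k C C' → ¬ I (A k C C' i) (A' k C C' i) →
      Gl I S A A' F (k + 1) (A k C C' i) (A' k C C' i) y y' → Gl I S A A' F k C C' y y'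

variable {W : Wd} {z z' : Adr} {c c' : Bool}

theorem Wd.glue {S : ℕ → (Adr → Prop) → (Adr → Prop) → Prop}
    (hl : ∀ k C C', S k C C' → (∀ y, C y → k ≤ y.length) ∧ ∀ y, C' y → k ≤ y.length)
    (hd : ∀ k C C', S k C C' → ∃ A A', Dec (fun B B' => W.Iso B B' ∨ S (k + 1) B B') C C' A A')
    {k : ℕ} {C C' : Adr → Prop} (h : S k C C') : W.Iso C C' := by
  choose! A A' hd using hd
  have hF : ∀ B B', W.Iso B B' → ∃ Ψ, W.PI Ψ ∧ Onto Ψ B B' ∧ ∀ y y', Ψ y y' → B y ∧ B' y' :=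
    fun _ _ h => h
  choose! F f1 f2 f3 using hF
  have g1 : ∀ k C C' y y', Gl W.Iso S A A' F k C C' y y' → C y ∧ C' y' ∧ W.Same y y' := by
    intro k C C' y y' h
    induction h with
    | base i h1 h2 h3 =>
      exact ⟨(hd _ _ _ h1).sub _ _ (f3 _ _ h2 _ _ h3).1, (hd _ _ _ h1).sub' _ _ (f3 _ _ h2 _ _ h3).2,
        (f1 _ _ h2).1 _ _ h3⟩
    | step i h1 _ _ ih => exact ⟨(hd _ _ _ h1).sub _ _ ih.1, (hd _ _ _ h1).sub' _ _ ih.2.1, ih.2.2⟩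
  have g0 : ∀ k C C' y y' x x' i j, S k C C' → i ≠ j → A k C C' i y → A' k C C' i y' →
      A k C C' j x → A' k C C' j x' → (ky y < ky x ↔ ky y' < ky x') := by
    intro k C C' y y' x x' i j h1 hij h2 h3 h4 h5
    rcases (Ix.tri i j).resolve_left hij with h6 | h6
    · exact iff_of_true ((hd _ _ _ h1).ord _ _ h6 _ _ h2 h4) ((hd _ _ _ h1).ord' _ _ h6 _ _ h3 h5)
    · exact iff_of_false (lt_asymm ((hd _ _ _ h1).ord _ _ h6 _ _ h4 h2))
        (lt_asymm ((hd _ _ _ h1).ord' _ _ h6 _ _ h5 h3))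
  have g2 : ∀ k C C' y y', Gl W.Iso S A A' F k C C' y y' → ∀ x x', Gl W.Iso S A A' F k C C' x x' →
      (ky y < ky x ↔ ky y' < ky x') := by
    intro k C C' y y' h
    induction h with
    | base i h1 h2 h3 =>
      intro x x' h'
      cases h' with
      | base j _ h5 h6 =>
        by_cases hij : i = j
        · subst hij
          exact (f1 _ _ h2).2 _ _ _ _ h3 h6
        · exact g0 _ _ _ _ _ _ _ i j h1 hij (f3 _ _ h2 _ _ h3).1 (f3 _ _ h2 _ _ h3).2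
            (f3 _ _ h5 _ _ h6).1 (f3 _ _ h5 _ _ h6).2
      | step j _ h5 h6 =>
        exact g0 _ _ _ _ _ _ _ i j h1 (fun hij => h5 (hij ▸ h2)) (f3 _ _ h2 _ _ h3).1
          (f3 _ _ h2 _ _ h3).2 (g1 _ _ _ _ _ h6).1 (g1 _ _ _ _ _ h6).2.1
    | step i h1 h2 h3 ih =>
      intro x x' h'
      cases h' with
      | base j _ h5 h6 =>
        exact g0 _ _ _ _ _ _ _ i j h1 (fun hij => h2 (hij ▸ h5)) (g1 _ _ _ _ _ h3).1
          (g1 _ _ _ _ _ h3).2.1 (f3 _ _ h5 _ _ h6).1 (f3 _ _ h5 _ _ h6).2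
      | step j _ h5 h6 =>
        by_cases hij : i = j
        · subst hij
          exact ih _ _ h6
        · exact g0 _ _ _ _ _ _ _ i j h1 hij (g1 _ _ _ _ _ h3).1 (g1 _ _ _ _ _ h3).2.1
            (g1 _ _ _ _ _ h6).1 (g1 _ _ _ _ _ h6).2.1
  have g3 : ∀ m k C C' y, S k C C' → C y → y.length < k + m →
      ∃ y', Gl W.Iso S A A' F k C C' y y' := by
    intro m
    induction m with
    | zero => exact fun k C C' y h1 h2 h3 => absurd ((hl _ _ _ h1).1 y h2) (by omega)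
    | succ m ih =>
      intro k C C' y h1 h2 h3
      obtain ⟨i, hi⟩ := (hd _ _ _ h1).cov y h2
      by_cases h4 : W.Iso (A k C C' i) (A' k C C' i)
      · obtain ⟨y', -, h5⟩ := (f2 _ _ h4).1 y hi
        exact ⟨y', .base i h1 h4 h5⟩
      · obtain ⟨y', h5⟩ := ih (k + 1) _ _ y (((hd _ _ _ h1).q i).resolve_left h4) hi (by omega)
        exact ⟨y', .step i h1 h4 h5⟩
  have g4 : ∀ m k C C' y', S k C C' → C' y' → y'.length < k + m →
      ∃ y, Gl W.Iso S A A' F k C C' y y' := by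
    intro m
    induction m with
    | zero => exact fun k C C' y h1 h2 h3 => absurd ((hl _ _ _ h1).2 y h2) (by omega)
    | succ m ih =>
      intro k C C' y h1 h2 h3
      obtain ⟨i, hi⟩ := (hd _ _ _ h1).cov' y h2
      by_cases h4 : W.Iso (A k C C' i) (A' k C C' i)
      · obtain ⟨y', -, h5⟩ := (f2 _ _ h4).2 y hi
        exact ⟨y', .base i h1 h4 h5⟩
      · obtain ⟨y', h5⟩ := ih (k + 1) _ _ y (((hd _ _ _ h1).q i).resolve_left h4) hi (by omega)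
        exact ⟨y', .step i h1 h4 h5⟩
  refine ⟨Gl W.Iso S A A' F k C C', ⟨fun y y' h => (g1 _ _ _ _ _ h).2.2,
    fun y y' x x' h1 h2 => g2 _ _ _ _ _ h1 _ _ h2⟩, ⟨fun y hy => ?_, fun y hy => ?_⟩,
    fun y y' h => ⟨(g1 _ _ _ _ _ h).1, (g1 _ _ _ _ _ h).2.1⟩⟩
  · obtain ⟨y', h1⟩ := g3 (y.length + 1) k C C' y h hy (by omega)
    exact ⟨y', (g1 _ _ _ _ _ h1).2.1, h1⟩
  · obtain ⟨y', h1⟩ := g4 (y.length + 1) k C C' y h hy (by omega)
    exact ⟨y', (g1 _ _ _ _ _ h1).1, h1⟩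

/-- the cells of a set along a chain of markers -/
def cel (m : ℤ → Adr) (C : Adr → Prop) : Ix → Adr → Prop
  | .lo => fun y => C y ∧ ∀ n, ky y < ky (m n)
  | .pt n => fun y => y = m n
  | .gp n => fun y => C y ∧ ky (m n) < ky y ∧ ky y < ky (m (n + 1))
  | .hi => fun y => C y ∧ ∀ n, ky (m n) < ky y

section
variable {m : ℤ → Adr} {C : Adr → Prop}

theorem cel_sub (h : ∀ n, C (m n)) (i : Ix) (y : Adr) (hy : cel m C i y) : C y := by
  cases i with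
  | lo => exact hy.1
  | pt n => exact (show y = m n from hy) ▸ h n
  | gp n => exact hy.1
  | hi => exact hy.1

theorem cel_cov (hm : ∀ n n', n < n' → ky (m n) < ky (m n')) (y : Adr) (hy : C y) :
    ∃ i, cel m C i y := by
  classical
  by_cases h1 : ∀ n, ky y < ky (m n)
  · exact ⟨.lo, hy, h1⟩
  by_cases h2 : ∀ n, ky (m n) < ky y
  · exact ⟨.hi, hy, h2⟩
  push Not at h1 h2
  obtain ⟨n2, h2⟩ := h2
  obtain ⟨n, h3, h4⟩ := Int.exists_greatest_of_bdd (P := fun n => ky (m n) ≤ ky y)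
    ⟨n2, fun n hn => not_lt.1 fun h => absurd (hm _ _ h) (not_lt.2 (hn.trans h2))⟩ h1
  rcases h3.lt_or_eq with h5 | h5
  · exact ⟨.gp n, hy, h5, not_le.1 fun h => by have := h4 _ h; omega⟩
  · exact ⟨.pt n, (ky_inj h5).symm⟩

theorem cel_ord (hm : ∀ n n', n < n' → ky (m n) < ky (m n')) (i j : Ix) (h : i.r j) :
    Below (cel m C i) (cel m C j) := by
  have hm' : ∀ n n', n ≤ n' → ky (m n) ≤ ky (m n') := fun n n' h =>
    h.lt_or_eq.elim (fun h => (hm _ _ h).le) fun h => h ▸ le_rfl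
  intro x y hx hy
  cases i <;> cases j <;> simp only [Ix.r, Ix.a, Ix.n, cel] at h hx hy
  all_goals first | omega | skip
  · exact hy ▸ hx.2 _
  · exact (hx.2 _).trans hy.2.1
  · exact (hx.2 0).trans (hy.2 0)
  · exact hx ▸ hy ▸ hm _ _ (by omega)
  · exact hx ▸ (hm' _ _ (by omega)).trans_lt hy.2.1
  · exact hx ▸ hy.2 _
  · exact hy ▸ hx.2.2.trans_le (hm' _ _ (by omega))
  · exact (hx.2.2.trans_le (hm' _ _ (by omega))).trans hy.2.1
  · exact hx.2.2.trans (hy.2 _)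

end

theorem Wd.Iso.congr {C C' D D' : Adr → Prop} (h : W.Iso C C') (h1 : ∀ y, D y ↔ C y)
    (h2 : ∀ y, D' y ↔ C' y) : W.Iso D D' := by
  obtain rfl : D = C := funext fun y => propext (h1 y)
  obtain rfl : D' = C' := funext fun y => propext (h2 y)
  exact h

theorem Wd.Cl.iso_suf (h : W.Cl z z') (V : Adr → Prop) :
    W.Iso (fun y => ∃ w, V w ∧ y = z ++ w) fun y => ∃ w, V w ∧ y = z' ++ w := by
  refine ⟨fun y y' => ∃ w, V w ∧ y = z ++ w ∧ y' = z' ++ w, ⟨?_, ?_⟩, ⟨?_, ?_⟩, ?_⟩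
  · rintro _ _ ⟨w, -, rfl, rfl⟩
    exact h.same w
  · rintro _ _ _ _ ⟨w, -, rfl, rfl⟩ ⟨v, -, rfl, rfl⟩
    simp
  · rintro _ ⟨w, hw, rfl⟩
    exact ⟨_, ⟨w, hw, rfl⟩, w, hw, rfl, rfl⟩
  · rintro _ ⟨w, hw, rfl⟩
    exact ⟨_, ⟨w, hw, rfl⟩, w, hw, rfl, rfl⟩
  · rintro _ _ ⟨w, hw, rfl, rfl⟩
    exact ⟨⟨w, hw, rfl⟩, w, hw, rfl⟩

theorem Wd.Cl.iso_bx (h : W.Cl z z') (c : Bool) (b : ℕ) : W.Iso (Bx c z b) (Bx c z' b) :=
  h.iso_suf (Val c b)

theorem bx_dense {b : ℕ} {x y : Adr} (hx : Bx c z b x) (hy : Bx c z b y) (h : ky x < ky y) :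
    ∃ u, Bx c z b u ∧ ky x < ky u ∧ ky u < ky y := by
  obtain ⟨w, hw, rfl⟩ := hx
  obtain ⟨v, hv, rfl⟩ := hy
  obtain ⟨u, h1, h2, h3⟩ := hw.dense hv (by simpa using h)
  exact ⟨z ++ u, bx_app.2 h1, by simpa using h2, by simpa using h3⟩

theorem loc_dense {G C' : Adr → Prop} {a b : Adr} {E : Adr → Adr → Prop}
    (hE : ∀ x y, E x y ↔ G x ∧ C' y ∧ ky a < ky y ∧ ky y < ky b)
    (hd : ∀ x y, C' x → C' y → ky x < ky y → ∃ u, C' u ∧ ky x < ky u ∧ ky u < ky y)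
    (ha : C' a) (hb : C' b) (hab : ky a < ky b) : Loc G ky ky E := by
  intro x hx
  refine Or.inr ⟨fun y => C' y ∧ ky a < ky y ∧ ky y < ky b, fun y hy => ((hE _ _).1 hy).2, ?_,
    fun u hu => ?_, fun u hu => ?_, fun u v hu hv huv => ?_,
    fun _ _ h => Or.inl ((hE _ _).1 h).2⟩
  · obtain ⟨u, hu⟩ := hd a b ha hb hab
    exact ⟨u, (hE _ _).2 ⟨hx, hu⟩⟩
  · obtain ⟨v, h1, h2, h3⟩ := hd a u ha hu.1 hu.2.1
    exact ⟨v, (hE _ _).2 ⟨hx, h1, h2, h3.trans hu.2.2⟩, h3⟩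
  · obtain ⟨v, h1, h2, h3⟩ := hd u b hu.1 hb hu.2.2
    exact ⟨v, (hE _ _).2 ⟨hx, h1, hu.2.1.trans h2, h3⟩, h2⟩
  · obtain ⟨w, h1, h2, h3⟩ := hd u v hu.1 hv.1 huv
    exact ⟨w, (hE _ _).2 ⟨hx, h1, hu.2.1.trans h2, h3.trans hv.2.2⟩, h2, h3⟩

/-- open intervals of boxes whose points all have the same labels -/
theorem Wd.iso_dense {a b a' b' : Adr} (ha : Bx c z 0 a) (hb : Bx c z 0 b) (hab : ky a < ky b)
    (ha' : Bx c' z' 0 a') (hb' : Bx c' z' 0 b') (hab' : ky a' < ky b')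
    (hs : ∀ y y', Bx c z 0 y ∧ ky a < ky y ∧ ky y < ky b →
      Bx c' z' 0 y' ∧ ky a' < ky y' ∧ ky y' < ky b' → W.Same y y') :
    W.Iso (fun y => Bx c z 0 y ∧ ky a < ky y ∧ ky y < ky b)
      fun y => Bx c' z' 0 y ∧ ky a' < ky y ∧ ky y < ky b' := by
  obtain ⟨G, hG⟩ := bf_iso (E := fun y y' => (Bx c z 0 y ∧ ky a < ky y ∧ ky y < ky b) ∧
      Bx c' z' 0 y' ∧ ky a' < ky y' ∧ ky y' < ky b')
    (loc_dense (fun _ _ => Iff.rfl) (fun _ _ => bx_dense) ha' hb' hab')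
    (loc_dense (fun _ _ => and_comm) (fun _ _ => bx_dense) ha hb hab)
    (fun _ _ _ _ _ _ => ⟨fun h => ky_inj h, fun h => ky_inj h⟩)
  refine ⟨fun y y' => G (y, y'), ⟨fun y y' h => hs _ _ (hG.sub _ _ h).1 (hG.sub _ _ h).2,
    hG.ord⟩, ⟨fun y hy => ?_, fun y hy => ?_⟩, hG.sub⟩
  · obtain ⟨y', h⟩ := hG.tot y hy
    exact ⟨y', (hG.sub _ _ h).2, h⟩
  · obtain ⟨y', h⟩ := hG.sur y hy
    exact ⟨y', (hG.sub _ _ h).1, h⟩

/-- the points between two true periods leave the true path -/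
theorem Wd.gap_dev {b : ℕ} {j : ℤ} {w : Adr} (hw : Val c 0 w) (h1 : ky [W.Pm b j 4] < ky w)
    (h2 : ky w < ky [W.Pm b (j + 1) 0]) : W.Dev b w := by
  have key : ∀ (s : Bool) (k : ℕ), Out s [mk b s (W.tps b (k + 1)) (inn s)] w →
      Out s w [mk b s (W.tps b k) (oum s)] → W.Dev b w := by
    intro s k h3 h4
    rw [Wd.tps_succ] at h3
    obtain ⟨μ, w', rfl, h5, -, o, r, h6, h7⟩ := (zone hw b s _ _).1 ⟨h3, h4⟩
    exact ⟨μ, w', k, o, r, rfl, h5, h6, by omega, by omega⟩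
  rcases le_or_gt 0 j with h | h
  · obtain ⟨k, rfl⟩ := Int.eq_ofNat_of_zero_le h
    refine key true k ?_ ?_
    · rw [Wd.mk_eq_Pm]
      exact out_true.2 h2
    · rw [Wd.mk_eq_Pm]
      exact out_true.2 h1
  · obtain ⟨k, rfl⟩ : ∃ k : ℕ, j = -((k + 1 : ℕ) : ℤ) := ⟨(-j - 1).toNat, by omega⟩
    refine key false k ?_ ?_
    · rw [Wd.mk_eq_Pm]
      exact out_false.2 h1
    · rw [Wd.mk_eq_Pm]
      rw [show -((k + 1 : ℕ) : ℤ) + 1 = -(k : ℤ) by omega] at h2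
      exact out_false.2 h2

theorem Wd.bx_core {b : ℕ} (j : ℤ) (y : Adr) :
    Bx c z 0 y ∧ ky (z ++ [W.Pm b j 2]) < ky y ∧ ky y < ky (z ++ [W.Pm b j 4]) ↔
      Bx (if j = 0 then c else decide (0 < j))
        (z ++ cz b (decide (0 < j)) (W.tps b j.natAbs)) (b + 1) y := by
  have := bx_intC (c := c) (Nat.zero_le b) (decide (0 < j)) (W.tps b j.natAbs) z y
  simpa only [cb, Wd.tps_eq_nil, Int.natAbs_eq_zero, Wd.Pm] using this

theorem val_ne_nil {w : Adr} (h : w ≠ []) : Val c 0 w ↔ Val c' 0 w := by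
  cases w with
  | nil => exact absurd rfl h
  | cons μ w => exact ⟨fun h => h.raise (Nat.zero_le _), fun h => h.raise (Nat.zero_le _)⟩

/-- states of the gluing -/
def Wd.St (W : Wd) (p : ℕ → ℕ) (k : ℕ) (C C' : Adr → Prop) : Prop :=
  ∃ z z' c, C = Bx c z 0 ∧ C' = Bx (!c) z' 0 ∧ W.Cl z z' ∧ cx [] z = seg p k ∧
    k ≤ z.length ∧ k ≤ z'.length

theorem Wd.st_dec {p : ℕ → ℕ} (hp : ∀ k, W.T (seg p (k + 1))) (k : ℕ) (C C' : Adr → Prop)
    (h : W.St p k C C') :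
    ∃ A A', Dec (fun B B' => W.Iso B B' ∨ W.St p (k + 1) B B') C C' A A' := by
  obtain ⟨z, z', c, rfl, rfl, hc, hx, l1, l2⟩ := h
  obtain ⟨t, ht⟩ : ∃ t, lam t = seg W.tp (p k) := ⟨_, lam_enc _⟩
  have hb : W.TrL (cx [] z) t := by
    refine ⟨?_, by rw [ht, seg_length]⟩
    rw [ht, seg_length, hx, ← seg_succ]
    exact hp k
  obtain ⟨d, hd⟩ : ∃ d : ℤ, ∀ j : ℤ, (if j + d = 0 then !c else decide (0 < j + d)) =
      if j = 0 then c else decide (0 < j) := by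
    cases c
    · refine ⟨-1, fun j => ?_⟩
      split_ifs <;> simp <;> omega
    · refine ⟨1, fun j => ?_⟩
      split_ifs <;> simp <;> omega
  have m1 : ∀ n n' : ℤ, n < n' → ky (z ++ [W.P t n]) < ky (z ++ [W.P t n']) := fun n n' h => by
    rw [ky_app_lt]; exact W.P_lt _ h
  have m2 : ∀ n n' : ℤ, n < n' → ky (z' ++ [W.P t (n + 3 * d)]) < ky (z' ++ [W.P t (n' + 3 * d)]) :=
    fun n n' h => by rw [ky_app_lt]; exact W.P_lt _ (by omega)
  have v1 : ∀ n, Bx c z 0 (z ++ [W.P t n]) := fun n => bx_app.2 (W.val_P _ (Nat.zero_le _) _)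
  have v2 : ∀ n, Bx (!c) z' 0 (z' ++ [W.P t (n + 3 * d)]) :=
    fun n => bx_app.2 (W.val_P _ (Nat.zero_le _) _)
  refine ⟨cel (fun n => z ++ [W.P t n]) (Bx c z 0),
    cel (fun n => z' ++ [W.P t (n + 3 * d)]) (Bx (!c) z' 0), cel_sub v1, cel_sub v2, cel_cov m1,
    cel_cov m2, cel_ord m1, cel_ord m2, fun i => ?_⟩
  cases i with
  | lo =>
    refine Or.inl ((hc.iso_suf fun w => Val c 0 w ∧ ∀ n, ky w < ky [W.P t n]).congr
      (fun y => ?_) fun y => ?_)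
    · exact ⟨fun ⟨⟨w, h1, h2⟩, h3⟩ => ⟨w, ⟨h1, by simpa [h2] using h3⟩, h2⟩,
        fun ⟨w, ⟨h1, h3⟩, h2⟩ => ⟨⟨w, h1, h2⟩, by simpa [h2] using h3⟩⟩
    · have e : ∀ w : Adr, (∀ n, ky w < ky [W.P t n]) → w ≠ [] := by
        rintro _ h rfl
        have := h 0
        simp [Wd.P, Wd.Pm, mk_nil] at this
      constructor
      · rintro ⟨⟨w, h1, rfl⟩, h3⟩
        have h4 : ∀ n, ky w < ky [W.P t n] := fun n => by simpa using h3 (n - 3 * d)
        exact ⟨w, ⟨(val_ne_nil (e w h4)).1 h1, h4⟩, rfl⟩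
      · rintro ⟨w, ⟨h1, h3⟩, rfl⟩
        exact ⟨⟨w, (val_ne_nil (e w h3)).1 h1, rfl⟩, fun n => by simpa using h3 _⟩
  | hi =>
    refine Or.inl ((hc.iso_suf fun w => Val c 0 w ∧ ∀ n, ky [W.P t n] < ky w).congr
      (fun y => ?_) fun y => ?_)
    · exact ⟨fun ⟨⟨w, h1, h2⟩, h3⟩ => ⟨w, ⟨h1, by simpa [h2] using h3⟩, h2⟩,
        fun ⟨w, ⟨h1, h3⟩, h2⟩ => ⟨⟨w, h1, h2⟩, by simpa [h2] using h3⟩⟩
    · have e : ∀ w : Adr, (∀ n, ky [W.P t n] < ky w) → w ≠ [] := by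
        rintro _ h rfl
        have := h 2
        simp [Wd.P, Wd.Pm, mk_nil] at this
      constructor
      · rintro ⟨⟨w, h1, rfl⟩, h3⟩
        have h4 : ∀ n, ky [W.P t n] < ky w := fun n => by simpa using h3 (n - 3 * d)
        exact ⟨w, ⟨(val_ne_nil (e w h4)).1 h1, h4⟩, rfl⟩
      · rintro ⟨w, ⟨h1, h3⟩, rfl⟩
        exact ⟨⟨w, (val_ne_nil (e w h3)).1 h1, rfl⟩, fun n => by simpa using h3 _⟩
  | pt n =>
    have h1 := hc.snoc hb (n / 3) ((n + 3 * d) / 3) (2 * (n % 3).toNat)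
    refine Or.inl ((h1.iso_suf fun w => w = []).congr (fun y => ?_) fun y => ?_)
    · simp [cel, Wd.P]
    · simp [cel, Wd.P]
  | gp n =>
    obtain ⟨j, rfl | rfl | rfl⟩ : ∃ j, n = 3 * j ∨ n = 3 * j + 1 ∨ n = 3 * j + 2 :=
      ⟨n / 3, by omega⟩
    · simp only [cel]
      rw [show 3 * j + 3 * d = 3 * (j + d) by ring, show 3 * j + 1 + 3 * d = 3 * (j + d) + 1 by ring]
      simp only [Wd.P_zero, Wd.P_one, Wd.bx_Pm (Nat.zero_le t)]
      have h1 := hc.snoc hb j (j + d) 1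
      by_cases h2 : dl (j + d).natAbs = dl j.natAbs
      · rw [h2]
        exact Or.inl (h1.iso_bx _ _)
      · refine Or.inr ⟨_, _, dl j.natAbs, rfl, ?_, h1, ?_, by simpa using l1, by simpa using l2⟩
        · rw [show (!dl j.natAbs) = dl (j + d).natAbs by
            revert h2
            cases dl (j + d).natAbs <;> cases dl j.natAbs <;> simp]
        · rw [cx_child z (μ := W.Pm t j 1) rfl, hx, seg_succ]
          exact congrArg (fun n => seg p k ++ [n]) (by simp [Wd.Pm, ht])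
    · simp only [cel]
      rw [show 3 * j + 1 + 3 * d = 3 * (j + d) + 1 by ring, show 3 * j + 1 + 1 = 3 * j + 2 by ring,
        show 3 * j + 2 + 3 * d = 3 * (j + d) + 2 by ring]
      simp only [Wd.P_one, Wd.P_two, Wd.bx_core, hd]
      exact Or.inl ((hc.core hb _ _ _ _).iso_bx _ _)
    · refine Or.inl (Wd.iso_dense (v1 _) (v1 _) (m1 _ _ (by omega)) (v2 _) (v2 _)
        (m2 _ _ (by omega)) ?_)
      rintro _ _ ⟨⟨w, h1, rfl⟩, h2, h3⟩ ⟨⟨w', h4, rfl⟩, h5, h6⟩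
      rw [ky_app_lt] at h2 h3 h5 h6
      rw [Wd.P_two] at h2
      rw [show 3 * j + 2 + 1 = 3 * (j + 1) by ring, Wd.P_zero] at h3
      rw [show 3 * j + 2 + 3 * d = 3 * (j + d) + 2 by ring, Wd.P_two] at h5
      rw [show 3 * j + 2 + 1 + 3 * d = 3 * (j + d + 1) by ring, Wd.P_zero] at h6
      exact hc.gap hb h1 h4 (Wd.gap_dev h1 h2 h3) (Wd.gap_dev h4 h5 h6)

theorem Wd.ill_iso {p : ℕ → ℕ} (hp : ∀ k, W.T (seg p (k + 1))) :
    ∃ Ψ, W.PI Ψ ∧ Onto Ψ (Val false 0) (Val true 0) := by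
  obtain ⟨Ψ, h1, h2, -⟩ := Wd.glue (W := W) (S := W.St p) (by
      rintro k _ _ ⟨z, z', c, rfl, rfl, -, -, l1, l2⟩
      constructor <;> rintro _ ⟨w, -, rfl⟩ <;> simp <;> omega)
    (Wd.st_dec hp) (k := 0) ⟨[], [], false, rfl, rfl, Wd.cl_nil, rfl, le_rfl, le_rfl⟩
  exact ⟨Ψ, h1, h2.congr (fun y => (bx_nil _ _ y).symm) fun y => (bx_nil _ _ y).symm⟩

end Pool.Agent.Lib.MP_9e2528_lc.T3
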