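import Pool.Agent.Lib.MP_9e2528_lc.T1
import Pool.Agent.Lib.MP_9e2528_lc.T5

set_option autoImplicit false

/-! The history of responses. -/

namespace Pool.Agent.Lib.MP_9e2528_lc.T3

open Encodable Filter

abbrev Pc := List (ℕ × Adr)

/-- the stage after the last response -/
def lp (H : List ℕ) (e : ℕ) : ℕ :=
  (List.range H.length).foldl (fun p v => if ¬ e = 0 ∧ H[v]?.getD 0 = e then v + 1 else p) 0

def DH (H : List ℕ) (i o : ℕ) : Prop := ¬ o = 0 ∧ o - 1 ≤ H.length ∧ ¬ lp H i = o - 1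

def ExpH (H : List ℕ) (e u : ℕ) : Prop :=
  Bex (List.range (lp H e - 1)) fun v => u ≤ v ∧ H[v]?.getD 0 = e

def dc (l : ℕ) : Lbl := (decode l).getD default

def LabT (T : List ℕ → Prop) (H : List ℕ) (y : Adr) (l : Lbl) : Prop :=
  (l.1 = true ∧ Dag (DH H) y) ∨ (l.1 = false ∧ l.2.2.1 ≤ H.length ∧
    (ExpH H l.2.1 l.2.2.1 ∨ Lb T (DH (H.take l.2.2.1)) (DH H) l.2.1 [] l.2.2.2 y))

def Own (T : List ℕ → Prop) (H : List ℕ) (e : ℕ) (κ y : Adr) : Prop :=
  Lb T (DH H) (fun _ _ => False) e [] κ y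

/-- last move -/
def lm (y : Adr) : Mv := y[y.length - 1]?.getD default
/-- the address without its last move -/
def dr (y : Adr) : Adr := y.take (y.length - 1)

def Nb (y w : Adr) : List Adr :=
  w :: (dr y ++ w) :: (List.range 5).map fun a => dr y ++ mk (lm y).1 (lm y).2.1 (lm y).2.2.1 a :: w

def Pic (O : Opp) (T : List ℕ → Prop) (H : List ℕ) (e : ℕ) (h : Pc) : Prop :=
  (Ball h fun q => (O.Hd (e - 1) q.1 ∧ q.1 < H.length ∧ Val false 0 q.2) ∧
    (Ball (List.range (lp H e)) fun l => Imp (O.Sh (e - 1) q.1 l (lp H e)) (LabT T H q.2 (dc l))) ∧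
    (Ball (List.range (lp H e)) fun l =>
      Imp (LabT T (H.take (lp H e)) q.2 (dc l)) (O.Sh (e - 1) q.1 l H.length)) ∧
    (BEx H.length fun κ : Adr => Own T (H.take (lp H e)) e κ q.2 ∧
      O.Sh (e - 1) q.1 (encode ((false, e, lp H e, κ) : Lbl)) H.length) ∧
    (BEx H.length fun κ : Adr => Own T [] 0 κ q.2 ∧
      O.Sh (e - 1) q.1 (encode ((false, 0, 0, κ) : Lbl)) H.length) ∧
    Imp (Dag (DH H) q.2) (O.Sh (e - 1) q.1 (encode ((true, 0, 0, []) : Lbl)) H.length) ∧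
    Imp (q.1 < lp H e) (BAll (lp H e) fun w : Adr => Ball (Nb q.2 w) fun y =>
      Imp (Val false 0 y) (Bex h fun q' => q'.2 = y)) ∧
    Ball h fun q' => (ltI (e - 1) q.1 q'.1 ↔ ky q.2 < ky q'.2)) ∧
  Ball (List.range (lp H e)) fun x => Imp (O.Hd (e - 1) x) (Bex h fun q => q.1 = x)

def Resp (O : Opp) (T : List ℕ → Prop) (H : List ℕ) : Prop :=
  BEx H.length (Pic O T H H.length.unpair.1)

open Classical in
noncomputable def hist (O : Opp) (T : List ℕ → Prop) : ℕ → List ℕ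
  | 0 => []
  | s + 1 => hist O T s ++ [if Resp O T (hist O T s) then (hist O T s).length.unpair.1 else 0]

open Classical in
/-- the player that responds at a stage -/
noncomputable def hf (O : Opp) (T : List ℕ → Prop) (s : ℕ) : ℕ :=
  if Resp O T (hist O T s) then (hist O T s).length.unpair.1 else 0

/-- labels at a stage -/
def LabS (W : Wd) (Xp : ℕ → ℕ → ℕ → Prop) (s : ℕ) (y : Adr) (l : Lbl) : Prop :=
  (l.1 = true ∧ Dag (W.D s) y) ∨ (l.1 = false ∧ l.2.2.1 ≤ s ∧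
    (Xp s l.2.1 l.2.2.1 ∨ Lb W.T (W.D l.2.2.1) (W.D s) l.2.1 [] l.2.2.2 y))

/-- a picture of the player `e` at stage `s` when the previous response was before `p` -/
structure PicN (O : Opp) (W : Wd) (Xp : ℕ → ℕ → ℕ → Prop) (e p s : ℕ) (h : Pc) : Prop where
  hd : ∀ x y, (x, y) ∈ h → O.Hd (e - 1) x ∧ x < s ∧ Val false 0 y
  snd : ∀ x y l, (x, y) ∈ h → O.Sh (e - 1) x l p → LabS W Xp s y (dc l)
  cmp : ∀ x y l, (x, y) ∈ h → l < p → LabS W Xp p y (dc l) → O.Sh (e - 1) x l s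
  own : ∀ x y, (x, y) ∈ h → ∃ κ, Lb W.T (W.D p) (fun _ _ => False) e [] κ y ∧
    O.Sh (e - 1) x (encode ((false, e, p, κ) : Lbl)) s
  own0 : ∀ x y, (x, y) ∈ h → ∃ κ, Lb W.T (W.D 0) (fun _ _ => False) 0 [] κ y ∧
    O.Sh (e - 1) x (encode ((false, 0, 0, κ) : Lbl)) s
  dag : ∀ x y, (x, y) ∈ h → Dag (W.D s) y → O.Sh (e - 1) x (encode ((true, 0, 0, []) : Lbl)) s
  sat : ∀ x y w y', (x, y) ∈ h → x < p → encode w < p → y' ∈ Nb y w → Val false 0 y' →
    ∃ x', (x', y') ∈ h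
  ord : ∀ x y x' y', (x, y) ∈ h → (x', y') ∈ h → (ltI (e - 1) x x' ↔ ky y < ky y')
  dom : ∀ x, x < p → O.Hd (e - 1) x → ∃ y, (x, y) ∈ h

/-- the game of a player that responds infinitely often -/
structure Gm (O : Opp) (W : Wd) (e : ℕ) where
  p : ℕ → ℕ
  Xp : ℕ → ℕ → ℕ → Prop
  RP : ℕ → Pc → Prop
  xp_mono : ∀ s t e' u, s ≤ t → Xp s e' u → Xp t e' u
  xp_ne : ∀ e' u, W.NE e' u ↔ ¬ ∃ s, Xp s e' u
  p_le : ∀ s, p s ≤ s
  p_mono : Monotone p
  p_unb : ∀ N, ∃ s, N ≤ p s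
  rp_p : ∀ s h, RP s h → p (s + 1) = s + 1
  p_rp : ∀ s t, p s = t + 1 → ∃ h, RP t h
  xp_not : ∀ s t, p s = t + 1 → ¬ Xp s e (p t)
  pic : ∀ s h, RP s h → PicN O W Xp e (p s) s h
  tp_zero : W.tp e = 0
  rp_sig : Sig 3 fun q : ℕ × Pc => RP q.1 q.2
  p_sig : Sig 3 fun q : ℕ × ℕ => p q.1 = q.2
  d_sig : Sig 3 fun q : ℕ × ℕ × ℕ => W.D q.1 q.2.1 q.2.2
  t_comp : ComputablePred W.T

@[simp] theorem dc_enc (l : Lbl) : dc (encode l) = l := by simp [dc]

theorem lp_seg (F : ℕ → ℕ) (e s : ℕ) : lp (seg F s) e =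
    (List.range s).foldl (fun p v => if ¬ e = 0 ∧ F v = e then v + 1 else p) 0 := by
  rw [lp, seg_length]
  refine List.foldl_ext _ _ _ fun p v hv => ?_
  rw [seg_get _ (List.mem_range.1 hv)]

theorem lp_succ (F : ℕ → ℕ) (e s : ℕ) :
    lp (seg F (s + 1)) e = if ¬ e = 0 ∧ F s = e then s + 1 else lp (seg F s) e := by
  rw [lp_seg, lp_seg, List.range_succ, List.foldl_append]
  rfl

theorem lp_zero (F : ℕ → ℕ) (e : ℕ) : lp (seg F 0) e = 0 := rfl

theorem lp_le (F : ℕ → ℕ) (e s : ℕ) : lp (seg F s) e ≤ s := by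
  induction s with
  | zero => rfl
  | succ s ih => rw [lp_succ]; split_ifs <;> omega

theorem lp_cases (F : ℕ → ℕ) (e : ℕ) {s t : ℕ} (h : s ≤ t) :
    lp (seg F t) e = lp (seg F s) e ∨ s < lp (seg F t) e := by
  induction h with
  | refl => exact Or.inl rfl
  | @step t h ih =>
    have : s ≤ t := h
    rw [lp_succ]
    split_ifs <;> omega

theorem lp_mono (F : ℕ → ℕ) (e : ℕ) : Monotone fun s => lp (seg F s) e := fun s t h => by
  have := lp_cases F e h
  have := lp_le F e s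
  dsimp only
  omega

theorem lp_of_resp {F : ℕ → ℕ} {e s t : ℕ} (he : ¬ e = 0) (h : F s = e) (ht : s < t) :
    s < lp (seg F t) e := by
  have := lp_mono F e (show s + 1 ≤ t from ht)
  simp only [lp_succ, he, h, not_false_eq_true, and_self, if_true] at this
  omega

theorem lp_last {F : ℕ → ℕ} {e s t : ℕ} (h : lp (seg F s) e = t + 1) : ¬ e = 0 ∧ F t = e := by
  induction s with
  | zero => simp [lp_zero] at h
  | succ s ih =>
    rw [lp_succ] at h
    split_ifs at h with h1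
    · obtain rfl : s = t := by omega
      exact h1
    · exact ih h

theorem expH_iff {F : ℕ → ℕ} {e u s : ℕ} :
    ExpH (seg F s) e u ↔ ∃ v, v + 1 < lp (seg F s) e ∧ u ≤ v ∧ F v = e := by
  have := lp_le F e s
  simp only [ExpH, Bex, List.mem_range]
  refine exists_congr fun v => ⟨fun h => ⟨by omega, ?_⟩, fun h => ⟨by omega, ?_⟩⟩
  · rw [← seg_get F (show v < s by omega)]
    exact h.2
  · rw [seg_get F (show v < s by omega)]
    exact h.2

variable {O : Opp} {T : List ℕ → Prop}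

theorem hist_eq (s : ℕ) : hist O T s = seg (hf O T) s := by
  induction s with
  | zero => rfl
  | succ s ih => rw [seg_succ, ← ih]; rfl

theorem hist_len (s : ℕ) : (hist O T s).length = s := by simp [hist_eq]

theorem hist_take {s u : ℕ} (h : u ≤ s) : (hist O T s).take u = hist O T u := by
  rw [hist_eq, hist_eq, seg_take _ h]

open Classical in
/-- the true outcome -/
noncomputable def tpF (F : ℕ → ℕ) (e : ℕ) : ℕ :=
  if h : ∃ p, ∀ᶠ t in atTop, lp (seg F t) e = p then h.choose + 1 else 0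

theorem tpF_eq {F : ℕ → ℕ} {e p : ℕ} : tpF F e = p + 1 ↔ ∀ᶠ t in atTop, lp (seg F t) e = p := by
  unfold tpF
  split_ifs with h
  · constructor
    · intro h1
      rw [← Nat.succ_injective h1]
      exact h.choose_spec
    · intro h1
      obtain ⟨t, h2, h3⟩ := (h1.and h.choose_spec).exists
      omega
  · exact ⟨fun h1 => by simp at h1, fun h1 => absurd ⟨p, h1⟩ h⟩

theorem tpF_unb {F : ℕ → ℕ} {e : ℕ} (h : tpF F e = 0) (N : ℕ) : ∃ s, N ≤ lp (seg F s) e := by
  by_contra hc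
  push Not at hc
  have : ∀ᶠ t in atTop, lp (seg F t) e = lp (seg F N) e := by
    filter_upwards [eventually_ge_atTop N] with t ht
    have := lp_cases F e ht
    have := hc t
    omega
  rw [← tpF_eq] at this
  omega

theorem dh_mono {F : ℕ → ℕ} {u v i o : ℕ} (h : u ≤ v) (hd : DH (seg F u) i o) :
    DH (seg F v) i o := by
  have := lp_cases F i h
  simp only [DH, seg_length] at hd ⊢
  omega

/-- the outcome of the construction -/
noncomputable def wd (O : Opp) (T : List ℕ → Prop) (hT : ∀ σ n, T (σ ++ [n]) → σ.length < n) :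
    Wd where
  T := T
  tp := tpF (hf O T)
  D u := DH (hist O T u)
  NE e u := ¬ ∃ s, ExpH (hist O T s) e u
  t_len := hT
  d_sub u i o h := by
    rw [hist_eq] at h
    refine ⟨h.1, fun h1 => ?_⟩
    obtain ⟨p, rfl⟩ := Nat.exists_eq_succ_of_ne_zero h.1
    obtain ⟨t, h2, h3⟩ := ((tpF_eq.1 h1.symm).and (eventually_ge_atTop u)).exists
    exact (dh_mono h3 h).2.2 h2
  d_ev i o h0 h1 := by
    obtain ⟨p, rfl⟩ := Nat.exists_eq_succ_of_ne_zero h0
    have h2 : ¬ ∀ᶠ t in atTop, lp (seg (hf O T) t) i = p := fun h => h1 (tpF_eq.2 h).symm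
    obtain ⟨t, h3, h4⟩ := ((not_eventually.1 h2).and_eventually (eventually_ge_atTop p)).exists
    exact ⟨t, h0, by simpa [hist_len] using h4, by simpa [hist_eq] using h3⟩
  d_mono u v i o h hd := by
    rw [hist_eq] at hd ⊢
    exact dh_mono h hd
  ne_tp e u h h0 := by
    obtain ⟨s, hs⟩ := tpF_unb h0 (u + 1)
    obtain ⟨v, hv⟩ : ∃ v, lp (seg (hf O T) s) e = v + 1 := ⟨lp (seg (hf O T) s) e - 1, by omega⟩
    obtain ⟨t, ht⟩ := tpF_unb h0 (v + 2)
    exact h ⟨t, by rw [hist_eq, expH_iff]; exact ⟨v, ht, by omega, (lp_last hv).2⟩⟩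
  ne_ex e h := by
    obtain ⟨p, hp⟩ := Nat.exists_eq_succ_of_ne_zero h
    refine ⟨p, ?_⟩
    rintro ⟨s, hs⟩
    rw [hist_eq, expH_iff] at hs
    obtain ⟨v, h1, h2, -⟩ := hs
    obtain ⟨t, h3, h4⟩ := ((tpF_eq.1 hp).and (eventually_ge_atTop s)).exists
    have := lp_mono (hf O T) e h4
    dsimp only at this
    omega
  ne_zero u := by
    rintro ⟨s, hs⟩
    rw [hist_eq, expH_iff] at hs
    obtain ⟨v, h1, -⟩ := hs
    obtain ⟨t, ht⟩ : ∃ t, lp (seg (hf O T) s) 0 = t + 1 := ⟨lp (seg (hf O T) s) 0 - 1, by omega⟩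
    exact (lp_last ht).1 rfl

variable {hT : ∀ σ n, T (σ ++ [n]) → σ.length < n}

theorem labT_iff {s : ℕ} {y : Adr} {l : Lbl} : LabT T (hist O T s) y l ↔
    LabS (wd O T hT) (fun s => ExpH (hist O T s)) s y l := by
  unfold LabT LabS
  rw [hist_len]
  refine or_congr Iff.rfl (and_congr_right fun _ => and_congr_right fun h => ?_)
  rw [hist_take h]
  rfl

theorem enc_lt (e u : ℕ) (κ : Adr) : encode κ ≤ encode ((false, e, u, κ) : Lbl) :=
  (Nat.right_le_pair _ _).trans ((Nat.right_le_pair _ _).trans (Nat.right_le_pair _ _))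

theorem pic_iff {s e : ℕ} {h : Pc} : Pic O T (hist O T s) e h ↔
    PicN O (wd O T hT) (fun s => ExpH (hist O T s)) e (lp (hist O T s) e) s h := by
  have hp : lp (hist O T s) e ≤ s := by rw [hist_eq]; exact lp_le _ _ _
  simp only [Pic, hist_take hp, hist_len, labT_iff (hT := hT), Ball, Imp, Bex, BAll, BEx,
    List.mem_range, Prod.forall, Prod.exists, exists_and_right, exists_eq_right, Own]
  constructor
  · rintro ⟨h1, h2⟩
    exact ⟨fun x y hq => (h1 x y hq).1,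
      fun x y l hq hs => (h1 x y hq).2.1 l (O.sh_lt _ _ _ _ hs) hs,
      fun x y l hq => (h1 x y hq).2.2.1 l,
      fun x y hq => ((h1 x y hq).2.2.2.1).imp fun _ h => h.2,
      fun x y hq => ((h1 x y hq).2.2.2.2.1).imp fun _ h => h.2,
      fun x y hq => (h1 x y hq).2.2.2.2.2.1,
      fun x y w y' hq hx hw => (h1 x y hq).2.2.2.2.2.2.1 hx w hw y',
      fun x y x' y' hq => (h1 x y hq).2.2.2.2.2.2.2 x' y', h2⟩
  · intro H
    exact ⟨fun x y hq => ⟨H.hd x y hq, fun l _ => H.snd x y l hq, fun l => H.cmp x y l hq,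
      (H.own x y hq).imp fun κ h => ⟨(enc_lt _ _ _).trans_lt (O.sh_lt _ _ _ _ h.2), h⟩,
      (H.own0 x y hq).imp fun κ h => ⟨(enc_lt _ _ _).trans_lt (O.sh_lt _ _ _ _ h.2), h⟩,
      H.dag x y hq, fun hx w hw y' => H.sat x y w y' hq hx hw, fun x' y' => H.ord x y x' y' hq⟩,
      H.dom⟩

section
variable {n : ℕ} {α : Type} [Primcodable α] {e x l s : α → ℕ} {H : α → List ℕ} {y κ : α → Adr}

@[fun_prop] theorem hd_del (O : Opp) (he : Computable e) (hx : Computable x) :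
    Del (n + 3) fun a => O.Hd (e a) (x a) :=
  (O.hd_del.comp (f := fun a => (e a, x a)) (by fun_prop)).mono (by omega)
@[fun_prop] theorem sh_del (O : Opp) (he : Computable e) (hx : Computable x) (hl : Computable l)
    (hs : Computable s) : Del (n + 3) fun a => O.Sh (e a) (x a) (l a) (s a) :=
  (O.sh_del.comp (f := fun a => (e a, x a, l a, s a)) (by fun_prop)).mono (by omega)
@[fun_prop] theorem lp_comp (hH : Computable H) (he : Computable e) :
    Computable fun a => lp (H a) (e a) := by unfold lp; fun_prop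
@[fun_prop] theorem dh_comp (hH : Computable H) (he : Computable e) (hx : Computable x) :
    ComputablePred fun a => DH (H a) (e a) (x a) := by unfold DH; fun_prop
@[fun_prop] theorem expH_comp (hH : Computable H) (he : Computable e) (hx : Computable x) :
    ComputablePred fun a => ExpH (H a) (e a) (x a) := by unfold ExpH; fun_prop
@[fun_prop] theorem dc_comp : Computable dc := by unfold dc; fun_prop
@[fun_prop] theorem lm_comp : Computable lm := by unfold lm; fun_prop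
@[fun_prop] theorem dr_comp : Computable dr := by unfold dr; fun_prop
@[fun_prop] theorem nb_comp (hy : Computable y) (hκ : Computable κ) :
    Computable fun a => Nb (y a) (κ a) := by unfold Nb; fun_prop
@[fun_prop] theorem val_del {c : α → Bool} (hc : Computable c) (hb : Computable x)
    (hw : Computable y) : Del n fun a => Val (c a) (x a) (y a) := Del.of_comp (by fun_prop)
@[fun_prop] theorem ky_lt_del (hy : Computable y) (hκ : Computable κ) :
    Del n fun a => ky (y a) < ky (κ a) := Del.of_comp (by fun_prop)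
@[fun_prop] theorem dagH_comp (hH : Computable H) (hy : Computable y) :
    ComputablePred fun a => Dag (DH (H a)) (y a) :=
  cp_comp (dag_comp (D := fun H : List ℕ => DH H) (by fun_prop)) (f := fun a => (H a, y a))
    (by fun_prop)
@[fun_prop] theorem dagH_del (hH : Computable H) (hy : Computable y) :
    Del n fun a => Dag (DH (H a)) (y a) := Del.of_comp (by fun_prop)

end

section
variable {T : ℕ × List ℕ → Prop}

theorem labT_comp (hT : ComputablePred T) : ComputablePred fun q : ℕ × List ℕ × Adr × Lbl =>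
    LabT (fun σ => T (q.1, σ)) q.2.1 q.2.2.1 q.2.2.2 := by
  have h1 := cp_comp (lb_comp (α := ℕ × List ℕ × Adr × Lbl) (T := fun q σ => T (q.1, σ))
    (D' := fun q => DH (q.2.1.take q.2.2.2.2.2.1)) (D := fun q => DH q.2.1)
    (e := fun q => q.2.2.2.2.1) (by fun_prop) (by fun_prop) (by fun_prop) (by fun_prop))
    (f := fun q : ℕ × List ℕ × Adr × Lbl => (q, ([], q.2.2.2.2.2.2), q.2.2.1)) (by fun_prop)
  exact cp_or (by fun_prop) (cp_and (by fun_prop) (cp_and (by fun_prop) (cp_or (by fun_prop) h1)))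

theorem ownH_comp (hT : ComputablePred T) : ComputablePred fun q : ℕ × List ℕ × ℕ × Adr × Adr =>
    Own (fun σ => T (q.1, σ)) q.2.1 q.2.2.1 q.2.2.2.1 q.2.2.2.2 :=
  cp_comp (lb_comp (α := ℕ × List ℕ × ℕ × Adr × Adr) (T := fun q σ => T (q.1, σ))
    (D' := fun q => DH q.2.1) (D := fun _ _ _ => False)
    (e := fun q => q.2.2.1) (by fun_prop) (by fun_prop) (by fun_prop) (by fun_prop))
    (f := fun q : ℕ × List ℕ × ℕ × Adr × Adr => (q, ([], q.2.2.2.1), q.2.2.2.2)) (by fun_prop)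

theorem pic_del (O : Opp) (hT : ComputablePred T) : Del 3 fun q : ℕ × List ℕ × ℕ × Pc =>
    Pic O (fun σ => T (q.1, σ)) q.2.1 q.2.2.1 q.2.2.2 := by
  obtain ⟨A, hA, eA⟩ : ∃ A : ℕ × List ℕ × Adr × Lbl → Prop, Del 3 A ∧
    ∀ x H y l, LabT (fun σ => T (x, σ)) H y l ↔ A (x, H, y, l) :=
    ⟨_, Del.of_comp (labT_comp hT), fun _ _ _ _ => Iff.rfl⟩
  obtain ⟨B, hB, eB⟩ : ∃ B : ℕ × List ℕ × ℕ × Adr × Adr → Prop, Del 3 B ∧
    ∀ x H e κ y, Own (fun σ => T (x, σ)) H e κ y ↔ B (x, H, e, κ, y) :=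
    ⟨_, Del.of_comp (ownH_comp hT), fun _ _ _ _ _ => Iff.rfl⟩
  simp only [Pic, eA, eB]
  fun_prop

theorem hist_sig (O : Opp) (hT : ComputablePred T) : Sig 3 fun q : ℕ × ℕ × List ℕ =>
    hist O (fun σ => T (q.1, σ)) q.2.1 = q.2.2 := by
  obtain ⟨A, hA, eA⟩ : ∃ A : ℕ × List ℕ × ℕ × Pc → Prop, Del 3 A ∧
    ∀ x H e h, Pic O (fun σ => T (x, σ)) H e h ↔ A (x, H, e, h) :=
    ⟨_, pic_del O hT, fun _ _ _ _ => Iff.rfl⟩
  have hR : Del 3 fun q : ℕ × List ℕ => Resp O (fun σ => T (q.1, σ)) q.2 := by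
    have : Del 3 fun q : ℕ × List ℕ =>
      BEx q.2.length fun h => A (q.1, q.2, q.2.length.unpair.1, h) := by fun_prop
    exact this.of_eq fun q => by simp only [Resp, BEx, eA]
  obtain ⟨R, hR, eR⟩ : ∃ R : ℕ × List ℕ → Prop, Del 3 R ∧
    ∀ x H, Resp O (fun σ => T (x, σ)) H ↔ R (x, H) := ⟨_, hR, fun _ _ => Iff.rfl⟩
  refine Sig.iter (n := 2) (P := fun x s => hist O (fun σ => T (x, σ)) s)
    (R := fun q : ℕ × ℕ × List ℕ × List ℕ =>
      (R (q.1, q.2.2.1) ∧ q.2.2.2 = q.2.2.1 ++ [q.2.2.1.length.unpair.1]) ∨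
      (¬ R (q.1, q.2.2.1) ∧ q.2.2.2 = q.2.2.1 ++ [0])) (by fun_prop) (Computable.const [])
    fun a j b => ?_
  simp only [← eR, hist]
  split_ifs with h <;> simp [h]

end

end Pool.Agent.Lib.MP_9e2528_lc.T3
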