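import Pool.Agent.Lib.MP_9e2528_lc.T8

set_option autoImplicit false

/-! A copy responds infinitely often. -/

namespace Pool.Agent.Lib.MP_9e2528_lc.T3

open Encodable Filter

section
variable {W : Wd} {Xp : ℕ → ℕ → ℕ → Prop}

theorem Wd.di_ev {i o : ℕ} (h : W.Di i o) : ∀ᶠ t in atTop, W.D t i o := by
  obtain ⟨u, hu⟩ := W.d_ev i o h.1 h.2
  filter_upwards [eventually_ge_atTop u] with t ht using W.d_mono _ _ _ _ ht hu

theorem Wd.ld_ev {σ : List ℕ} {b : ℕ} (h : LD W.T W.Di σ b) : ∀ᶠ t in atTop, LD W.T (W.D t) σ b :=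
  eventually_atTop.2 (W.ld_stage h)

theorem Wd.fe_ev {σ : List ℕ} {e b : ℕ} (h : FE W.T W.Di e σ b) :
    ∀ᶠ t in atTop, FE W.T (W.D t) e σ b := by
  rcases h with h | h
  · filter_upwards [Wd.ld_ev h] with t ht using Or.inl ht
  · exact Eventually.of_forall fun _ => Or.inr h

theorem Wd.rd_ev {μ : Mv} (h : RD W.Di μ) : ∀ᶠ t in atTop, RD (W.D t) μ := by
  obtain ⟨i, hi, h1, h2⟩ := h
  filter_upwards [Wd.di_ev h2] with t ht using ⟨i, hi, h1, ht⟩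

theorem Wd.at_ev {μ : Mv} {e : ℕ} (h : At W.Di e μ) : ∀ᶠ t in atTop, At (W.D t) e μ := by
  obtain ⟨i, hi, h1, h2, h3⟩ := h
  filter_upwards [Wd.di_ev h2] with t ht using ⟨i, hi, h1, ht, h3⟩

theorem Wd.dag_ev {y : Adr} (h : Dag W.Di y) : ∀ᶠ t in atTop, Dag (W.D t) y := by
  obtain ⟨μ, hμ, h⟩ := h
  filter_upwards [Wd.rd_ev h] with t ht using ⟨μ, hμ, ht⟩

theorem Wd.lb_ev {D' : ℕ → ℕ → Prop} {e : ℕ} {σ : List ℕ} {κ y : Adr}
    (h : Lb W.T D' W.Di e σ κ y) : ∀ᶠ t in atTop, Lb W.T D' (W.D t) e σ κ y := by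
  induction y generalizing σ κ with
  | nil => exact Eventually.of_forall fun _ => h
  | cons μ y ih =>
    rcases h with (h | ⟨h1, h2, h3⟩) | h
    · exact Eventually.of_forall fun _ => Or.inl (Or.inl h)
    · rcases h3 with h3 | h3 | ⟨h3, h4 | h4⟩
      · filter_upwards [Wd.at_ev h2] with t ht using Or.inl (Or.inr ⟨h1, ht, Or.inl h3⟩)
      · filter_upwards [Wd.at_ev h2] with t ht using Or.inl (Or.inr ⟨h1, ht, Or.inr (Or.inl h3)⟩)
      · filter_upwards [Wd.at_ev h2] with t ht using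
          Or.inl (Or.inr ⟨h1, ht, Or.inr (Or.inr ⟨h3, Or.inl h4⟩)⟩)
      · filter_upwards [Wd.at_ev h2, Wd.at_ev h4] with t ht ht' using
          Or.inl (Or.inr ⟨h1, ht, Or.inr (Or.inr ⟨h3, Or.inr ht'⟩)⟩)
    · filter_upwards [ih h.2] with t ht using Or.inr ⟨h.1, ht⟩

theorem LabS.lab (hn : ∀ e u, W.NE e u ↔ ¬ ∃ s, Xp s e u) {s : ℕ} {y : Adr} {l : Lbl}
    (h : LabS W Xp s y l) : W.Lab y l :=
  h.imp (And.imp id fun h => h.mono (W.d_di s)) fun h => ⟨h.1, h.2.2.imp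
    (fun h1 h2 => (hn _ _).1 h2 ⟨s, h1⟩) fun h1 => h1.mono (W.d_di s)⟩

theorem Wd.Lab.ev (hm : ∀ s t e u, s ≤ t → Xp s e u → Xp t e u)
    (hn : ∀ e u, W.NE e u ↔ ¬ ∃ s, Xp s e u) {y : Adr} {l : Lbl} (h : W.Lab y l) :
    ∀ᶠ s in atTop, LabS W Xp s y l := by
  rcases h with h | ⟨h, h1 | h1⟩
  · filter_upwards [Wd.dag_ev h.2] with t ht using Or.inl ⟨h.1, ht⟩
  · obtain ⟨s, hs⟩ := not_not.1 ((hn _ _).not.1 h1)
    filter_upwards [eventually_ge_atTop s, eventually_ge_atTop l.2.2.1] with t ht ht' using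
      Or.inr ⟨h, ht', Or.inl (hm _ _ _ _ ht hs)⟩
  · filter_upwards [Wd.lb_ev h1, eventually_ge_atTop l.2.2.1] with t ht ht' using
      Or.inr ⟨h, ht', Or.inr ht⟩

theorem Wd.lab_own {e u : ℕ} {κ y : Adr} (h : Lb W.T (W.D u) (fun _ _ => False) e [] κ y) :
    W.Lab y (false, e, u, κ) := Or.inr ⟨rfl, Or.inr (h.mono fun _ _ h => h.elim)⟩

end

variable {O : Opp} {T : List ℕ → Prop} {hT : ∀ σ n, T (σ ++ [n]) → σ.length < n}

theorem expH_mono (s t e u : ℕ) (h : s ≤ t) (hx : ExpH (hist O T s) e u) : ExpH (hist O T t) e u := by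
  rw [hist_eq, expH_iff] at hx ⊢
  obtain ⟨v, h1, h2⟩ := hx
  exact ⟨v, h1.trans_le (lp_mono _ _ h), h2⟩

theorem Rep.sh_ev {A K : Type} [LinearOrder K] {k : A → K} {V : A → Prop} {Lab : A → ℕ → Prop}
    {e : ℕ} {f : ℕ → A} (R : Rep O k V Lab e f) {x l : ℕ} (hx : O.Hd e x) (h : Lab (f x) l) :
    ∀ᶠ s in atTop, O.Sh e x l s := by
  obtain ⟨s, hs⟩ := (R.lab x l hx).2 h
  filter_upwards [eventually_ge_atTop s] with t ht using O.sh_mono _ _ _ _ _ hs ht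

theorem hf_of_pic {s : ℕ} {h : Pc} (h1 : encode h < s) (h2 : Pic O T (hist O T s) s.unpair.1 h) :
    hf O T s = s.unpair.1 := by
  rw [hf, if_pos, hist_len]
  rw [Resp, hist_len]
  exact ⟨h, h1, h2⟩

theorem inf_of_rep {e : ℕ} (he : ¬ e = 0) {f : ℕ → Adr}
    (R : Rep O ky (Val false 0) (fun y l => (wd O T hT).Lab y (dc l)) (e - 1) f) :
    (wd O T hT).tp e = 0 := by
  by_contra hc
  obtain ⟨p, hp⟩ := Nat.exists_eq_succ_of_ne_zero hc
  have hp' := tpF_eq.1 hp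
  have hn : ∀ e u, (wd O T hT).NE e u ↔ ¬ ∃ s, ExpH (hist O T s) e u := fun _ _ => Iff.rfl
  have hfin : {x | O.Hd (e - 1) x ∧ (x < p ∨ ∃ x0 < p, ∃ w : Adr, encode w < p ∧
      f x ∈ Nb (f x0) w)}.Finite := by
    refine ((Set.finite_lt_nat p).union (Set.Finite.of_finite_image (f := f)
      (s := {x | O.Hd (e - 1) x ∧ ∃ x0 < p, ∃ w : Adr, encode w < p ∧ f x ∈ Nb (f x0) w})
      (((Set.finite_lt_nat p).biUnion fun x0 _ => (Set.Finite.preimage (f := encode (α := Adr))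
        encode_injective.injOn (Set.finite_lt_nat p)).biUnion fun w _ =>
          List.finite_toSet (Nb (f x0) w)).subset ?_)
      fun x hx x' hx' h => R.inj _ _ hx.1 hx'.1 h)).subset ?_
    · rintro _ ⟨x, ⟨-, x0, h1, w, h2, h3⟩, rfl⟩
      simp only [Set.mem_iUnion]
      exact ⟨x0, h1, w, h2, h3⟩
    · rintro x ⟨h1, h2 | h2⟩
      · exact Or.inl h2
      · exact Or.inr ⟨h1, h2⟩
  obtain ⟨h, hh⟩ : ∃ h : Pc, ∀ x y, (x, y) ∈ h ↔ (O.Hd (e - 1) x ∧ (x < p ∨ ∃ x0 < p, ∃ w : Adr,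
      encode w < p ∧ f x ∈ Nb (f x0) w)) ∧ f x = y :=
    ⟨hfin.toFinset.toList.map fun x => (x, f x), fun x y => by simp⟩
  have key : ∀ {P : ℕ → Adr → ℕ → Prop}, (∀ x, O.Hd (e - 1) x → ∀ᶠ s in atTop, P x (f x) s) →
      ∀ᶠ s in atTop, ∀ x y, (x, y) ∈ h → P x y s := by
    intro P hP
    filter_upwards [(eventually_all_finite hfin).2 fun x hx => hP x hx.1] with s hs x y hq
    obtain ⟨h1, rfl⟩ := (hh x y).1 hq
    exact hs x h1
  have e1 := key (P := fun x y s => O.Hd (e - 1) x ∧ x < s ∧ Val false 0 y) fun x hx => by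
    filter_upwards [eventually_gt_atTop x] with s hs using ⟨hx, hs, R.val x hx⟩
  have e2 := key (P := fun x y s => ∀ l ∈ {l | l < p}, O.Sh (e - 1) x l p →
      LabS (wd O T hT) (fun s => ExpH (hist O T s)) s y (dc l)) fun x hx =>
    (eventually_all_finite (Set.finite_lt_nat p)).2 fun l _ => by
      by_cases h1 : O.Sh (e - 1) x l p
      · filter_upwards [Wd.Lab.ev expH_mono hn ((R.lab x l hx).1 ⟨p, h1⟩)] with s hs _ using hs
      · exact Eventually.of_forall fun _ h2 => absurd h2 h1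
  have e3 := key (P := fun x y s => ∀ l ∈ {l | l < p},
      LabS (wd O T hT) (fun s => ExpH (hist O T s)) p y (dc l) → O.Sh (e - 1) x l s) fun x hx =>
    (eventually_all_finite (Set.finite_lt_nat p)).2 fun l _ => by
      by_cases h1 : LabS (wd O T hT) (fun s => ExpH (hist O T s)) p (f x) (dc l)
      · filter_upwards [R.sh_ev hx (h1.lab hn)] with s hs _ using hs
      · exact Eventually.of_forall fun _ h2 => absurd h2 h1
  have e4 : ∀ e' u, ∀ᶠ s in atTop, ∀ x y, (x, y) ∈ h → ∃ κ, Lb (wd O T hT).T ((wd O T hT).D u)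
      (fun _ _ => False) e' [] κ y ∧ O.Sh (e - 1) x (encode ((false, e', u, κ) : Lbl)) s :=
    fun e' u => key fun x hx => by
      obtain ⟨κ, hκ⟩ := lb_exists (T := (wd O T hT).T) (D' := (wd O T hT).D u)
        (D := fun _ _ => False) (e := e') [] (f x)
      filter_upwards [R.sh_ev (l := encode ((false, e', u, κ) : Lbl)) hx
        (by rw [dc_enc]; exact Wd.lab_own hκ)] with s hs using ⟨κ, hκ, hs⟩
  have e5 := key (P := fun x y s => Dag ((wd O T hT).D s) y →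
      O.Sh (e - 1) x (encode ((true, 0, 0, []) : Lbl)) s) fun x hx => by
    by_cases h1 : Dag (wd O T hT).Di (f x)
    · filter_upwards [R.sh_ev (l := encode ((true, 0, 0, []) : Lbl)) hx
        (by rw [dc_enc]; exact Or.inl ⟨rfl, h1⟩)] with s hs _ using hs
    · exact Eventually.of_forall fun s h2 => absurd (h2.mono (Wd.d_di _ s)) h1
  have hev : ∀ᶠ s in atTop, PicN O (wd O T hT) (fun s => ExpH (hist O T s)) e p s h := by
    filter_upwards [e1, e2, e3, e4 e p, e4 0 0, e5] with s h1 h2 h3 h4 h5 h6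
    refine ⟨h1, fun x y l hq hs => h2 x y hq l (O.sh_lt _ _ _ _ hs) hs,
      fun x y l hq hl => h3 x y hq l hl, h4, h5, h6, fun x y w y' hq hx hw hy hv => ?_,
      fun x y x' y' hq hq' => ?_, fun x hx hd => ⟨_, (hh _ _).2 ⟨⟨hd, Or.inl hx⟩, rfl⟩⟩⟩
    · obtain ⟨x', hx', rfl⟩ := R.sur y' hv
      obtain ⟨-, rfl⟩ := (hh x y).1 hq
      exact ⟨x', (hh _ _).2 ⟨⟨hx', Or.inr ⟨x, hx, w, hw, hy⟩⟩, rfl⟩⟩
    · obtain ⟨h7, rfl⟩ := (hh x y).1 hq
      obtain ⟨h8, rfl⟩ := (hh x' y').1 hq'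
      exact R.ord _ _ h7.1 h8.1
  obtain ⟨N, hN⟩ := eventually_atTop.1 (hev.and (hp'.and ((eventually_gt_atTop (encode h)).and
    (eventually_ge_atTop p))))
  obtain ⟨h1, h2, h3, h4⟩ := hN (Nat.pair e N) (Nat.right_le_pair _ _)
  have h5 := hf_of_pic (O := O) (T := T) h3 (by
    rw [Nat.unpair_pair, pic_iff (hT := hT), hist_eq, h2]
    exact h1)
  have h6 := (hN (Nat.pair e N + 1) ((Nat.right_le_pair _ _).trans (Nat.le_succ _))).2.1
  rw [lp_succ, if_pos ⟨he, by simpa using h5⟩] at h6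
  omega

section
variable {T : ℕ × List ℕ → Prop} {hT : ∀ x σ n, T (x, σ ++ [n]) → σ.length < n}

theorem lab_sig (O : Opp) (hc : ComputablePred T) : Sig 3 fun q : ℕ × Adr × ℕ =>
    (wd O (fun σ => T (q.1, σ)) (hT q.1)).Lab q.2.1 (dc q.2.2) := by
  obtain ⟨A, hA, eA⟩ : ∃ A : ℕ × List ℕ × Adr × Lbl → Prop, Sig 3 A ∧
    ∀ x H y l, LabT (fun σ => T (x, σ)) H y l ↔ A (x, H, y, l) :=
    ⟨_, Sig.of_comp (labT_comp hc), fun _ _ _ _ => Iff.rfl⟩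
  obtain ⟨B, hB, eB⟩ : ∃ B : ℕ × ℕ × List ℕ → Prop, Sig 3 B ∧
    ∀ x s H, B (x, s, H) ↔ hist O (fun σ => T (x, σ)) s = H :=
    ⟨_, hist_sig O hc, fun _ _ _ => Iff.rfl⟩
  have : Sig 3 fun q : ℕ × Adr × ℕ => ∃ s H, B (q.1, s, H) ∧ A (q.1, H, q.2.1, dc q.2.2) := by
    fun_prop
  refine this.of_eq fun q => ?_
  simp only [eB, ← eA, exists_eq_left', labT_iff (T := fun σ => T (q.1, σ)) (hT := hT q.1)]
  exact ⟨fun ⟨_, h⟩ => h.lab fun _ _ => Iff.rfl,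
    fun h => (Wd.Lab.ev expH_mono (fun _ _ => Iff.rfl) h).exists⟩

end

theorem hist_sig' (O : Opp) (hc : ComputablePred T) :
    Sig 3 fun q : ℕ × List ℕ => hist O T q.1 = q.2 :=
  (hist_sig (T := fun q => T q.2) O (by fun_prop)).comp (f := fun q : ℕ × List ℕ => (0, q))
    (by fun_prop)

theorem tp_sig (O : Opp) (hc : ComputablePred T) :
    Sig 5 fun q : ℕ × ℕ => (wd O T hT).tp q.1 = q.2 := by
  obtain ⟨B, hB, eB⟩ : ∃ B : ℕ × List ℕ → Prop, Sig 3 B ∧ ∀ s H, B (s, H) ↔ hist O T s = H :=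
    ⟨_, hist_sig' O hc, fun _ _ => Iff.rfl⟩
  have h1 : Sig 3 fun q : (ℕ × ℕ) × ℕ => lp (hist O T q.1.1) q.1.2 = q.2 :=
    (show Sig 3 fun q : (ℕ × ℕ) × ℕ => ∃ H, B (q.1.1, H) ∧ lp H q.1.2 = q.2 by fun_prop).of_eq
      fun q => by simp [eB]
  obtain ⟨A, hA, eA⟩ : ∃ A : (ℕ × ℕ) × ℕ → Prop, Del 3 A ∧
    ∀ s e u, A ((s, e), u) ↔ lp (seg (hf O T) s) e = u :=
    ⟨_, Sig.graph_del (f := fun q : ℕ × ℕ => lp (hist O T q.1) q.2) h1,
      fun _ _ _ => by rw [hist_eq]⟩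
  have h2 : Del 4 fun q : (ℕ × ℕ) × ℕ => All fun t => Imp (q.2 ≤ t) (A ((t, q.1.1), q.1.2)) := by
    fun_prop
  obtain ⟨C, hC, eC⟩ : ∃ C : ℕ × ℕ → Prop, Del 5 C ∧ ∀ e p, C (e, p) ↔ tpF (hf O T) e = p + 1 :=
    ⟨_, Del.ex (n := 3) (R := fun (q : ℕ × ℕ) s => All fun t => Imp (s ≤ t) (A ((t, q.1), q.2))) h2,
      fun e p => by simp [tpF_eq, All, Imp, eA]⟩
  have h3 : Sig 4 fun q : ℕ × ℕ × ℕ => All fun t => Imp (q.2.2 ≤ t) (A ((t, q.1), q.2.1)) :=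
    Del.sig (by fun_prop)
  have h4 : Sig 5 fun e : ℕ => ¬ ∃ q : ℕ × ℕ, All fun t => Imp (q.2 ≤ t) (A ((t, e), q.1)) :=
    (Sig.ex h3).not_succ
  obtain ⟨Z, hZ, eZ⟩ : ∃ Z : ℕ → Prop, Sig 5 Z ∧ ∀ e, Z e ↔ tpF (hf O T) e = 0 := by
    refine ⟨_, h4, fun e => ?_⟩
    rw [← not_iff_not, not_not, ← Ne, Nat.ne_zero_iff_zero_lt]
    constructor
    · rintro ⟨q, hq⟩
      have : tpF (hf O T) e = q.1 + 1 :=
        tpF_eq.2 (eventually_atTop.2 ⟨q.2, fun t ht => (eA _ _ _).1 (hq t ht)⟩)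
      omega
    · intro h
      obtain ⟨p, hp⟩ := Nat.exists_eq_succ_of_ne_zero h.ne'
      obtain ⟨s, hs⟩ := eventually_atTop.1 (tpF_eq.1 hp)
      exact ⟨(p, s), fun t ht => (eA _ _ _).2 (hs t ht)⟩
  have h5 : Sig 5 fun q : ℕ × ℕ => (q.2 = 0 ∧ Z q.1) ∨ (¬ q.2 = 0 ∧ C (q.1, q.2 - 1)) := by
    fun_prop
  refine h5.of_eq ?_
  rintro ⟨e, _ | o⟩ <;> simp [eZ, eC, wd]

/-- the game of a player with the infinite outcome -/
noncomputable def gm (O : Opp) (hc : ComputablePred T) {e : ℕ} (he : ¬ e = 0)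
    (h0 : (wd O T hT).tp e = 0) : Gm O (wd O T hT) e where
  p s := lp (hist O T s) e
  Xp s := ExpH (hist O T s)
  RP s h := s.unpair.1 = e ∧ encode h < s ∧ Pic O T (hist O T s) e h
  xp_mono := expH_mono
  xp_ne _ _ := Iff.rfl
  p_le s := by rw [hist_eq]; exact lp_le _ _ _
  p_mono := by simpa only [hist_eq] using lp_mono (hf O T) e
  p_unb N := by simpa only [hist_eq] using tpF_unb h0 N
  rp_p s h hr := by
    obtain ⟨rfl, h1, h2⟩ := hr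
    rw [hist_eq, lp_succ, if_pos ⟨he, hf_of_pic h1 h2⟩]
  p_rp s t h := by
    rw [hist_eq] at h
    have h1 := (lp_last h).2
    unfold hf at h1
    split_ifs at h1 with h2
    · rw [Resp, h1, hist_len] at h2
      rw [hist_len] at h1
      exact h2.imp fun h h3 => ⟨h1, h3⟩
    · exact absurd h1.symm he
  xp_not s t h hx := by
    rw [hist_eq] at h
    rw [hist_eq, hist_eq, expH_iff] at hx
    obtain ⟨v, h1, h2, h3⟩ := hx
    have := lp_of_resp (t := t) he h3 (by omega)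
    omega
  pic s h hr := pic_iff.1 hr.2.2
  tp_zero := h0
  rp_sig := by
    obtain ⟨B, hB, eB⟩ : ∃ B : ℕ × List ℕ → Prop, Sig 3 B ∧ ∀ s H, B (s, H) ↔ hist O T s = H :=
      ⟨_, hist_sig' O hc, fun _ _ => Iff.rfl⟩
    obtain ⟨A, hA, eA⟩ : ∃ A : ℕ × List ℕ × ℕ × Pc → Prop, Sig 3 A ∧
      ∀ x H e h, A (x, H, e, h) ↔ Pic O T H e h :=
      ⟨_, (pic_del (T := fun q => T q.2) O (by fun_prop)).1, fun _ _ _ _ => Iff.rfl⟩
    exact (show Sig 3 fun q : ℕ × Pc => q.1.unpair.1 = e ∧ encode q.2 < q.1 ∧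
      ∃ H, B (q.1, H) ∧ A (0, H, e, q.2) by fun_prop).of_eq fun q => by simp [eA, eB]
  p_sig := by
    obtain ⟨B, hB, eB⟩ : ∃ B : ℕ × List ℕ → Prop, Sig 3 B ∧ ∀ s H, B (s, H) ↔ hist O T s = H :=
      ⟨_, hist_sig' O hc, fun _ _ => Iff.rfl⟩
    exact (show Sig 3 fun q : ℕ × ℕ => ∃ H, B (q.1, H) ∧ lp H e = q.2 by fun_prop).of_eq
      fun q => by simp [eB]
  d_sig := by
    obtain ⟨B, hB, eB⟩ : ∃ B : ℕ × List ℕ → Prop, Sig 3 B ∧ ∀ s H, B (s, H) ↔ hist O T s = H :=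
      ⟨_, hist_sig' O hc, fun _ _ => Iff.rfl⟩
    obtain ⟨A, hA, eA⟩ : ∃ A : List ℕ × ℕ × ℕ → Prop, Sig 3 A ∧
      ∀ H i o, A (H, i, o) ↔ DH H i o :=
      ⟨fun q => DH q.1 q.2.1 q.2.2, Sig.of_comp (by fun_prop), fun _ _ _ => Iff.rfl⟩
    exact (show Sig 3 fun q : ℕ × ℕ × ℕ => ∃ H, B (q.1, H) ∧ A (H, q.2) by fun_prop).of_eq
      fun ⟨_, _, _⟩ => by simp [eB, eA, wd]
  t_comp := hc

end Pool.Agent.Lib.MP_9e2528_lc.T3
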